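import Pool.Agent.Helper43.Outer.Torus

open MeasureTheory Set Filter Topology Complex Metric ENNReal InnerProductSpace

namespace Pool.Agent.Helper43.Outer

section General

variable {α : Type*} [MeasurableSpace α] {μ : Measure α} {E : Type*} [NormedAddCommGroup E]

theorem l1_tri {f g h : α → E} (hf : Integrable f μ) (hg : Integrable g μ)
    (hh : Integrable h μ) :
    ∫ x, ‖f x - h x‖ ∂μ ≤ ∫ x, ‖f x - g x‖ ∂μ + ∫ x, ‖g x - h x‖ ∂μ := by
  have h1 := integral_add (hf.sub hg).norm (hg.sub hh).norm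
  simp only [Pi.sub_apply] at h1
  rw [← h1]
  refine integral_mono (hf.sub hh).norm ((hf.sub hg).norm.add (hg.sub hh).norm) fun x => ?_
  exact norm_sub_le_norm_sub_add_norm_sub _ _ _

-- completeness of L1 in terms of functions
theorem l1_complete [CompleteSpace E] (f : ℕ → α → E) (hf : ∀ k, Integrable (f k) μ)
    (hc : ∀ ε : ℝ, 0 < ε → ∃ N, ∀ k ≥ N, ∀ l ≥ N, ∫ x, ‖f k x - f l x‖ ∂μ < ε) :
    ∃ v : α → E, Integrable v μ ∧ Tendsto (fun k => ∫ x, ‖f k x - v x‖ ∂μ) atTop (𝓝 0) := by
  have hd : ∀ (g h : α → E) (hg : Integrable g μ) (hh : Integrable h μ),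
      dist (hg.toL1 g) (hh.toL1 h) = ∫ x, ‖g x - h x‖ ∂μ := by
    intro g h hg hh
    rw [dist_eq_norm, ← Integrable.toL1_sub, L1.norm_eq_integral_norm]
    apply integral_congr_ae
    filter_upwards [(hg.sub hh).coeFn_toL1] with x hx
    rw [hx]
    rfl
  have hcs : CauchySeq (fun k => (hf k).toL1 (f k)) := by
    rw [Metric.cauchySeq_iff]
    intro ε hε
    obtain ⟨N, hN⟩ := hc ε hε
    refine ⟨N, fun k hk l hl => ?_⟩
    rw [hd]
    exact hN k hk l hl
  obtain ⟨w, hw⟩ := cauchySeq_tendsto_of_complete hcs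
  refine ⟨w, L1.integrable_coeFn w, ?_⟩
  rw [tendsto_iff_dist_tendsto_zero] at hw
  refine hw.congr fun k => ?_
  have h1 := hd (f k) w (hf k) (L1.integrable_coeFn w)
  rw [Integrable.toL1_coeFn] at h1
  exact h1

end General

section Op

variable {α : Type*} [MeasurableSpace α] {μ : Measure α} [IsFiniteMeasure μ] {d : ℕ}

-- averaging operator
noncomputable def A (χ : α → Fin d → ℂ) (u : Torus d → ℂ) (s : α) : ℂ :=
  ∫ t, (P (χ s) t : ℂ) * u t

theorem P_joint_meas {χ : α → Fin d → ℂ} (hχ : Measurable χ) :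
    Measurable (fun p : α × Torus d => P (χ p.1) p.2) := by
  unfold P
  refine Finset.measurable_fun_prod _ fun i _ => ?_
  have h1 : Measurable (fun p : α × Torus d => χ p.1 i) :=
    (measurable_pi_apply i).comp (hχ.comp measurable_fst)
  have h2 : Measurable (fun p : α × Torus d => e (p.2 i)) :=
    continuous_e.measurable.comp ((measurable_pi_apply i).comp measurable_snd)
  exact (measurable_const.sub (h1.norm.pow_const 2)).div ((h2.sub h1).norm.pow_const 2)

structure Good (μ : Measure α) (χ : α → Fin d → ℂ) (C : ℝ) : Prop where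
  meas : Measurable χ
  mem : ∀ s, χ s ∈ polydisc d
  bdd : ∀ t, ∫⁻ s, ENNReal.ofReal (P (χ s) t) ∂μ ≤ ENNReal.ofReal C

theorem Good.lint {χ : α → Fin d → ℂ} {C : ℝ} (h : Good μ χ C) {u : Torus d → ℂ}
    (hu : Integrable u) :
    ∫⁻ p, ‖(P (χ p.1) p.2 : ℂ) * u p.2‖ₑ ∂(μ.prod volume) ≤
      ENNReal.ofReal C * ∫⁻ t, ‖u t‖ₑ := by
  have hm : AEMeasurable (fun p : α × Torus d => ‖(P (χ p.1) p.2 : ℂ) * u p.2‖ₑ)
      (μ.prod volume) := by
    refine AEMeasurable.enorm ?_
    refine (Complex.measurable_ofReal.comp (P_joint_meas h.meas)).aemeasurable.mul ?_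
    exact hu.aestronglyMeasurable.aemeasurable.comp_snd
  rw [lintegral_prod_symm _ hm, ← lintegral_const_mul' _ _ ENNReal.ofReal_ne_top]
  refine lintegral_mono fun t => ?_
  have h1 : ∀ s, ‖(P (χ s) t : ℂ) * u t‖ₑ = ENNReal.ofReal (P (χ s) t) * ‖u t‖ₑ := by
    intro s
    rw [enorm_mul]
    congr 1
    rw [← Real.enorm_eq_ofReal (P_pos (h.mem s) t).le]
    simp [enorm_eq_nnnorm]
  simp only [h1]
  rw [lintegral_mul_const' _ _ enorm_ne_top]
  gcongr
  exact h.bdd t

theorem Good.int {χ : α → Fin d → ℂ} {C : ℝ} (h : Good μ χ C) {u : Torus d → ℂ}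
    (hu : Integrable u) :
    Integrable (fun p : α × Torus d => (P (χ p.1) p.2 : ℂ) * u p.2) (μ.prod volume) := by
  refine ⟨?_, ?_⟩
  · refine AEStronglyMeasurable.mul ?_ hu.aestronglyMeasurable.comp_snd
    exact (Complex.measurable_ofReal.comp (P_joint_meas h.meas)).aestronglyMeasurable
  · refine lt_of_le_of_lt (h.lint hu) ?_
    exact ENNReal.mul_lt_top ENNReal.ofReal_lt_top hu.2

theorem Good.intA {χ : α → Fin d → ℂ} {C : ℝ} (h : Good μ χ C) {u : Torus d → ℂ}
    (hu : Integrable u) : Integrable (A χ u) μ :=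
  (h.int hu).integral_prod_left

theorem Good.norm_le {χ : α → Fin d → ℂ} {C : ℝ} (h : Good μ χ C) (hC : 0 ≤ C)
    {u : Torus d → ℂ} (hu : Integrable u) :
    ∫ s, ‖A χ u s‖ ∂μ ≤ C * ∫ t, ‖u t‖ := by
  have h1 : ∫ s, ‖A χ u s‖ ∂μ ≤
      ∫ s, (∫ t, ‖(P (χ s) t : ℂ) * u t‖) ∂μ := by
    refine integral_mono (h.intA hu).norm (h.int hu).norm.integral_prod_left fun s => ?_
    exact norm_integral_le_integral_norm _
  refine h1.trans ?_
  have h2 := integral_prod _ (h.int hu).norm
  simp only at h2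
  rw [← h2]
  have h3 : ENNReal.ofReal (∫ p : α × Torus d, ‖(P (χ p.1) p.2 : ℂ) * u p.2‖ ∂(μ.prod volume)) ≤
      ENNReal.ofReal (C * ∫ t, ‖u t‖) := by
    rw [ofReal_integral_norm_eq_lintegral_enorm (h.int hu), ENNReal.ofReal_mul hC,
      ofReal_integral_norm_eq_lintegral_enorm hu]
    exact h.lint hu
  exact (ENNReal.ofReal_le_ofReal_iff (mul_nonneg hC (integral_nonneg fun _ => norm_nonneg _))).1 h3

theorem P_mul_int {z : Fin d → ℂ} (hz : z ∈ polydisc d) {u : Torus d → ℂ} (hu : Integrable u) :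
    Integrable (fun t => (P z t : ℂ) * u t) := by
  obtain ⟨C, hC⟩ := P_bdd hz
  refine hu.bdd_mul (c := C) ?_ (ae_of_all _ fun s => ?_)
  · exact (Complex.continuous_ofReal.comp (P_cont hz)).aestronglyMeasurable
  · rw [Complex.norm_real, Real.norm_eq_abs, abs_of_pos (P_pos hz s)]
    exact hC s

omit [MeasurableSpace α] in
theorem A_sub {χ : α → Fin d → ℂ} (hχ : ∀ s, χ s ∈ polydisc d) {u w : Torus d → ℂ}
    (hu : Integrable u) (hw : Integrable w) (s : α) :
    A χ (fun t => u t - w t) s = A χ u s - A χ w s := by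
  unfold A
  rw [← integral_sub (P_mul_int (hχ s) hu) (P_mul_int (hχ s) hw)]
  congr 1
  ext t
  ring

omit [MeasurableSpace α] in
theorem A_add {χ : α → Fin d → ℂ} (hχ : ∀ s, χ s ∈ polydisc d) {u w : Torus d → ℂ}
    (hu : Integrable u) (hw : Integrable w) (s : α) :
    A χ (fun t => u t + w t) s = A χ u s + A χ w s := by
  unfold A
  rw [← integral_add (P_mul_int (hχ s) hu) (P_mul_int (hχ s) hw)]
  congr 1
  ext t
  ring

omit [MeasurableSpace α] in
theorem A_smul {χ : α → Fin d → ℂ} (c : ℂ) (u : Torus d → ℂ) (s : α) :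
    A χ (fun t => c * u t) s = c * A χ u s := by
  unfold A
  rw [← integral_const_mul]
  congr 1
  ext t
  ring

theorem continuous_cm (n : ℤ) : Continuous (cm n) := by
  unfold cm
  split_ifs
  · fun_prop
  · exact Complex.continuous_conj.pow _

theorem norm_cm_le (n : ℤ) {z : ℂ} (hz : ‖z‖ ≤ 1) : ‖cm n z‖ ≤ 1 := by
  unfold cm
  split_ifs
  · rw [norm_pow]
    exact pow_le_one₀ (norm_nonneg _) hz
  · rw [norm_pow, RCLike.norm_conj]
    exact pow_le_one₀ (norm_nonneg _) hz

theorem density {u : Torus d → ℂ} (hu : Integrable u) {ε : ℝ} (hε : 0 < ε) :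
    ∃ w : C(Torus d, ℂ), w ∈ Submodule.span ℂ (range (UnitAddTorus.mFourier (d := Fin d))) ∧
      ∫ t, ‖u t - w t‖ ≤ ε := by
  obtain ⟨g, -, hg1, hg2, hg3⟩ := hu.exists_hasCompactSupport_integral_sub_le
    (by positivity : 0 < ε / 2)
  have hmem : (⟨g, hg2⟩ : C(Torus d, ℂ)) ∈
      (Submodule.span ℂ (range (UnitAddTorus.mFourier (d := Fin d)))).topologicalClosure := by
    rw [UnitAddTorus.span_mFourier_closure_eq_top]
    trivial
  rw [← SetLike.mem_coe, Submodule.topologicalClosure_coe, Metric.mem_closure_iff] at hmem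
  obtain ⟨w, hw, hd⟩ := hmem (ε / 2) (by positivity)
  refine ⟨w, hw, ?_⟩
  have hwi : Integrable (w : Torus d → ℂ) :=
    w.continuous.integrable_of_hasCompactSupport (HasCompactSupport.of_compactSpace _)
  refine (l1_tri hu hg3 hwi).trans ?_
  have h1 : ∫ t, ‖g t - w t‖ ≤ ∫ _t : Torus d, ε / 2 := by
    refine integral_mono (hg3.sub hwi).norm (integrable_const _) fun t => ?_
    have := ContinuousMap.dist_apply_le_dist (f := (⟨g, hg2⟩ : C(Torus d, ℂ))) (g := w) t
    rw [dist_eq_norm] at this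
    exact this.trans hd.le
  simp only [integral_const, probReal_univ, smul_eq_mul, one_mul] at h1
  linarith

theorem A_limit (χ : ℕ → α → Fin d → ℂ) (g : α → Fin d → ℂ) {C : ℝ} (hC : 0 ≤ C)
    (h : ∀ k, Good μ (χ k) C)
    (hae : ∀ᵐ s ∂μ, ∀ i, Tendsto (fun k => χ k s i) atTop (𝓝 (g s i)))
    {u : Torus d → ℂ} (hu : Integrable u) :
    ∃ v : α → ℂ, Integrable v μ ∧
      Tendsto (fun k => ∫ s, ‖A (χ k) u s - v s‖ ∂μ) atTop (𝓝 0) := by
  -- trigonometric polynomials
  have hpoly : ∀ w : C(Torus d, ℂ),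
      w ∈ Submodule.span ℂ (range (UnitAddTorus.mFourier (d := Fin d))) →
      ∃ v : α → ℂ, Integrable v μ ∧
        Tendsto (fun k => ∫ s, ‖A (χ k) w s - v s‖ ∂μ) atTop (𝓝 0) := by
    have hint : ∀ w : C(Torus d, ℂ), Integrable (w : Torus d → ℂ) := fun w =>
      w.continuous.integrable_of_hasCompactSupport (HasCompactSupport.of_compactSpace _)
    intro w hw
    induction hw using Submodule.span_induction with
    | mem w hw =>
      obtain ⟨n, rfl⟩ := hw
      have hA : ∀ k s, A (χ k) (UnitAddTorus.mFourier n) s = ∏ i, cm (n i) (χ k s i) := by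
        intro k s
        exact poisson_mFourier n ((h k).mem s)
      have hlim : ∀ᵐ s ∂μ, Tendsto (fun k => A (χ k) (UnitAddTorus.mFourier n) s) atTop
          (𝓝 (∏ i, cm (n i) (g s i))) := by
        filter_upwards [hae] with s hs
        simp_rw [hA]
        exact tendsto_finsetProd _ fun i _ => ((continuous_cm (n i)).tendsto _).comp (hs i)
      have hb : ∀ k s, ‖A (χ k) (UnitAddTorus.mFourier n) s‖ ≤ 1 := by
        intro k s
        rw [hA, norm_prod]
        refine Finset.prod_le_one (fun i _ => norm_nonneg _) fun i _ => ?_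
        exact norm_cm_le _ ((h k).mem s i).le
      have hb' : ∀ᵐ s ∂μ, ‖∏ i, cm (n i) (g s i)‖ ≤ 1 := by
        filter_upwards [hlim] with s hs
        exact le_of_tendsto hs.norm (Eventually.of_forall fun k => hb k s)
      have hm : AEStronglyMeasurable (fun s => ∏ i, cm (n i) (g s i)) μ :=
        aestronglyMeasurable_of_tendsto_ae atTop
          (fun k => ((h k).intA (hint (UnitAddTorus.mFourier n))).aestronglyMeasurable) hlim
      refine ⟨fun s => ∏ i, cm (n i) (g s i), ?_, ?_⟩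
      · exact Integrable.of_bound hm 1 hb'
      · have h0 : ∫ _s : α, (0 : ℝ) ∂μ = 0 := by simp
        rw [← h0]
        refine tendsto_integral_of_dominated_convergence (fun _ => 2) ?_ ?_ ?_ ?_
        · exact fun k => (((h k).intA
            (hint (UnitAddTorus.mFourier n))).aestronglyMeasurable.sub hm).norm
        · exact integrable_const _
        · intro k
          filter_upwards [hb'] with s hs
          rw [norm_norm]
          refine (norm_sub_le _ _).trans ?_
          linarith [hb k s]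
        · filter_upwards [hlim] with s hs
          rw [← tendsto_iff_norm_sub_tendsto_zero]
          exact hs
    | zero =>
      refine ⟨fun _ => 0, integrable_zero _ _ _, ?_⟩
      simp [A]
    | add w1 w2 _ _ ih1 ih2 =>
      obtain ⟨v1, hv1, hl1⟩ := ih1
      obtain ⟨v2, hv2, hl2⟩ := ih2
      refine ⟨fun s => v1 s + v2 s, hv1.add hv2, ?_⟩
      have hsum := hl1.add hl2
      rw [add_zero] at hsum
      refine squeeze_zero (fun k => integral_nonneg fun _ => norm_nonneg _) (fun k => ?_) hsum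
      have i1 := (((h k).intA (hint w1)).sub hv1).norm
      have i2 := (((h k).intA (hint w2)).sub hv2).norm
      have h1 := integral_add i1 i2
      simp only [Pi.sub_apply] at h1
      rw [← h1]
      refine integral_mono ((((h k).intA (hint (w1 + w2))).sub (hv1.add hv2)).norm)
        (i1.add i2) fun s => ?_
      have h2 : A (χ k) (w1 + w2 : C(Torus d, ℂ)) s = A (χ k) w1 s + A (χ k) w2 s :=
        A_add (h k).mem (hint w1) (hint w2) s
      simp only [h2]
      have h3 : A (χ k) w1 s + A (χ k) w2 s - (v1 s + v2 s) =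
          (A (χ k) w1 s - v1 s) + (A (χ k) w2 s - v2 s) := by ring
      rw [h3]
      exact norm_add_le _ _
    | smul c w _ ih =>
      obtain ⟨v, hv, hl⟩ := ih
      refine ⟨fun s => c * v s, hv.const_mul c, ?_⟩
      have := hl.const_mul ‖c‖
      rw [mul_zero] at this
      refine this.congr fun k => ?_
      rw [← integral_const_mul]
      apply integral_congr_ae
      filter_upwards with s
      have h2 : A (χ k) (c • w : C(Torus d, ℂ)) s = c * A (χ k) w s := A_smul c w s
      rw [h2, ← mul_sub, norm_mul]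
  refine l1_complete _ (fun k => (h k).intA hu) ?_
  intro ε hε
  obtain ⟨w, hw, hwu⟩ := density hu (by positivity : 0 < ε / (4 * (C + 1)))
  have hwi : Integrable (w : Torus d → ℂ) :=
    w.continuous.integrable_of_hasCompactSupport (HasCompactSupport.of_compactSpace _)
  obtain ⟨v, hv, hl⟩ := hpoly w hw
  have hev := hl.eventually (gt_mem_nhds (by positivity : (0 : ℝ) < ε / 4))
  rw [eventually_atTop] at hev
  obtain ⟨N, hN⟩ := hev
  have hclose : ∀ k, ∫ s, ‖A (χ k) u s - A (χ k) w s‖ ∂μ ≤ ε / 4 := by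
    intro k
    have h1 := (h k).norm_le hC (hu.sub hwi)
    have h2 : ∀ s, A (χ k) (u - w) s = A (χ k) u s - A (χ k) w s := fun s =>
      A_sub (h k).mem hu hwi s
    simp only [h2] at h1
    refine h1.trans ?_
    have h3 : C * ∫ t, ‖(u - w) t‖ ≤ C * (ε / (4 * (C + 1))) := by
      gcongr
      exact hwu
    refine h3.trans ?_
    rw [mul_div_assoc', div_le_div_iff₀ (by positivity) (by norm_num)]
    nlinarith
  refine ⟨N, fun k hk l hl' => ?_⟩
  have hk1 := hN k hk
  have hl1 := hN l hl'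
  have t1 := l1_tri ((h k).intA hu) ((h k).intA hwi) ((h l).intA hu)
  have t2 := l1_tri ((h k).intA hwi) hv ((h l).intA hu)
  have t3 := l1_tri hv ((h l).intA hwi) ((h l).intA hu)
  have s1 : ∫ s, ‖v s - A (χ l) w s‖ ∂μ = ∫ s, ‖A (χ l) w s - v s‖ ∂μ := by
    simp_rw [norm_sub_rev]
  have s2 : ∫ s, ‖A (χ l) w s - A (χ l) u s‖ ∂μ = ∫ s, ‖A (χ l) u s - A (χ l) w s‖ ∂μ := by
    simp_rw [norm_sub_rev]
  have c1 := hclose k
  have c2 := hclose l
  linarith

end Op

end Pool.Agent.Helper43.Outer
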