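import Pool.Agent.Helper43.Outer.Count

open MeasureTheory Set Filter Topology Complex Metric ENNReal InnerProductSpace

namespace Pool.Agent.Helper43.Outer

variable {d d' : ℕ}

theorem ker_cont {φ : (Fin d' → ℂ) → (Fin d → ℂ)} (hφ : DifferentiableOn ℂ φ (polydisc d'))
    (hm : MapsTo φ (polydisc d') (polydisc d)) {r : ℝ} (hr : 0 ≤ r) (hr1 : r < 1)
    (w : Torus d) : Continuous (fun s : Torus d' => P (φ (pt r s)) w) := by
  simp_rw [P_eq]
  refine continuous_finsetProd _ fun i _ => ?_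
  exact dil_cont (nharm_pk (fun z hz => (differentiableWithinAt_pi.1 (hφ z hz)) i)
    (fun z hz => hm hz i) (w i)).1 hr hr1

theorem not_bad {φ : (Fin d' → ℂ) → (Fin d → ℂ)} {t : Torus d'} (h : ¬ Bad φ t) :
    ∃ ε : ℝ, 0 < ε ∧ ∃ C : ℝ, ∀ r : ℝ, 0 ≤ r → r < 1 → ∀ w : Torus d,
      ∫ s in ball t ε, P (φ (pt r s)) w ≤ C := by
  unfold Bad at h
  push Not at h
  exact h

theorem bad_closed {φ : (Fin d' → ℂ) → (Fin d → ℂ)} (hφ : DifferentiableOn ℂ φ (polydisc d'))
    (hm : MapsTo φ (polydisc d') (polydisc d)) : IsClosed {t | Bad φ t} := by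
  rw [← isOpen_compl_iff, Metric.isOpen_iff]
  intro t ht
  obtain ⟨ε, hε, C, hC⟩ := not_bad ht
  refine ⟨ε / 2, by positivity, fun t' ht' hbad => ?_⟩
  obtain ⟨r, hr, hr1, w, hw⟩ := hbad (ε / 2) (by positivity) C
  have h1 := hC r hr hr1 w
  have h2 : ∫ s in ball t' (ε / 2), P (φ (pt r s)) w ≤ ∫ s in ball t ε, P (φ (pt r s)) w := by
    refine setIntegral_mono_set (cont_int (ker_cont hφ hm hr hr1 w)).integrableOn
      (ae_of_all _ fun s => (P_pos (hm (pt_mem hr hr1 s)) w).le) ?_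
    refine LE.le.eventuallyLE (ball_subset_ball' ?_)
    have : dist t' t < ε / 2 := ht'
    linarith
  linarith

theorem kernel_of_not_bad {φ : (Fin d' → ℂ) → (Fin d → ℂ)}
    (hφ : DifferentiableOn ℂ φ (polydisc d')) (hm : MapsTo φ (polydisc d') (polydisc d))
    {J : Set (Torus d')} (hJ : IsCompact J) (hJb : ∀ t ∈ J, ¬ Bad φ t) :
    ∃ C : ℝ, 0 ≤ C ∧ ∀ r : ℝ, 0 ≤ r → r < 1 → ∀ w : Torus d, ∫ t in J, P (φ (pt r t)) w ≤ C := by
  refine hJ.induction_on (p := fun S => ∃ C : ℝ, 0 ≤ C ∧ ∀ r : ℝ, 0 ≤ r → r < 1 →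
    ∀ w : Torus d, ∫ t in S, P (φ (pt r t)) w ≤ C) ?_ ?_ ?_ ?_
  · exact ⟨0, le_rfl, fun r _ _ w => by simp⟩
  · rintro S S' hSS ⟨C, hC0, hC⟩
    refine ⟨C, hC0, fun r hr hr1 w => le_trans ?_ (hC r hr hr1 w)⟩
    exact setIntegral_mono_set (cont_int (ker_cont hφ hm hr hr1 w)).integrableOn
      (ae_of_all _ fun s => (P_pos (hm (pt_mem hr hr1 s)) w).le) (LE.le.eventuallyLE hSS)
  · rintro S S' ⟨C, hC0, hC⟩ ⟨C', hC0', hC'⟩
    refine ⟨C + C', by positivity, fun r hr hr1 w => ?_⟩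
    have hi := cont_int (ker_cont hφ hm hr hr1 w)
    have h0 : ∀ s : Torus d', 0 ≤ P (φ (pt r s)) w := fun s =>
      (P_pos (hm (pt_mem hr hr1 s)) w).le
    calc ∫ t in S ∪ S', P (φ (pt r t)) w
        ≤ ∫ t, P (φ (pt r t)) w ∂(volume.restrict S + volume.restrict S') := by
          refine integral_mono_measure (Measure.restrict_union_le S S') (ae_of_all _ h0) ?_
          exact Integrable.add_measure (μ := volume.restrict S) (ν := volume.restrict S')
            hi.integrableOn hi.integrableOn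
      _ = (∫ t in S, P (φ (pt r t)) w) + ∫ t in S', P (φ (pt r t)) w :=
          integral_add_measure hi.integrableOn hi.integrableOn
      _ ≤ C + C' := add_le_add (hC r hr hr1 w) (hC' r hr hr1 w)
  · intro t ht
    obtain ⟨ε, hε, C, hC⟩ := not_bad (hJb t ht)
    refine ⟨ball t ε, mem_nhdsWithin_of_mem_nhds (ball_mem_nhds t hε), max C 0,
      le_max_right _ _, fun r hr hr1 w => (hC r hr hr1 w).trans (le_max_left _ _)⟩

-- points without contact are not bad
theorem contact_of_bad {φ : (Fin 1 → ℂ) → (Fin d → ℂ)} (hφ : DifferentiableOn ℂ φ (polydisc 1))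
    (hm : MapsTo φ (polydisc 1) (polydisc d)) {t : Torus 1} (hb : Bad φ t) : Contact φ t := by
  by_contra hcon
  have hopen : IsOpen {t | ¬ Contact φ t} := (contact_closed φ).isOpen_compl
  obtain ⟨ε, hε, hball⟩ := Metric.isOpen_iff.1 hopen t hcon
  have hJ : IsCompact (closedBall t (ε / 2)) := isCompact_closedBall t (ε / 2)
  obtain ⟨δ, hδ0, hδ1, hsep⟩ := sep_compact hφ hm hJ (fun t' ht' => by
    refine hball ?_
    have : dist t' t ≤ ε / 2 := ht'
    have h2 : dist t' t < ε := by linarith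
    exact h2)
  obtain ⟨C, -, hC⟩ := kernel_J hφ hm (closedBall t (ε / 2)) measurableSet_closedBall hδ0 hδ1 hsep
  obtain ⟨r, hr, hr1, w, hw⟩ := hb (ε / 2) (by positivity) C
  have h1 := hC r hr hr1 w
  have h2 : ∫ s in ball t (ε / 2), P (φ (pt r s)) w ≤
      ∫ s in closedBall t (ε / 2), P (φ (pt r s)) w :=
    setIntegral_mono_set (cont_int (ker_cont hφ hm hr hr1 w)).integrableOn
      (ae_of_all _ fun s => (P_pos (hm (pt_mem hr hr1 s)) w).le)
      (LE.le.eventuallyLE ball_subset_closedBall)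
  linarith

-- with at most one coordinate there are no bad points
theorem bad_two {φ : (Fin 1 → ℂ) → (Fin d → ℂ)} (hφ : DifferentiableOn ℂ φ (polydisc 1))
    (hm : MapsTo φ (polydisc 1) (polydisc d)) {t : Torus 1} (hb : Bad φ t) :
    ∃ i j : Fin d, i ≠ j := by
  obtain ⟨i, j, hij, -⟩ := contact_of_bad hφ hm hb
  exact ⟨i, j, hij⟩

end Pool.Agent.Helper43.Outer
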