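import Mathlib

open MeasureTheory Set Filter Topology ENNReal

namespace Pool.Agent.Helper43.Outer

-- the point of the unit circle with angle 2 pi t
noncomputable def e (t : UnitAddCircle) : ℂ := (AddCircle.toCircle t : ℂ)

-- the Poisson kernel of the disc at z and at the boundary point e t
noncomputable def pk (z : ℂ) (t : UnitAddCircle) : ℝ := (1 - ‖z‖ ^ 2) / ‖e t - z‖ ^ 2

-- the torus with its normalised Haar measure `volume`
abbrev Torus (d : ℕ) : Type := Fin d → UnitAddCircle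

-- the open unit polydisc
def polydisc (d : ℕ) : Set (Fin d → ℂ) := {z | ∀ i, ‖z i‖ < 1}

-- the point r * zeta
noncomputable def pt {d : ℕ} (r : ℝ) (t : Torus d) : Fin d → ℂ := fun i => r * e (t i)

-- the Poisson kernel of the polydisc
noncomputable def P {d : ℕ} (z : Fin d → ℂ) (t : Torus d) : ℝ :=
  ∏ i, (1 - ‖z i‖ ^ 2) / ‖e (t i) - z i‖ ^ 2

-- The Hardy space quantity: for p = infinity the supremum of |f| on the polydisc, otherwise the
-- supremum over 0 < r < 1 of the L^p norms of the dilates on the torus.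
noncomputable def hNorm {d : ℕ} (p : ℝ≥0∞) (f : (Fin d → ℂ) → ℂ) : ℝ≥0∞ :=
  if p = ∞ then ⨆ z ∈ polydisc d, ‖f z‖ₑ
  else ⨆ r ∈ Ioo (0 : ℝ) 1, eLpNorm (fun t : Torus d => f (pt r t)) p volume

-- f belongs to H^p of the polydisc
def MemH {d : ℕ} (p : ℝ≥0∞) (f : (Fin d → ℂ) → ℂ) : Prop :=
  DifferentiableOn ℂ f (polydisc d) ∧ hNorm p f < ∞

-- f is outer in H^p; b is the modulus of the boundary function, the radial limit of |f|
def IsOuter {d : ℕ} (p : ℝ≥0∞) (f : (Fin d → ℂ) → ℂ) : Prop :=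
  MemH p f ∧ (∀ z ∈ polydisc d, f z ≠ 0) ∧
    ∃ b : Torus d → ℝ,
      (∀ᵐ t, Tendsto (fun r : ℝ => ‖f (pt r t)‖) (𝓝[<] 1) (𝓝 (b t)) ∧ 0 < b t) ∧
      Integrable (fun t => Real.log (b t)) ∧
      ∀ z ∈ polydisc d, Real.log ‖f z‖ = ∫ t, P z t * Real.log (b t)

-- the weighted composition operator
def wco {d d' : ℕ} (ψ : (Fin d' → ℂ) → ℂ) (φ : (Fin d' → ℂ) → (Fin d → ℂ))
    (f : (Fin d → ℂ) → ℂ) : (Fin d' → ℂ) → ℂ := fun z => ψ z * f (φ z)

-- standing hypotheses of the question: holomorphic symbols and boundedness of the operator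
structure Symbol {d d' : ℕ} (p q : ℝ≥0∞) (ψ : (Fin d' → ℂ) → ℂ)
    (φ : (Fin d' → ℂ) → (Fin d → ℂ)) : Prop where
  psi : DifferentiableOn ℂ ψ (polydisc d')
  phi : DifferentiableOn ℂ φ (polydisc d')
  maps : MapsTo φ (polydisc d') (polydisc d)
  bounded : ∃ C : ℝ≥0∞, C < ∞ ∧ ∀ f : (Fin d → ℂ) → ℂ, MemH p f →
    hNorm q (wco ψ φ f) ≤ C * hNorm p f

-- the operator maps outer functions of H^p to outer functions of H^q
def PreservesOuter {d d' : ℕ} (p q : ℝ≥0∞) (ψ : (Fin d' → ℂ) → ℂ)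
    (φ : (Fin d' → ℂ) → (Fin d → ℂ)) : Prop :=
  ∀ f : (Fin d → ℂ) → ℂ, IsOuter p f → IsOuter q (wco ψ φ f)

-- finite angular derivative of the i-th coordinate at the boundary point t
def HasAD {d d' : ℕ} (φ : (Fin d' → ℂ) → (Fin d → ℂ)) (i : Fin d) (t : Torus d') : Prop :=
  ∃ ω : ℂ, ‖ω‖ = 1 ∧ ∃ C : ℝ, ∀ r ∈ Ioo (0 : ℝ) 1, ‖φ (pt r t) i - ω‖ ≤ C * (1 - r)

-- finite angular derivative of the i-th coordinate at t, with boundary value ω
def ADat {d d' : ℕ} (φ : (Fin d' → ℂ) → (Fin d → ℂ)) (i : Fin d) (t : Torus d') (ω : ℂ) : Prop :=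
  ‖ω‖ = 1 ∧ ∃ C : ℝ, ∀ r ∈ Ioo (0 : ℝ) 1, ‖φ (pt r t) i - ω‖ ≤ C * (1 - r)

-- boundary points of the disc near which two coordinates are simultaneously close to the circle
def Contact {d : ℕ} (φ : (Fin 1 → ℂ) → (Fin d → ℂ)) (t : Torus 1) : Prop :=
  ∃ i j : Fin d, i ≠ j ∧ ∀ ε : ℝ, 0 < ε → ∃ z ∈ polydisc 1, ‖z - pt 1 t‖ < ε ∧
    1 - ε < ‖φ z i‖ ∧ 1 - ε < ‖φ z j‖

-- boundary points near which the kernel integrals are unbounded
def Bad {d d' : ℕ} (φ : (Fin d' → ℂ) → (Fin d → ℂ)) (t : Torus d') : Prop :=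
  ∀ ε : ℝ, 0 < ε → ∀ C : ℝ, ∃ r : ℝ, 0 ≤ r ∧ r < 1 ∧ ∃ w : Torus d,
    C < ∫ s in Metric.ball t ε, P (φ (pt r s)) w

-- the restriction to the disc through the torus point s
noncomputable def cut {d' : ℕ} {X : Type} (φ : (Fin d' → ℂ) → X) (s : Torus d') :
    (Fin 1 → ℂ) → X := fun z => φ (fun i => z 0 * e (s i))

-- diagonal translation
def sh {d : ℕ} (p : Torus d × UnitAddCircle) : Torus d := fun i => p.1 i + p.2

end Pool.Agent.Helper43.Outer
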