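import Pool.Agent.Helper43.Outer.Limit

open MeasureTheory Set Filter Topology Complex Metric ENNReal InnerProductSpace

namespace Pool.Agent.Helper43.Outer

theorem sh_mp {d : ℕ} : MeasurePreserving (sh (d := d)) (volume.prod volume) volume := by
  have h1 : MeasurePreserving (fun p : UnitAddCircle × Torus d =>
      (p.1, (fun i => p.2 i + p.1 : Torus d))) (volume.prod volume) (volume.prod volume) := by
    refine MeasurePreserving.skew_product (g := fun l (s : Torus d) => (fun i => s i + l : Torus d))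
      (MeasurePreserving.id volume) ?_ ?_
    · refine Continuous.measurable ?_
      refine continuous_pi fun i => ?_
      exact ((continuous_apply i).comp continuous_snd).add continuous_fst
    · refine ae_of_all _ fun l => ?_
      exact (measurePreserving_add_right (volume : Measure (Torus d)) (fun _ => l)).map_eq
  exact (measurePreserving_snd.comp h1).comp Measure.measurePreserving_swap

theorem ae_of_ae_ae {d : ℕ} {G : Set (Torus d)} (hG : MeasurableSet G)
    (h : ∀ᵐ s : Torus d, ∀ᵐ l : UnitAddCircle, sh (s, l) ∈ G) : ∀ᵐ s, s ∈ G := by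
  rw [ae_iff]
  change volume Gᶜ = 0
  rw [← sh_mp.measure_preimage hG.compl.nullMeasurableSet,
    Measure.measure_prod_null (sh_mp.measurable hG.compl)]
  filter_upwards [h] with s hs
  exact hs

-- measurability of the set of radial convergence
theorem meas_good {d : ℕ} {U : (Fin d → ℂ) → ℝ} (hU : ContinuousOn U (polydisc d))
    {v : Torus d → ℝ} (hv : Measurable v) :
    MeasurableSet {t : Torus d | Tendsto (fun r : ℝ => U (pt r t)) (𝓝[<] 1) (𝓝 (v t))} := by
  have hset : {t : Torus d | Tendsto (fun r : ℝ => U (pt r t)) (𝓝[<] 1) (𝓝 (v t))} =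
      ⋂ n : ℕ, ⋃ m : ℕ, ⋂ q : {q : ℚ // 1 - 1 / ((m : ℝ) + 1) < q ∧ (q : ℝ) < 1 ∧ (0 : ℝ) ≤ q},
        {t : Torus d | |U (pt q t) - v t| ≤ 1 / ((n : ℝ) + 1)} := by
    ext t
    simp only [mem_ofPred_eq, mem_iInter, mem_iUnion]
    have hcr : ∀ r : ℝ, 0 < r → r < 1 → ContinuousAt (fun r : ℝ => U (pt r t)) r := by
      intro r hr hr1
      refine ContinuousAt.comp (f := fun r : ℝ => pt r t) (g := U) ?_ ?_
      · exact hU.continuousAt ((isOpen_polydisc d).mem_nhds (pt_mem hr.le hr1 t))
      · exact (pt_cont.comp (by fun_prop : Continuous fun r : ℝ => (r, t))).continuousAt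
    constructor
    · intro h n
      have h1 : ∀ᶠ r : ℝ in 𝓝[<] 1, |U (pt r t) - v t| < 1 / ((n : ℝ) + 1) := by
        have := (Metric.tendsto_nhds.1 h) (1 / ((n : ℝ) + 1)) (by positivity)
        simpa [Real.dist_eq] using this
      rw [eventually_nhdsWithin_iff, Metric.eventually_nhds_iff] at h1
      obtain ⟨δ, hδ, h2⟩ := h1
      obtain ⟨m, hm⟩ := exists_nat_one_div_lt hδ
      refine ⟨m, ?_⟩
      rintro ⟨q, hq, hq1, -⟩
      refine (h2 (y := (q : ℝ)) ?_ hq1).le
      rw [Real.dist_eq, abs_lt]
      constructor <;> linarith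
    · intro h
      rw [Metric.tendsto_nhds]
      intro ε hε
      obtain ⟨n, hn⟩ := exists_nat_one_div_lt hε
      obtain ⟨m, hm⟩ := h n
      have hm0 : (0 : ℝ) < 1 / ((m : ℝ) + 1) := by positivity
      have hmem : Ioo (max 0 (1 - 1 / ((m : ℝ) + 1))) 1 ∈ 𝓝[<] (1 : ℝ) :=
        Ioo_mem_nhdsLT (by
          rw [max_lt_iff]
          constructor <;> linarith)
      filter_upwards [hmem] with r hr
      have hr0 : 0 < r := lt_of_le_of_lt (le_max_left _ _) hr.1
      have hr2 : 1 - 1 / ((m : ℝ) + 1) < r := lt_of_le_of_lt (le_max_right _ _) hr.1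
      have hc : Tendsto (fun r : ℝ => |U (pt r t) - v t|) (𝓝 r) (𝓝 |U (pt r t) - v t|) :=
        ((hcr r hr0 hr.2).tendsto.sub_const (v t)).abs
      have hfreq : ∃ᶠ x : ℝ in 𝓝 r, |U (pt x t) - v t| ≤ 1 / ((n : ℝ) + 1) := by
        have h1 : ∃ᶠ x : ℝ in 𝓝 r, x ∈ range ((↑) : ℚ → ℝ) :=
          mem_closure_iff_frequently.1 (Rat.isDenseEmbedding_coe_real.dense r)
        have h2 : ∀ᶠ x : ℝ in 𝓝 r, x ∈ Ioo (max 0 (1 - 1 / ((m : ℝ) + 1))) 1 :=
          isOpen_Ioo.mem_nhds hr
        refine (h1.and_eventually h2).mono ?_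
        rintro x ⟨⟨q, rfl⟩, hq⟩
        exact hm ⟨q, lt_of_le_of_lt (le_max_right _ _) hq.1, hq.2,
          (le_max_left _ _).trans hq.1.le⟩
      have := le_of_tendsto_of_frequently hc hfreq
      rw [Real.dist_eq]
      linarith
  rw [hset]
  refine MeasurableSet.iInter fun n => MeasurableSet.iUnion fun m => MeasurableSet.iInter fun q => ?_
  obtain ⟨q, hq1, hq2, hq3⟩ := q
  have hcont : Continuous (fun t : Torus d => U (pt (q : ℝ) t)) := by
    refine hU.comp_continuous (f := fun t : Torus d => pt (q : ℝ) t) ?_ ?_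
    · exact pt_cont.comp (by fun_prop : Continuous fun t : Torus d => ((q : ℝ), t))
    · exact fun t => pt_mem hq3 hq2 t
  exact measurableSet_le (hcont.measurable.sub hv).abs measurable_const

-- L1 convergence of dilates gives radial limits almost everywhere
theorem radial_of_limit {d : ℕ} {U : (Fin d → ℂ) → ℝ} (hU : NHarm U) {v : Torus d → ℝ}
    (hv : Integrable v) (ρ : ℕ → ℝ) (h0 : ∀ k, 0 ≤ ρ k) (h1 : ∀ k, ρ k < 1)
    (hρ : Tendsto ρ atTop (𝓝 1))
    (hlim : Tendsto (fun k => ∫ t, |U (pt (ρ k) t) - v t|) atTop (𝓝 0)) :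
    ∀ᵐ t, Tendsto (fun r : ℝ => U (pt r t)) (𝓝[<] 1) (𝓝 (v t)) := by
  -- reduce to measurable v
  wlog hvm : Measurable v generalizing v
  · have hae := hv.aestronglyMeasurable.ae_eq_mk
    set v' := hv.aestronglyMeasurable.mk v with hv'
    have hvm' : Measurable v' := hv.aestronglyMeasurable.stronglyMeasurable_mk.measurable
    have h2 := this (v := v') (hv.congr hae) (by
      refine hlim.congr fun k => ?_
      apply integral_congr_ae
      filter_upwards [hae] with t ht
      rw [ht]) hvm'
    filter_upwards [h2, hae] with t ht1 ht2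
    rw [ht2]
    exact ht1
  have hcont : ∀ k, Continuous (fun t : Torus d => U (pt (ρ k) t)) := by
    intro k
    refine hU.1.comp_continuous (f := fun t : Torus d => pt (ρ k) t) ?_ ?_
    · exact pt_cont.comp (by fun_prop : Continuous fun t : Torus d => ((ρ k : ℝ), t))
    · exact fun t => pt_mem (h0 k) (h1 k) t
  have hint : ∀ k, Integrable (fun t : Torus d => U (pt (ρ k) t)) := fun k =>
    (hcont k).integrable_of_hasCompactSupport (HasCompactSupport.of_compactSpace _)
  set F : ℕ → Torus d → ℝ := fun k t => |U (pt (ρ k) t) - v t| with hF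
  have hFi : ∀ k, Integrable (F k) := fun k => ((hint k).sub hv).abs
  have hFs : ∀ k, Integrable (fun p : Torus d × UnitAddCircle => F k (sh p))
      (volume.prod volume) := fun k =>
    (sh_mp.integrable_comp (hFi k).aestronglyMeasurable).2 (hFi k)
  set φ : ℕ → Torus d → ℝ := fun k s => ∫ l, F k (sh (s, l)) with hφ
  have hφi : ∀ k, Integrable (φ k) := fun k => (hFs k).integral_prod_left
  have hφ0 : ∀ k s, 0 ≤ φ k s := fun k s => integral_nonneg fun l => abs_nonneg _
  have hφint : ∀ k, ∫ s, φ k s = ∫ t, F k t := by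
    intro k
    rw [← integral_prod _ (hFs k)]
    have := integral_map (μ := volume.prod volume) (φ := sh (d := d)) (f := F k)
      sh_mp.measurable.aemeasurable (by rw [sh_mp.map_eq]; exact (hFi k).aestronglyMeasurable)
    rw [sh_mp.map_eq] at this
    exact this.symm
  have hmeas : TendstoInMeasure volume φ atTop (fun _ => (0 : ℝ)) := by
    refine tendstoInMeasure_of_tendsto_eLpNorm (p := 1) one_ne_zero
      (fun k => (hφi k).aestronglyMeasurable) aestronglyMeasurable_const ?_
    have h3 : ∀ k, eLpNorm (φ k - fun _ => (0 : ℝ)) 1 volume = ENNReal.ofReal (∫ t, F k t) := by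
      intro k
      rw [← hφint k, eLpNorm_one_eq_lintegral_enorm, ofReal_integral_eq_lintegral_ofReal (hφi k)
        (ae_of_all _ (hφ0 k))]
      apply lintegral_congr
      intro s
      simp [Real.enorm_eq_ofReal (hφ0 k s)]
    simp_rw [h3]
    have := (ENNReal.continuous_ofReal.tendsto 0).comp hlim
    rw [ENNReal.ofReal_zero] at this
    exact this
  obtain ⟨ns, hns, hae⟩ := hmeas.exists_seq_tendsto_ae
  have hvs : ∀ᵐ s : Torus d, Integrable (fun l => v (sh (s, l))) :=
    ((sh_mp.integrable_comp hv.aestronglyMeasurable).2 hv).prod_right_ae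
  refine ae_of_ae_ae (G := {t : Torus d | Tendsto (fun r : ℝ => U (pt r t)) (𝓝[<] 1)
    (𝓝 (v t))}) (meas_good hU.1 hvm) ?_
  filter_upwards [hae, hvs] with s hs hvi
  -- the slice is a Poisson integral
  have hFsi : ∀ k, Integrable (fun l => U (pt (ρ k) (sh (s, l)))) := by
    intro k
    have : Continuous (fun l => U (pt (ρ k) (sh (s, l)))) := by
      refine (hcont k).comp ?_
      refine continuous_pi fun i => ?_
      exact continuous_const.add continuous_id
    exact this.integrable_of_hasCompactSupport (HasCompactSupport.of_compactSpace _)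
  have hslice : ∀ z : ℂ, ‖z‖ < 1 → U (fun i => z * e (s i)) = ∫ l, pk z l * v (sh (s, l)) := by
    intro z hz
    have h2 : Tendsto (fun k => U (fun i => ρ (ns k) * (z * e (s i)))) atTop
        (𝓝 (U (fun i => z * e (s i)))) := by
      have hz2 : Tendsto (fun k => (fun i => (ρ (ns k) : ℂ) * (z * e (s i)))) atTop
          (𝓝 (fun i => z * e (s i))) := by
        rw [tendsto_pi_nhds]
        intro i
        have : Tendsto (fun k => (ρ (ns k) : ℂ)) atTop (𝓝 (1 : ℝ)) :=
          (Complex.continuous_ofReal.tendsto 1).comp (hρ.comp hns.tendsto_atTop)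
        simpa using this.mul_const (z * e (s i))
      have hmem : (fun i => z * e (s i)) ∈ polydisc d := by
        intro i
        rw [norm_mul, norm_e, mul_one]
        exact hz
      exact ((hU.1.continuousAt ((isOpen_polydisc d).mem_nhds hmem)).tendsto).comp hz2
    have h3 : Tendsto (fun k => ∫ l, pk z l * U (pt (ρ (ns k)) (sh (s, l)))) atTop
        (𝓝 (∫ l, pk z l * v (sh (s, l)))) := by
      rw [tendsto_iff_dist_tendsto_zero]
      refine squeeze_zero (fun _ => dist_nonneg) (fun k => ?_)
        (by simpa using hs.const_mul ((1 + ‖z‖) / (1 - ‖z‖)))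
      rw [Real.dist_eq, ← integral_sub (int_pk_mul hz (hFsi _)) (int_pk_mul hz hvi)]
      refine (abs_integral_le_integral_abs).trans ?_
      rw [hφ]
      simp only
      rw [← integral_const_mul]
      refine integral_mono ?_ ?_ ?_
      · exact ((int_pk_mul hz (hFsi _)).sub (int_pk_mul hz hvi)).abs
      · exact ((hFsi _).sub hvi).abs.const_mul _
      · intro l
        simp only [hF]
        rw [← mul_sub, abs_mul, abs_of_pos (pk_pos hz l)]
        exact mul_le_mul_of_nonneg_right (pk_le hz l) (abs_nonneg _)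
    have h4 : ∀ k, ∫ l, pk z l * U (pt (ρ (ns k)) (sh (s, l))) =
        U (fun i => ρ (ns k) * (z * e (s i))) := fun k =>
      slice_poisson hU (h0 _) (h1 _) s hz
    simp_rw [h4] at h3
    exact tendsto_nhds_unique h2 h3
  filter_upwards [fatou _ hvi] with l hl
  refine hl.congr' ?_
  have hmem : Ioo (0 : ℝ) 1 ∈ 𝓝[<] (1 : ℝ) := Ioo_mem_nhdsLT (by norm_num)
  filter_upwards [hmem] with r hr
  rw [← hslice (r * e l) (by rw [norm_re hr.1.le]; exact hr.2)]
  congr 1
  ext i
  rw [pt, sh, e_add]
  ring

end Pool.Agent.Helper43.Outer
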