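import Pool.Agent.Helper43.Outer.Avg
import Pool.Agent.Helper43.Outer.Radial

open MeasureTheory Set Filter Topology Complex Metric ENNReal InnerProductSpace

namespace Pool.Agent.Helper43.Outer

theorem pk_symm {r : ℝ} (s t : UnitAddCircle) :
    pk (r * e s) t = pk (r * e t) s := by
  unfold pk
  have h1 : ‖e t - r * e s‖ ^ 2 = ‖e s - r * e t‖ ^ 2 := by
    rw [dist_sq, dist_sq, norm_sub_rev]
  have h2 : ‖(r : ℂ) * e s‖ = ‖(r : ℂ) * e t‖ := by
    rw [norm_mul, norm_mul, norm_e, norm_e]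
  rw [h1, h2]

theorem P_symm {d : ℕ} {r : ℝ} (s t : Torus d) : P (pt r s) t = P (pt r t) s := by
  rw [P_eq, P_eq]
  exact Finset.prod_congr rfl fun i _ => pk_symm _ _

theorem integral_P {d : ℕ} {z : Fin d → ℂ} (hz : z ∈ polydisc d) : ∫ t, P z t = 1 := by
  have := poisson_poly (d := d) (fun _ => 1) continuousOn_const
    (fun _ _ _ => fun x _ => harmonicAt_const _) hz
  simpa using this

section

variable {d : ℕ} {U : (Fin d → ℂ) → ℝ}

theorem dil_cont (hU : ContinuousOn U (polydisc d)) {r : ℝ} (hr : 0 ≤ r) (hr1 : r < 1) :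
    Continuous (fun t : Torus d => U (pt r t)) := by
  refine hU.comp_continuous (f := fun t : Torus d => pt r t) ?_ ?_
  · exact pt_cont.comp (by fun_prop : Continuous fun t : Torus d => (r, t))
  · exact fun t => pt_mem hr hr1 t

theorem cont_int {f : Torus d → ℝ} (hf : Continuous f) : Integrable f :=
  hf.integrable_of_hasCompactSupport (HasCompactSupport.of_compactSpace _)

theorem semigroup (hU : NHarm U) {r s : ℝ} (hr : 0 ≤ r) (hr1 : r < 1) (hs : 0 ≤ s) (hs1 : s < 1)
    (x : Torus d) : ∫ t, P (pt s x) t * U (pt r t) = U (pt (s * r) x) := by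
  rw [nharm_poisson hU hr hr1 (pt_mem hs hs1 x)]
  congr 1
  ext i
  simp only [pt]
  push_cast
  ring

theorem P_joint_cont {s : ℝ} (hs : 0 ≤ s) (hs1 : s < 1) :
    Continuous (fun p : Torus d × Torus d => P (pt s p.1) p.2) := by
  unfold P
  refine continuous_finsetProd _ fun i _ => ?_
  have h1 : Continuous (fun p : Torus d × Torus d => pt s p.1 i) :=
    continuous_const.mul (continuous_e.comp ((continuous_apply i).comp continuous_fst))
  have h2 : Continuous (fun p : Torus d × Torus d => e (p.2 i)) :=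
    continuous_e.comp ((continuous_apply i).comp continuous_snd)
  refine Continuous.div (continuous_const.sub (h1.norm.pow 2)) ((h2.sub h1).norm.pow 2) ?_
  intro p
  have := sub_pos_of_lt (pt_mem hs hs1 p.1 i) (p.2 i)
  positivity

-- the energy identity
theorem energy (hU : NHarm U) {r s : ℝ} (hr : 0 ≤ r) (hr1 : r < 1) (hs : 0 ≤ s) (hs1 : s < 1) :
    ∫ x : Torus d, U (pt (s * r) x) ^ 2 = ∫ t : Torus d, U (pt r t) * U (pt (s * (s * r)) t) := by
  have hsr : 0 ≤ s * r := mul_nonneg hs hr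
  have hsr1 : s * r < 1 := by nlinarith
  have c1 := dil_cont hU.1 hr hr1
  have c2 := dil_cont hU.1 hsr hsr1
  have hF : Continuous (fun p : Torus d × Torus d =>
      U (pt (s * r) p.1) * (P (pt s p.1) p.2 * U (pt r p.2))) :=
    (c2.comp continuous_fst).mul ((P_joint_cont hs hs1).mul (c1.comp continuous_snd))
  have hFi : Integrable (fun p : Torus d × Torus d =>
      U (pt (s * r) p.1) * (P (pt s p.1) p.2 * U (pt r p.2))) (volume.prod volume) :=
    hF.integrable_of_hasCompactSupport (HasCompactSupport.of_compactSpace _)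
  have h1 : ∀ x : Torus d, U (pt (s * r) x) ^ 2 =
      ∫ t, U (pt (s * r) x) * (P (pt s x) t * U (pt r t)) := by
    intro x
    rw [integral_const_mul, semigroup hU hr hr1 hs hs1, sq]
  have h2 : ∀ t : Torus d, U (pt r t) * U (pt (s * (s * r)) t) =
      ∫ x, U (pt (s * r) x) * (P (pt s x) t * U (pt r t)) := by
    intro t
    have h3 : ∀ x : Torus d, U (pt (s * r) x) * (P (pt s x) t * U (pt r t)) =
        U (pt r t) * (P (pt s t) x * U (pt (s * r) x)) := by
      intro x
      rw [P_symm]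
      ring
    simp_rw [h3]
    rw [integral_const_mul, semigroup hU hsr hsr1 hs hs1]
  simp_rw [h1, h2]
  exact integral_integral_swap hFi

theorem sq_avg {α : Type*} [MeasurableSpace α] {μ : Measure α} {p f : α → ℝ}
    (hp : ∀ x, 0 ≤ p x) (h1 : Integrable p μ) (h2 : Integrable (fun x => p x * f x) μ)
    (h3 : Integrable (fun x => p x * f x ^ 2) μ) (hone : ∫ x, p x ∂μ = 1) :
    (∫ x, p x * f x ∂μ) ^ 2 ≤ ∫ x, p x * f x ^ 2 ∂μ := by
  set c := ∫ x, p x * f x ∂μ with hc
  have h4 : 0 ≤ ∫ x, p x * (f x - c) ^ 2 ∂μ :=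
    integral_nonneg fun x => mul_nonneg (hp x) (sq_nonneg _)
  have h5 : ∀ x, p x * (f x - c) ^ 2 = (p x * f x ^ 2 - 2 * c * (p x * f x)) + c ^ 2 * p x := by
    intro x
    ring
  simp_rw [h5] at h4
  have i1 := h3.sub (h2.const_mul (2 * c))
  have i2 := h1.const_mul (c ^ 2)
  have e1 := integral_add i1 i2
  have e2 := integral_sub h3 (h2.const_mul (2 * c))
  simp only [Pi.sub_apply] at e1
  rw [e1, e2, integral_const_mul, integral_const_mul, hone, ← hc] at h4
  linarith

theorem energy_mono (hU : NHarm U) {r s : ℝ} (hr : 0 ≤ r) (hr1 : r < 1) (hs : 0 ≤ s)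
    (hs1 : s < 1) : ∫ x : Torus d, U (pt (s * r) x) ^ 2 ≤ ∫ x : Torus d, U (pt r x) ^ 2 := by
  have c1 := dil_cont hU.1 hr hr1
  have hsr : 0 ≤ s * r := mul_nonneg hs hr
  have hsr1 : s * r < 1 := by nlinarith
  have c2 := dil_cont hU.1 hsr hsr1
  have hF : Continuous (fun p : Torus d × Torus d => P (pt s p.1) p.2 * U (pt r p.2) ^ 2) :=
    (P_joint_cont hs hs1).mul ((c1.comp continuous_snd).pow 2)
  have hFi : Integrable (fun p : Torus d × Torus d => P (pt s p.1) p.2 * U (pt r p.2) ^ 2)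
      (volume.prod volume) :=
    hF.integrable_of_hasCompactSupport (HasCompactSupport.of_compactSpace _)
  have h1 : ∀ x : Torus d, U (pt (s * r) x) ^ 2 ≤ ∫ t, P (pt s x) t * U (pt r t) ^ 2 := by
    intro x
    rw [← semigroup hU hr hr1 hs hs1]
    have hm := pt_mem hs hs1 x
    refine sq_avg (fun t => (P_pos hm t).le) (P_int hm) (int_P_mul hm (cont_int c1))
      (int_P_mul hm (cont_int (c1.pow 2))) (integral_P hm)
  have h2 : ∫ x : Torus d, U (pt (s * r) x) ^ 2 ≤
      ∫ x : Torus d, ∫ t : Torus d, P (pt s x) t * U (pt r t) ^ 2 :=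
    integral_mono (cont_int (c2.pow 2)) hFi.integral_prod_left h1
  refine h2.trans (le_of_eq ?_)
  rw [integral_integral_swap hFi]
  congr 1
  ext t
  rw [integral_mul_const]
  have h3 : ∫ x : Torus d, P (pt s x) t = 1 := by
    simp_rw [P_symm _ t]
    exact integral_P (pt_mem hs hs1 t)
  rw [h3, one_mul]

theorem energy_diff (hU : NHarm U) {a b : ℝ} (ha : 0 < a) (hab : a < b) (hb1 : b < 1) :
    ∫ x : Torus d, (U (pt b x) - U (pt a x)) ^ 2 ≤
      (∫ x : Torus d, U (pt b x) ^ 2) - (∫ x : Torus d, U (pt a x) ^ 2) := by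
  have hb : 0 < b := ha.trans hab
  set s := √(a / b) with hs
  have hs0 : 0 ≤ s := Real.sqrt_nonneg _
  have hss : s * s = a / b := Real.mul_self_sqrt (by positivity)
  have hs1 : s < 1 := by
    rw [hs, Real.sqrt_lt' one_pos, one_pow, div_lt_one hb]
    exact hab
  have h1 : s * (s * b) = a := by
    rw [← mul_assoc, hss]
    field_simp
  have e1 := energy hU hb.le hb1 hs0 hs1
  have e2 := energy_mono hU (r := s * b) (s := s) (by positivity) (by nlinarith) hs0 hs1
  rw [h1] at e1 e2
  have ca := dil_cont hU.1 ha.le (hab.trans hb1)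
  have cb := dil_cont hU.1 hb.le hb1
  have h3 : ∀ x : Torus d, (U (pt b x) - U (pt a x)) ^ 2 =
      (U (pt b x) ^ 2 + U (pt a x) ^ 2) - 2 * (U (pt b x) * U (pt a x)) := by
    intro x
    ring
  simp_rw [h3]
  have i1 : Integrable (fun x : Torus d => U (pt b x) ^ 2) := cont_int (cb.pow 2)
  have i2 : Integrable (fun x : Torus d => U (pt a x) ^ 2) := cont_int (ca.pow 2)
  have i3 : Integrable (fun x : Torus d => 2 * (U (pt b x) * U (pt a x))) :=
    (cont_int (cb.mul ca)).const_mul 2
  have f1 := integral_sub (i1.add i2) i3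
  have f2 := integral_add i1 i2
  simp only [Pi.add_apply] at f1 f2
  rw [f1, f2, integral_const_mul]
  linarith

theorem l1_le_l2 {f : Torus d → ℝ} (hf : Continuous f) :
    (∫ x, |f x|) ^ 2 ≤ ∫ x, f x ^ 2 := by
  have := sq_avg (μ := (volume : Measure (Torus d))) (p := fun _ => 1) (f := fun x => |f x|)
    (fun _ => zero_le_one) (integrable_const _) (by simpa using cont_int hf.abs)
    (by
      have : Integrable (fun x : Torus d => f x ^ 2) := cont_int (hf.pow 2)
      simpa using this) (by simp)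
  simpa using this

-- bounded pluriharmonic functions have radial limits almost everywhere
theorem nharm_bdd_radial (hU : NHarm U) {M : ℝ} (hM : ∀ z ∈ polydisc d, |U z| ≤ M) :
    ∃ v : Torus d → ℝ, Integrable v ∧
      ∀ᵐ t, Tendsto (fun r : ℝ => U (pt r t)) (𝓝[<] 1) (𝓝 (v t)) := by
  set ρ : ℕ → ℝ := fun k => 1 - 1 / ((k : ℝ) + 2) with hρ
  have hρ0 : ∀ k, 0 < ρ k := by
    intro k
    have : (1 : ℝ) / ((k : ℝ) + 2) < 1 := by
      rw [div_lt_one (by positivity)]
      have : (0 : ℝ) ≤ k := Nat.cast_nonneg k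
      linarith
    simp only [hρ]
    linarith
  have hρ1 : ∀ k, ρ k < 1 := by
    intro k
    have : (0 : ℝ) < 1 / ((k : ℝ) + 2) := by positivity
    simp only [hρ]
    linarith
  have hmono : StrictMono ρ := by
    intro k l hkl
    have : (1 : ℝ) / ((l : ℝ) + 2) < 1 / ((k : ℝ) + 2) := by
      apply one_div_lt_one_div_of_lt (by positivity)
      have : (k : ℝ) < l := Nat.cast_lt.2 hkl
      linarith
    simp only [hρ]
    linarith
  have hρt : Tendsto ρ atTop (𝓝 1) := by
    have h1 : Tendsto (fun k : ℕ => (1 : ℝ) / ((k : ℝ) + 2)) atTop (𝓝 0) := by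
      have := (tendsto_one_div_add_atTop_nhds_zero_nat (𝕜 := ℝ)).comp (tendsto_add_atTop_nat 1)
      refine this.congr fun k => ?_
      simp only [Function.comp_apply]
      push_cast
      ring
    have h2 := h1.const_sub 1
    rw [sub_zero] at h2
    exact h2
  have hc : ∀ k, Continuous (fun t : Torus d => U (pt (ρ k) t)) := fun k =>
    dil_cont hU.1 (hρ0 k).le (hρ1 k)
  set a : ℕ → ℝ := fun k => ∫ x : Torus d, U (pt (ρ k) x) ^ 2 with ha
  have hle : ∀ k l, k < l → ∫ x : Torus d, (U (pt (ρ l) x) - U (pt (ρ k) x)) ^ 2 ≤ a l - a k :=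
    fun k l hkl => energy_diff hU (hρ0 k) (hmono hkl) (hρ1 l)
  have hamono : Monotone a := by
    intro k l hkl
    rcases hkl.eq_or_lt with h | h
    · rw [h]
    · have := (integral_nonneg fun x : Torus d => sq_nonneg (U (pt (ρ l) x) - U (pt (ρ k) x))).trans
        (hle k l h)
      linarith
  have hM0 : 0 ≤ M := by
    have := hM 0 (fun i => by simp)
    exact (abs_nonneg _).trans this
  have habdd : BddAbove (range a) := by
    refine ⟨M ^ 2, ?_⟩
    rintro _ ⟨k, rfl⟩
    have h1 : a k ≤ ∫ _x : Torus d, M ^ 2 := by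
      refine integral_mono (cont_int ((hc k).pow 2)) (integrable_const _) fun x => ?_
      have := hM _ (pt_mem (hρ0 k).le (hρ1 k) x)
      exact sq_le_sq' (by linarith [(abs_le.1 this).1]) (abs_le.1 this).2
    simpa using h1
  have hcau := (tendsto_atTop_ciSup hamono habdd).cauchySeq
  obtain ⟨v, hv, hlim⟩ := l1_complete (fun k (t : Torus d) => U (pt (ρ k) t))
    (fun k => cont_int (hc k)) (by
    intro ε hε
    obtain ⟨N, hN⟩ := (Metric.cauchySeq_iff.1 hcau) (ε ^ 2) (by positivity)
    refine ⟨N, ?_⟩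
    have key : ∀ k ≥ N, ∀ l ≥ N, k < l →
        ∫ x : Torus d, ‖U (pt (ρ l) x) - U (pt (ρ k) x)‖ < ε := by
      intro k hk l hl hkl
      have h1 := l1_le_l2 ((hc l).sub (hc k))
      simp only [Pi.sub_apply] at h1
      have h2 := hle k l hkl
      have h3 := hN l hl k hk
      rw [Real.dist_eq] at h3
      have h4 := (abs_lt.1 h3).2
      simp only [Real.norm_eq_abs]
      by_contra hcon
      push Not at hcon
      have h5 : ε ^ 2 ≤ (∫ x : Torus d, |U (pt (ρ l) x) - U (pt (ρ k) x)|) ^ 2 := by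
        gcongr
      linarith
    intro k hk l hl
    rcases lt_trichotomy k l with h | h | h
    · have := key k hk l hl h
      simp_rw [norm_sub_rev (U (pt (ρ k) _))]
      exact this
    · subst h
      simpa using hε
    · exact key l hl k hk h)
  exact ⟨v, hv, radial_of_limit hU hv ρ (fun k => (hρ0 k).le) hρ1 hρt (by
    simpa only [Real.norm_eq_abs] using hlim)⟩

end

theorem hol_bdd_radial {d : ℕ} {F : (Fin d → ℂ) → ℂ} (hF : DifferentiableOn ℂ F (polydisc d))
    {M : ℝ} (hM : ∀ z ∈ polydisc d, ‖F z‖ ≤ M) :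
    ∃ g : Torus d → ℂ, ∀ᵐ t, Tendsto (fun r : ℝ => F (pt r t)) (𝓝[<] 1) (𝓝 (g t)) := by
  obtain ⟨v1, -, h1⟩ := nharm_bdd_radial (nharm_re hF)
    (fun z hz => (abs_re_le_norm _).trans (hM z hz))
  have hF2 : DifferentiableOn ℂ (fun z => -I * F z) (polydisc d) := hF.const_mul _
  obtain ⟨v2, -, h2⟩ := nharm_bdd_radial (nharm_re hF2)
    (fun z hz => (abs_re_le_norm _).trans (by
      rw [norm_mul, norm_neg, norm_I, one_mul]
      exact hM z hz))
  refine ⟨fun t => v1 t + v2 t * I, ?_⟩
  filter_upwards [h1, h2] with t h1 h2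
  have h3 : ∀ z, F z = ((F z).re : ℂ) + ((-I * F z).re : ℂ) * I := by
    intro z
    apply Complex.ext <;> simp
  have h4 : (fun r : ℝ => F (pt r t)) =
      fun r : ℝ => (((F (pt r t)).re : ℝ) : ℂ) + (((-I * F (pt r t)).re : ℝ) : ℂ) * I := by
    ext r
    exact h3 _
  rw [h4]
  exact ((Complex.continuous_ofReal.tendsto _).comp h1).add
    (((Complex.continuous_ofReal.tendsto _).comp h2).mul_const I)

end Pool.Agent.Helper43.Outer
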