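import Pool.Agent.Helper43.Outer.Basic

open MeasureTheory Set Filter Topology Complex Metric

namespace Pool.Agent.Helper43.Outer

theorem norm_e (t : UnitAddCircle) : ‖e t‖ = 1 := Circle.norm_coe _

theorem e_ne (t : UnitAddCircle) : e t ≠ 0 := by
  intro h
  have := norm_e t
  rw [h, norm_zero] at this
  exact zero_ne_one this

theorem continuous_e : Continuous e :=
  continuous_subtype_val.comp AddCircle.continuous_toCircle

theorem e_add (s t : UnitAddCircle) : e (s + t) = e s * e t := by
  simp [e, AddCircle.toCircle_add]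

theorem e_zero : e 0 = 1 := by
  simp [e]

theorem e_mk (x : ℝ) : e (x : UnitAddCircle) = exp (2 * Real.pi * x * I) := by
  simp [e, AddCircle.toCircle_apply_mk, Circle.coe_exp]

theorem e_inj : Function.Injective e := by
  intro s t h
  exact AddCircle.injective_toCircle one_ne_zero (Subtype.ext h)

theorem e_surj (z : ℂ) (hz : ‖z‖ = 1) : ∃ t, e t = z := by
  refine ⟨((Complex.arg z / (2 * Real.pi) : ℝ) : UnitAddCircle), ?_⟩
  rw [e_mk]
  have h := Complex.norm_mul_exp_arg_mul_I z
  rw [hz, ofReal_one, one_mul] at h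
  rw [← h]
  congr 1
  push_cast
  field_simp
  rw [h]

theorem circleMap_eq (x : ℝ) : circleMap 0 1 (2 * Real.pi * x) = e (x : UnitAddCircle) := by
  rw [e_mk, circleMap]
  push_cast
  simp

-- integration over the circle as a circle average
theorem integral_e {E : Type*} [NormedAddCommGroup E] [NormedSpace ℝ E] (f : ℂ → E) :
    ∫ t, f (e t) = Real.circleAverage f 0 1 := by
  rw [Real.circleAverage_def, ← UnitAddCircle.intervalIntegral_preimage 0]
  have h := intervalIntegral.integral_comp_mul_left (a := 0) (b := 1)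
    (fun θ => f (circleMap 0 1 θ)) (c := 2 * Real.pi) (by positivity)
  simp only [mul_zero, mul_one] at h
  rw [← h, zero_add]
  apply intervalIntegral.integral_congr
  intro x _
  simp only [circleMap_eq]

theorem pk_eq (z : ℂ) (t : UnitAddCircle) : pk z t = poissonKernel 0 z (e t) := by
  simp [pk, poissonKernel_def, norm_e]

theorem sub_pos_of_lt {z : ℂ} (hz : ‖z‖ < 1) (t : UnitAddCircle) : 0 < ‖e t - z‖ := by
  have := norm_sub_norm_le (e t) z
  rw [norm_e] at this
  linarith

theorem pk_pos {z : ℂ} (hz : ‖z‖ < 1) (t : UnitAddCircle) : 0 < pk z t := by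
  have h1 := sub_pos_of_lt hz t
  have h2 : 0 < 1 - ‖z‖ ^ 2 := by nlinarith [norm_nonneg z]
  exact div_pos h2 (by positivity)

theorem pk_le {z : ℂ} (hz : ‖z‖ < 1) (t : UnitAddCircle) :
    pk z t ≤ (1 + ‖z‖) / (1 - ‖z‖) := by
  have h1 : 1 - ‖z‖ ≤ ‖e t - z‖ := by
    have := norm_sub_norm_le (e t) z
    rwa [norm_e] at this
  have h0 : 0 < 1 - ‖z‖ := by linarith
  have h2 : (1 - ‖z‖) ^ 2 ≤ ‖e t - z‖ ^ 2 := by gcongr
  have h4 := sub_pos_of_lt hz t
  rw [pk, div_le_div_iff₀ (by positivity) h0]
  have h3 : 0 ≤ 1 + ‖z‖ := by positivity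
  nlinarith

theorem pk_cont {z : ℂ} (hz : ‖z‖ < 1) : Continuous (pk z) := by
  unfold pk
  refine Continuous.div continuous_const (by
    have := continuous_e
    fun_prop) ?_
  intro t
  have := sub_pos_of_lt hz t
  positivity

-- the Poisson formula for holomorphic functions on a neighbourhood of the closed disc
theorem poisson_hol {f : ℂ → ℂ} (hf : DiffContOnCl ℂ f (ball 0 1)) {z : ℂ} (hz : ‖z‖ < 1) :
    ∫ t, (pk z t : ℂ) * f (e t) = f z := by
  have h := hf.circleAverage_poissonKernel_smul (w := z) (by simpa using hz)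
  rw [← integral_e] at h
  rw [← h]
  apply integral_congr_ae
  filter_upwards with t
  simp [pk_eq]

theorem poisson_harm {f : ℂ → ℝ} (hf : InnerProductSpace.HarmonicOnNhd f (closedBall 0 1))
    {z : ℂ} (hz : ‖z‖ < 1) : ∫ t, pk z t * f (e t) = f z := by
  have h := hf.circleAverage_poissonKernel_smul (w := z) (by simpa using hz)
  rw [← integral_e] at h
  rw [← h]
  apply integral_congr_ae
  filter_upwards with t
  simp [pk_eq]

theorem integral_pk {z : ℂ} (hz : ‖z‖ < 1) : ∫ t, pk z t = 1 := by
  have := poisson_harm (f := fun _ => 1) (by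
    intro x _
    exact InnerProductSpace.harmonicAt_const _) hz
  simpa using this

end Pool.Agent.Helper43.Outer
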