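import Pool.Agent.Helper43.Outer.Harnack

open MeasureTheory Set Filter Topology Complex Metric ENNReal InnerProductSpace

namespace Pool.Agent.Helper43.Outer

variable {d d' : ℕ}

-- one step of the Julia lemma
theorem julia_step {g : (Fin d' → ℂ) → ℂ} (hg : DifferentiableOn ℂ g (polydisc d'))
    (hb : ∀ z ∈ polydisc d', ‖g z‖ < 1) (t : Torus d') {ε s : ℝ} (hε : 0 < ε) (hs : 0 ≤ s)
    (hs1 : s < 1) (hq : ε ≤ (1 - s) / (1 - ‖g (pt s t)‖)) :
    ∃ w : UnitAddCircle, ∀ r : ℝ, 0 ≤ r → r ≤ s → ‖e w - g (pt r t)‖ ≤ 4 / ε * (1 - r) := by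
  obtain ⟨u, hu1, hu2⟩ := exists_unit (g (pt s t))
  obtain ⟨w, hw⟩ := e_surj ((starRingEnd ℂ) u) (by rw [RCLike.norm_conj, hu1])
  refine ⟨w, fun r hr hrs => ?_⟩
  have hr1 : r < 1 := lt_of_le_of_lt hrs hs1
  have hms := pt_mem hs hs1 t
  have hmr := pt_mem hr hr1 t
  have hgs := hb _ hms
  have hgr := hb _ hmr
  have hN := nharm_pk hg hb w
  have hmono := harnack_mono hN (fun z hz => (pk_pos (hb z hz) w).le) t hr hrs hs1
  -- value of the kernel at s
  have hdist : ‖e w - g (pt s t)‖ = 1 - ‖g (pt s t)‖ := by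
    have huu : u * (starRingEnd ℂ) u = 1 := by
      rw [Complex.mul_conj, Complex.normSq_eq_norm_sq, hu1]
      simp
    have h1 : u * (e w - g (pt s t)) = ((1 - ‖g (pt s t)‖ : ℝ) : ℂ) := by
      rw [hw, mul_sub, hu2, huu]
      push_cast
      ring
    have h2 : ‖u * (e w - g (pt s t))‖ = ‖e w - g (pt s t)‖ := by rw [norm_mul, hu1, one_mul]
    rw [← h2, h1, Complex.norm_real, Real.norm_eq_abs, abs_of_nonneg (by linarith)]
  have h1 : ε / 2 ≤ (1 - s) / (1 + s) * pk (g (pt s t)) w := by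
    rw [pk, hdist]
    set x := ‖g (pt s t)‖ with hx
    have hx0 : 0 ≤ x := norm_nonneg _
    have h2 : 0 < 1 - x := by linarith
    have e1 : (1 - x ^ 2) / (1 - x) ^ 2 = (1 + x) / (1 - x) := by
      field_simp
      ring
    rw [e1]
    have h3 : (1 - s) / (1 + s) * ((1 + x) / (1 - x)) =
        ((1 - s) / (1 - x)) * ((1 + x) / (1 + s)) := by
      field_simp
    rw [h3]
    have h4 : 1 / 2 ≤ (1 + x) / (1 + s) := by
      rw [div_le_div_iff₀ (by norm_num) (by positivity)]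
      linarith
    calc ε / 2 = ε * (1 / 2) := by ring
      _ ≤ (1 - s) / (1 - x) * ((1 + x) / (1 + s)) := by gcongr
  have hpos := sub_pos_of_lt hgr w
  set D := ‖e w - g (pt r t)‖ with hD
  set y := ‖g (pt r t)‖ with hy
  have hy0 : 0 ≤ y := norm_nonneg _
  have hyD : 1 - y ≤ D := by
    have := norm_sub_norm_le (e w) (g (pt r t))
    rwa [norm_e] at this
  have hr2 : 0 < 1 - r := by linarith
  have h5 : ε / 2 ≤ (1 - r) * ((1 - y ^ 2) / D ^ 2) := by
    refine (h1.trans hmono).trans ?_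
    rw [pk]
    have h6 : 0 ≤ (1 - y ^ 2) / D ^ 2 := by
      apply div_nonneg _ (sq_nonneg _)
      nlinarith
    have h7 : (1 - r) / (1 + r) ≤ 1 - r := by
      rw [div_le_iff₀ (by positivity)]
      nlinarith
    exact mul_le_mul_of_nonneg_right h7 h6
  rw [mul_div_assoc', le_div_iff₀ (by positivity)] at h5
  have h8 : 1 - y ^ 2 ≤ 2 * D := by nlinarith
  have h9 : ε / 2 * D ^ 2 ≤ (1 - r) * (2 * D) := h5.trans (by gcongr)
  have h10 : ε * D ≤ 4 * (1 - r) := by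
    by_contra hcon
    push Not at hcon
    nlinarith
  rw [div_mul_eq_mul_div, le_div_iff₀ hε]
  linarith

theorem julia {φ : (Fin d' → ℂ) → (Fin d → ℂ)} (hφ : DifferentiableOn ℂ φ (polydisc d'))
    (hm : MapsTo φ (polydisc d') (polydisc d)) (j : Fin d) (t : Torus d')
    (h : ¬ HasAD φ j t) :
    Tendsto (fun r : ℝ => (1 - r) / (1 - ‖φ (pt r t) j‖)) (𝓝[<] 1) (𝓝 0) := by
  have hg : DifferentiableOn ℂ (fun z => φ z j) (polydisc d') :=
    fun z hz => (differentiableWithinAt_pi.1 (hφ z hz)) j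
  have hmem : Ioo (0 : ℝ) 1 ∈ 𝓝[<] (1 : ℝ) := Ioo_mem_nhdsLT (by norm_num)
  rw [Metric.tendsto_nhds]
  intro ε hε
  by_contra hcon
  rw [Filter.not_eventually] at hcon
  apply h
  have hfreq : ∀ a : ℝ, a < 1 → ∃ s : ℝ, a < s ∧ 0 ≤ s ∧ s < 1 ∧
      ε ≤ (1 - s) / (1 - ‖φ (pt s t) j‖) := by
    intro a ha
    have h1 : ∀ᶠ s : ℝ in 𝓝[<] 1, s ∈ Ioo (max a 0) 1 :=
      Ioo_mem_nhdsLT (max_lt ha one_pos)
    obtain ⟨s, hs1, hs2⟩ := (hcon.and_eventually h1).exists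
    have hs0 : 0 ≤ s := (le_max_right a 0).trans hs2.1.le
    refine ⟨s, lt_of_le_of_lt (le_max_left _ _) hs2.1, hs0, hs2.2, ?_⟩
    rw [Real.dist_eq, sub_zero, not_lt] at hs1
    have hlt := hm (pt_mem hs0 hs2.2 t) j
    rwa [abs_of_nonneg (div_nonneg (by linarith [hs2.2]) (by linarith))] at hs1
  -- compactness of the circle
  set K : Ioo (0 : ℝ) 1 → Set UnitAddCircle := fun r =>
    {w | ‖e w - φ (pt r t) j‖ ≤ 4 / ε * (1 - r)} with hK
  have hKc : ∀ r, IsClosed (K r) := fun r =>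
    isClosed_le ((continuous_e.sub continuous_const).norm) continuous_const
  have hne : (⋂ r, K r).Nonempty := by
    refine CompactSpace.iInter_nonempty hKc ?_
    intro F
    obtain ⟨a, ha1, ha2⟩ : ∃ a : ℝ, a < 1 ∧ ∀ r ∈ F, (r : ℝ) ≤ a := by
      by_cases hF : F.Nonempty
      · refine ⟨F.sup' hF (fun r => (r : ℝ)), ?_, fun r hr => Finset.le_sup' _ hr⟩
        rw [Finset.sup'_lt_iff]
        exact fun r _ => r.2.2
      · rw [Finset.not_nonempty_iff_eq_empty] at hF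
        exact ⟨0, one_pos, by simp [hF]⟩
    obtain ⟨s, hs1, hs2, hs3, hs4⟩ := hfreq a ha1
    obtain ⟨w, hw⟩ := julia_step hg (fun z hz => hm hz j) t hε hs2 hs3 hs4
    refine ⟨w, ?_⟩
    rw [mem_iInter₂]
    intro r hr
    exact hw r r.2.1.le ((ha2 r hr).trans hs1.le)
  obtain ⟨w, hw⟩ := hne
  refine ⟨e w, norm_e w, 4 / ε, fun r hr => ?_⟩
  rw [mem_iInter] at hw
  have := hw ⟨r, hr⟩
  rw [norm_sub_rev]
  exact this

end Pool.Agent.Helper43.Outer
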