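import Pool.Agent.Helper43.Outer.Core
import Pool.Agent.Helper43.Outer.Julia

open MeasureTheory Set Filter Topology Complex Metric ENNReal InnerProductSpace

namespace Pool.Agent.Helper43.Outer

variable {d d' : ℕ}

-- data attached to an outer function: minus its logarithm
theorem neg_log_nharm {d' : ℕ} {f : (Fin d → ℂ) → ℂ} {γ : (Fin d' → ℂ) → (Fin d → ℂ)}
    (hf : DifferentiableOn ℂ f (polydisc d)) (h0 : ∀ z ∈ polydisc d, f z ≠ 0)
    (hγ : DifferentiableOn ℂ γ (polydisc d')) (hm : MapsTo γ (polydisc d') (polydisc d)) :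
    NHarm (fun z => -Real.log ‖f (γ z)‖) := by
  have h1 : DifferentiableOn ℂ (fun z => (f (γ z))⁻¹) (polydisc d') :=
    DifferentiableOn.fun_inv (hf.comp hγ hm) (fun z hz => h0 _ (hm hz))
  have h2 := nharm_log h1 (fun z hz => inv_ne_zero (h0 _ (hm hz)))
  have h3 : (fun z => Real.log ‖(f (γ z))⁻¹‖) = fun z => -Real.log ‖f (γ z)‖ := by
    funext z
    rw [norm_inv, Real.log_inv]
  rwa [h3] at h2

theorem neg_log_nharm' {f : (Fin d → ℂ) → ℂ} (hf : DifferentiableOn ℂ f (polydisc d))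
    (h0 : ∀ z ∈ polydisc d, f z ≠ 0) : NHarm (fun z => -Real.log ‖f z‖) :=
  neg_log_nharm (γ := fun z => z) hf h0 differentiableOn_id (fun _ hz => hz)

theorem outer_rep {p : ℝ≥0∞} {f : (Fin d → ℂ) → ℂ} (hf : IsOuter p f) :
    ∃ h : Torus d → ℝ, Integrable h ∧
      ∀ z ∈ polydisc d, -Real.log ‖f z‖ = ∫ t, P z t * h t := by
  obtain ⟨b, -, hb2, hb3⟩ := hf.2.2
  refine ⟨fun t => -Real.log (b t), hb2.neg, fun z hz => ?_⟩
  rw [hb3 z hz, ← integral_neg]
  congr 1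
  ext t
  ring

theorem bdd_of_mem {f : (Fin d → ℂ) → ℂ} (hf : MemH ∞ f) :
    ∃ M : ℝ, 0 ≤ M ∧ ∀ z ∈ polydisc d, Real.log ‖f z‖ ≤ M := by
  have h1 := hf.2
  unfold hNorm at h1
  rw [if_pos rfl] at h1
  set S := ⨆ z ∈ polydisc d, ‖f z‖ₑ with hS
  refine ⟨max (Real.log S.toReal) 0, le_max_right _ _, fun z hz => ?_⟩
  by_cases h0 : f z = 0
  · rw [h0, norm_zero, Real.log_zero]
    exact le_max_right _ _
  · refine le_trans ?_ (le_max_left _ _)
    refine Real.log_le_log (norm_pos_iff.2 h0) ?_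
    have h2 : ‖f z‖ₑ ≤ S := le_iSup₂ (f := fun (z : Fin d → ℂ) (_ : z ∈ polydisc d) => ‖f z‖ₑ) z hz
    have h3 := ENNReal.toReal_mono h1.ne h2
    simpa using h3

-- the criterion for symbols on the disc
def Crit (φ : (Fin 1 → ℂ) → (Fin d → ℂ)) : Prop :=
  {t | Contact φ t}.Countable ∧ ∀ t, ∀ i j, i ≠ j → ¬ (HasAD φ i t ∧ HasAD φ j t)

theorem exists_index {γ : (Fin 1 → ℂ) → (Fin d → ℂ)} {t : Torus 1} (ht : Contact γ t)
    (hnd : ∀ i j, i ≠ j → ¬ (HasAD γ i t ∧ HasAD γ j t)) :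
    ∃ i, ∀ j, j ≠ i → ¬ HasAD γ j t := by
  by_cases h : ∃ i, HasAD γ i t
  · obtain ⟨i, hi⟩ := h
    exact ⟨i, fun j hj hAD => hnd i j hj.symm ⟨hi, hAD⟩⟩
  · push Not at h
    obtain ⟨i, -, -, -⟩ := ht
    exact ⟨i, fun j _ => h j⟩

theorem setIntegral_le_const {A : Set (Torus 1)} (hA : MeasurableSet A)
    {f : Torus 1 → ℝ} (hf : Integrable f) {M : ℝ} (hM0 : 0 ≤ M) (hM : ∀ t, f t ≤ M) {δ : ℝ}
    (hδ : 0 ≤ δ) (hv : volume A ≤ ENNReal.ofReal δ) : ∫ t in A, f t ≤ M * δ := by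
  calc ∫ t in A, f t ≤ ∫ _t in A, M :=
        setIntegral_mono_on hf.integrableOn (integrable_const _).integrableOn hA fun t _ => hM t
    _ = M * volume.real A := by
        rw [setIntegral_const, smul_eq_mul, mul_comm]
    _ ≤ M * δ := by
        gcongr
        rw [Measure.real]
        calc (volume A).toReal ≤ (ENNReal.ofReal δ).toReal :=
              ENNReal.toReal_mono ENNReal.ofReal_ne_top hv
          _ = δ := ENNReal.toReal_ofReal hδ

-- one disc, bounded outer function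
theorem core_bdd {γ : (Fin 1 → ℂ) → (Fin d → ℂ)} (hγ : DifferentiableOn ℂ γ (polydisc 1))
    (hm : MapsTo γ (polydisc 1) (polydisc d)) (hcrit : Crit γ) {f : (Fin d → ℂ) → ℂ}
    (hf : IsOuter ∞ f) {ε : ℝ} (hε : 0 < ε) :
    ∃ N : ℕ, ∀ k ≥ N, ∀ l ≥ N,
      ∫ t : Torus 1, |(-Real.log ‖f (γ (pt (rad k) t))‖) -
        (-Real.log ‖f (γ (pt (rad l) t))‖)| < ε := by
  obtain ⟨h, hh, hrep⟩ := outer_rep hf
  obtain ⟨M, hM0, hM⟩ := bdd_of_mem hf.1
  have hW := neg_log_nharm hf.1.1 hf.2.1 hγ hm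
  have hV := neg_log_nharm' hf.1.1 hf.2.1
  have hneg : ∀ k (t : Torus 1), max (-(-Real.log ‖f (γ (pt (rad k) t))‖)) 0 ≤ M := by
    intro k t
    rw [neg_neg]
    exact max_le (hM _ (hm (pt_mem (rad_pos k).le (rad_lt k) t))) hM0
  have hc : ∀ k, Integrable (fun t : Torus 1 =>
      max (-(-Real.log ‖f (γ (pt (rad k) t))‖)) 0) := fun k =>
    cont_int ((dil_cont hW.1 (rad_pos k).le (rad_lt k)).neg.max continuous_const)
  refine core (V := fun z => -Real.log ‖f z‖) hγ hm hW hh hrep hcrit.1 (B := M) ?_ ?_ ?_ hε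
  · intro ε' hε'
    refine ⟨ε' / (M + 1), by positivity, 0, fun k _ A hA hv => ?_⟩
    refine (setIntegral_le_const hA (hc k) hM0 (hneg k) (by positivity) hv).trans ?_
    rw [mul_div_assoc', div_le_iff₀ (by positivity)]
    nlinarith
  · refine ⟨0, fun k _ => ?_⟩
    have h1 : ∫ t : Torus 1, max (-(-Real.log ‖f (γ (pt (rad k) t))‖)) 0 ≤
        ∫ _t : Torus 1, M := integral_mono (hc k) (integrable_const _) (hneg k)
    simpa using h1
  · intro t ht ε' hε'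
    obtain ⟨i, hi⟩ := exists_index ht (hcrit.2 t)
    obtain ⟨c, hc0, hcl⟩ := exists_low hm
    refine no_atom hγ hm hV hh hrep t i (fun _ => M) (fun _ _ => hM0) hcl hc0 ?_ ?_ ?_ hε'
    · intro r hr z hz
      have hzm : z ∈ polydisc d := by
        intro j
        have h1 := hz j
        have h2 : 0 < c * (1 - r) / 2 := by
          have : 0 < 1 - r := by linarith [hr.2]
          positivity
        linarith
      have := hM z hzm
      linarith
    · have h1 : Tendsto (fun r : ℝ => (1 - r) * (1 + M)) (𝓝 1) (𝓝 ((1 - 1) * (1 + M))) := by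
        apply Continuous.tendsto
        fun_prop
      rw [sub_self, zero_mul] at h1
      exact h1.mono_left nhdsWithin_le_nhds
    · intro j hj
      have := (julia hγ hm j t (hi j hj)).mul_const (1 + M)
      rwa [zero_mul] at this

theorem limit_exists {U : (Fin d' → ℂ) → ℝ} (hU : ContinuousOn U (polydisc d'))
    (hcau : ∀ ε : ℝ, 0 < ε → ∃ N : ℕ, ∀ k ≥ N, ∀ l ≥ N,
      ∫ t : Torus d', |U (pt (rad k) t) - U (pt (rad l) t)| < ε) :
    ∃ v : Torus d' → ℝ, Integrable v ∧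
      Tendsto (fun k => ∫ t, |U (pt (rad k) t) - v t|) atTop (𝓝 0) := by
  obtain ⟨v, hv, hl⟩ := l1_complete (fun k (t : Torus d') => U (pt (rad k) t))
    (fun k => cont_int (dil_cont hU (rad_pos k).le (rad_lt k)))
    (by simpa only [Real.norm_eq_abs] using hcau)
  exact ⟨v, hv, by simpa only [Real.norm_eq_abs] using hl⟩

theorem outer_of_cauchy {p q : ℝ≥0∞} {ψ : (Fin d' → ℂ) → ℂ}
    {φ : (Fin d' → ℂ) → (Fin d → ℂ)} (h : Symbol p q ψ φ) (hψ : IsOuter q ψ)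
    {f : (Fin d → ℂ) → ℂ} (hf : IsOuter p f)
    (hcau : ∀ ε : ℝ, 0 < ε → ∃ N : ℕ, ∀ k ≥ N, ∀ l ≥ N,
      ∫ t : Torus d', |(-Real.log ‖f (φ (pt (rad k) t))‖) -
        (-Real.log ‖f (φ (pt (rad l) t))‖)| < ε) : IsOuter q (wco ψ φ f) := by
  have hU := neg_log_nharm hf.1.1 hf.2.1 h.phi h.maps
  obtain ⟨v, hv, hl⟩ := limit_exists hU.1 hcau
  refine outer_of_limit h hψ hf (v := fun t => -v t) hv.neg rad (fun k => (rad_pos k).le)
    rad_lt rad_lim ?_
  refine hl.congr fun k => ?_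
  congr 1
  ext t
  rw [← abs_neg]
  congr 1
  ring

-- one variable target, bounded functions, countably many contact points
theorem preserves_infty {q : ℝ≥0∞} {ψ : (Fin 1 → ℂ) → ℂ} {φ : (Fin 1 → ℂ) → (Fin d → ℂ)}
    (h : Symbol ∞ q ψ φ) (hcount : {t | Contact φ t}.Countable) :
    PreservesOuter ∞ q ψ φ ↔
      IsOuter q ψ ∧ ∀ t, ∀ i j, i ≠ j → ¬ (HasAD φ i t ∧ HasAD φ j t) := by
  constructor
  · intro hT
    exact ⟨psi_outer hT, fun t i j hij => necessity h hT t hij⟩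
  · rintro ⟨hψ, hnd⟩ f hf
    exact outer_of_cauchy h hψ hf fun ε hε => core_bdd h.phi h.maps ⟨hcount, hnd⟩ hf hε

end Pool.Agent.Helper43.Outer
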