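import Pool.Agent.Helper43.Outer.Bad
import Pool.Agent.Helper43.Outer.Infty

open MeasureTheory Set Filter Topology Complex Metric ENNReal InnerProductSpace

namespace Pool.Agent.Helper43.Outer

variable {d d' : ℕ}

-- dilates of Poisson integrals converge in L1
theorem dil_conv {U : (Fin d → ℂ) → ℝ} {v : Torus d → ℝ} (hv : Integrable v)
    (hU : ∀ z ∈ polydisc d, U z = ∫ t, P z t * v t) :
    ∃ w : Torus d → ℝ, Integrable w ∧
      Tendsto (fun k => ∫ t, |U (pt (rad k) t) - w t|) atTop (𝓝 0) := by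
  obtain ⟨w, hw, hl⟩ := limit_of_kernel (φ := fun z : Fin d → ℂ => z) differentiableOn_id
    (fun _ hz => hz) univ (C := 1) zero_le_one (fun r hr hr1 w => by
      rw [Measure.restrict_univ]
      simp_rw [P_symm _ w]
      exact (integral_P (pt_mem hr hr1 w)).le) (f := U) hv hU rad
    (fun k => (rad_pos k).le) rad_lt rad_lim
  simp only [Measure.restrict_univ] at hl
  rw [integrableOn_univ] at hw
  exact ⟨w, hw, hl⟩

-- a subsequence converges almost everywhere
theorem ae_subseq {α : Type*} [MeasurableSpace α] {μ : Measure α} {u : ℕ → α → ℝ} {w : α → ℝ}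
    (hu : ∀ k, Integrable (u k) μ) (hw : Integrable w μ)
    (hlim : Tendsto (fun k => ∫ t, |u k t - w t| ∂μ) atTop (𝓝 0)) :
    ∃ ns : ℕ → ℕ, StrictMono ns ∧ ∀ᵐ t ∂μ, Tendsto (fun k => u (ns k) t) atTop (𝓝 (w t)) := by
  have hmeas : TendstoInMeasure μ u atTop w := by
    refine tendstoInMeasure_of_tendsto_eLpNorm (p := 1) one_ne_zero
      (fun k => (hu k).aestronglyMeasurable) hw.aestronglyMeasurable ?_
    have h3 : ∀ k, eLpNorm (u k - w) 1 μ = ENNReal.ofReal (∫ t, |u k t - w t| ∂μ) := by
      intro k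
      rw [eLpNorm_one_eq_lintegral_enorm]
      have h5 := ofReal_integral_norm_eq_lintegral_enorm ((hu k).sub hw)
      simp only [Pi.sub_apply, Real.norm_eq_abs] at h5
      rw [h5]
      rfl
    simp_rw [h3]
    have := (ENNReal.continuous_ofReal.tendsto 0).comp hlim
    rw [ENNReal.ofReal_zero] at this
    exact this
  exact hmeas.exists_seq_tendsto_ae

-- bounded holomorphic functions whose logarithm is dominated by a Poisson integral
theorem dominated {G : (Fin d → ℂ) → ℂ} (hG : DifferentiableOn ℂ G (polydisc d))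
    (hG0 : ∀ z ∈ polydisc d, G z ≠ 0) (hG1 : ∀ z ∈ polydisc d, ‖G z‖ ≤ 1)
    {v : Torus d → ℝ} (hv : Integrable v)
    (hdom : ∀ z ∈ polydisc d, -Real.log ‖G z‖ ≤ ∫ t, P z t * v t) :
    ∃ w : Torus d → ℝ, Integrable w ∧
      Tendsto (fun k => ∫ t, |(-Real.log ‖G (pt (rad k) t)‖) - w t|) atTop (𝓝 0) ∧
      ∀ z ∈ polydisc d, -Real.log ‖G z‖ = ∫ t, P z t * w t := by
  obtain ⟨g, hg⟩ := hol_bdd_radial hG hG1
  obtain ⟨v', hv', hlim⟩ := dil_conv hv (U := fun z => ∫ t, P z t * v t) (fun _ _ => rfl)
  have hN : NHarm (fun z => -Real.log ‖G z‖) :=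
    neg_log_nharm' hG hG0
  have hUc : ∀ k, Continuous (fun t : Torus d => -Real.log ‖G (pt (rad k) t)‖) := fun k =>
    dil_cont hN.1 (rad_pos k).le (rad_lt k)
  have hVi : ∀ k, Integrable (fun t : Torus d => ∫ s, P (pt (rad k) t) s * v s) := by
    intro k
    have hgd : Good (volume : Measure (Torus d)) (fun t : Torus d => pt (rad k) t) 1 := by
      have hr := (rad_pos k).le
      have hr1 := rad_lt k
      refine ⟨(pt_cont.comp (by fun_prop : Continuous fun t : Torus d => (rad k, t))).measurable,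
        fun t => pt_mem hr hr1 t, fun t => ?_⟩
      have hc : Continuous (fun s : Torus d => P (pt (rad k) s) t) :=
        ker_cont (φ := fun z : Fin d → ℂ => z) differentiableOn_id (fun _ hz => hz) hr hr1 t
      rw [← ofReal_integral_eq_lintegral_ofReal (cont_int hc)
        (ae_of_all _ fun s => (P_pos (pt_mem hr hr1 s) t).le)]
      refine ENNReal.ofReal_le_ofReal ?_
      simp_rw [P_symm _ t]
      exact (integral_P (pt_mem hr hr1 t)).le
    have h1 := (hgd.intA (u := fun t => (v t : ℂ)) hv.ofReal).re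
    refine h1.congr (ae_of_all _ fun t => ?_)
    have h3 : A (fun t : Torus d => pt (rad k) t) (fun t => (v t : ℂ)) t =
        ((∫ s, P (pt (rad k) t) s * v s : ℝ) : ℂ) := by
      rw [A, ← integral_complex_ofReal]
      congr 1
      ext s
      push_cast
      ring
    simp only
    rw [h3]
    simp
  obtain ⟨ns, hns, hsub⟩ := ae_subseq hVi hv' hlim
  have hradlim : Tendsto rad atTop (𝓝[<] 1) :=
    tendsto_nhdsWithin_iff.2 ⟨rad_lim, Eventually.of_forall rad_lt⟩
  have hdk : ∀ k (t : Torus d), -Real.log ‖G (pt (rad k) t)‖ ≤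
      ∫ s, P (pt (rad k) t) s * v s := fun k t =>
    hdom _ (pt_mem (rad_pos k).le (rad_lt k) t)
  have hU0 : ∀ k (t : Torus d), 0 ≤ -Real.log ‖G (pt (rad k) t)‖ := by
    intro k t
    have hz := pt_mem (rad_pos k).le (rad_lt k) t
    have := Real.log_nonpos (norm_nonneg _) (hG1 _ hz)
    linarith
  -- boundary values
  have hw : ∀ᵐ t : Torus d, Tendsto (fun k => -Real.log ‖G (pt (rad k) t)‖) atTop
      (𝓝 (-Real.log ‖g t‖)) ∧ -Real.log ‖g t‖ ≤ v' t ∧ 0 ≤ -Real.log ‖g t‖ := by
    filter_upwards [hg, hsub] with t ht1 ht2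
    have h1 : Tendsto (fun k => ‖G (pt (rad k) t)‖) atTop (𝓝 ‖g t‖) :=
      (ht1.comp hradlim).norm
    have hpos : 0 < ‖g t‖ := by
      have h2 : Tendsto (fun k => ‖G (pt (rad (ns k)) t)‖) atTop (𝓝 ‖g t‖) :=
        h1.comp hns.tendsto_atTop
      have h3 : Tendsto (fun k => Real.exp (-∫ s, P (pt (rad (ns k)) t) s * v s)) atTop
          (𝓝 (Real.exp (-v' t))) := (Real.continuous_exp.tendsto _).comp ht2.neg
      have h4 : Real.exp (-v' t) ≤ ‖g t‖ := by
        refine le_of_tendsto_of_tendsto' h3 h2 fun k => ?_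
        have hz := pt_mem (rad_pos (ns k)).le (rad_lt (ns k)) t
        have h5 := hdk (ns k) t
        rw [← Real.exp_log (norm_pos_iff.2 (hG0 _ hz))]
        exact Real.exp_le_exp.2 (by linarith)
      exact lt_of_lt_of_le (Real.exp_pos _) h4
    have h6 : Tendsto (fun k => -Real.log ‖G (pt (rad k) t)‖) atTop (𝓝 (-Real.log ‖g t‖)) :=
      (h1.log hpos.ne').neg
    refine ⟨h6, ?_, ge_of_tendsto' h6 fun k => hU0 k t⟩
    exact le_of_tendsto_of_tendsto' (h6.comp hns.tendsto_atTop) ht2 fun k => hdk (ns k) t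
  set w : Torus d → ℝ := fun t => -Real.log ‖g t‖ with hwdef
  have hwm : AEStronglyMeasurable w volume :=
    aestronglyMeasurable_of_tendsto_ae atTop (fun k => (cont_int (hUc k)).aestronglyMeasurable)
      (hw.mono fun t ht => ht.1)
  have hwi : Integrable w := by
    refine hv'.norm.mono' hwm ?_
    filter_upwards [hw] with t ht
    rw [Real.norm_eq_abs, Real.norm_eq_abs, abs_of_nonneg ht.2.2]
    exact ht.2.1.trans (le_abs_self _)
  -- L1 convergence
  have hL1 : Tendsto (fun k => ∫ t, |(-Real.log ‖G (pt (rad k) t)‖) - w t|) atTop (𝓝 0) := by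
    have hmi : ∀ k, Integrable (fun t : Torus d => min (-Real.log ‖G (pt (rad k) t)‖) (v' t)) :=
      fun k => (cont_int (hUc k)).inf hv'
    have hA : Tendsto (fun k => ∫ t, |min (-Real.log ‖G (pt (rad k) t)‖) (v' t) - w t|) atTop
        (𝓝 (∫ _t : Torus d, (0 : ℝ))) := by
      refine tendsto_integral_of_dominated_convergence (fun t => |v' t| + |w t|)
        (fun k => ((hmi k).sub hwi).abs.aestronglyMeasurable) (hv'.abs.add hwi.abs) ?_ ?_
      · intro k
        refine ae_of_all _ fun t => ?_
        rw [Real.norm_eq_abs, abs_abs]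
        have h1 := hU0 k t
        have h2 : |min (-Real.log ‖G (pt (rad k) t)‖) (v' t)| ≤ |v' t| := by
          rw [abs_le]
          constructor
          · refine le_min ?_ (neg_abs_le _)
            have := abs_nonneg (v' t)
            linarith
          · exact (min_le_right _ _).trans (le_abs_self _)
        have h3 := abs_sub (min (-Real.log ‖G (pt (rad k) t)‖) (v' t)) (w t)
        linarith
      · filter_upwards [hw] with t ht
        have h1 : Tendsto (fun k => min (-Real.log ‖G (pt (rad k) t)‖) (v' t)) atTop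
            (𝓝 (min (w t) (v' t))) := ht.1.min tendsto_const_nhds
        rw [min_eq_left ht.2.1] at h1
        have h2 := (h1.sub_const (w t)).abs
        rw [sub_self, abs_zero] at h2
        exact h2
    rw [integral_zero] at hA
    have hB := hA.add hlim
    rw [add_zero] at hB
    refine squeeze_zero (fun k => integral_nonneg fun _ => abs_nonneg _) (fun k => ?_) hB
    have hadd := integral_add ((hmi k).sub hwi).abs ((hVi k).sub hv').abs
    simp only [Pi.sub_apply] at hadd
    rw [← hadd]
    refine integral_mono ((cont_int (hUc k)).sub hwi).abs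
      (((hmi k).sub hwi).abs.add ((hVi k).sub hv').abs) fun t => ?_
    simp only [Pi.sub_apply]
    have h1 := hdk k t
    rcases le_total (-Real.log ‖G (pt (rad k) t)‖) (v' t) with h2 | h2
    · rw [min_eq_left h2]
      have := abs_nonneg ((∫ s, P (pt (rad k) t) s * v s) - v' t)
      linarith
    · rw [min_eq_right h2]
      have h3 : |(-Real.log ‖G (pt (rad k) t)‖) - w t| ≤
          |(-Real.log ‖G (pt (rad k) t)‖) - v' t| + |v' t - w t| := abs_sub_le _ _ _
      have h4 : |(-Real.log ‖G (pt (rad k) t)‖) - v' t| ≤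
          |(∫ s, P (pt (rad k) t) s * v s) - v' t| := by
        rw [abs_of_nonneg (by linarith), abs_of_nonneg (by linarith)]
        linarith
      linarith
  refine ⟨w, hwi, hL1, fun z hz => ?_⟩
  exact poisson_of_limit hN hwi rad (fun k => (rad_pos k).le) rad_lt rad_lim hL1 hz

end Pool.Agent.Helper43.Outer
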