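import Pool.Agent.Helper43.Outer.Kernel

open MeasureTheory Set Filter Topology Complex Metric ENNReal InnerProductSpace

namespace Pool.Agent.Helper43.Outer

variable {d d' : ℕ}

-- the Herglotz representation of positive pluriharmonic functions
theorem herglotz {V : (Fin d → ℂ) → ℝ} (hV : NHarm V) (hpos : ∀ z ∈ polydisc d, 0 ≤ V z) :
    ∃ ν : Measure (Torus d), IsFiniteMeasure ν ∧ ∀ z ∈ polydisc d, V z = ∫ t, P z t ∂ν := by
  have hc : ∀ k, Continuous (fun t : Torus d => V (pt (rad k) t)) := fun k =>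
    dil_cont hV.1 (rad_pos k).le (rad_lt k)
  have h0 : ∀ k (t : Torus d), 0 ≤ V (pt (rad k) t) := fun k t =>
    hpos _ (pt_mem (rad_pos k).le (rad_lt k) t)
  set μ : ℕ → Measure (Torus d) := fun k =>
    (volume : Measure (Torus d)).withDensity (fun t => ENNReal.ofReal (V (pt (rad k) t))) with hμ
  have hmass : ∀ k, μ k univ = ENNReal.ofReal (V 0) := by
    intro k
    simp only [hμ]
    rw [withDensity_apply _ MeasurableSet.univ, Measure.restrict_univ,
      ← ofReal_integral_eq_lintegral_ofReal (cont_int (hc k)) (ae_of_all _ (h0 k)),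
      mean_value hV (rad_pos k).le (rad_lt k)]
  have hfin : ∀ k, IsFiniteMeasure (μ k) := fun k => ⟨by
    rw [hmass k]
    exact ENNReal.ofReal_lt_top⟩
  set m : ℕ → FiniteMeasure (Torus d) := fun k => ⟨μ k, hfin k⟩ with hm
  have hK := isCompact_setOfPred_finiteMeasure_le_of_compactSpace (Torus d) (V 0).toNNReal
  obtain ⟨ν, -, hν⟩ := hK.ultrafilter_le_nhds' ((hyperfilter ℕ).map m) (by
    refine Ultrafilter.mem_map.2 (Eventually.of_forall fun k => ?_)
    have h1 : ((m k).mass : ℝ≥0∞) = ENNReal.ofReal (V 0) := by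
      rw [FiniteMeasure.ennreal_mass]
      exact hmass k
    have h2 : ((m k).mass : ℝ≥0∞) ≤ ((V 0).toNNReal : ℝ≥0∞) := by
      rw [h1]
      rfl
    exact ENNReal.coe_le_coe.1 h2)
  have hν' : Tendsto m (hyperfilter ℕ : Filter ℕ) (𝓝 ν) := hν
  refine ⟨(ν : Measure (Torus d)), inferInstance, fun z hz => ?_⟩
  have h1 := (FiniteMeasure.tendsto_iff_forall_integral_tendsto.1 hν')
    (BoundedContinuousFunction.mkOfCompact ⟨P z, P_cont hz⟩)
  simp only [BoundedContinuousFunction.mkOfCompact_apply, ContinuousMap.coe_mk] at h1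
  have h2 : ∀ k, ∫ t, P z t ∂(m k : Measure (Torus d)) = V (fun i => rad k * z i) := by
    intro k
    change ∫ t, P z t ∂(μ k) = _
    simp only [hμ]
    rw [integral_withDensity_eq_integral_toReal_smul
      (f := fun t => ENNReal.ofReal (V (pt (rad k) t))) (hc k).measurable.ennreal_ofReal
      (ae_of_all _ fun t => ENNReal.ofReal_lt_top),
      ← nharm_poisson hV (rad_pos k).le (rad_lt k) hz]
    congr 1
    ext t
    rw [ENNReal.toReal_ofReal (h0 k t), smul_eq_mul, mul_comm]
  simp_rw [h2] at h1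
  have h3 : Tendsto (fun k => V (fun i => rad k * z i)) atTop (𝓝 (V z)) := by
    have hz2 : Tendsto (fun k => (fun i => (rad k : ℂ) * z i)) atTop (𝓝 z) := by
      rw [tendsto_pi_nhds]
      intro i
      have : Tendsto (fun k => (rad k : ℂ)) atTop (𝓝 (1 : ℝ)) :=
        (Complex.continuous_ofReal.tendsto 1).comp rad_lim
      simpa using this.mul_const (z i)
    exact ((hV.1.continuousAt ((isOpen_polydisc d).mem_nhds hz)).tendsto).comp hz2
  exact tendsto_nhds_unique (h3.mono_left Nat.hyperfilter_le_atTop) h1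

end Pool.Agent.Helper43.Outer
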