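import Pool.Agent.Helper43.Outer.CutO
import Pool.Agent.Helper43.Outer.Dom
import Pool.Agent.Helper43.Outer.Herg

open MeasureTheory Set Filter Topology Complex Metric ENNReal InnerProductSpace

namespace Pool.Agent.Helper43.Outer

variable {d d' : ℕ}

-- composition of a positive harmonic function with a map all of whose Clark measures are
-- absolutely continuous
theorem herg_comp {Φ : (Fin d' → ℂ) → ℂ} (hΦ : DifferentiableOn ℂ Φ (polydisc d'))
    (hΦm : ∀ z ∈ polydisc d', ‖Φ z‖ < 1)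
    (hAC : ∀ α : UnitAddCircle, ∃ v : Torus d' → ℝ, Integrable v ∧
      ∀ z ∈ polydisc d', pk (Φ z) α = ∫ t, P z t * v t)
    {V : (Fin 1 → ℂ) → ℝ} (hV : NHarm V) (hpos : ∀ z ∈ polydisc 1, 0 ≤ V z)
    (hN : NHarm (fun z : Fin d' → ℂ => V (fun _ => Φ z))) :
    ∃ w : Torus d' → ℝ, Integrable w ∧
      ∀ z ∈ polydisc d', V (fun _ => Φ z) = ∫ t, P z t * w t := by
  obtain ⟨ν, hν, hrep⟩ := herglotz hV hpos
  have hmem : ∀ z ∈ polydisc d', (fun _ : Fin 1 => Φ z) ∈ polydisc 1 := fun z hz _ => hΦm z hz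
  have hcΦ : ∀ k, Continuous (fun t : Torus d' => Φ (pt (rad k) t)) := by
    intro k
    refine hΦ.continuousOn.comp_continuous (f := fun t : Torus d' => pt (rad k) t) ?_ ?_
    · exact pt_cont.comp (by fun_prop : Continuous fun t : Torus d' => ((rad k : ℝ), t))
    · exact fun t => pt_mem (rad_pos k).le (rad_lt k) t
  have hKc : ∀ k, Continuous (fun x : Torus d' × Torus 1 =>
      pk (Φ (pt (rad k) x.1)) (x.2 0)) := by
    intro k
    have h1 : Continuous (fun x : Torus d' × Torus 1 => Φ (pt (rad k) x.1)) :=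
      (hcΦ k).comp continuous_fst
    have h2 : Continuous (fun x : Torus d' × Torus 1 => e (x.2 0)) :=
      continuous_e.comp ((continuous_apply 0).comp continuous_snd)
    unfold pk
    refine (continuous_const.sub (h1.norm.pow 2)).div ((h2.sub h1).norm.pow 2) fun x => ?_
    have := sub_pos_of_lt (hΦm _ (pt_mem (rad_pos k).le (rad_lt k) x.1)) (x.2 0)
    positivity
  set F : ℕ × ℕ → Torus d' × Torus 1 → ℝ := fun p x =>
    |pk (Φ (pt (rad p.1) x.1)) (x.2 0) - pk (Φ (pt (rad p.2) x.1)) (x.2 0)| with hF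
  have hFc : ∀ p, Continuous (F p) := fun p => ((hKc p.1).sub (hKc p.2)).abs
  have hFi : ∀ p, Integrable (F p) ((volume : Measure (Torus d')).prod ν) := fun p =>
    (hFc p).integrable_of_hasCompactSupport (HasCompactSupport.of_compactSpace _)
  have hcont1 : ∀ k (α : Torus 1), Continuous (fun t : Torus d' =>
      pk (Φ (pt (rad k) t)) (α 0)) := by
    intro k α
    unfold pk
    refine (continuous_const.sub ((hcΦ k).norm.pow 2)).div
      ((continuous_const.sub (hcΦ k)).norm.pow 2) fun t => ?_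
    have := sub_pos_of_lt (hΦm _ (pt_mem (rad_pos k).le (rad_lt k) t)) (α 0)
    positivity
  set g : ℕ × ℕ → Torus 1 → ℝ := fun p α => ∫ t, F p (t, α) with hg
  have hg0 : ∀ p α, 0 ≤ g p α := fun p α => integral_nonneg fun t => abs_nonneg _
  have hglim : ∀ α, Tendsto (fun p => g p α) atTop (𝓝 0) := by
    intro α
    obtain ⟨v, hv, hvr⟩ := hAC (α 0)
    obtain ⟨w, hw, hl⟩ := dil_conv hv (U := fun z => pk (Φ z) (α 0)) hvr
    have h1 : Tendsto (fun p : ℕ × ℕ => (∫ t : Torus d', |pk (Φ (pt (rad p.1) t)) (α 0) - w t|) +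
        ∫ t : Torus d', |pk (Φ (pt (rad p.2) t)) (α 0) - w t|) atTop (𝓝 (0 + 0)) := by
      rw [← prod_atTop_atTop_eq]
      exact (hl.comp tendsto_fst).add (hl.comp tendsto_snd)
    rw [add_zero] at h1
    refine squeeze_zero (fun p => hg0 p α) (fun p => ?_) h1
    have i1 := cont_int (hcont1 p.1 α)
    have i2 := cont_int (hcont1 p.2 α)
    have h2 := l1_tri i1 hw i2
    simp only [Real.norm_eq_abs] at h2
    have h3 : ∫ t : Torus d', |w t - pk (Φ (pt (rad p.2) t)) (α 0)| =
        ∫ t : Torus d', |pk (Φ (pt (rad p.2) t)) (α 0) - w t| := by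
      congr 1
      ext t
      exact abs_sub_comm _ _
    rw [h3] at h2
    exact h2
  have hgbd : ∀ p α, g p α ≤ 2 * ((1 + ‖Φ 0‖) / (1 - ‖Φ 0‖)) := by
    intro p α
    have hpk := nharm_pk hΦ hΦm (α 0)
    have h0 : (0 : Fin d' → ℂ) ∈ polydisc d' := fun i => by simp
    have h1 : g p α ≤ ∫ t : Torus d', (pk (Φ (pt (rad p.1) t)) (α 0) +
        pk (Φ (pt (rad p.2) t)) (α 0)) := by
      refine integral_mono (((cont_int (hcont1 p.1 α)).sub (cont_int (hcont1 p.2 α))).abs)
        ((cont_int (hcont1 p.1 α)).add (cont_int (hcont1 p.2 α))) fun t => ?_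
      have h3 := (pk_pos (hΦm _ (pt_mem (rad_pos p.1).le (rad_lt p.1) t)) (α 0)).le
      have h4 := (pk_pos (hΦm _ (pt_mem (rad_pos p.2).le (rad_lt p.2) t)) (α 0)).le
      simp only [hF]
      rw [abs_le]
      constructor <;> linarith
    rw [integral_add (cont_int (hcont1 p.1 α)) (cont_int (hcont1 p.2 α)),
      mean_value hpk (rad_pos _).le (rad_lt _), mean_value hpk (rad_pos _).le (rad_lt _)] at h1
    have h5 := pk_le (hΦm 0 h0) (α 0)
    linarith
  have hG : Tendsto (fun p => ∫ α, g p α ∂ν) atTop (𝓝 (∫ _α : Torus 1, (0 : ℝ) ∂ν)) := by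
    refine tendsto_integral_filter_of_dominated_convergence
      (fun _ => 2 * ((1 + ‖Φ 0‖) / (1 - ‖Φ 0‖))) ?_ ?_ (integrable_const _)
      (ae_of_all _ hglim)
    · exact Eventually.of_forall fun p => (hFi p).integral_prod_right.aestronglyMeasurable
    · refine Eventually.of_forall fun p => ae_of_all _ fun α => ?_
      rw [Real.norm_eq_abs, abs_of_nonneg (hg0 p α)]
      exact hgbd p α
  rw [integral_zero] at hG
  have huv : ∀ k (t : Torus d'), V (fun _ => Φ (pt (rad k) t)) =
      ∫ α, pk (Φ (pt (rad k) t)) (α 0) ∂ν := by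
    intro k t
    rw [hrep _ (hmem _ (pt_mem (rad_pos k).le (rad_lt k) t))]
    congr 1
    ext α
    rw [P_one']
  have hui : ∀ k (t : Torus d'), Integrable (fun α : Torus 1 =>
      pk (Φ (pt (rad k) t)) (α 0)) ν := by
    intro k t
    have h3 : Continuous (fun α : Torus 1 => pk (Φ (pt (rad k) t)) (α 0)) :=
      (pk_cont (hΦm _ (pt_mem (rad_pos k).le (rad_lt k) t))).comp (continuous_apply 0)
    exact h3.integrable_of_hasCompactSupport (HasCompactSupport.of_compactSpace _)
  have hle : ∀ p : ℕ × ℕ, ∫ t : Torus d', |V (fun _ => Φ (pt (rad p.1) t)) -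
      V (fun _ => Φ (pt (rad p.2) t))| ≤ ∫ α, g p α ∂ν := by
    intro p
    have h1 : ∫ α, g p α ∂ν = ∫ t, ∫ α, F p (t, α) ∂ν := by
      simp only [hg]
      exact (integral_integral_swap (f := fun t α => F p (t, α)) (hFi p)).symm
    rw [h1]
    refine integral_mono (cont_int ((dil_cont hN.1 (rad_pos _).le (rad_lt _)).sub
      (dil_cont hN.1 (rad_pos _).le (rad_lt _)))).abs (hFi p).integral_prod_left fun t => ?_
    simp only
    rw [huv, huv, ← integral_sub (hui _ t) (hui _ t)]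
    exact abs_integral_le_integral_abs
  obtain ⟨w, hw, hl⟩ := limit_exists (U := fun z : Fin d' → ℂ => V (fun _ => Φ z)) hN.1 (by
    intro ε hε
    rw [Metric.tendsto_atTop] at hG
    obtain ⟨⟨N1, N2⟩, hN'⟩ := hG ε hε
    refine ⟨max N1 N2, fun k hk l hl => ?_⟩
    have h1 := hN' (k, l) ⟨(le_max_left _ _).trans hk, (le_max_right _ _).trans hl⟩
    rw [Real.dist_eq, sub_zero] at h1
    exact lt_of_le_of_lt (hle (k, l)) (lt_of_le_of_lt (le_abs_self _) h1))
  exact ⟨w, hw, fun z hz => poisson_of_limit hN hw rad (fun k => (rad_pos k).le) rad_lt rad_lim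
    hl hz⟩

end Pool.Agent.Helper43.Outer
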