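import Pool.Agent.Helper43.Outer.Slices

open MeasureTheory Set Filter Topology Complex Metric ENNReal InnerProductSpace

namespace Pool.Agent.Helper43.Outer

variable {d d' : ℕ}

theorem mean1 {g : ℂ → ℂ} (hg : DifferentiableOn ℂ g (ball 0 1))
    (hm : ∀ z : ℂ, ‖z‖ < 1 → ‖g z‖ < 1) {r : ℝ} (hr : 0 ≤ r) (hr1 : r < 1) (w : UnitAddCircle) :
    ∫ s : UnitAddCircle, pk (g (r * e s)) w = pk (g 0) w := by
  have hgd : DifferentiableOn ℂ (fun z : Fin 1 → ℂ => g (z 0)) (polydisc 1) := by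
    refine hg.comp (g := g) (f := fun z : Fin 1 → ℂ => z 0) ?_ ?_
    · fun_prop
    · intro z hz
      simpa using hz 0
  have hN : NHarm (fun z : Fin 1 → ℂ => pk (g (z 0)) w) :=
    nharm_pk hgd (fun z hz => hm _ (hz 0)) w
  have h1 := mean_value hN hr hr1
  have hc : Continuous (fun s : UnitAddCircle => pk (g (r * e s)) w) := by
    have hn : ∀ s : UnitAddCircle, ‖(r : ℂ) * e s‖ < 1 := fun s => by
      rw [norm_re hr]
      exact hr1
    have h5 : Continuous (fun s : UnitAddCircle => g (r * e s)) :=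
      hg.continuousOn.comp_continuous (continuous_const.mul continuous_e)
        (fun s => by simpa using hn s)
    unfold pk
    refine (continuous_const.sub (h5.norm.pow 2)).div ((continuous_const.sub h5).norm.pow 2)
      (fun s => ?_)
    have := sub_pos_of_lt (hm _ (hn s)) w
    positivity
  have h2 := int_eval (fun s => pk (g (r * e s)) w) hc
  rw [← h2]
  exact h1

-- product maps have bounded kernels
theorem prod_kernel {H : Fin d → ℂ → ℂ} (hH : ∀ k, DifferentiableOn ℂ (H k) (ball 0 1))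
    (hm : ∀ k, ∀ z : ℂ, ‖z‖ < 1 → ‖H k z‖ < 1) :
    ∃ C : ℝ, ∀ r : ℝ, 0 ≤ r → r < 1 → ∀ w : Torus d,
      ∫ t : Torus d, P (fun k => H k (pt r t k)) w ≤ C := by
  refine ⟨∏ k, (1 + ‖H k 0‖) / (1 - ‖H k 0‖), fun r hr hr1 w => ?_⟩
  have h1 : ∀ t : Torus d, P (fun k => H k (pt r t k)) w =
      ∏ k, pk (H k (r * e (t k))) (w k) := fun t => rfl
  simp_rw [h1]
  rw [MeasureTheory.integral_fintype_prod_volume_eq_prod
    (fun k s => pk (H k (r * e s)) (w k))]
  refine Finset.prod_le_prod (fun k _ => ?_) fun k _ => ?_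
  · rw [mean1 (hH k) (hm k) hr hr1]
    exact (pk_pos (hm k 0 (by simp)) _).le
  · rw [mean1 (hH k) (hm k) hr hr1]
    exact pk_le (hm k 0 (by simp)) _

theorem prod_symbol {H : Fin d → ℂ → ℂ} (hH : ∀ k, DifferentiableOn ℂ (H k) (ball 0 1))
    (hm : ∀ k, ∀ z : ℂ, ‖z‖ < 1 → ‖H k z‖ < 1) :
    Symbol ∞ ∞ (fun _ : Fin d → ℂ => (1 : ℂ)) (fun (z : Fin d → ℂ) k => H k (z k)) := by
  have hmaps : MapsTo (fun (z : Fin d → ℂ) k => H k (z k)) (polydisc d) (polydisc d) :=
    fun z hz k => hm k _ (hz k)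
  refine ⟨differentiableOn_const _, ?_, hmaps, 1, ENNReal.one_lt_top, fun f _ => ?_⟩
  · rw [differentiableOn_pi]
    intro k
    refine (hH k).comp (g := H k) (f := fun z : Fin d → ℂ => z k) ?_ ?_
    · fun_prop
    · intro z hz
      simpa using hz k
  · rw [one_mul]
    unfold hNorm
    rw [if_pos rfl, if_pos rfl]
    refine iSup₂_le fun z hz => ?_
    simp only [wco, one_mul]
    exact le_iSup₂ (f := fun (z : Fin d → ℂ) (_ : z ∈ polydisc d) => ‖f z‖ₑ)
      (fun k => H k (z k)) (hmaps hz)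

-- the basic inequality for the test function
theorem key_ineq {a b : ℂ} (ha : 0 < a.re) (hb : 0 < b.re) :
    min a.re b.re ≤ 3 / 2 *
      pk (((a - 1) / (a + 1)) * ((1 + (b - 1) / (b + 1)) / 2)) 0 := by
  have ha1 : a + 1 ≠ 0 := by
    intro h
    have := congrArg Complex.re h
    simp at this
    linarith
  have hb1 : b + 1 ≠ 0 := by
    intro h
    have := congrArg Complex.re h
    simp at this
    linarith
  set N : ℂ := a + 2 * b + 1 with hN
  set M : ℂ := 2 * a * b + a + 1 with hM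
  have hNre : N.re = a.re + 2 * b.re + 1 := by simp [hN]
  have hN0 : N ≠ 0 := by
    intro h
    rw [h] at hNre
    simp at hNre
    linarith
  have e1 : 1 + ((a - 1) / (a + 1)) * ((1 + (b - 1) / (b + 1)) / 2) =
      M / ((a + 1) * (b + 1)) := by
    rw [hM]
    field_simp
    ring
  have e2 : 1 - ((a - 1) / (a + 1)) * ((1 + (b - 1) / (b + 1)) / 2) =
      N / ((a + 1) * (b + 1)) := by
    rw [hN]
    field_simp
    ring
  rw [pk_re, e_zero, e1, e2]
  have e3 : M / ((a + 1) * (b + 1)) / (N / ((a + 1) * (b + 1))) = M / N := by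
    field_simp
  rw [e3, Complex.div_re]
  set s := min a.re b.re with hs
  have hs1 : s ≤ a.re := min_le_left _ _
  have hs2 : s ≤ b.re := min_le_right _ _
  have hs0 : 0 < s := lt_min ha hb
  have hMre : M.re = 2 * (a.re * b.re - a.im * b.im) + a.re + 1 := by
    simp [hM]
    ring
  have hMim : M.im = 2 * (a.re * b.im + a.im * b.re) + a.im := by
    simp [hM]
    ring
  have hNim : N.im = a.im + 2 * b.im := by simp [hN]
  have hnN : 0 < normSq N := normSq_pos.2 hN0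
  have hnN' : normSq N = (a.re + 2 * b.re + 1) ^ 2 + (a.im + 2 * b.im) ^ 2 := by
    rw [normSq_apply, hNre, hNim]
    ring
  rw [← add_div, mul_div_assoc', le_div_iff₀ hnN]
  set x := a.re
  set u := a.im
  set Y := 2 * b.re + 1 with hY
  set W := 2 * b.im with hW
  have hnum : M.re * N.re + M.im * N.im = (x + Y) + (x * (Y ^ 2 + W ^ 2) + Y * (x ^ 2 + u ^ 2)) := by
    rw [hMre, hMim, hNre, hNim, hY, hW]
    ring
  have hden : normSq N = (x + Y) ^ 2 + (u + W) ^ 2 := by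
    rw [hnN', hY, hW]
    ring
  rw [hnum, hden]
  have hxY : 0 < x + Y := by
    rw [hY]
    linarith
  have h3 : 2 * s * (x + Y) ≤ 3 * (x * Y) := by
    have h4 : 0 ≤ (x - s) * (3 * Y - 2 * s) := mul_nonneg (by linarith) (by rw [hY]; linarith)
    have h5 : 0 ≤ s * (Y - 2 * s) := mul_nonneg hs0.le (by rw [hY]; linarith)
    nlinarith
  have h6 : (x + Y) * (x * (Y ^ 2 + W ^ 2) + Y * (x ^ 2 + u ^ 2)) =
      x * Y * ((x + Y) ^ 2 + (u + W) ^ 2) + (x * W - Y * u) ^ 2 := by ring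
  have h7 : (x + Y) * (2 * s * ((x + Y) ^ 2 + (u + W) ^ 2)) ≤
      (x + Y) * (3 * (x * (Y ^ 2 + W ^ 2) + Y * (x ^ 2 + u ^ 2))) := by
    have h8 : 0 ≤ (x + Y) ^ 2 + (u + W) ^ 2 := by positivity
    have h9 := mul_le_mul_of_nonneg_right h3 h8
    nlinarith [sq_nonneg (x * W - Y * u)]
  have h10 := le_of_mul_le_mul_left h7 hxY
  linarith

-- holomorphic functions with positive real part of two coordinates have common majorants
theorem majorant {p q : ℝ≥0∞} {ψ : (Fin d' → ℂ) → ℂ} {φ : (Fin d' → ℂ) → (Fin d → ℂ)}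
    (h : Symbol p q ψ φ) (hT : PreservesOuter p q ψ φ) {i j : Fin d} (hij : i ≠ j)
    {A B : ℂ → ℂ} (hA : DifferentiableOn ℂ A (ball 0 1)) (hA0 : ∀ z ∈ ball (0 : ℂ) 1, 0 < (A z).re)
    (hB : DifferentiableOn ℂ B (ball 0 1)) (hB0 : ∀ z ∈ ball (0 : ℂ) 1, 0 < (B z).re) :
    ∃ v : Torus d' → ℝ, Integrable v ∧
      ∀ z ∈ polydisc d', min (A (φ z i)).re (B (φ z j)).re ≤ ∫ t, P z t * v t := by
  have hne : ∀ {X : ℂ → ℂ}, (∀ z ∈ ball (0 : ℂ) 1, 0 < (X z).re) → ∀ z ∈ ball (0 : ℂ) 1,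
      X z + 1 ≠ 0 := by
    intro X hX z hz h'
    have h1 := congrArg Complex.re h'
    have h2 := hX z hz
    simp at h1
    linarith
  have hcay : ∀ {X : ℂ → ℂ}, DifferentiableOn ℂ X (ball 0 1) →
      (∀ z ∈ ball (0 : ℂ) 1, 0 < (X z).re) →
      DifferentiableOn ℂ (fun z => (X z - 1) / (X z + 1)) (ball 0 1) ∧
        ∀ z : ℂ, ‖z‖ < 1 → ‖(X z - 1) / (X z + 1)‖ < 1 := by
    intro X hX hX0
    refine ⟨?_, fun z hz => ?_⟩
    · simp_rw [div_eq_mul_inv]
      exact (hX.sub_const 1).mul (DifferentiableOn.fun_inv (hX.add_const 1) (hne hX0))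
    · have hz' : z ∈ ball (0 : ℂ) 1 := by simpa using hz
      have h1 := hX0 z hz'
      have h2 : 0 < ‖X z + 1‖ := norm_pos_iff.2 (hne hX0 z hz')
      rw [norm_div, div_lt_one h2]
      have h3 : ‖X z - 1‖ ^ 2 < ‖X z + 1‖ ^ 2 := by
        rw [← Complex.normSq_eq_norm_sq, ← Complex.normSq_eq_norm_sq, normSq_apply, normSq_apply]
        simp only [sub_re, add_re, one_re, sub_im, add_im, one_im]
        nlinarith
      exact lt_of_pow_lt_pow_left₀ 2 h2.le h3
  obtain ⟨hA1, hA2⟩ := hcay hA hA0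
  obtain ⟨hB1, hB2⟩ := hcay hB hB0
  set h1 : ℂ → ℂ := fun z => (A z - 1) / (A z + 1) with hh1
  set h2 : ℂ → ℂ := fun z => (B z - 1) / (B z + 1) with hh2
  set H : Fin d → ℂ → ℂ := fun k => if k = i then h1 else if k = j then h2 else id with hHdef
  have hHd : ∀ k, DifferentiableOn ℂ (H k) (ball 0 1) := by
    intro k
    simp only [hHdef]
    split_ifs
    · exact hA1
    · exact hB1
    · exact differentiableOn_id
  have hHm : ∀ k, ∀ z : ℂ, ‖z‖ < 1 → ‖H k z‖ < 1 := by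
    intro k z hz
    simp only [hHdef]
    split_ifs
    · exact hA2 z hz
    · exact hB2 z hz
    · exact hz
  have hsym := prod_symbol hHd hHm
  have hout := (preserves_of_kernel hsym (prod_kernel hHd hHm)).2 (one_outer ∞) _
    (ft_outer ∞ hij (norm_one (α := ℂ)) (norm_one (α := ℂ)))
  set f : (Fin d → ℂ) → ℂ := wco (fun _ : Fin d → ℂ => (1 : ℂ))
    (fun (z : Fin d → ℂ) k => H k (z k)) (ft i j 1 1) with hf
  have hfv : ∀ z, f z = ft i j 1 1 (fun k => H k (z k)) := by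
    intro z
    simp [hf, wco]
  have hfp : IsOuter p f := by
    refine ⟨⟨hout.1.1, ?_⟩, hout.2⟩
    refine lt_of_le_of_lt (hNorm_le p (M := 1) fun z hz => ?_) ENNReal.ofReal_lt_top
    rw [hfv, ft_norm]
    have := (pk_pos (Gt_lt (i := i) (j := j) (norm_one (α := ℂ)) (norm_one (α := ℂ))
      (hsym.maps hz)) 0).le
    exact Real.exp_le_one_iff.2 (by linarith)
  have k1 := hT _ hfp
  have k2 := psi_outer hT
  obtain ⟨b1, -, hb1i, hb1⟩ := k1.2.2
  obtain ⟨b2, -, hb2i, hb2⟩ := k2.2.2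
  refine ⟨fun s => 3 / 2 * (Real.log (b2 s) - Real.log (b1 s)),
    (hb2i.sub hb1i).const_mul _, fun z hz => ?_⟩
  have hφz := h.maps hz
  have e1 := hb1 z hz
  have e2 := hb2 z hz
  have n1 : ‖ψ z‖ ≠ 0 := norm_ne_zero_iff.2 (k2.2.1 z hz)
  have n2 : ‖f (φ z)‖ ≠ 0 := norm_ne_zero_iff.2 (hout.2.1 _ hφz)
  rw [wco, norm_mul, Real.log_mul n1 n2, hfv, ft_log] at e1
  have e3 : ∫ s, P z s * (3 / 2 * (Real.log (b2 s) - Real.log (b1 s))) =
      3 / 2 * ((∫ s, P z s * Real.log (b2 s)) - ∫ s, P z s * Real.log (b1 s)) := by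
    rw [← integral_sub (int_P_mul hz hb2i) (int_P_mul hz hb1i), ← integral_const_mul]
    congr 1
    ext s
    ring
  rw [e3, ← e1, ← e2]
  have hGt : Gt i j 1 1 (fun k => H k (φ z k)) =
      ((A (φ z i) - 1) / (A (φ z i) + 1)) * ((1 + (B (φ z j) - 1) / (B (φ z j) + 1)) / 2) := by
    have hji : j ≠ i := fun h' => hij h'.symm
    simp [Gt, hHdef, hh1, hh2, hji]
  rw [hGt]
  have h5 := key_ineq (hA0 _ (show φ z i ∈ ball (0 : ℂ) 1 by simpa using hφz i))
    (hB0 _ (show φ z j ∈ ball (0 : ℂ) 1 by simpa using hφz j))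
  linarith

end Pool.Agent.Helper43.Outer
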