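import Pool.Agent.Helper43.Outer.Growth2
import Pool.Agent.Helper43.Outer.HergComp
import Pool.Agent.Helper43.Outer.Majorant

open MeasureTheory Set Filter Topology Complex Metric ENNReal InnerProductSpace

namespace Pool.Agent.Helper43.Outer

variable {d d' : ℕ}

theorem moeb_lt {a b : ℂ} (ha : ‖a‖ < 1) (hb : ‖b‖ < 1) :
    1 + (starRingEnd ℂ) a * b ≠ 0 ∧ ‖(a + b) / (1 + (starRingEnd ℂ) a * b)‖ < 1 := by
  have h1 : 1 + (starRingEnd ℂ) a * b ≠ 0 := by
    intro h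
    have h2 : ‖(starRingEnd ℂ) a * b‖ = 1 := by
      have h3 : (starRingEnd ℂ) a * b = -1 := by linear_combination h
      rw [h3]
      simp
    rw [norm_mul, RCLike.norm_conj] at h2
    nlinarith [norm_nonneg a, norm_nonneg b]
  refine ⟨h1, ?_⟩
  have h4 : 0 < ‖1 + (starRingEnd ℂ) a * b‖ := norm_pos_iff.2 h1
  rw [norm_div, div_lt_one h4]
  have h5 : ‖a + b‖ ^ 2 < ‖1 + (starRingEnd ℂ) a * b‖ ^ 2 := by
    have ha2 : a.re ^ 2 + a.im ^ 2 < 1 := by
      have h6 : ‖a‖ ^ 2 < 1 := by nlinarith [norm_nonneg a]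
      rw [← Complex.normSq_eq_norm_sq, normSq_apply] at h6
      linarith
    have hb2 : b.re ^ 2 + b.im ^ 2 < 1 := by
      have h6 : ‖b‖ ^ 2 < 1 := by nlinarith [norm_nonneg b]
      rw [← Complex.normSq_eq_norm_sq, normSq_apply] at h6
      linarith
    rw [← Complex.normSq_eq_norm_sq, ← Complex.normSq_eq_norm_sq, normSq_apply, normSq_apply]
    simp only [add_re, add_im, one_re, one_im, mul_re, mul_im, conj_re, conj_im]
    nlinarith [mul_pos (sub_pos.2 ha2) (sub_pos.2 hb2)]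
  exact lt_of_pow_lt_pow_left₀ 2 h4.le h5

-- Harnack inequality at bounded pseudohyperbolic distance
theorem harnack_pair {f : (Fin d → ℂ) → ℂ} (hf : DifferentiableOn ℂ f (polydisc d))
    (hf0 : ∀ z ∈ polydisc d, f z ≠ 0) (hf1 : ∀ z ∈ polydisc d, ‖f z‖ ≤ 1) {κ : ℝ} (hκ0 : 0 < κ)
    (hκ : κ < 1) {z z' : Fin d → ℂ} (hz : z ∈ polydisc d) (hz' : z' ∈ polydisc d)
    (hcl : ∀ i, ‖z i - z' i‖ ≤ κ * ‖1 - (starRingEnd ℂ) (z' i) * z i‖) :
    -Real.log ‖f z‖ ≤ (1 + 3 * κ) / (1 - κ) * (-Real.log ‖f z'‖) := by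
  set R := (1 + κ) / 2 with hR
  have hR0 : 0 < R := by rw [hR]; linarith
  have hR1 : R < 1 := by rw [hR]; linarith
  have hden : ∀ i, 1 - (starRingEnd ℂ) (z' i) * z i ≠ 0 := by
    intro i
    have h1 := (moeb_lt (a := -z' i) (b := z i) (by rw [norm_neg]; exact hz' i) (hz i)).1
    rw [map_neg, neg_mul, ← sub_eq_add_neg] at h1
    exact h1
  set w : Fin d → ℂ := fun i => (z i - z' i) / (1 - (starRingEnd ℂ) (z' i) * z i) / κ with hw
  have hκc : (κ : ℂ) ≠ 0 := by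
    rw [Complex.ofReal_ne_zero]
    exact hκ0.ne'
  have hw1 : ∀ i, ‖w i‖ ≤ 1 := by
    intro i
    simp only [hw]
    rw [norm_div, norm_div, Complex.norm_real, Real.norm_eq_abs, abs_of_pos hκ0,
      div_div, div_le_one (mul_pos (norm_pos_iff.2 (hden i)) hκ0)]
    have := hcl i
    linarith
  set γ : ℂ → (Fin d → ℂ) := fun l i =>
    (z' i + l * w i) / (1 + (starRingEnd ℂ) (z' i) * (l * w i)) with hγ
  have hlw : ∀ l : ℂ, ‖l‖ < 1 → ∀ i, ‖l * w i‖ < 1 := by
    intro l hl i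
    rw [norm_mul]
    calc ‖l‖ * ‖w i‖ ≤ ‖l‖ * 1 := by
          gcongr
          exact hw1 i
      _ < 1 := by rwa [mul_one]
  have hγm : ∀ l : ℂ, ‖l‖ < 1 → γ l ∈ polydisc d := fun l hl i =>
    (moeb_lt (hz' i) (hlw l hl i)).2
  have hγd : DifferentiableOn ℂ γ (ball 0 1) := by
    rw [differentiableOn_pi]
    intro i
    simp only [hγ]
    simp_rw [div_eq_mul_inv]
    refine DifferentiableOn.mul (by fun_prop) (DifferentiableOn.fun_inv (by fun_prop) ?_)
    intro l hl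
    exact (moeb_lt (hz' i) (hlw l (by simpa using hl) i)).1
  have hγκ : γ κ = z := by
    ext i
    simp only [hγ, hw]
    have h1 := hden i
    have h2 : (κ : ℂ) * ((z i - z' i) / (1 - (starRingEnd ℂ) (z' i) * z i) / κ) =
        (z i - z' i) / (1 - (starRingEnd ℂ) (z' i) * z i) := by
      field_simp
    rw [h2]
    have h3 : (1 : ℂ) - (starRingEnd ℂ) (z' i) * z' i ≠ 0 := by
      rw [Complex.conj_mul']
      intro h4
      have h5 : ((1 - ‖z' i‖ ^ 2 : ℝ) : ℂ) = 0 := by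
        push_cast
        exact h4
      rw [Complex.ofReal_eq_zero] at h5
      have := hz' i
      nlinarith [norm_nonneg (z' i)]
    have e1 : z' i + (z i - z' i) / (1 - (starRingEnd ℂ) (z' i) * z i) =
        z i * (1 - (starRingEnd ℂ) (z' i) * z' i) / (1 - (starRingEnd ℂ) (z' i) * z i) := by
      rw [eq_div_iff h1, add_mul, div_mul_cancel₀ _ h1]
      ring
    have e2 : 1 + (starRingEnd ℂ) (z' i) * ((z i - z' i) / (1 - (starRingEnd ℂ) (z' i) * z i)) =
        (1 - (starRingEnd ℂ) (z' i) * z' i) / (1 - (starRingEnd ℂ) (z' i) * z i) := by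
      rw [eq_div_iff h1, add_mul, mul_assoc, div_mul_cancel₀ _ h1]
      ring
    rw [e1, e2, div_div_div_cancel_right₀ h1, mul_div_assoc, div_self h3, mul_one]
  have hγ0 : γ 0 = z' := by
    ext i
    simp [hγ]
  -- the harmonic function on the disc
  have hgeo : ∀ l : ℂ, ‖l‖ < R⁻¹ → ‖(R : ℂ) * l‖ < 1 := by
    intro l hl
    rw [norm_mul, Complex.norm_real, Real.norm_eq_abs, abs_of_pos hR0]
    calc R * ‖l‖ < R * R⁻¹ := by gcongr
      _ = 1 := mul_inv_cancel₀ hR0.ne'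
  have hGd : DifferentiableOn ℂ (fun l : ℂ => f (γ (R * l))) (ball 0 R⁻¹) := by
    refine (hf.comp hγd (fun l hl => hγm l (by simpa using hl))).comp
      (f := fun l : ℂ => (R : ℂ) * l) (by fun_prop) ?_
    intro l hl
    simpa using hgeo l (by simpa using hl)
  have hharm : HarmonicOnNhd (fun l : ℂ => -Real.log ‖f (γ (R * l))‖) (closedBall 0 1) := by
    intro l hl
    have hl' : ‖l‖ < R⁻¹ := by
      have h1 : ‖l‖ ≤ 1 := by simpa using hl
      exact lt_of_le_of_lt h1 ((one_lt_inv₀ hR0).2 hR1)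
    have h1 : AnalyticAt ℂ (fun l : ℂ => f (γ (R * l))) l :=
      hGd.analyticAt (isOpen_ball.mem_nhds (by simpa using hl'))
    have h2 := h1.harmonicAt_log_norm (hf0 _ (hγm _ (hgeo l hl')))
    exact h2.neg
  have hpos : ∀ l : ℂ, ‖l‖ ≤ 1 → 0 ≤ -Real.log ‖f (γ (R * l))‖ := by
    intro l hl
    have h1 := hf1 _ (hγm _ (hgeo l (lt_of_le_of_lt hl ((one_lt_inv₀ hR0).2 hR1))))
    have := Real.log_nonpos (norm_nonneg _) h1
    linarith
  have hρ0 : 0 ≤ κ / R := by positivity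
  have hρ1 : κ / R < 1 := by
    rw [div_lt_one hR0, hR]
    linarith
  have hh := harnack_disc hharm hpos hρ0 hρ1
  have e3 : (R : ℂ) * ((κ / R : ℝ) : ℂ) = (κ : ℂ) := by
    rw [← Complex.ofReal_mul, mul_div_cancel₀ _ hR0.ne']
  rw [e3, mul_zero, hγκ, hγ0] at hh
  have e4 : (1 + κ / R) / (1 - κ / R) = (1 + 3 * κ) / (1 - κ) := by
    have h5 : (1 : ℝ) + κ ≠ 0 := by linarith
    rw [hR]
    rw [div_eq_div_iff]
    · field_simp
      ring
    · have h6 : κ / ((1 + κ) / 2) < 1 := hρ1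
      linarith
    · linarith
  rw [e4] at hh
  exact hh

theorem pk_compare {a b : ℂ} (ha : ‖a‖ < 1) (hb : ‖b‖ < 1) {κ : ℝ} (hκ0 : 0 < κ) (hκ : κ < 1)
    (hcl : ‖a - b‖ ≤ κ * ‖1 - (starRingEnd ℂ) b * a‖) (t : UnitAddCircle) :
    pk a t ≤ (1 + 3 * κ) / (1 - κ) * pk b t := by
  have hlog : ∀ x : ℂ, -Real.log ‖Complex.exp (-((e t + x) / (e t - x)))‖ = pk x t := by
    intro x
    rw [Complex.norm_exp, Real.log_exp, pk_re, neg_re, neg_neg]
  have h1 := harnack_pair (d := 1)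
    (f := fun z : Fin 1 → ℂ => Complex.exp (-((e t + z 0) / (e t - z 0)))) (κ := κ)
    (z := fun _ => a) (z' := fun _ => b) ?_ (fun _ _ => Complex.exp_ne_zero _) ?_ hκ0 hκ
    (fun _ => ha) (fun _ => hb) (fun _ => hcl)
  · simp only [hlog] at h1
    exact h1
  · refine DifferentiableOn.cexp (DifferentiableOn.fun_neg ?_)
    simp_rw [div_eq_mul_inv]
    refine DifferentiableOn.mul (by fun_prop) (DifferentiableOn.fun_inv (by fun_prop) ?_)
    intro z hz h
    have h2 := sub_pos_of_lt (hz 0) t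
    rw [h, norm_zero] at h2
    exact lt_irrefl _ h2
  · intro z hz
    rw [Complex.norm_exp, neg_re, ← pk_re]
    have := (pk_pos (hz 0) t).le
    exact Real.exp_le_one_iff.2 (by linarith)

theorem pk_rot (c α : UnitAddCircle) (z : ℂ) : pk (e c * z) (c + α) = pk z α := by
  unfold pk
  rw [e_add, ← mul_sub, norm_mul, norm_mul, norm_e, one_mul, one_mul]

-- Clark measures of the common coordinate are absolutely continuous
theorem clark_nec {p q : ℝ≥0∞} (hd : 2 ≤ d) {ψ : (Fin d' → ℂ) → ℂ}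
    {φ : (Fin d' → ℂ) → (Fin d → ℂ)} (h : Symbol p q ψ φ) (hT : PreservesOuter p q ψ φ)
    (c : Torus d) {Φ : (Fin d' → ℂ) → ℂ} (hΦ : DifferentiableOn ℂ Φ (polydisc d'))
    (hΦm : ∀ z ∈ polydisc d', ‖Φ z‖ < 1) {κ : ℝ} (hκ0 : 0 < κ) (hκ : κ < 1)
    (hcl : ∀ z ∈ polydisc d', ∀ i, ‖φ z i - e (c i) * Φ z‖ ≤
      κ * ‖1 - (starRingEnd ℂ) (e (c i) * Φ z) * φ z i‖) (α : UnitAddCircle) :
    ∃ v : Torus d' → ℝ, Integrable v ∧ ∀ z ∈ polydisc d', pk (Φ z) α = ∫ t, P z t * v t := by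
  set i0 : Fin d := ⟨0, by omega⟩ with hi0
  set i1 : Fin d := ⟨1, by omega⟩ with hi1
  have hne : i0 ≠ i1 := by
    intro h'
    have := congrArg Fin.val h'
    simp [hi0, hi1] at this
  have hX : ∀ β : UnitAddCircle,
      DifferentiableOn ℂ (fun z : ℂ => (e β + z) / (e β - z)) (ball 0 1) ∧
        ∀ z ∈ ball (0 : ℂ) 1, 0 < ((e β + z) / (e β - z)).re := by
    intro β
    refine ⟨?_, fun z hz => ?_⟩
    · simp_rw [div_eq_mul_inv]
      refine DifferentiableOn.mul (by fun_prop) (DifferentiableOn.fun_inv (by fun_prop) ?_)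
      intro z hz h'
      have h2 := sub_pos_of_lt (show ‖z‖ < 1 by simpa using hz) β
      rw [h', norm_zero] at h2
      exact lt_irrefl _ h2
    · rw [← pk_re]
      exact pk_pos (by simpa using hz) β
  obtain ⟨v, hv, hvm⟩ := majorant h hT hne (hX (c i0 + α)).1 (hX (c i0 + α)).2
    (hX (c i1 + α)).1 (hX (c i1 + α)).2
  set C := (1 + 3 * κ) / (1 - κ) with hC
  have hC0 : 0 < C := div_pos (by linarith) (by linarith)
  have hlow : ∀ z ∈ polydisc d', ∀ i, pk (Φ z) α ≤ C * pk (φ z i) (c i + α) := by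
    intro z hz i
    have hn : ‖e (c i) * Φ z‖ < 1 := by
      rw [norm_mul, norm_e, one_mul]
      exact hΦm z hz
    have h1 := pk_compare hn (h.maps hz i) hκ0 hκ (by
      have h2 := hcl z hz i
      rw [norm_sub_rev] at h2
      have h3 : ‖1 - (starRingEnd ℂ) (φ z i) * (e (c i) * Φ z)‖ =
          ‖1 - (starRingEnd ℂ) (e (c i) * Φ z) * φ z i‖ := by
        rw [← RCLike.norm_conj]
        congr 1
        simp only [map_sub, map_one, map_mul, Complex.conj_conj]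
        ring
      rw [h3]
      exact h2) (c i + α)
    rw [pk_rot] at h1
    exact h1
  have hdom : ∀ z ∈ polydisc d', pk (Φ z) α ≤ ∫ t, P z t * (C * v t) := by
    intro z hz
    have e1 : ∫ t, P z t * (C * v t) = C * ∫ t, P z t * v t := by
      rw [← integral_const_mul]
      congr 1
      ext t
      ring
    rw [e1]
    have h1 := hvm z hz
    rw [← pk_re, ← pk_re] at h1
    have h2 := hlow z hz i0
    have h3 := hlow z hz i1
    have h4 : pk (Φ z) α ≤ C * min (pk (φ z i0) (c i0 + α)) (pk (φ z i1) (c i1 + α)) := by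
      rcases min_choice (pk (φ z i0) (c i0 + α)) (pk (φ z i1) (c i1 + α)) with h5 | h5
      · rw [h5]
        exact h2
      · rw [h5]
        exact h3
    exact h4.trans (by gcongr)
  have hG : DifferentiableOn ℂ (fun z => Complex.exp (-((e α + Φ z) / (e α - Φ z))))
      (polydisc d') := by
    refine DifferentiableOn.cexp (DifferentiableOn.fun_neg ?_)
    simp_rw [div_eq_mul_inv]
    refine (hΦ.const_add _).mul (DifferentiableOn.fun_inv (hΦ.const_sub _) ?_)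
    intro z hz h'
    have h2 := sub_pos_of_lt (hΦm z hz) α
    rw [h', norm_zero] at h2
    exact lt_irrefl _ h2
  have hlog : ∀ x : ℂ, -Real.log ‖Complex.exp (-((e α + x) / (e α - x)))‖ = pk x α := by
    intro x
    rw [Complex.norm_exp, Real.log_exp, pk_re, neg_re, neg_neg]
  obtain ⟨w, hw, -, hwr⟩ := dominated hG (fun _ _ => Complex.exp_ne_zero _) (fun z hz => by
    rw [Complex.norm_exp, neg_re, ← pk_re]
    have := (pk_pos (hΦm z hz) α).le
    exact Real.exp_le_one_iff.2 (by linarith)) (hv.const_mul C) (fun z hz => by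
    rw [hlog]
    exact hdom z hz)
  refine ⟨w, hw, fun z hz => ?_⟩
  rw [← hwr z hz, hlog]

-- comparable coordinates, bounded functions
theorem compare_suff {q : ℝ≥0∞} {ψ : (Fin d' → ℂ) → ℂ} {φ : (Fin d' → ℂ) → (Fin d → ℂ)}
    (h : Symbol ∞ q ψ φ) (c : Torus d) {Φ : (Fin d' → ℂ) → ℂ}
    (hΦ : DifferentiableOn ℂ Φ (polydisc d')) (hΦm : ∀ z ∈ polydisc d', ‖Φ z‖ < 1) {κ : ℝ}
    (hκ0 : 0 < κ) (hκ : κ < 1)
    (hcl : ∀ z ∈ polydisc d', ∀ i, ‖φ z i - e (c i) * Φ z‖ ≤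
      κ * ‖1 - (starRingEnd ℂ) (e (c i) * Φ z) * φ z i‖) (hψ : IsOuter q ψ)
    (hAC : ∀ α : UnitAddCircle, ∃ v : Torus d' → ℝ, Integrable v ∧
      ∀ z ∈ polydisc d', pk (Φ z) α = ∫ t, P z t * v t) : PreservesOuter ∞ q ψ φ := by
  intro f hf
  obtain ⟨M, hM0, hM⟩ := bdd_of_mem hf.1
  set g : (Fin d → ℂ) → ℂ := fun z => (Real.exp (-M) : ℂ) * f z with hg
  have hgd : DifferentiableOn ℂ g (polydisc d) := hf.1.1.const_mul _
  have hexp : ((Real.exp (-M) : ℝ) : ℂ) ≠ 0 := by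
    rw [Complex.ofReal_ne_zero]
    exact Real.exp_ne_zero _
  have hg0 : ∀ z ∈ polydisc d, g z ≠ 0 := fun z hz => mul_ne_zero hexp (hf.2.1 z hz)
  have hglog : ∀ z ∈ polydisc d, -Real.log ‖g z‖ = M - Real.log ‖f z‖ := by
    intro z hz
    simp only [hg]
    rw [norm_mul, Complex.norm_real, Real.norm_eq_abs, abs_of_pos (Real.exp_pos _),
      Real.log_mul (Real.exp_ne_zero _) (norm_ne_zero_iff.2 (hf.2.1 z hz)), Real.log_exp]
    ring
  have hg1 : ∀ z ∈ polydisc d, ‖g z‖ ≤ 1 := by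
    intro z hz
    have h1 := hglog z hz
    have h2 := hM z hz
    have h3 : Real.log ‖g z‖ ≤ 0 := by linarith
    have h4 : 0 < ‖g z‖ := norm_pos_iff.2 (hg0 z hz)
    exact (Real.log_nonpos_iff h4.le).1 h3
  -- the disc function
  set D : (Fin 1 → ℂ) → (Fin d → ℂ) := fun l i => e (c i) * l 0 with hD
  have hDd : DifferentiableOn ℂ D (polydisc 1) := by
    rw [differentiableOn_pi]
    intro i
    simp only [hD]
    fun_prop
  have hDm : MapsTo D (polydisc 1) (polydisc d) := by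
    intro l hl i
    simp only [hD]
    rw [norm_mul, norm_e, one_mul]
    exact hl 0
  have hV : NHarm (fun l : Fin 1 → ℂ => -Real.log ‖g (D l)‖) := neg_log_nharm hgd hg0 hDd hDm
  have hVpos : ∀ l ∈ polydisc 1, 0 ≤ -Real.log ‖g (D l)‖ := by
    intro l hl
    have := Real.log_nonpos (norm_nonneg _) (hg1 _ (hDm hl))
    linarith
  have hΦ1 : DifferentiableOn ℂ (fun z : Fin d' → ℂ => (fun _ : Fin 1 => Φ z)) (polydisc d') := by
    rw [differentiableOn_pi]
    exact fun _ => hΦ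
  have hcomp : DifferentiableOn ℂ (fun z : Fin d' → ℂ => D (fun _ => Φ z)) (polydisc d') :=
    hDd.comp hΦ1 (fun z hz _ => hΦm z hz)
  have hcompm : MapsTo (fun z : Fin d' → ℂ => D (fun _ => Φ z)) (polydisc d') (polydisc d) :=
    fun z hz => hDm (fun _ => hΦm z hz)
  have hN : NHarm (fun z : Fin d' → ℂ => -Real.log ‖g (D (fun _ => Φ z))‖) :=
    neg_log_nharm hgd hg0 hcomp hcompm
  obtain ⟨w, hw, hwr⟩ := herg_comp hΦ hΦm hAC hV hVpos hN
  set C := (1 + 3 * κ) / (1 - κ) with hC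
  have hC0 : 0 < C := div_pos (by linarith) (by linarith)
  obtain ⟨w2, hw2, hl2, -⟩ := dominated (G := fun z => g (φ z)) (hgd.comp h.phi h.maps)
    (fun z hz => hg0 _ (h.maps hz)) (fun z hz => hg1 _ (h.maps hz)) (hw.const_mul C)
    (fun z hz => by
      have h1 := harnack_pair hgd hg0 hg1 hκ0 hκ (h.maps hz) (hcompm hz) (hcl z hz)
      have h2 : ∫ t, P z t * (C * w t) = C * ∫ t, P z t * w t := by
        rw [← integral_const_mul]
        congr 1
        ext t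
        ring
      rw [h2, ← hwr z hz]
      exact h1)
  refine outer_of_limit h hψ hf (v := fun t => M - w2 t) ((integrable_const M).sub hw2) rad
    (fun k => (rad_pos k).le) rad_lt rad_lim ?_
  refine hl2.congr fun k => ?_
  congr 1
  ext t
  rw [hglog _ (h.maps (pt_mem (rad_pos k).le (rad_lt k) t)), ← abs_neg]
  congr 1
  ring

theorem compare_iff {q : ℝ≥0∞} (hd : 2 ≤ d) {ψ : (Fin d' → ℂ) → ℂ}
    {φ : (Fin d' → ℂ) → (Fin d → ℂ)} (h : Symbol ∞ q ψ φ) (c : Torus d) {Φ : (Fin d' → ℂ) → ℂ}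
    (hΦ : DifferentiableOn ℂ Φ (polydisc d')) (hΦm : ∀ z ∈ polydisc d', ‖Φ z‖ < 1) {κ : ℝ}
    (hκ0 : 0 < κ) (hκ : κ < 1)
    (hcl : ∀ z ∈ polydisc d', ∀ i, ‖φ z i - e (c i) * Φ z‖ ≤
      κ * ‖1 - (starRingEnd ℂ) (e (c i) * Φ z) * φ z i‖) :
    PreservesOuter ∞ q ψ φ ↔ IsOuter q ψ ∧ ∀ α : UnitAddCircle, ∃ v : Torus d' → ℝ,
      Integrable v ∧ ∀ z ∈ polydisc d', pk (Φ z) α = ∫ t, P z t * v t :=
  ⟨fun hT => ⟨psi_outer hT, clark_nec hd h hT c hΦ hΦm hκ0 hκ hcl⟩,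
    fun hh => compare_suff h c hΦ hΦm hκ0 hκ hcl hh.1 hh.2⟩

end Pool.Agent.Helper43.Outer
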