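import Pool.Agent.Helper43.Outer.Harnack

open MeasureTheory Set Filter Topology Complex Metric ENNReal InnerProductSpace

namespace Pool.Agent.Helper43.Outer

variable {d d' : ℕ}

-- one variable Poisson average of |h|
noncomputable def Q (h : Torus d → ℝ) (i : Fin d) (a : ℂ) : ℝ := ∫ w, pk a (w i) * |h w|

theorem Q_int {h : Torus d → ℝ} (hh : Integrable h) (i : Fin d) {a : ℂ} (ha : ‖a‖ < 1) :
    Integrable (fun w => pk a (w i) * |h w|) := by
  refine hh.abs.bdd_mul (c := (1 + ‖a‖) / (1 - ‖a‖))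
    ((pk_cont ha).comp (continuous_apply i)).aestronglyMeasurable (ae_of_all _ fun s => ?_)
  rw [Real.norm_eq_abs, abs_of_pos (pk_pos ha _)]
  exact pk_le ha _

theorem Q_nonneg {h : Torus d → ℝ} (i : Fin d) {a : ℂ} (ha : ‖a‖ < 1) : 0 ≤ Q h i a :=
  integral_nonneg fun _ => mul_nonneg (pk_pos ha _).le (abs_nonneg _)

theorem pk_dist {a : ℂ} (ha : ‖a‖ < 1) (t : UnitAddCircle) : (1 - ‖a‖) * pk a t ≤ 2 := by
  have h1 := pk_le ha t
  have h2 : 0 < 1 - ‖a‖ := by linarith
  calc (1 - ‖a‖) * pk a t ≤ (1 - ‖a‖) * ((1 + ‖a‖) / (1 - ‖a‖)) := by gcongr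
    _ = 1 + ‖a‖ := by field_simp
    _ ≤ 2 := by linarith

theorem Q_bound {h : Torus d → ℝ} (hh : Integrable h) (i : Fin d) {a : ℂ} (ha : ‖a‖ < 1) :
    (1 - ‖a‖) * Q h i a ≤ 2 * ∫ w, |h w| := by
  unfold Q
  rw [← integral_const_mul, ← integral_const_mul]
  refine integral_mono ((Q_int hh i ha).const_mul _) (hh.abs.const_mul 2) fun w => ?_
  simp only
  rw [← mul_assoc]
  exact mul_le_mul_of_nonneg_right (pk_dist ha _) (abs_nonneg _)

theorem eval_mp (i : Fin d) :
    MeasurePreserving (fun w : Torus d => w i) volume (volume : Measure UnitAddCircle) := by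
  have := measurePreserving_eval (fun _ : Fin d => (volume : Measure UnitAddCircle)) i
  exact this

theorem int_pk_eval (i : Fin d) {a : ℂ} (ha : ‖a‖ < 1) : ∫ w : Torus d, pk a (w i) = 1 := by
  have h1 := integral_map (μ := (volume : Measure (Torus d))) (φ := fun w : Torus d => w i)
    (f := pk a) (eval_mp i).measurable.aemeasurable (by
      rw [(eval_mp i).map_eq]
      exact (pk_cont ha).aestronglyMeasurable)
  rw [(eval_mp i).map_eq, integral_pk ha] at h1
  exact h1.symm

theorem Q_small {h : Torus d → ℝ} (hh : Integrable h) (i : Fin d) {ε : ℝ} (hε : 0 < ε) :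
    ∃ η : ℝ, 0 < η ∧ ∀ a : ℂ, ‖a‖ < 1 → 1 - ‖a‖ < η → (1 - ‖a‖) * Q h i a ≤ ε := by
  -- approximate by a bounded function
  obtain ⟨g, -, hg1, hg2, hg3⟩ := hh.exists_hasCompactSupport_integral_sub_le
    (by positivity : 0 < ε / 4)
  obtain ⟨N, hN⟩ := (isCompact_range hg2.abs).bddAbove
  have hN' : ∀ w, |g w| ≤ N := fun w => hN ⟨w, rfl⟩
  have hN0 : 0 ≤ N := (abs_nonneg _).trans (hN' 0)
  refine ⟨ε / (2 * (N + 1)), by positivity, fun a ha hη => ?_⟩
  have h1 : 0 < 1 - ‖a‖ := by linarith
  have hpk : Integrable (fun w : Torus d => pk a (w i)) :=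
    cont_int ((pk_cont ha).comp (continuous_apply i))
  have key : (1 - ‖a‖) * Q h i a ≤ ∫ w : Torus d, (2 * ‖h w - g w‖ +
      (1 - ‖a‖) * (N * pk a (w i))) := by
    unfold Q
    rw [← integral_const_mul]
    refine integral_mono ((Q_int hh i ha).const_mul _)
      (((hh.sub hg3).norm.const_mul 2).add ((hpk.const_mul N).const_mul _)) fun w => ?_
    simp only
    have h2 : |h w| ≤ ‖h w - g w‖ + N := by
      have h3 : |h w| ≤ |h w - g w| + |g w| := by
        have := abs_add_le (h w - g w) (g w)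
        rwa [sub_add_cancel] at this
      rw [Real.norm_eq_abs]
      linarith [hN' w]
    have h4 := pk_dist ha (w i)
    have h5 := (pk_pos ha (w i)).le
    calc (1 - ‖a‖) * (pk a (w i) * |h w|)
        ≤ (1 - ‖a‖) * (pk a (w i) * (‖h w - g w‖ + N)) := by gcongr
      _ = ((1 - ‖a‖) * pk a (w i)) * ‖h w - g w‖ + (1 - ‖a‖) * (N * pk a (w i)) := by ring
      _ ≤ 2 * ‖h w - g w‖ + (1 - ‖a‖) * (N * pk a (w i)) := by gcongr
  refine key.trans ?_
  have f1 := integral_add ((hh.sub hg3).norm.const_mul 2)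
    ((hpk.const_mul N).const_mul (1 - ‖a‖))
  simp only [Pi.sub_apply] at f1
  rw [f1, integral_const_mul, integral_const_mul, integral_const_mul, int_pk_eval i ha]
  have h6 : (1 - ‖a‖) * (N * 1) ≤ ε / 2 := by
    rw [lt_div_iff₀ (by positivity)] at hη
    nlinarith
  linarith

-- Harnack inequality on an affine disc
theorem affine_harnack {V : (Fin d → ℂ) → ℝ} (hV : NHarm V) (a b : Fin d → ℂ) {ρ R m : ℝ}
    (hρ : 0 ≤ ρ) (hρR : ρ < R)
    (hm : ∀ l : ℂ, ‖l‖ ≤ R → a + l • b ∈ polydisc d ∧ -m ≤ V (a + l • b)) :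
    V (a + (ρ : ℂ) • b) + m ≤ (R + ρ) / (R - ρ) * (V a + m) := by
  have hR0 : 0 < R := lt_of_le_of_lt hρ hρR
  have hnR : ∀ l : ℂ, ‖l‖ ≤ 1 → ‖l * R‖ ≤ R := by
    intro l hl
    rw [norm_mul, Complex.norm_real, Real.norm_eq_abs, abs_of_pos hR0]
    nlinarith
  have hcont : Continuous (fun t : UnitAddCircle => V (a + (e t * R) • b)) := by
    refine hV.1.comp_continuous (f := fun t : UnitAddCircle => a + (e t * R) • b) ?_ ?_
    · have := continuous_e
      fun_prop
    · exact fun t => (hm _ (hnR _ (norm_e t).le)).1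
  have hq : ‖((ρ / R : ℝ) : ℂ)‖ = ρ / R := by
    rw [Complex.norm_real, Real.norm_eq_abs, abs_of_nonneg (by positivity)]
  have hq1 : ρ / R < 1 := (div_lt_one hR0).2 hρR
  have hharm : ∀ z : ℂ, ‖z‖ < 1 →
      ∫ t, pk z t * V (a + (e t * R) • b) = V (a + (z * R) • b) := by
    intro z hz
    refine poisson_harm (f := fun w => V (a + (w * R) • b)) ?_ hz
    intro w hw
    have hw' : ‖w‖ ≤ 1 := by simpa using hw
    have h1 : (fun w : ℂ => V (a + (w * R) • b)) = fun w : ℂ => V (a + w • ((R : ℂ) • b)) := by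
      funext w
      rw [smul_smul]
    rw [h1]
    refine hV.2 _ _ _ ?_
    rw [smul_smul]
    exact (hm _ (hnR w hw')).1
  have h1 := hharm ((ρ / R : ℝ) : ℂ) (by rw [hq]; exact hq1)
  have h0 := hharm 0 (by simp)
  have e1 : (((ρ / R : ℝ) : ℂ) * R) = (ρ : ℂ) := by
    rw [← Complex.ofReal_mul, div_mul_cancel₀ _ hR0.ne']
  have e0 : ∀ t, pk 0 t = 1 := by
    intro t
    simp [pk, norm_e]
  rw [e1] at h1
  simp only [e0, one_mul, zero_mul, zero_smul, add_zero] at h0
  have hz : ‖((ρ / R : ℝ) : ℂ)‖ < 1 := by rw [hq]; exact hq1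
  have hVi : Integrable (fun t : UnitAddCircle => V (a + (e t * R) • b)) :=
    hcont.integrable_of_hasCompactSupport (HasCompactSupport.of_compactSpace _)
  have e2 : V (a + (ρ : ℂ) • b) + m =
      ∫ t, pk ((ρ / R : ℝ) : ℂ) t * (V (a + (e t * R) • b) + m) := by
    have e3 : ∀ t, pk ((ρ / R : ℝ) : ℂ) t * (V (a + (e t * R) • b) + m) =
        pk ((ρ / R : ℝ) : ℂ) t * V (a + (e t * R) • b) + pk ((ρ / R : ℝ) : ℂ) t * m := by
      intro t
      ring
    simp_rw [e3]
    rw [integral_add (int_pk_mul hz hVi) ((int_pk hz).mul_const m), h1, integral_mul_const,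
      integral_pk hz, one_mul]
  have e4 : (R + ρ) / (R - ρ) * (V a + m) =
      ∫ t : UnitAddCircle, (R + ρ) / (R - ρ) * (V (a + (e t * R) • b) + m) := by
    rw [integral_const_mul, integral_add hVi (integrable_const _), h0]
    simp
  rw [e2, e4]
  refine integral_mono (int_pk_mul hz (hVi.add (integrable_const _)))
    ((hVi.add (integrable_const _)).const_mul _) fun t => ?_
  simp only
  have h2 : 0 ≤ V (a + (e t * R) • b) + m := by
    have := (hm _ (hnR _ (norm_e t).le)).2
    linarith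
  have h3 := pk_le hz t
  rw [hq] at h3
  have h4 : (1 + ρ / R) / (1 - ρ / R) = (R + ρ) / (R - ρ) := by
    field_simp
  rw [h4] at h3
  exact mul_le_mul_of_nonneg_right h3 h2

-- the basic growth estimate
theorem growth {V : (Fin d → ℂ) → ℝ} (hV : NHarm V) {h : Torus d → ℝ} (hh : Integrable h)
    (hrep : ∀ z ∈ polydisc d, V z = ∫ t, P z t * h t) {z : Fin d → ℂ} (hz : z ∈ polydisc d)
    (i : Fin d) {y m : ℝ} (hy : 0 < y) (hy1 : y ≤ 1) (hzy : ∀ j, j ≠ i → ‖z j‖ ≤ 1 - y)
    (hm : ∀ z' : Fin d → ℂ, (∀ j, ‖z' j‖ ≤ 1 - min (1 - ‖z i‖) y / 2) → -m ≤ V z')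
    (hm0 : 0 ≤ m) :
    ∃ a : ℂ, ‖a‖ = 1 - min 1 ((1 - ‖z i‖) / y) ∧ V z + m ≤ 4 / y * (Q h i a + m) := by
  set x := 1 - ‖z i‖ with hx
  have hx0 : 0 < x := by
    have := hz i
    rw [hx]
    linarith
  have hx1 : x ≤ 1 := by
    have := norm_nonneg (z i)
    rw [hx]
    linarith
  set ρ := 1 - y with hρ
  have hρ0 : 0 ≤ ρ := by linarith
  set R := 1 - y / 2 with hR
  have hconst : (R + ρ) / (R - ρ) ≤ 4 / y := by
    rw [div_le_div_iff₀ (by rw [hR, hρ]; linarith) hy]
    rw [hR, hρ]
    nlinarith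
  -- value on the axis
  have hval : ∀ a : ℂ, ‖a‖ < 1 → V (Pi.single i a) ≤ Q h i a := by
    intro a ha
    have hmem : (Pi.single i a : Fin d → ℂ) ∈ polydisc d := by
      intro j
      by_cases hj : j = i
      · subst hj
        simpa using ha
      · simp [hj]
    rw [hrep _ hmem]
    unfold Q
    refine integral_mono (int_P_mul hmem hh) (Q_int hh i ha) fun w => ?_
    have hP : P (Pi.single i a) w = pk a (w i) := by
      rw [P_eq, Finset.prod_eq_single i]
      · simp
      · intro j _ hj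
        simp [hj, pk, norm_e]
      · simp
    simp only
    rw [hP]
    exact mul_le_mul_of_nonneg_left (le_abs_self _) (pk_pos ha _).le
  obtain ⟨u', hu1, hu2⟩ := exists_unit (z i)
  set u := (starRingEnd ℂ) u' with hu
  have hun : ‖u‖ = 1 := by rw [hu, RCLike.norm_conj, hu1]
  have hzi : z i = u * ‖z i‖ := by
    rw [← hu2, hu, ← mul_assoc, Complex.conj_mul', hu1]
    simp
  rcases le_or_gt x y with hxy | hxy
  · set s := x / y with hs
    have hs0 : 0 < s := by positivity
    have hs1 : s ≤ 1 := (div_le_one hy).2 hxy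
    have hsy : s * y = x := by rw [hs]; field_simp
    have ha : ‖(1 - s : ℝ) * u‖ = 1 - s := by
      rw [norm_mul, hun, mul_one, Complex.norm_real, Real.norm_eq_abs,
        abs_of_nonneg (by linarith)]
    refine ⟨(1 - s : ℝ) * u, by rw [ha, min_eq_right hs1], ?_⟩
    set b : Fin d → ℂ := fun j => if j = i then (s : ℂ) * u else z j / ρ with hb
    have hharn := affine_harnack hV (Pi.single i ((1 - s : ℝ) * u)) b (ρ := ρ) (R := R) (m := m)
      hρ0 (by rw [hR, hρ]; linarith) (by
        intro l hl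
        have hcoord : ∀ j, ‖((Pi.single i ((1 - s : ℝ) * u) : Fin d → ℂ) + l • b) j‖ ≤
            1 - min x y / 2 := by
          intro j
          rw [min_eq_left hxy]
          by_cases hj : j = i
          · subst hj
            simp only [Pi.add_apply, Pi.single_eq_same, Pi.smul_apply, smul_eq_mul, hb, if_true]
            refine (norm_add_le _ _).trans ?_
            rw [ha, norm_mul, norm_mul, hun, mul_one, Complex.norm_real, Real.norm_eq_abs,
              abs_of_pos hs0]
            have : ‖l‖ * s ≤ R * s := by gcongr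
            rw [hR] at this
            nlinarith
          · simp only [Pi.add_apply, Pi.single_eq_of_ne hj, Pi.smul_apply, smul_eq_mul, hb, hj,
              if_false, zero_add]
            rw [norm_mul, norm_div, Complex.norm_real, Real.norm_eq_abs, abs_of_nonneg hρ0]
            have h1 : ‖z j‖ / ρ ≤ 1 := div_le_one_of_le₀ (hzy j hj) hρ0
            have h2 : 0 ≤ ‖z j‖ / ρ := by positivity
            have : ‖l‖ * (‖z j‖ / ρ) ≤ R * 1 := by
              have hl0 := norm_nonneg l
              gcongr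
              linarith
            rw [hR] at this
            linarith
        refine ⟨fun j => ?_, hm _ hcoord⟩
        have := hcoord j
        have h3 : 0 < min x y := lt_min hx0 hy
        linarith)
    have hpt : (Pi.single i ((1 - s : ℝ) * u) : Fin d → ℂ) + (ρ : ℂ) • b = z := by
      ext j
      by_cases hj : j = i
      · subst hj
        simp only [Pi.add_apply, Pi.single_eq_same, Pi.smul_apply, smul_eq_mul, hb, if_true]
        have h1 : ‖z j‖ = 1 - s * y := by rw [hsy, hx]; ring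
        rw [hzi]
        have h2 : ‖u * (‖z j‖ : ℂ)‖ = ‖z j‖ := by rw [← hzi]
        rw [h1, hρ]
        push_cast
        ring
      · simp only [Pi.add_apply, Pi.single_eq_of_ne hj, Pi.smul_apply, smul_eq_mul, hb, hj,
          if_false, zero_add]
        by_cases hρz : ρ = 0
        · have h1 := hzy j hj
          rw [hρz] at h1
          have h2 : z j = 0 := norm_le_zero_iff.1 h1
          simp [h2]
        · have : (ρ : ℂ) ≠ 0 := by
            rw [Complex.ofReal_ne_zero]
            exact hρz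
          field_simp
    rw [hpt] at hharn
    have ha1 : ‖((1 - s : ℝ) : ℂ) * u‖ < 1 := by rw [ha]; linarith
    have h5 := hval _ ha1
    have h6 := Q_nonneg (h := h) i ha1
    refine hharn.trans ?_
    have h7 : 0 ≤ (R + ρ) / (R - ρ) := by
      apply div_nonneg
      · rw [hR]; linarith
      · rw [hR, hρ]; linarith
    calc (R + ρ) / (R - ρ) * (V (Pi.single i ((1 - s : ℝ) * u)) + m)
        ≤ (R + ρ) / (R - ρ) * (Q h i ((1 - s : ℝ) * u) + m) := by gcongr
      _ ≤ 4 / y * (Q h i ((1 - s : ℝ) * u) + m) := by gcongr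
  · have hρp : 0 < ρ := by
      have := norm_nonneg (z i)
      rw [hρ]
      linarith
    refine ⟨0, ?_, ?_⟩
    · rw [norm_zero, min_eq_left, sub_self]
      rw [one_le_div hy]
      exact hxy.le
    · have hall : ∀ j, ‖z j‖ ≤ ρ := by
        intro j
        by_cases hj : j = i
        · subst hj
          rw [hρ]
          linarith
        · exact hzy j hj
      have hharn := affine_harnack hV (0 : Fin d → ℂ) (fun j => z j / ρ) (ρ := ρ) (R := R)
        (m := m) hρ0 (by rw [hR, hρ]; linarith) (by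
          intro l hl
          have hcoord : ∀ j, ‖((0 : Fin d → ℂ) + l • (fun j => z j / ρ)) j‖ ≤
              1 - min x y / 2 := by
            intro j
            rw [min_eq_right hxy.le]
            simp only [zero_add, Pi.smul_apply, smul_eq_mul]
            rw [norm_mul, norm_div, Complex.norm_real, Real.norm_eq_abs, abs_of_nonneg hρ0]
            have h1 : ‖z j‖ / ρ ≤ 1 := div_le_one_of_le₀ (hall j) hρ0
            have h2 : 0 ≤ ‖z j‖ / ρ := by positivity
            have : ‖l‖ * (‖z j‖ / ρ) ≤ R * 1 := by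
              have hl0 := norm_nonneg l
              gcongr
              linarith
            rw [hR] at this
            linarith
          refine ⟨fun j => ?_, hm _ hcoord⟩
          have := hcoord j
          have h3 : 0 < min x y := lt_min hx0 hy
          linarith)
      have hpt : (0 : Fin d → ℂ) + (ρ : ℂ) • (fun j => z j / ρ) = z := by
        ext j
        simp only [zero_add, Pi.smul_apply, smul_eq_mul]
        have : (ρ : ℂ) ≠ 0 := by
          rw [Complex.ofReal_ne_zero]
          exact hρp.ne'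
        field_simp
      rw [hpt] at hharn
      have h5 := hval 0 (by simp)
      rw [Pi.single_zero] at h5
      have h6 := Q_nonneg (h := h) i (a := 0) (by simp)
      refine hharn.trans ?_
      have h7 : 0 ≤ (R + ρ) / (R - ρ) := by
        apply div_nonneg
        · rw [hR]; linarith
        · rw [hR, hρ]; linarith
      calc (R + ρ) / (R - ρ) * (V 0 + m) ≤ (R + ρ) / (R - ρ) * (Q h i 0 + m) := by gcongr
        _ ≤ 4 / y * (Q h i 0 + m) := by gcongr

-- no atoms: the composition grows slower than 1 / (1 - r) along the radius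
theorem no_atom {φ : (Fin d' → ℂ) → (Fin d → ℂ)} (hφ : DifferentiableOn ℂ φ (polydisc d'))
    (hmap : MapsTo φ (polydisc d') (polydisc d)) {V : (Fin d → ℂ) → ℝ} (hV : NHarm V)
    {h : Torus d → ℝ} (hh : Integrable h) (hrep : ∀ z ∈ polydisc d, V z = ∫ t, P z t * h t)
    (t : Torus d') (i : Fin d) (m : ℝ → ℝ) (hm0 : ∀ r ∈ Ioo (0 : ℝ) 1, 0 ≤ m r)
    {c : ℝ} (hc : ∀ j, c ≤ (1 - ‖φ 0 j‖) / 2) (hc0 : 0 < c)
    (hm : ∀ r ∈ Ioo (0 : ℝ) 1, ∀ z : Fin d → ℂ, (∀ j, ‖z j‖ ≤ 1 - c * (1 - r) / 2) →
      -m r ≤ V z)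
    (h1 : Tendsto (fun r : ℝ => (1 - r) * (1 + m r)) (𝓝[<] 1) (𝓝 0))
    (h2 : ∀ j, j ≠ i → Tendsto (fun r : ℝ => (1 - r) / (1 - ‖φ (pt r t) j‖) * (1 + m r))
      (𝓝[<] 1) (𝓝 0))
    {ε : ℝ} (hε : 0 < ε) : ∀ᶠ r : ℝ in 𝓝[<] 1, (1 - r) * V (φ (pt r t)) ≤ ε := by
  set S : ℝ → ℝ := fun r => (1 - r) * (1 + m r) +
    ∑ j ∈ Finset.univ.erase i, (1 - r) / (1 - ‖φ (pt r t) j‖) * (1 + m r) with hS
  have hSlim : Tendsto S (𝓝[<] 1) (𝓝 0) := by
    have h3 := h1.add (tendsto_finsetSum (Finset.univ.erase i)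
      (fun j hj => h2 j (Finset.ne_of_mem_erase hj)))
    simpa [hS] using h3
  obtain ⟨η, hη, hQ⟩ := Q_small hh i (by positivity : 0 < c * ε / 8)
  set H := ∫ w, |h w| with hH
  have hH0 : 0 ≤ H := integral_nonneg fun _ => abs_nonneg _
  set K := 8 * H / (min η 1) + 8 * H + 4 with hK
  have hη1 : 0 < min η 1 := lt_min hη one_pos
  have hK0 : 0 < K := by positivity
  have hev : ∀ᶠ r in 𝓝[<] (1 : ℝ), S r < ε / (2 * K) := by
    exact hSlim.eventually (gt_mem_nhds (by positivity))
  have hmem : Ioo (0 : ℝ) 1 ∈ 𝓝[<] (1 : ℝ) := Ioo_mem_nhdsLT (by norm_num)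
  filter_upwards [hev, hmem] with r hr hrI
  have hr1 : 0 < 1 - r := by linarith [hrI.2]
  have hz := hmap (pt_mem hrI.1.le hrI.2 t)
  set z := φ (pt r t) with hzdef
  have hmr := hm0 r hrI
  have hxlow : ∀ j, c * (1 - r) ≤ 1 - ‖z j‖ := by
    intro j
    have h3 := one_sub_low (g := fun z => φ z j)
      (fun z hz => (differentiableWithinAt_pi.1 (hφ z hz)) j) (fun z hz => hmap hz j) t
      hrI.1.le hrI.2
    refine le_trans ?_ h3
    gcongr
    exact hc j
  -- the second largest modulus
  obtain ⟨y, hy, hy1, hzy, hyc, hyS⟩ : ∃ y : ℝ, 0 < y ∧ y ≤ 1 ∧ (∀ j, j ≠ i → ‖z j‖ ≤ 1 - y) ∧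
      c * (1 - r) ≤ y ∧ (1 - r) / y * (1 + m r) ≤ S r := by
    have hnn : ∀ j ∈ Finset.univ.erase i,
        0 ≤ (1 - r) / (1 - ‖z j‖) * (1 + m r) := by
      intro j _
      have := hz j
      exact mul_nonneg (div_nonneg hr1.le (by linarith)) (by linarith)
    have hc1 : c * (1 - r) ≤ 1 := by
      have h3 := hc i
      have h4 := norm_nonneg (φ 0 i)
      nlinarith [hrI.1]
    by_cases hne : (Finset.univ.erase i).Nonempty
    · obtain ⟨j, hj, hjmax⟩ := Finset.exists_max_image (Finset.univ.erase i)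
        (fun j => ‖z j‖) hne
      refine ⟨1 - ‖z j‖, by linarith [hz j], by linarith [norm_nonneg (z j)], ?_, hxlow j, ?_⟩
      · intro l hl
        have := hjmax l (Finset.mem_erase.2 ⟨hl, Finset.mem_univ l⟩)
        linarith
      · have h3 := Finset.single_le_sum hnn hj
        have h4 : 0 ≤ (1 - r) * (1 + m r) := mul_nonneg hr1.le (by linarith)
        simp only [hS]
        linarith
    · refine ⟨1, one_pos, le_rfl, ?_, hc1, ?_⟩
      · intro l hl
        exact absurd ⟨l, Finset.mem_erase.2 ⟨hl, Finset.mem_univ l⟩⟩ hne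
      · rw [div_one]
        have h3 := Finset.sum_nonneg hnn
        simp only [hS]
        linarith
  obtain ⟨a, ha, hgr⟩ := growth hV hh hrep hz i hy hy1 hzy (m := m r) (by
    intro z' hz'
    refine hm r hrI z' fun j => (hz' j).trans ?_
    have h3 : c * (1 - r) ≤ min (1 - ‖z i‖) y := le_min (hxlow i) hyc
    linarith) hmr
  set s := min 1 ((1 - ‖z i‖) / y) with hs
  have hzi : 0 < 1 - ‖z i‖ := by linarith [hz i]
  have hs0 : 0 < s := lt_min one_pos (by positivity)
  have ha1 : ‖a‖ < 1 := by rw [ha]; linarith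
  have has : 1 - ‖a‖ = s := by rw [ha]; ring
  have hQn := Q_nonneg (h := h) i ha1
  have hQb := Q_bound hh i ha1
  rw [has] at hQb
  set τ := (1 - r) / y with hτ
  have hτ0 : 0 < τ := by positivity
  have hτS : τ ≤ S r := by
    refine le_trans ?_ hyS
    have : τ * 1 ≤ τ * (1 + m r) := by gcongr; linarith
    linarith
  have hτm : τ * m r ≤ S r := by
    refine le_trans ?_ hyS
    gcongr
    linarith
  have hSr : K * S r ≤ ε / 2 := by
    have h3 : K * S r ≤ K * (ε / (2 * K)) := by gcongr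
    have h4 : K * (ε / (2 * K)) = ε / 2 := by field_simp
    linarith
  have hS0 : 0 ≤ S r := hτ0.le.trans hτS
  -- the main term
  have hmain : 4 * (τ * Q h i a) ≤ ε / 2 + (8 * H / (min η 1) + 8 * H) * S r := by
    by_cases hcase : s < min η 1
    · have hs1 : s < 1 := lt_of_lt_of_le hcase (min_le_right _ _)
      have hsx : s = (1 - ‖z i‖) / y := by
        rw [hs]
        refine min_eq_right ?_
        by_contra hcon
        push Not at hcon
        rw [hs, min_eq_left hcon.le] at hs1
        exact lt_irrefl _ hs1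
      have h3 := hQ a ha1 (by rw [has]; exact lt_of_lt_of_le hcase (min_le_left _ _))
      rw [has] at h3
      have h4 : τ ≤ s / c := by
        rw [hτ, hsx, div_div, div_le_div_iff₀ hy (by positivity)]
        have := hxlow i
        nlinarith
      have h5 : τ * Q h i a ≤ s / c * Q h i a := by gcongr
      have h6 : s / c * Q h i a = (s * Q h i a) / c := by ring
      have h7 : (s * Q h i a) / c ≤ (c * ε / 8) / c := by gcongr
      have h8 : (c * ε / 8) / c = ε / 8 := by field_simp
      have h9 : 0 ≤ (8 * H / (min η 1) + 8 * H) * S r := by positivity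
      linarith
    · push Not at hcase
      have h3 : Q h i a ≤ 2 * H / (min η 1) := by
        rw [le_div_iff₀ hη1]
        calc Q h i a * min η 1 ≤ Q h i a * s := by gcongr
          _ = s * Q h i a := by ring
          _ ≤ 2 * H := hQb
      have h4 : 4 * (τ * Q h i a) ≤ 4 * (S r * (2 * H / (min η 1))) := by gcongr
      have h5 : 4 * (S r * (2 * H / (min η 1))) = 8 * H / (min η 1) * S r := by ring
      have h6 : 0 ≤ 8 * H * S r := by positivity
      nlinarith
  have hfin : (1 - r) * V z ≤ 4 * (τ * Q h i a) + 4 * (τ * m r) := by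
    have h3 : (1 - r) * (V z + m r) ≤ (1 - r) * (4 / y * (Q h i a + m r)) := by gcongr
    have h4 : (1 - r) * (4 / y * (Q h i a + m r)) = 4 * (τ * Q h i a) + 4 * (τ * m r) := by
      rw [hτ]
      ring
    have h5 : 0 ≤ (1 - r) * m r := mul_nonneg hr1.le hmr
    linarith [mul_add (1 - r) (V z) (m r)]
  have h6 : 4 * (τ * m r) ≤ 4 * S r := by gcongr
  have h7 : K * S r = (8 * H / (min η 1) + 8 * H) * S r + 4 * S r := by
    rw [hK]
    ring
  linarith

end Pool.Agent.Helper43.Outer
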