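import Pool.Agent.Helper43.Outer.Count
import Pool.Agent.Helper43.Outer.Growth

open MeasureTheory Set Filter Topology Complex Metric ENNReal InnerProductSpace

namespace Pool.Agent.Helper43.Outer

variable {d : ℕ}

theorem vol_arc (t : Torus 1) (a : ℝ) :
    volume {t' : Torus 1 | dist (t' 0) (t 0) < a} ≤ ENNReal.ofReal (2 * a) := by
  have h1 : {t' : Torus 1 | dist (t' 0) (t 0) < a} ⊆
      (fun w : Torus 1 => w 0) ⁻¹' closedBall (t 0) a := by
    intro t' ht'
    exact mem_closedBall.2 (le_of_lt ht')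
  refine (measure_mono h1).trans ?_
  rw [(eval_mp 0).measure_preimage measurableSet_closedBall.nullMeasurableSet,
    AddCircle.volume_closedBall]
  exact ENNReal.ofReal_le_ofReal (min_le_right _ _)

theorem arc_open (t : Torus 1) (a : ℝ) : IsOpen {t' : Torus 1 | dist (t' 0) (t 0) < a} :=
  isOpen_lt ((continuous_apply 0).dist continuous_const) continuous_const

theorem P_one (r : ℝ) (t s : Torus 1) : P (pt r t) s = pk (r * e (t 0)) (s 0) := by
  rw [P_eq]
  simp [pt]

theorem ker_formula {r : ℝ} (hr : 0 ≤ r) (x y : UnitAddCircle) :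
    pk (r * e x) y = (1 - r ^ 2) / ((1 - r) ^ 2 + r * ‖e y - e x‖ ^ 2) := by
  rw [pk, dist_sq, norm_re hr]

-- the composition is small near a boundary point without atom
theorem local_small {W : (Fin 1 → ℂ) → ℝ} (hW : NHarm W) {B : ℝ}
    (hUI : ∀ ε : ℝ, 0 < ε → ∃ δ : ℝ, 0 < δ ∧ ∃ N : ℕ, ∀ k ≥ N, ∀ A : Set (Torus 1),
      MeasurableSet A → volume A ≤ ENNReal.ofReal δ →
      ∫ t in A, max (-W (pt (rad k) t)) 0 ≤ ε)
    (hB : ∃ N : ℕ, ∀ k ≥ N, ∫ t : Torus 1, max (-W (pt (rad k) t)) 0 ≤ B) (t : Torus 1)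
    (hatom : ∀ ε : ℝ, 0 < ε → ∀ᶠ r : ℝ in 𝓝[<] 1, (1 - r) * W (pt r t) ≤ ε) {ε : ℝ}
    (hε : 0 < ε) :
    ∃ O : Set (Torus 1), IsOpen O ∧ t ∈ O ∧ ∃ N : ℕ, ∀ k ≥ N,
      ∫ t' in O, |W (pt (rad k) t')| ≤ ε := by
  obtain ⟨δ, hδ, N1, hUI'⟩ := hUI (ε / 20) (by positivity)
  obtain ⟨N2, hB⟩ := hB
  set η := δ / 2 with hη
  have hη0 : 0 < η := by positivity
  -- choice of s
  have hB0 : 0 ≤ B := (integral_nonneg fun _ => le_max_right _ _).trans (hB N2 le_rfl)
  obtain ⟨s, hs0, hs1, hs2, hs3, hs4⟩ : ∃ s : ℝ, 0 < s ∧ s ≤ 1 / 2 ∧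
      s ^ 2 / (2 * η ^ 2) * B ≤ ε / 10 ∧ 2 * (s / 8) ≤ δ ∧
      s * W (pt (1 - s) t) ≤ ε / 20 := by
    have h1 := hatom (ε / 20) (by positivity)
    have h2 : ∀ᶠ r : ℝ in 𝓝[<] 1, (1 - r) ^ 2 / (2 * η ^ 2) * B ≤ ε / 10 := by
      have h3 : Tendsto (fun r : ℝ => (1 - r) ^ 2 / (2 * η ^ 2) * B) (𝓝 1)
          (𝓝 ((1 - 1) ^ 2 / (2 * η ^ 2) * B)) := by
        apply Continuous.tendsto
        fun_prop
      simp only [sub_self, ne_eq, OfNat.ofNat_ne_zero, not_false_eq_true, zero_pow, zero_div,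
        zero_mul] at h3
      have := h3.eventually (gt_mem_nhds (by positivity : (0 : ℝ) < ε / 10))
      exact nhdsWithin_le_nhds (this.mono fun r hr => hr.le)
    have h4 : ∀ᶠ r : ℝ in 𝓝[<] 1, r ∈ Ioo (max (1 / 2) (1 - δ)) 1 :=
      Ioo_mem_nhdsLT (max_lt (by norm_num) (by linarith))
    obtain ⟨r, ⟨hr1, hr2⟩, hr3⟩ := ((h1.and h2).and h4).exists
    have m1 := (le_max_left (1 / 2) (1 - δ)).trans hr3.1.le
    have m2 := lt_of_le_of_lt (le_max_right (1 / 2) (1 - δ)) hr3.1
    refine ⟨1 - r, by linarith [hr3.2], by linarith, hr2, by linarith, ?_⟩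
    rw [_root_.sub_sub_cancel]
    exact hr1
  set O := {t' : Torus 1 | dist (t' 0) (t 0) < s / 8} with hO
  refine ⟨O, arc_open t _, by
    change dist (t 0) (t 0) < s / 8
    rw [dist_self]
    positivity, ?_⟩
  -- limit of the values
  have hr0 : 0 ≤ 1 - s := by linarith
  have hr1 : 1 - s < 1 := by linarith
  have hlim := (radial_cont hW.1 hr0 hr1 t).const_mul (2 * s)
  have hlt : 2 * s * W (pt (1 - s) t) < ε / 5 := by
    have : 2 * s * W (pt (1 - s) t) = 2 * (s * W (pt (1 - s) t)) := by ring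
    linarith
  obtain ⟨N, hN⟩ := eventually_atTop.1 (hlim.eventually (gt_mem_nhds hlt))
  refine ⟨max N (max N1 N2), fun k hk => ?_⟩
  have hNk := hN k ((le_max_left _ _).trans hk)
  have hk1 : N1 ≤ k := ((le_max_left _ _).trans (le_max_right _ _)).trans hk
  have hk2 : N2 ≤ k := ((le_max_right _ _).trans (le_max_right _ _)).trans hk
  have hc := dil_cont hW.1 (rad_pos k).le (rad_lt k)
  set u : Torus 1 → ℝ := fun t' => W (pt (rad k) t') with hu
  set um : Torus 1 → ℝ := fun t' => max (-W (pt (rad k) t')) 0 with hum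
  have hum0 : ∀ t', 0 ≤ um t' := fun t' => le_max_right _ _
  have humc : Continuous um := hc.neg.max continuous_const
  have hui : Integrable u := cont_int hc
  have humi : Integrable um := cont_int humc
  have hup0 : ∀ t', 0 ≤ u t' + um t' := by
    intro t'
    have := le_max_left (-W (pt (rad k) t')) 0
    simp only [hu, hum]
    linarith
  have hz := pt_mem hr0 hr1 t
  -- kernel bounds
  have hklow : ∀ t' ∈ O, 1 ≤ 2 * s * P (pt (1 - s) t) t' := by
    intro t' ht'
    have ht'' : dist (t' 0) (t 0) < s / 8 := ht'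
    have h1 := (chord' (t' 0) (t 0)).2
    have h2 : ‖e (t' 0) - e (t 0)‖ ≤ s := by
      have hpi := Real.pi_lt_d2
      nlinarith [dist_nonneg (x := t' 0) (y := t 0), Real.pi_pos]
    have h3 : ‖e (t' 0) - e (t 0)‖ ^ 2 ≤ s ^ 2 := by gcongr
    rw [P_one, ker_formula hr0, mul_div_assoc', one_le_div (by
      have : 0 < (1 - (1 - s)) ^ 2 := by rw [_root_.sub_sub_cancel]; positivity
      positivity)]
    have h4 : (1 - s) * ‖e (t' 0) - e (t 0)‖ ^ 2 ≤ 1 * s ^ 2 := by
      have := sq_nonneg ‖e (t' 0) - e (t 0)‖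
      nlinarith
    nlinarith
  have hkup : ∀ t', 2 * s * P (pt (1 - s) t) t' ≤ 4 := by
    intro t'
    rw [P_one]
    have hn := norm_re hr0 (t 0)
    have h1 := pk_dist (a := ((1 - s : ℝ) : ℂ) * e (t 0)) (by rw [hn]; exact hr1) (t' 0)
    rw [hn, _root_.sub_sub_cancel] at h1
    linarith
  have hkfar : ∀ t', η ≤ dist (t' 0) (t 0) →
      2 * s * P (pt (1 - s) t) t' ≤ s ^ 2 / (2 * η ^ 2) := by
    intro t' ht'
    have h1 := (chord' (t' 0) (t 0)).1
    have h2 : 4 * η ≤ ‖e (t' 0) - e (t 0)‖ := by linarith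
    have h3 : (4 * η) ^ 2 ≤ ‖e (t' 0) - e (t 0)‖ ^ 2 := by gcongr
    rw [P_one, ker_formula hr0, mul_div_assoc', div_le_div_iff₀ (by
      have : 0 < (1 - (1 - s)) ^ 2 := by rw [_root_.sub_sub_cancel]; positivity
      positivity) (by positivity)]
    have h4 : 1 / 2 * (4 * η) ^ 2 ≤ (1 - s) * ‖e (t' 0) - e (t 0)‖ ^ 2 := by
      gcongr
      linarith
    have h5 : 2 * s * (1 - (1 - s) ^ 2) ≤ 4 * s ^ 2 := by nlinarith [sq_nonneg s]
    calc 2 * s * (1 - (1 - s) ^ 2) * (2 * η ^ 2) ≤ 4 * s ^ 2 * (2 * η ^ 2) := by gcongr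
      _ = s ^ 2 * (1 / 2 * (4 * η) ^ 2) := by ring
      _ ≤ s ^ 2 * ((1 - (1 - s)) ^ 2 + (1 - s) * ‖e (t' 0) - e (t 0)‖ ^ 2) := by
        gcongr
        have : 0 ≤ (1 - (1 - s)) ^ 2 := sq_nonneg _
        linarith
  -- first part: positive part on O
  have hPu := int_P_mul hz hui
  have hPum := int_P_mul hz humi
  have hmeasO : MeasurableSet O := (arc_open t _).measurableSet
  have hpart1 : ∫ t' in O, (u t' + um t') ≤ 2 * s * (W (pt (rad k * (1 - s)) t) +
      ∫ t', P (pt (1 - s) t) t' * um t') := by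
    have e1 : W (pt (rad k * (1 - s)) t) = ∫ t', P (pt (1 - s) t) t' * u t' := by
      rw [nharm_poisson hW (rad_pos k).le (rad_lt k) hz]
      congr 1
      ext i
      simp only [pt]
      push_cast
      ring
    rw [e1, ← integral_add hPu hPum, ← integral_const_mul]
    calc ∫ t' in O, (u t' + um t')
        ≤ ∫ t' in O, 2 * s * (P (pt (1 - s) t) t' * u t' + P (pt (1 - s) t) t' * um t') := by
          refine setIntegral_mono_on (hui.add humi).integrableOn
            ((hPu.add hPum).const_mul _).integrableOn hmeasO fun t' ht' => ?_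
          have h1 := hklow t' ht'
          have h2 := hup0 t'
          nlinarith
      _ ≤ _ := by
          refine setIntegral_le_integral ((hPu.add hPum).const_mul _) (ae_of_all _ fun t' => ?_)
          have h1 := (P_pos hz t').le
          have h2 := hup0 t'
          simp only [Pi.zero_apply]
          have : 2 * s * (P (pt (1 - s) t) t' * u t' + P (pt (1 - s) t) t' * um t') =
              2 * s * (P (pt (1 - s) t) t' * (u t' + um t')) := by ring
          rw [this]
          positivity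
  -- second part: the negative part
  set A := {t' : Torus 1 | dist (t' 0) (t 0) < η} with hA
  have hAm : MeasurableSet A := (arc_open t _).measurableSet
  have hvA : volume A ≤ ENNReal.ofReal δ := by
    refine (vol_arc t η).trans (ENNReal.ofReal_le_ofReal ?_)
    rw [hη]
    linarith
  have hvO : volume O ≤ ENNReal.ofReal δ :=
    (vol_arc t (s / 8)).trans (ENNReal.ofReal_le_ofReal hs3)
  have hUA := hUI' k hk1 A hAm hvA
  have hUO := hUI' k hk1 O hmeasO hvO
  have hpart2 : 2 * s * ∫ t', P (pt (1 - s) t) t' * um t' ≤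
      4 * (∫ t' in A, um t') + s ^ 2 / (2 * η ^ 2) * B := by
    rw [← integral_const_mul, ← integral_add_compl hAm (hPum.const_mul _)]
    refine add_le_add ?_ ?_
    · rw [← integral_const_mul]
      refine setIntegral_mono_on (hPum.const_mul _).integrableOn
        (humi.const_mul 4).integrableOn hAm fun t' _ => ?_
      rw [← mul_assoc]
      exact mul_le_mul_of_nonneg_right (hkup t') (hum0 t')
    · calc ∫ t' in Aᶜ, 2 * s * (P (pt (1 - s) t) t' * um t')
          ≤ ∫ t' in Aᶜ, s ^ 2 / (2 * η ^ 2) * um t' := by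
            refine setIntegral_mono_on (hPum.const_mul _).integrableOn
              (humi.const_mul _).integrableOn hAm.compl fun t' ht' => ?_
            rw [← mul_assoc]
            refine mul_le_mul_of_nonneg_right (hkfar t' ?_) (hum0 t')
            have : ¬ dist (t' 0) (t 0) < η := ht'
            linarith
        _ ≤ ∫ t', s ^ 2 / (2 * η ^ 2) * um t' := by
            refine setIntegral_le_integral (humi.const_mul _) (ae_of_all _ fun t' => ?_)
            have := hum0 t'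
            simp only [Pi.zero_apply]
            positivity
        _ ≤ s ^ 2 / (2 * η ^ 2) * B := by
            rw [integral_const_mul]
            have := hB k hk2
            gcongr
  have habs : ∀ t', |W (pt (rad k) t')| = (u t' + um t') + um t' := by
    intro t'
    simp only [hu, hum]
    rcases le_total (W (pt (rad k) t')) 0 with h | h
    · rw [abs_of_nonpos h, max_eq_left (by linarith)]
      ring
    · rw [abs_of_nonneg h, max_eq_right (by linarith)]
      ring
  simp_rw [habs]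
  have hsplit := integral_add (μ := volume.restrict O) (hui.add humi).integrableOn
    humi.integrableOn
  simp only [Pi.add_apply] at hsplit
  rw [hsplit]
  have e5 : 2 * s * (W (pt (rad k * (1 - s)) t) + ∫ t', P (pt (1 - s) t) t' * um t') =
      2 * s * W (pt (rad k * (1 - s)) t) + 2 * s * ∫ t', P (pt (1 - s) t) t' * um t' := by
    ring
  rw [e5] at hpart1
  linarith

theorem setIntegral_biUnion_le {α : Type*} [MeasurableSpace α] {μ : Measure α} (f : α → ℝ)
    (hf : Integrable f μ) (hf0 : ∀ x, 0 ≤ f x) {ι : Type*} (T : Finset ι) (O : ι → Set α)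
    (hO : ∀ i ∈ T, MeasurableSet (O i)) :
    ∫ x in ⋃ i ∈ T, O i, f x ∂μ ≤ ∑ i ∈ T, ∫ x in O i, f x ∂μ := by
  classical
  induction T using Finset.induction_on with
  | empty => simp
  | insert a T ha ih =>
    rw [Finset.sum_insert ha, Finset.set_biUnion_insert]
    have hm : MeasurableSet (⋃ i ∈ T, O i) :=
      T.measurableSet_biUnion fun i hi => hO i (Finset.mem_insert_of_mem hi)
    have h1 : ∫ x in O a ∪ ⋃ i ∈ T, O i, f x ∂μ ≤
        ∫ x in O a, f x ∂μ + ∫ x in ⋃ i ∈ T, O i, f x ∂μ := by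
      have h2 : O a ∪ ⋃ i ∈ T, O i = O a ∪ ((⋃ i ∈ T, O i) \ O a) := by
        rw [union_sdiff_self]
      rw [h2, setIntegral_union disjoint_sdiff_right (hm.diff (hO a (Finset.mem_insert_self _ _)))
        hf.integrableOn hf.integrableOn]
      have h4 : ∫ x in (⋃ i ∈ T, O i) \ O a, f x ∂μ ≤ ∫ x in ⋃ i ∈ T, O i, f x ∂μ :=
        setIntegral_mono_set hf.integrableOn (ae_of_all _ hf0) (ae_of_all _ fun x hx => hx.1)
      linarith
    have h3 := ih (fun i hi => hO i (Finset.mem_insert_of_mem hi))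
    linarith

-- the dilates form a Cauchy sequence when there are countably many contact points
theorem core {γ : (Fin 1 → ℂ) → (Fin d → ℂ)} (hγ : DifferentiableOn ℂ γ (polydisc 1))
    (hm : MapsTo γ (polydisc 1) (polydisc d)) {V : (Fin d → ℂ) → ℝ}
    (hW : NHarm (fun z => V (γ z))) {h : Torus d → ℝ} (hh : Integrable h)
    (hrep : ∀ z ∈ polydisc d, V z = ∫ t, P z t * h t) (hcount : {t | Contact γ t}.Countable)
    {B : ℝ}
    (hUI : ∀ ε : ℝ, 0 < ε → ∃ δ : ℝ, 0 < δ ∧ ∃ N : ℕ, ∀ k ≥ N, ∀ A : Set (Torus 1),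
      MeasurableSet A → volume A ≤ ENNReal.ofReal δ →
      ∫ t in A, max (-V (γ (pt (rad k) t))) 0 ≤ ε)
    (hB : ∃ N : ℕ, ∀ k ≥ N, ∫ t : Torus 1, max (-V (γ (pt (rad k) t))) 0 ≤ B)
    (hatom : ∀ t, Contact γ t → ∀ ε : ℝ, 0 < ε →
      ∀ᶠ r : ℝ in 𝓝[<] 1, (1 - r) * V (γ (pt r t)) ≤ ε) {ε : ℝ} (hε : 0 < ε) :
    ∃ N : ℕ, ∀ k ≥ N, ∀ l ≥ N,
      ∫ t, |V (γ (pt (rad k) t)) - V (γ (pt (rad l) t))| < ε := by
  classical
  have hc : ∀ k, Continuous (fun t : Torus 1 => V (γ (pt (rad k) t))) := fun k =>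
    dil_cont hW.1 (rad_pos k).le (rad_lt k)
  obtain ⟨ε', hε', hsum⟩ := hcount.exists_pos_forall_sum_le (by positivity : 0 < ε / 8)
  have hloc : ∀ t, ∃ O : Set (Torus 1), Contact γ t → IsOpen O ∧ t ∈ O ∧ ∃ N : ℕ, ∀ k ≥ N,
      ∫ t' in O, |V (γ (pt (rad k) t'))| ≤ ε' t := by
    intro t
    by_cases ht : Contact γ t
    · obtain ⟨O, h1, h2, h3⟩ := local_small hW hUI hB t (hatom t ht) (hε' t)
      exact ⟨O, fun _ => ⟨h1, h2, h3⟩⟩
    · exact ⟨univ, fun h => absurd h ht⟩
  choose O hO using hloc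
  have hcomp : IsCompact {t | Contact γ t} := (contact_closed γ).isCompact
  obtain ⟨T, hT1, hT2⟩ := hcomp.elim_nhds_subcover O
    (fun t ht => (hO t ht).1.mem_nhds (hO t ht).2.1)
  set G := ⋃ x ∈ T, O x with hG
  have hGo : IsOpen G := isOpen_biUnion fun x hx => (hO x (hT1 x hx)).1
  have hN : ∀ x, ∃ N : ℕ, x ∈ T → ∀ k ≥ N, ∫ t' in O x, |V (γ (pt (rad k) t'))| ≤ ε' x := by
    intro x
    by_cases hx : x ∈ T
    · obtain ⟨N, hN⟩ := (hO x (hT1 x hx)).2.2
      exact ⟨N, fun _ => hN⟩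
    · exact ⟨0, fun h => absurd h hx⟩
  choose n hn using hN
  set N1 := ∑ x ∈ T, n x with hN1
  have hG1 : ∀ k ≥ N1, ∫ t' in G, |V (γ (pt (rad k) t'))| ≤ ε / 8 := by
    intro k hk
    refine (setIntegral_biUnion_le _ (cont_int (hc k)).abs (fun _ => abs_nonneg _) T O
      (fun x hx => (hO x (hT1 x hx)).1.measurableSet)).trans ?_
    refine le_trans ?_ (hsum T fun x hx => hT1 x hx)
    refine Finset.sum_le_sum fun x hx => hn x hx k ?_
    exact (Finset.single_le_sum (fun _ _ => Nat.zero_le _) hx).trans hk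
  -- the complement
  have hJc : IsCompact Gᶜ := hGo.isClosed_compl.isCompact
  obtain ⟨δ, hδ0, hδ1, hsep⟩ := sep_compact hγ hm hJc
    (fun t ht hct => ht (hT2 hct))
  obtain ⟨C, hC0, hC⟩ := kernel_J hγ hm Gᶜ hGo.measurableSet.compl hδ0 hδ1 hsep
  obtain ⟨v, hv, hlim⟩ := limit_of_kernel hγ hm Gᶜ hC0 hC hh hrep rad (fun k => (rad_pos k).le)
    rad_lt rad_lim
  obtain ⟨N2, hN2⟩ := eventually_atTop.1 (hlim.eventually (gt_mem_nhds
    (by positivity : (0 : ℝ) < ε / 8)))
  refine ⟨max N1 N2, fun k hk l hl => ?_⟩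
  have hk1 := hG1 k ((le_max_left _ _).trans hk)
  have hl1 := hG1 l ((le_max_left _ _).trans hl)
  have hk2 := hN2 k ((le_max_right _ _).trans hk)
  have hl2 := hN2 l ((le_max_right _ _).trans hl)
  have hdi : Integrable (fun t : Torus 1 => |V (γ (pt (rad k) t)) - V (γ (pt (rad l) t))|) :=
    (cont_int ((hc k).sub (hc l))).abs
  rw [← integral_add_compl hGo.measurableSet hdi]
  have p1 : ∫ t in G, |V (γ (pt (rad k) t)) - V (γ (pt (rad l) t))| ≤
      (∫ t in G, |V (γ (pt (rad k) t))|) + ∫ t in G, |V (γ (pt (rad l) t))| := by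
    have h1 := l1_tri (μ := volume.restrict G) (cont_int (hc k)).integrableOn
      (g := fun _ => (0 : ℝ)) (integrable_zero (Torus 1) ℝ (volume.restrict G))
      (cont_int (hc l)).integrableOn
    simpa only [Real.norm_eq_abs, sub_zero, zero_sub, abs_neg] using h1
  have p2 : ∫ t in Gᶜ, |V (γ (pt (rad k) t)) - V (γ (pt (rad l) t))| ≤
      (∫ t in Gᶜ, |V (γ (pt (rad k) t)) - v t|) + ∫ t in Gᶜ, |V (γ (pt (rad l) t)) - v t| := by
    have h1 := l1_tri (μ := volume.restrict Gᶜ) (cont_int (hc k)).integrableOn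
      hv (cont_int (hc l)).integrableOn
    simp only [Real.norm_eq_abs] at h1
    have h2 : ∫ t in Gᶜ, |v t - V (γ (pt (rad l) t))| =
        ∫ t in Gᶜ, |V (γ (pt (rad l) t)) - v t| := by
      congr 1
      ext t
      exact abs_sub_comm _ _
    rw [h2] at h1
    exact h1
  linarith

end Pool.Agent.Helper43.Outer
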