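import Pool.Agent.Helper43.Outer.Finite

open MeasureTheory Set Filter Topology Complex Metric ENNReal InnerProductSpace

namespace Pool.Agent.Helper43.Outer

variable {d : ℕ}

-- pointwise growth of outer functions in H^p, p finite
theorem growth_p {p : ℝ≥0∞} (hp : p ≠ 0) (hp' : p ≠ ∞) {f : (Fin d → ℂ) → ℂ}
    (hf : IsOuter p f) : ∃ K : ℝ, 0 ≤ K ∧ ∀ x : ℝ, 0 < x → x ≤ 1 → ∀ z : Fin d → ℂ,
      (∀ j, ‖z j‖ ≤ 1 - x) → Real.log ‖f z‖ ≤ K * (1 + Real.log (1 / x)) := by
  obtain ⟨B, hB0, hB⟩ := moment_bound hp hp' hf.1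
  have hpr : 0 < p.toReal := ENNReal.toReal_pos hp hp'
  set p' := p.toReal with hp'd
  obtain ⟨b, hb1, hb2, hb3⟩ := hf.2.2
  have hradlim : Tendsto rad atTop (𝓝[<] 1) :=
    tendsto_nhdsWithin_iff.2 ⟨rad_lim, Eventually.of_forall rad_lt⟩
  -- Fatou
  have hae : ∀ᵐ t : Torus d, Tendsto (fun k => ‖f (pt (rad k) t)‖ ^ p') atTop
      (𝓝 (b t ^ p')) := by
    filter_upwards [hb1] with t ht
    have h1 := ht.1.comp hradlim
    exact ((Real.continuousAt_rpow_const _ _ (Or.inr hpr.le)).tendsto).comp h1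
  have hbm : AEStronglyMeasurable (fun t => b t ^ p') volume :=
    aestronglyMeasurable_of_tendsto_ae atTop (fun k => (hB k).1.aestronglyMeasurable) hae
  have hlint : ∫⁻ t, ENNReal.ofReal (b t ^ p') ≤ ENNReal.ofReal B := by
    have h1 : ∫⁻ t : Torus d, ENNReal.ofReal (b t ^ p') =
        ∫⁻ t, liminf (fun k => ENNReal.ofReal (‖f (pt (rad k) t)‖ ^ p')) atTop := by
      apply lintegral_congr_ae
      filter_upwards [hae] with t ht
      have := ((ENNReal.continuous_ofReal.tendsto _).comp ht).liminf_eq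
      exact this.symm
    rw [h1]
    refine (lintegral_liminf_le' fun k =>
      (hB k).1.aestronglyMeasurable.aemeasurable.ennreal_ofReal).trans ?_
    refine liminf_le_of_frequently_le' (Frequently.of_forall fun k => ?_)
    rw [← ofReal_integral_eq_lintegral_ofReal (hB k).1
      (ae_of_all _ fun t => Real.rpow_nonneg (norm_nonneg _) _)]
    exact ENNReal.ofReal_le_ofReal (hB k).2
  have hbp0 : ∀ᵐ t : Torus d, 0 ≤ b t ^ p' := by
    filter_upwards [hb1] with t ht
    exact Real.rpow_nonneg ht.2.le _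
  have hbi : Integrable (fun t => b t ^ p') := by
    refine ⟨hbm, ?_⟩
    rw [hasFiniteIntegral_iff_ofReal hbp0]
    exact lt_of_le_of_lt hlint ENNReal.ofReal_lt_top
  have hbB : ∫ t, b t ^ p' ≤ B := by
    rw [integral_eq_lintegral_of_nonneg_ae hbp0 hbm]
    exact ENNReal.toReal_le_of_le_ofReal hB0 hlint
  have hBp1 : 0 < B + 1 := by linarith
  -- the bound
  refine ⟨(|Real.log (B + 1)| + d * Real.log 2 + d) / p', by positivity, ?_⟩
  intro x hx hx1 z hz
  have hzm : z ∈ polydisc d := fun j => by linarith [hz j]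
  have hPle : ∀ t, P z t ≤ (2 / x) ^ d := by
    intro t
    rw [P_eq]
    have := Finset.prod_le_prod (s := Finset.univ) (f := fun i => pk (z i) (t i))
      (g := fun _ => 2 / x) (fun i _ => (pk_pos (hzm i) _).le) (fun i _ => pk_le' hx (hz i) _)
    rwa [Finset.prod_const, Finset.card_univ, Fintype.card_fin] at this
  set c := p' * Real.log ‖f z‖ with hc
  have hjensen : Real.exp c ≤ ∫ t, P z t * b t ^ p' := by
    have h1 : ∫ t, (Real.exp c * ((1 - c) * P z t + p' * (P z t * Real.log (b t)))) ≤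
        ∫ t, P z t * b t ^ p' := by
      refine integral_mono_ae ((((P_int hzm).const_mul _).add
        ((int_P_mul hzm hb2).const_mul _)).const_mul _) (int_P_mul hzm hbi) ?_
      filter_upwards [hb1] with t ht
      have h2 : b t ^ p' = Real.exp (p' * Real.log (b t)) := by
        rw [Real.rpow_def_of_pos ht.2, mul_comm]
      have h3 : Real.exp c * (p' * Real.log (b t) - c + 1) ≤
          Real.exp (p' * Real.log (b t)) := by
        have h4 := Real.add_one_le_exp (p' * Real.log (b t) - c)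
        calc Real.exp c * (p' * Real.log (b t) - c + 1)
            ≤ Real.exp c * Real.exp (p' * Real.log (b t) - c) := by gcongr
          _ = Real.exp (p' * Real.log (b t)) := by
              rw [← Real.exp_add]
              congr 1
              ring
      have h5 := mul_le_mul_of_nonneg_left h3 (P_pos hzm t).le
      rw [h2]
      calc Real.exp c * ((1 - c) * P z t + p' * (P z t * Real.log (b t)))
          = P z t * (Real.exp c * (p' * Real.log (b t) - c + 1)) := by ring
        _ ≤ _ := h5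
    have e1 := integral_add ((P_int hzm).const_mul (1 - c)) ((int_P_mul hzm hb2).const_mul p')
    rw [integral_const_mul, e1, integral_const_mul, integral_const_mul, integral_P hzm,
      ← hb3 z hzm, ← hc] at h1
    have e2 : Real.exp c * ((1 - c) * 1 + c) = Real.exp c := by ring
    rw [e2] at h1
    exact h1
  have hup : ∫ t, P z t * b t ^ p' ≤ (2 / x) ^ d * (B + 1) := by
    have h1 : ∫ t, P z t * b t ^ p' ≤ ∫ t, (2 / x) ^ d * b t ^ p' := by
      refine integral_mono_ae (int_P_mul hzm hbi) (hbi.const_mul _) ?_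
      filter_upwards [hbp0] with t ht
      exact mul_le_mul_of_nonneg_right (hPle t) ht
    rw [integral_const_mul] at h1
    refine h1.trans ?_
    gcongr
    linarith
  have hle := hjensen.trans hup
  have h2x : 0 < 2 / x := by positivity
  have hlog : c ≤ d * Real.log (2 / x) + Real.log (B + 1) := by
    have h1 := Real.log_le_log (Real.exp_pos c) hle
    rw [Real.log_exp, Real.log_mul (by positivity) hBp1.ne', Real.log_pow] at h1
    exact h1
  have h2 : Real.log (2 / x) = Real.log 2 + Real.log (1 / x) := by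
    rw [← Real.log_mul (by norm_num) (by positivity)]
    congr 1
    ring
  have h3 : 0 ≤ Real.log (1 / x) := Real.log_nonneg (by
    rw [le_div_iff₀ hx]
    linarith)
  have h4 : Real.log (B + 1) ≤ |Real.log (B + 1)| := le_abs_self _
  have h5 : 0 ≤ Real.log 2 := Real.log_nonneg (by norm_num)
  have h6 : (0 : ℝ) ≤ d := Nat.cast_nonneg d
  have h7 : c ≤ (|Real.log (B + 1)| + d * Real.log 2 + d) * (1 + Real.log (1 / x)) := by
    rw [h2] at hlog
    have h8 : 0 ≤ |Real.log (B + 1)| * Real.log (1 / x) := by positivity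
    have h9 : 0 ≤ d * Real.log 2 * Real.log (1 / x) := by positivity
    nlinarith
  have h10 : Real.log ‖f z‖ = c / p' := by
    rw [hc]
    field_simp
  rw [h10, div_mul_eq_mul_div]
  gcongr

-- logarithmic separation of the j-th coordinate from the boundary along the radius
def LogFar (φ : (Fin 1 → ℂ) → (Fin d → ℂ)) (j : Fin d) (t : Torus 1) : Prop :=
  Tendsto (fun r : ℝ => (1 - r) * Real.log (1 / (1 - r)) / (1 - ‖φ (pt r t) j‖)) (𝓝[<] 1) (𝓝 0)

theorem xlog_lim : Tendsto (fun r : ℝ => (1 - r) * Real.log (1 / (1 - r))) (𝓝[<] 1) (𝓝 0) := by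
  have h1 := tendsto_log_mul_rpow_nhdsGT_zero zero_lt_one
  have h2 : Tendsto (fun r : ℝ => 1 - r) (𝓝[<] 1) (𝓝[>] 0) := by
    refine tendsto_nhdsWithin_iff.2 ⟨?_, ?_⟩
    · have : Tendsto (fun r : ℝ => 1 - r) (𝓝 1) (𝓝 (1 - 1)) := by
        apply Continuous.tendsto
        fun_prop
      rw [sub_self] at this
      exact this.mono_left nhdsWithin_le_nhds
    · filter_upwards [self_mem_nhdsWithin] with r hr
      have : r < 1 := hr
      exact sub_pos.2 this
  have h3 := (h1.comp h2).neg
  rw [neg_zero] at h3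
  refine h3.congr fun r => ?_
  simp only [Function.comp_apply, Real.rpow_one]
  rw [one_div, Real.log_inv]
  ring

theorem preserves_finite {p q : ℝ≥0∞} (hp : p ≠ 0) (hp' : p ≠ ∞) (hq : q ≠ 0)
    {ψ : (Fin 1 → ℂ) → ℂ} {φ : (Fin 1 → ℂ) → (Fin d → ℂ)} (h : Symbol p q ψ φ)
    (hcount : {t | Contact φ t}.Countable)
    (hfar : ∀ t, Contact φ t → ∃ i, ∀ j, j ≠ i → LogFar φ j t) :
    PreservesOuter p q ψ φ ↔ IsOuter q ψ := by
  refine ⟨psi_outer, fun hψ f hf => ?_⟩
  refine outer_of_cauchy h hψ hf fun ε hε => ?_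
  obtain ⟨hh0, hh, hrep⟩ := outer_rep hf
  have hW := neg_log_nharm hf.1.1 hf.2.1 h.phi h.maps
  have hV := neg_log_nharm' hf.1.1 hf.2.1
  have hF := h.memH hf.1
  have hFne : ∀ z ∈ polydisc 1, wco ψ φ f z ≠ 0 := fun z hz =>
    mul_ne_zero (hψ.2.1 z hz) (hf.2.1 _ (h.maps hz))
  have hFN := nharm_log hF.1 hFne
  have hψN := nharm_log hψ.1.1 hψ.2.1
  have hFc : ∀ k, Continuous (fun t : Torus 1 =>
      max (Real.log ‖wco ψ φ f (pt (rad k) t)‖) 0) := fun k =>
    (dil_cont hFN.1 (rad_pos k).le (rad_lt k)).max continuous_const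
  have hψc : ∀ k, Integrable (fun t : Torus 1 => Real.log ‖ψ (pt (rad k) t)‖) := fun k =>
    cont_int (dil_cont hψN.1 (rad_pos k).le (rad_lt k))
  obtain ⟨hui, B1, hB1⟩ := ui_logplus hq hF hFc
  obtain ⟨w, hw, hwl⟩ := outer_dil hψ
  -- the negative part
  have hneg : ∀ k (t : Torus 1), max (-(-Real.log ‖f (φ (pt (rad k) t))‖)) 0 ≤
      max (Real.log ‖wco ψ φ f (pt (rad k) t)‖) 0 + |Real.log ‖ψ (pt (rad k) t)‖| := by
    intro k t
    have hz := pt_mem (rad_pos k).le (rad_lt k) t
    have e1 : Real.log ‖wco ψ φ f (pt (rad k) t)‖ =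
        Real.log ‖ψ (pt (rad k) t)‖ + Real.log ‖f (φ (pt (rad k) t))‖ := by
      rw [wco, norm_mul, Real.log_mul (norm_ne_zero_iff.2 (hψ.2.1 _ hz))
        (norm_ne_zero_iff.2 (hf.2.1 _ (h.maps hz)))]
    rw [neg_neg, e1]
    have h1 := neg_abs_le (Real.log ‖ψ (pt (rad k) t)‖)
    have h2 := abs_nonneg (Real.log ‖ψ (pt (rad k) t)‖)
    have h3 := le_max_left (Real.log ‖ψ (pt (rad k) t)‖ + Real.log ‖f (φ (pt (rad k) t))‖) 0
    have h4 := le_max_right (Real.log ‖ψ (pt (rad k) t)‖ + Real.log ‖f (φ (pt (rad k) t))‖) 0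
    refine max_le ?_ ?_ <;> linarith
  have hnc : ∀ k, Integrable (fun t : Torus 1 =>
      max (-(-Real.log ‖f (φ (pt (rad k) t))‖)) 0) := fun k =>
    cont_int ((dil_cont hW.1 (rad_pos k).le (rad_lt k)).neg.max continuous_const)
  refine core (V := fun z => -Real.log ‖f z‖) h.phi h.maps hW hh hrep hcount
    (B := B1 + ((∫ t, |w t|) + 1)) ?_ ?_ ?_ hε
  · intro ε' hε'
    obtain ⟨δ1, hδ1, h1⟩ := hui (ε' / 2) (by positivity)
    obtain ⟨δ2, hδ2, N, h2⟩ := ui_of_lim hψc hw hwl (by positivity : 0 < ε' / 2)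
    refine ⟨min δ1 δ2, lt_min hδ1 hδ2, N, fun k hk A hA hv => ?_⟩
    have e1 := h1 k A hA (hv.trans (ENNReal.ofReal_le_ofReal (min_le_left _ _)))
    have e2 := h2 k hk A hA (hv.trans (ENNReal.ofReal_le_ofReal (min_le_right _ _)))
    calc ∫ t in A, max (-(-Real.log ‖f (φ (pt (rad k) t))‖)) 0
        ≤ ∫ t in A, (max (Real.log ‖wco ψ φ f (pt (rad k) t)‖) 0 +
            |Real.log ‖ψ (pt (rad k) t)‖|) :=
          setIntegral_mono_on (hnc k).integrableOn
            ((cont_int (hFc k)).add (hψc k).abs).integrableOn hA fun t _ => hneg k t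
      _ = (∫ t in A, max (Real.log ‖wco ψ φ f (pt (rad k) t)‖) 0) +
            ∫ t in A, |Real.log ‖ψ (pt (rad k) t)‖| :=
          integral_add (cont_int (hFc k)).integrableOn (hψc k).abs.integrableOn
      _ ≤ ε' := by linarith
  · obtain ⟨N, hN⟩ := eventually_atTop.1 (hwl.eventually (gt_mem_nhds one_pos))
    refine ⟨N, fun k hk => ?_⟩
    have e1 := hB1 k
    have e2 : ∫ t, |Real.log ‖ψ (pt (rad k) t)‖| ≤ (∫ t, |w t|) + 1 := by
      have h5 := l1_tri (hψc k) (g := w) hw (h := fun _ => (0 : ℝ))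
        (integrable_zero (Torus 1) ℝ volume)
      simp only [Real.norm_eq_abs, sub_zero] at h5
      have h6 := hN k hk
      linarith
    calc ∫ t : Torus 1, max (-(-Real.log ‖f (φ (pt (rad k) t))‖)) 0
        ≤ ∫ t : Torus 1, (max (Real.log ‖wco ψ φ f (pt (rad k) t)‖) 0 +
            |Real.log ‖ψ (pt (rad k) t)‖|) :=
          integral_mono (hnc k) ((cont_int (hFc k)).add (hψc k).abs) (hneg k)
      _ = (∫ t : Torus 1, max (Real.log ‖wco ψ φ f (pt (rad k) t)‖) 0) +
            ∫ t, |Real.log ‖ψ (pt (rad k) t)‖| :=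
          integral_add (cont_int (hFc k)) (hψc k).abs
      _ ≤ _ := by linarith
  · intro t ht ε' hε'
    obtain ⟨i, hi⟩ := hfar t ht
    obtain ⟨c, hc0, hcl⟩ := exists_low h.maps
    obtain ⟨K, hK0, hK⟩ := growth_p hp hp' hf
    have hc1 : c ≤ 1 / 2 := by
      have := hcl i
      have := norm_nonneg (φ 0 i)
      linarith
    set m : ℝ → ℝ := fun r => K * (1 + Real.log (2 / c) + Real.log (1 / (1 - r))) with hm
    have hlc : 0 ≤ Real.log (2 / c) := Real.log_nonneg (by
      rw [le_div_iff₀ hc0]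
      linarith)
    have hlr : ∀ r ∈ Ioo (0 : ℝ) 1, 0 ≤ Real.log (1 / (1 - r)) := by
      intro r hr
      refine Real.log_nonneg ?_
      rw [le_div_iff₀ (by linarith [hr.2])]
      linarith [hr.1]
    have hmem : Ioo (0 : ℝ) 1 ∈ 𝓝[<] (1 : ℝ) := Ioo_mem_nhdsLT (by norm_num)
    have hlin : Tendsto (fun r : ℝ => 1 - r) (𝓝[<] 1) (𝓝 0) := by
      have : Tendsto (fun r : ℝ => 1 - r) (𝓝 1) (𝓝 (1 - 1)) := by
        apply Continuous.tendsto
        fun_prop
      rw [sub_self] at this
      exact this.mono_left nhdsWithin_le_nhds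
    refine no_atom h.phi h.maps hV hh hrep t i m ?_ hcl hc0 ?_ ?_ ?_ hε'
    · intro r hr
      have := hlr r hr
      simp only [hm]
      positivity
    · intro r hr z hz
      have hr1 : 0 < 1 - r := by linarith [hr.2]
      have hx : 0 < c * (1 - r) / 2 := by positivity
      have hx1 : c * (1 - r) / 2 ≤ 1 := by nlinarith [hr.1]
      have h1 := hK _ hx hx1 z hz
      have h2 : Real.log (1 / (c * (1 - r) / 2)) =
          Real.log (2 / c) + Real.log (1 / (1 - r)) := by
        rw [← Real.log_mul (by positivity) (by positivity)]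
        congr 1
        field_simp
      rw [h2] at h1
      simp only [hm]
      linarith
    · have h1 := (hlin.mul_const (1 + K * (1 + Real.log (2 / c)))).add (xlog_lim.const_mul K)
      rw [zero_mul, mul_zero, add_zero] at h1
      refine h1.congr fun r => ?_
      simp only [hm]
      ring
    · intro j hj
      have hfj := hi j hj
      unfold LogFar at hfj
      -- the quotient itself tends to zero
      have hτ : Tendsto (fun r : ℝ => (1 - r) / (1 - ‖φ (pt r t) j‖)) (𝓝[<] 1) (𝓝 0) := by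
        have hlarge : ∀ᶠ r : ℝ in 𝓝[<] 1, 1 ≤ Real.log (1 / (1 - r)) := by
          have h3 : Ioo (1 - Real.exp (-1)) 1 ∈ 𝓝[<] (1 : ℝ) :=
            Ioo_mem_nhdsLT (by linarith [Real.exp_pos (-1)])
          filter_upwards [h3] with r hr
          have hr1 : 0 < 1 - r := by linarith [hr.2]
          rw [one_div, Real.log_inv, le_neg, Real.log_le_iff_le_exp hr1]
          linarith [hr.1]
        refine squeeze_zero' ?_ ?_ hfj
        · filter_upwards [hmem] with r hr
          have := h.maps (pt_mem hr.1.le hr.2 t) j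
          exact div_nonneg (by linarith [hr.2]) (by linarith)
        · filter_upwards [hmem, hlarge] with r hr hlar
          have := h.maps (pt_mem hr.1.le hr.2 t) j
          have h4 : 0 < 1 - ‖φ (pt r t) j‖ := by linarith
          have h5 : 0 < 1 - r := by linarith [hr.2]
          gcongr
          nlinarith
      have h1 := (hτ.mul_const (1 + K * (1 + Real.log (2 / c)))).add (hfj.const_mul K)
      rw [zero_mul, mul_zero, add_zero] at h1
      refine h1.congr fun r => ?_
      simp only [hm]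
      ring

end Pool.Agent.Helper43.Outer
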