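import Pool.Agent.Helper43.Outer.Limit

open MeasureTheory Set Filter Topology Complex Metric ENNReal InnerProductSpace

namespace Pool.Agent.Helper43.Outer

variable {d d' : ℕ}

theorem harnack_disc {f : ℂ → ℝ} (hf : HarmonicOnNhd f (closedBall 0 1))
    (hpos : ∀ w : ℂ, ‖w‖ ≤ 1 → 0 ≤ f w) {ρ : ℝ} (hρ : 0 ≤ ρ) (hρ1 : ρ < 1) :
    f (ρ : ℂ) ≤ (1 + ρ) / (1 - ρ) * f 0 := by
  have hn : ‖(ρ : ℂ)‖ = ρ := by rw [Complex.norm_real, Real.norm_eq_abs, abs_of_nonneg hρ]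
  have hz : ‖(ρ : ℂ)‖ < 1 := by rw [hn]; exact hρ1
  have h1 := poisson_harm hf hz
  have h0 := poisson_harm hf (z := 0) (by simp)
  have e0 : ∀ t, pk 0 t = 1 := by
    intro t
    simp [pk, norm_e]
  simp only [e0, one_mul] at h0
  have hcont : Continuous (fun t : UnitAddCircle => f (e t)) := by
    rw [continuous_iff_continuousAt]
    intro t
    have h2 : ContinuousAt f (e t) :=
      (hf (e t) (by simp [norm_e])).1.continuousAt
    exact ContinuousAt.comp (g := f) h2 continuous_e.continuousAt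
  have hi : Integrable (fun t : UnitAddCircle => f (e t)) :=
    hcont.integrable_of_hasCompactSupport (HasCompactSupport.of_compactSpace _)
  rw [← h1, ← h0, ← integral_const_mul]
  refine integral_mono (int_pk_mul hz hi) (hi.const_mul _) fun t => ?_
  have h3 := pk_le hz t
  rw [hn] at h3
  exact mul_le_mul_of_nonneg_right h3 (hpos _ (norm_e t).le)

-- Harnack inequality on a disc internally tangent to the boundary, with a logarithmic lower bound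
theorem horo {V : (Fin d → ℂ) → ℝ} (hV : NHarm V) {K : ℝ} (hK : 0 ≤ K)
    (hlow : ∀ x : ℝ, 0 < x → x ≤ 1 → ∀ z : Fin d → ℂ, (∀ j, ‖z j‖ ≤ 1 - x) →
      -(K * (1 + Real.log (1 / x))) ≤ V z) (a b : Fin d → ℂ) {s : ℝ} (hs : 0 < s) (hs1 : s ≤ 1)
    (hab : ∀ l : ℂ, ‖l‖ < 1 → ∀ j, ‖(a + l • b) j‖ ≤ 1 - s * (1 - ‖l‖)) {y : ℝ} (hy : 0 < y)
    (hy1 : y ≤ 1 / 2) :
    V (a + ((1 - y : ℝ) : ℂ) • b) ≤
      4 / (3 * y) * (V (a + ((1 / 2 : ℝ) : ℂ) • b) + K * (4 + Real.log (1 / s))) := by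
  set R := 1 / 2 - y / 4 with hR
  have hR0 : 0 < R := by rw [hR]; linarith
  have hR2 : R < 1 / 2 := by rw [hR]; linarith
  set c := K * (1 + Real.log (2 / s)) with hc
  set W : ℂ → ℝ := fun w => V ((a + ((1 / 2 : ℝ) : ℂ) • b) + w • ((R : ℂ) • b)) + c +
    (-(2 * K)) * Real.log ‖(1 / 2 : ℂ) - R * w‖ with hW
  -- geometry
  have hgeo : ∀ w : ℂ, ‖w‖ ≤ 1 → 0 < ‖(1 / 2 : ℂ) - R * w‖ ∧
      ‖(1 / 2 : ℂ) + R * w‖ < 1 ∧
      ‖(1 / 2 : ℂ) - R * w‖ ^ 2 / 2 ≤ 1 - ‖(1 / 2 : ℂ) + R * w‖ ∧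
      ‖(1 / 2 : ℂ) - R * w‖ ≤ 1 := by
    intro w hw
    have hRw : ‖(R : ℂ) * w‖ ≤ R := by
      rw [norm_mul, Complex.norm_real, Real.norm_eq_abs, abs_of_pos hR0]
      nlinarith
    have h12 : ‖(1 / 2 : ℂ)‖ = 1 / 2 := by simp
    have h1 : 1 / 2 - R ≤ ‖(1 / 2 : ℂ) - R * w‖ := by
      have := norm_sub_norm_le (1 / 2 : ℂ) (R * w)
      rw [h12] at this
      linarith
    have h2 : ‖(1 / 2 : ℂ) + R * w‖ ≤ 1 / 2 + R := by
      have := norm_add_le (1 / 2 : ℂ) (R * w)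
      rw [h12] at this
      linarith
    have h3 : ‖(1 / 2 : ℂ) - R * w‖ ≤ 1 / 2 + R := by
      have := norm_sub_le (1 / 2 : ℂ) (R * w)
      rw [h12] at this
      linarith
    refine ⟨by linarith, by linarith, ?_, by linarith⟩
    -- parallelogram law
    have h4 : ‖(1 / 2 : ℂ) + R * w‖ ^ 2 + ‖(1 / 2 : ℂ) - R * w‖ ^ 2 =
        2 * (‖(1 / 2 : ℂ)‖ ^ 2 + ‖(R : ℂ) * w‖ ^ 2) := by
      have := parallelogram_law_with_norm ℝ (1 / 2 : ℂ) (R * w)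
      nlinarith
    have h5 : ‖(R : ℂ) * w‖ ^ 2 ≤ (1 / 2) ^ 2 := by
      have := norm_nonneg ((R : ℂ) * w)
      nlinarith
    rw [h12] at h4
    have h6 : ‖(1 / 2 : ℂ) - R * w‖ ^ 2 ≤ 1 - ‖(1 / 2 : ℂ) + R * w‖ ^ 2 := by nlinarith
    have h7 := norm_nonneg ((1 / 2 : ℂ) + R * w)
    nlinarith
  have hpt : ∀ w : ℂ, (a + ((1 / 2 : ℝ) : ℂ) • b) + w • ((R : ℂ) • b) =
      a + ((1 / 2 : ℂ) + R * w) • b := by
    intro w
    ext j
    simp only [Pi.add_apply, Pi.smul_apply, smul_eq_mul]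
    push_cast
    ring
  have hmem : ∀ w : ℂ, ‖w‖ ≤ 1 → (a + ((1 / 2 : ℝ) : ℂ) • b) + w • ((R : ℂ) • b) ∈ polydisc d := by
    intro w hw j
    rw [hpt]
    have h1 := hab _ (hgeo w hw).2.1 j
    have h2 : 0 < s * (1 - ‖(1 / 2 : ℂ) + R * w‖) := mul_pos hs (by linarith [(hgeo w hw).2.1])
    linarith
  have hharm : HarmonicOnNhd W (closedBall 0 1) := by
    intro w hw
    have hw' : ‖w‖ ≤ 1 := by simpa using hw
    have h1 := hV.2 (a + ((1 / 2 : ℝ) : ℂ) • b) ((R : ℂ) • b) w (hmem w hw')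
    have h2 : AnalyticAt ℂ (fun w : ℂ => (1 / 2 : ℂ) - R * w) w := by fun_prop
    have h3 := h2.harmonicAt_log_norm (norm_pos_iff.1 (hgeo w hw').1)
    exact (h1.add (harmonicAt_const c)).add (h3.const_smul (c := -(2 * K)))
  have hlogs : ∀ u : ℝ, 0 < u → Real.log (1 / (s * (u ^ 2 / 2))) =
      Real.log (2 / s) - 2 * Real.log u := by
    intro u hu
    rw [show 1 / (s * (u ^ 2 / 2)) = (2 / s) / u ^ 2 by field_simp, Real.log_div (by positivity)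
      (by positivity), Real.log_pow]
    push_cast
    ring
  have hWpos : ∀ w : ℂ, ‖w‖ ≤ 1 → 0 ≤ W w := by
    intro w hw
    obtain ⟨g1, g2, g3, g4⟩ := hgeo w hw
    have hx0 : 0 < s * (‖(1 / 2 : ℂ) - R * w‖ ^ 2 / 2) := by positivity
    have hsq : ‖(1 / 2 : ℂ) - R * w‖ ^ 2 ≤ 1 := by nlinarith
    have hx1 : s * (‖(1 / 2 : ℂ) - R * w‖ ^ 2 / 2) ≤ 1 := by nlinarith
    have h1 := hlow _ hx0 hx1 ((a + ((1 / 2 : ℝ) : ℂ) • b) + w • ((R : ℂ) • b)) (by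
      intro j
      rw [hpt]
      have h2 := hab _ g2 j
      have h3 : s * (‖(1 / 2 : ℂ) - R * w‖ ^ 2 / 2) ≤ s * (1 - ‖(1 / 2 : ℂ) + R * w‖) := by
        gcongr
      linarith)
    rw [hlogs _ g1] at h1
    simp only [hW, hc]
    linarith
  set ρ := (1 / 2 - y) / R with hρ
  have hρ0 : 0 ≤ ρ := div_nonneg (by linarith) hR0.le
  have hρ1 : ρ < 1 := by
    rw [hρ, div_lt_one hR0, hR]
    linarith
  have hh := harnack_disc hharm hWpos hρ0 hρ1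
  have hRρ : R * ρ = 1 / 2 - y := by
    rw [hρ]
    field_simp
  have hcst : (1 + ρ) / (1 - ρ) ≤ 4 / (3 * y) := by
    rw [div_le_div_iff₀ (by linarith) (by positivity)]
    have h1 : R * (1 + ρ) = 1 - 5 * y / 4 := by rw [mul_add, hRρ, hR]; ring
    have h2 : R * (1 - ρ) = 3 * y / 4 := by rw [mul_sub, hRρ, hR]; ring
    have h3 : R * ((1 + ρ) * (3 * y)) ≤ R * (4 * (1 - ρ)) := by
      calc R * ((1 + ρ) * (3 * y)) = (R * (1 + ρ)) * (3 * y) := by ring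
        _ ≤ 1 * (3 * y) := by
          rw [h1]
          gcongr
          linarith
        _ = 4 * (R * (1 - ρ)) := by rw [h2]; ring
        _ = R * (4 * (1 - ρ)) := by ring
    exact le_of_mul_le_mul_left h3 hR0
  have e1 : W (ρ : ℂ) = V (a + ((1 - y : ℝ) : ℂ) • b) + c + -(2 * K) * Real.log y := by
    simp only [hW]
    rw [hpt]
    have h1 : (1 / 2 : ℂ) + R * ρ = ((1 - y : ℝ) : ℂ) := by
      have : ((R * ρ : ℝ) : ℂ) = ((1 / 2 - y : ℝ) : ℂ) := by rw [hRρ]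
      push_cast at this ⊢
      rw [this]
      ring
    have h2 : (1 / 2 : ℂ) - R * ρ = ((y : ℝ) : ℂ) := by
      have : ((R * ρ : ℝ) : ℂ) = ((1 / 2 - y : ℝ) : ℂ) := by rw [hRρ]
      push_cast at this ⊢
      rw [this]
      ring
    rw [h1, h2, Complex.norm_real, Real.norm_eq_abs, abs_of_pos hy]
  have e2 : W 0 = V (a + ((1 / 2 : ℝ) : ℂ) • b) + c + 2 * K * Real.log 2 := by
    simp only [hW, zero_smul, add_zero, mul_zero, sub_zero]
    have h2 : ‖(1 / 2 : ℂ)‖ = 2⁻¹ := by simp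
    rw [h2, Real.log_inv]
    ring
  rw [e1, e2] at hh
  have hlogy : Real.log y ≤ 0 := Real.log_nonpos hy.le (by linarith)
  have hlog2 : Real.log 2 ≤ 1 := by
    have := Real.log_two_lt_d9
    linarith
  have hlog2' : 0 ≤ Real.log 2 := Real.log_nonneg (by norm_num)
  have hlogs0 : 0 ≤ Real.log (1 / s) := Real.log_nonneg (by
    rw [le_div_iff₀ hs]
    linarith)
  have hlog2s : Real.log (2 / s) = Real.log 2 + Real.log (1 / s) := by
    rw [← Real.log_mul (by norm_num) (by positivity)]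
    congr 1
    ring
  have hc0 : 0 ≤ c := by
    rw [hc, hlog2s]
    positivity
  have hW0 : 0 ≤ W 0 := hWpos 0 (by simp)
  rw [e2] at hW0
  have h8 : V (a + ((1 - y : ℝ) : ℂ) • b) ≤ (1 + ρ) / (1 - ρ) *
      (V (a + ((1 / 2 : ℝ) : ℂ) • b) + c + 2 * K * Real.log 2) := by
    have : 0 ≤ -(2 * K) * Real.log y := by nlinarith
    linarith
  refine h8.trans ?_
  have h9 : V (a + ((1 / 2 : ℝ) : ℂ) • b) + c + 2 * K * Real.log 2 ≤
      V (a + ((1 / 2 : ℝ) : ℂ) • b) + K * (4 + Real.log (1 / s)) := by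
    rw [hc, hlog2s]
    nlinarith
  calc (1 + ρ) / (1 - ρ) * (V (a + ((1 / 2 : ℝ) : ℂ) • b) + c + 2 * K * Real.log 2)
      ≤ 4 / (3 * y) * (V (a + ((1 / 2 : ℝ) : ℂ) • b) + c + 2 * K * Real.log 2) := by gcongr
    _ ≤ _ := by gcongr

end Pool.Agent.Helper43.Outer
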