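import Pool.Agent.Helper43.Outer.Growth
import Pool.Agent.Helper43.Outer.Growth2

open MeasureTheory Set Filter Topology Complex Metric ENNReal InnerProductSpace

namespace Pool.Agent.Helper43.Outer

variable {d d' : ℕ}

theorem P_half {z : Fin d → ℂ} (hz : z ∈ polydisc d) (i : Fin d)
    (h : ∀ j, j ≠ i → ‖z j‖ ≤ 1 / 2) (w : Torus d) : P z w ≤ 3 ^ d * pk (z i) (w i) := by
  have hoth : ∀ j ∈ Finset.univ.erase i, pk (z j) (w j) ≤ 3 := by
    intro j hj
    have h1 := h j (Finset.ne_of_mem_erase hj)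
    refine (pk_le (hz j) _).trans ?_
    rw [div_le_iff₀ (by linarith)]
    linarith
  have h3 : ∏ j ∈ Finset.univ.erase i, pk (z j) (w j) ≤ 3 ^ d := by
    have h4 := Finset.prod_le_prod (s := Finset.univ.erase i) (f := fun i => pk (z i) (w i))
      (g := fun _ => (3 : ℝ)) (fun i _ => (pk_pos (hz i) _).le) hoth
    simp only [Finset.prod_const] at h4
    refine h4.trans (pow_le_pow_right₀ (by norm_num) ?_)
    simp
  rw [P_eq, ← Finset.mul_prod_erase _ _ (Finset.mem_univ i), mul_comm]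
  exact mul_le_mul_of_nonneg_right h3 (pk_pos (hz i) _).le

theorem V_half {V : (Fin d → ℂ) → ℝ} {h : Torus d → ℝ} (hh : Integrable h)
    (hrep : ∀ z ∈ polydisc d, V z = ∫ t, P z t * h t) {z : Fin d → ℂ} (hz : z ∈ polydisc d)
    (i : Fin d) (hi : ∀ j, j ≠ i → ‖z j‖ ≤ 1 / 2) : V z ≤ 3 ^ d * Q h i (z i) := by
  rw [hrep _ hz, Q, ← integral_const_mul]
  refine integral_mono (int_P_mul hz hh) ((Q_int hh i (hz i)).const_mul _) fun w => ?_
  simp only
  calc P z w * h w ≤ P z w * |h w| := mul_le_mul_of_nonneg_left (le_abs_self _) (P_pos hz w).le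
    _ ≤ (3 ^ d * pk (z i) (w i)) * |h w| :=
      mul_le_mul_of_nonneg_right (P_half hz i hi w) (abs_nonneg _)
    _ = 3 ^ d * (pk (z i) (w i) * |h w|) := by ring

theorem growth2 {V : (Fin d → ℂ) → ℝ} (hV : NHarm V) {K : ℝ} (hK : 0 ≤ K)
    (hlow : ∀ x : ℝ, 0 < x → x ≤ 1 → ∀ z : Fin d → ℂ, (∀ j, ‖z j‖ ≤ 1 - x) →
      -(K * (1 + Real.log (1 / x))) ≤ V z) {h : Torus d → ℝ} (hh : Integrable h)
    (hrep : ∀ z ∈ polydisc d, V z = ∫ t, P z t * h t) {z : Fin d → ℂ} (hz : z ∈ polydisc d)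
    (i : Fin d) {y : ℝ} (hy : 0 < y) (hy1 : y ≤ 1 / 2) (hzy : ∀ j, j ≠ i → ‖z j‖ ≤ 1 - y)
    {s : ℝ} (hs : s = min 1 ((1 - ‖z i‖) / y)) :
    ∃ a : ℂ, ‖a‖ ≤ 1 - s / 2 ∧ (s < 1 → ‖a‖ = 1 - s / 2) ∧
      V z ≤ 4 / (3 * y) * (3 ^ d * Q h i a + K * (4 + Real.log (1 / s))) := by
  set x := 1 - ‖z i‖ with hx
  have hx0 : 0 < x := by
    have := hz i
    rw [hx]
    linarith
  have hx1 : x ≤ 1 := by
    have := norm_nonneg (z i)
    rw [hx]
    linarith
  have hρ0 : 0 < 1 - y := by linarith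
  have hρc : ((1 - y : ℝ) : ℂ) ≠ 0 := by
    rw [Complex.ofReal_ne_zero]
    exact hρ0.ne'
  obtain ⟨u', hu1, hu2⟩ := exists_unit (z i)
  set u := (starRingEnd ℂ) u' with hu
  have hun : ‖u‖ = 1 := by rw [hu, RCLike.norm_conj, hu1]
  have hzi : z i = u * ‖z i‖ := by
    rw [← hu2, hu, ← mul_assoc, Complex.conj_mul', hu1]
    simp
  rcases le_or_gt x y with hxy | hxy
  · have hs' : s = x / y := by rw [hs, min_eq_right ((div_le_one hy).2 hxy)]
    have hs0 : 0 < s := by rw [hs']; positivity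
    have hs1 : s ≤ 1 := by rw [hs']; exact (div_le_one hy).2 hxy
    have hsy : s * y = x := by rw [hs']; field_simp
    set b : Fin d → ℂ := fun j => if j = i then (s : ℂ) * u else z j / ((1 - y : ℝ) : ℂ) with hb
    set a₀ : Fin d → ℂ := Pi.single i (((1 - s : ℝ) : ℂ) * u) with ha₀
    have hci : ∀ l : ℂ, (a₀ + l • b) i = ((1 - s : ℝ) : ℂ) * u + l * ((s : ℂ) * u) := by
      intro l
      simp [ha₀, hb]
    have hcj : ∀ l : ℂ, ∀ j, j ≠ i → (a₀ + l • b) j = l * (z j / ((1 - y : ℝ) : ℂ)) := by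
      intro l j hj
      simp [ha₀, hb, hj]
    have hnj : ∀ j, j ≠ i → ‖z j / ((1 - y : ℝ) : ℂ)‖ ≤ 1 := by
      intro j hj
      rw [norm_div, Complex.norm_real, Real.norm_eq_abs, abs_of_pos hρ0]
      exact div_le_one_of_le₀ (hzy j hj) hρ0.le
    have hab : ∀ l : ℂ, ‖l‖ < 1 → ∀ j, ‖(a₀ + l • b) j‖ ≤ 1 - s * (1 - ‖l‖) := by
      intro l hl j
      by_cases hj : j = i
      · subst hj
        rw [hci]
        refine (norm_add_le _ _).trans ?_
        rw [norm_mul, norm_mul, norm_mul, hun, Complex.norm_real, Complex.norm_real,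
          Real.norm_eq_abs, Real.norm_eq_abs, abs_of_pos hs0, abs_of_nonneg (by linarith)]
        linarith
      · rw [hcj l j hj, norm_mul]
        have h1 : ‖l‖ * ‖z j / ((1 - y : ℝ) : ℂ)‖ ≤ ‖l‖ * 1 := by
          gcongr
          exact hnj j hj
        have h2 : s * (1 - ‖l‖) ≤ 1 * (1 - ‖l‖) :=
          mul_le_mul_of_nonneg_right hs1 (by linarith)
        linarith
    have hend : a₀ + ((1 - y : ℝ) : ℂ) • b = z := by
      ext j
      by_cases hj : j = i
      · subst hj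
        rw [hci, hzi]
        have h1 : ‖z j‖ = 1 - s * y := by rw [hsy, hx]; ring
        have h2 : ‖u * (‖z j‖ : ℂ)‖ = ‖z j‖ := by rw [← hzi]
        rw [h1]
        push_cast
        ring
      · rw [hcj _ j hj]
        field_simp
    have hmid : a₀ + ((1 / 2 : ℝ) : ℂ) • b ∈ polydisc d := by
      intro j
      have h1 := hab ((1 / 2 : ℝ) : ℂ) (by
        rw [Complex.norm_real, Real.norm_eq_abs, abs_of_pos (by norm_num)]; norm_num) j
      rw [Complex.norm_real, Real.norm_eq_abs, abs_of_pos (by norm_num)] at h1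
      nlinarith
    have hmi : (a₀ + ((1 / 2 : ℝ) : ℂ) • b) i = ((1 - s / 2 : ℝ) : ℂ) * u := by
      rw [hci]
      push_cast
      ring
    have hni : ‖((1 - s / 2 : ℝ) : ℂ) * u‖ = 1 - s / 2 := by
      rw [norm_mul, hun, mul_one, Complex.norm_real, Real.norm_eq_abs,
        abs_of_nonneg (by linarith)]
    refine ⟨((1 - s / 2 : ℝ) : ℂ) * u, hni.le, fun _ => hni, ?_⟩
    have h1 := horo hV hK hlow a₀ b hs0 hs1 hab hy hy1
    rw [hend] at h1
    refine h1.trans ?_
    have h2 := V_half hh hrep hmid i (fun j hj => by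
      rw [hcj _ j hj, norm_mul, Complex.norm_real, Real.norm_eq_abs, abs_of_pos (by norm_num)]
      have := hnj j hj
      linarith)
    rw [hmi] at h2
    gcongr
  · have hs' : s = 1 := by
      rw [hs, min_eq_left]
      rw [one_le_div hy]
      exact hxy.le
    set b : Fin d → ℂ := fun j => z j / ((1 - y : ℝ) : ℂ) with hb
    have hall : ∀ j, ‖b j‖ ≤ 1 := by
      intro j
      simp only [hb]
      rw [norm_div, Complex.norm_real, Real.norm_eq_abs, abs_of_pos hρ0]
      refine div_le_one_of_le₀ ?_ hρ0.le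
      by_cases hj : j = i
      · subst hj
        linarith
      · exact hzy j hj
    have hab : ∀ l : ℂ, ‖l‖ < 1 → ∀ j, ‖((0 : Fin d → ℂ) + l • b) j‖ ≤ 1 - 1 * (1 - ‖l‖) := by
      intro l hl j
      simp only [zero_add, Pi.smul_apply, smul_eq_mul, norm_mul]
      have := mul_le_mul_of_nonneg_left (hall j) (norm_nonneg l)
      linarith
    have h1 := horo hV hK hlow 0 b one_pos le_rfl hab hy hy1
    have hend : (0 : Fin d → ℂ) + ((1 - y : ℝ) : ℂ) • b = z := by
      ext j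
      simp only [zero_add, Pi.smul_apply, smul_eq_mul, hb]
      field_simp
    rw [hend] at h1
    have hhalf : ∀ j, ‖((0 : Fin d → ℂ) + ((1 / 2 : ℝ) : ℂ) • b) j‖ ≤ 1 / 2 := by
      intro j
      simp only [zero_add, Pi.smul_apply, smul_eq_mul, norm_mul]
      rw [Complex.norm_real, Real.norm_eq_abs, abs_of_pos (by norm_num)]
      have := hall j
      linarith
    refine ⟨((0 : Fin d → ℂ) + ((1 / 2 : ℝ) : ℂ) • b) i, ?_, fun h => ?_, ?_⟩
    · rw [hs']
      have := hhalf i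
      linarith
    · rw [hs'] at h
      exact absurd h (lt_irrefl _)
    · refine h1.trans ?_
      have h2 := V_half hh hrep (z := (0 : Fin d → ℂ) + ((1 / 2 : ℝ) : ℂ) • b) (fun j => by
        have := hhalf j
        linarith) i (fun j _ => hhalf j)
      rw [hs']
      gcongr

theorem log_le_sqrt {u : ℝ} (hu : 0 < u) : Real.log u ≤ 2 * √u := by
  have h1 := Real.log_le_sub_one_of_pos (Real.sqrt_pos.2 hu)
  rw [Real.log_sqrt hu.le] at h1
  linarith

-- no atoms at points where all but one coordinate have no finite angular derivative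
theorem no_atom2 {φ : (Fin d' → ℂ) → (Fin d → ℂ)} (hφ : DifferentiableOn ℂ φ (polydisc d'))
    (hmap : MapsTo φ (polydisc d') (polydisc d)) {V : (Fin d → ℂ) → ℝ} (hV : NHarm V)
    {K : ℝ} (hK : 0 ≤ K)
    (hlow : ∀ x : ℝ, 0 < x → x ≤ 1 → ∀ z : Fin d → ℂ, (∀ j, ‖z j‖ ≤ 1 - x) →
      -(K * (1 + Real.log (1 / x))) ≤ V z)
    {h : Torus d → ℝ} (hh : Integrable h) (hrep : ∀ z ∈ polydisc d, V z = ∫ t, P z t * h t)
    (t : Torus d') (i : Fin d) {c : ℝ} (hc : ∀ j, c ≤ (1 - ‖φ 0 j‖) / 2) (hc0 : 0 < c)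
    (h2 : ∀ j, j ≠ i → Tendsto (fun r : ℝ => (1 - r) / (1 - ‖φ (pt r t) j‖))
      (𝓝[<] 1) (𝓝 0))
    {ε : ℝ} (hε : 0 < ε) : ∀ᶠ r : ℝ in 𝓝[<] 1, (1 - r) * V (φ (pt r t)) ≤ ε := by
  set S : ℝ → ℝ := fun r => 2 * (1 - r) +
    ∑ j ∈ Finset.univ.erase i, (1 - r) / (1 - ‖φ (pt r t) j‖) with hS
  have hlin : Tendsto (fun r : ℝ => 2 * (1 - r)) (𝓝[<] 1) (𝓝 0) := by
    have : Tendsto (fun r : ℝ => 2 * (1 - r)) (𝓝 1) (𝓝 (2 * (1 - 1))) := by
      apply Continuous.tendsto
      fun_prop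
    rw [sub_self, mul_zero] at this
    exact this.mono_left nhdsWithin_le_nhds
  have hSlim : Tendsto S (𝓝[<] 1) (𝓝 0) := by
    have h3 := hlin.add (tendsto_finsetSum (Finset.univ.erase i)
      (fun j hj => h2 j (Finset.ne_of_mem_erase hj)))
    simpa [hS] using h3
  obtain ⟨η, hη, hQ⟩ := Q_small hh i (by positivity : 0 < c * ε / (8 * 3 ^ d))
  set H := ∫ w, |h w| with hH
  have hH0 : 0 ≤ H := integral_nonneg fun _ => abs_nonneg _
  have hη1 : 0 < min η 1 := lt_min hη one_pos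
  set G : ℝ → ℝ := fun r => 4 / 3 * (3 ^ d * (4 * H / (min η 1)) * S r + 4 * K * S r +
    2 * K * √(S r / c)) with hG
  have hGlim : Tendsto G (𝓝[<] 1) (𝓝 0) := by
    have h3 := ((((hSlim.const_mul (3 ^ d * (4 * H / (min η 1)))).add
      (hSlim.const_mul (4 * K))).add (((hSlim.div_const c).sqrt).const_mul (2 * K))).const_mul
      (4 / 3 : ℝ))
    simpa [hG] using h3
  have hev : ∀ᶠ r in 𝓝[<] (1 : ℝ), G r < ε / 2 := hGlim.eventually (gt_mem_nhds (by positivity))
  have hmem : Ioo (0 : ℝ) 1 ∈ 𝓝[<] (1 : ℝ) := Ioo_mem_nhdsLT (by norm_num)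
  filter_upwards [hev, hmem] with r hr hrI
  have hr1 : 0 < 1 - r := by linarith [hrI.2]
  have hz := hmap (pt_mem hrI.1.le hrI.2 t)
  set z := φ (pt r t) with hzdef
  have hxlow : c * (1 - r) ≤ 1 - ‖z i‖ := by
    have h3 := one_sub_low (g := fun z => φ z i)
      (fun z hz => (differentiableWithinAt_pi.1 (hφ z hz)) i) (fun z hz => hmap hz i) t
      hrI.1.le hrI.2
    refine le_trans ?_ h3
    gcongr
    exact hc i
  -- the second largest modulus
  obtain ⟨y, hy, hy1, hzy, hyS⟩ : ∃ y : ℝ, 0 < y ∧ y ≤ 1 / 2 ∧ (∀ j, j ≠ i → ‖z j‖ ≤ 1 - y) ∧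
      (1 - r) / y ≤ S r := by
    have hnn : ∀ j ∈ Finset.univ.erase i, 0 ≤ (1 - r) / (1 - ‖z j‖) := by
      intro j _
      have := hz j
      exact div_nonneg hr1.le (by linarith)
    by_cases hne : (Finset.univ.erase i).Nonempty
    · obtain ⟨j, hj, hjmax⟩ := Finset.exists_max_image (Finset.univ.erase i)
        (fun j => ‖z j‖) hne
      have hzj := hz j
      refine ⟨min (1 / 2) (1 - ‖z j‖), lt_min (by norm_num) (by linarith), min_le_left _ _,
        ?_, ?_⟩
      · intro l hl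
        have h3 := hjmax l (Finset.mem_erase.2 ⟨hl, Finset.mem_univ l⟩)
        have h4 := min_le_right (1 / 2) (1 - ‖z j‖)
        linarith
      · have h3 := Finset.single_le_sum hnn hj
        simp only [hS]
        rcases min_choice (1 / 2 : ℝ) (1 - ‖z j‖) with h4 | h4
        · rw [h4]
          have h5 := Finset.sum_nonneg hnn
          have h6 : (1 - r) / (1 / 2) = 2 * (1 - r) := by ring
          rw [h6]
          linarith
        · rw [h4]
          linarith
    · refine ⟨1 / 2, by norm_num, le_rfl, ?_, ?_⟩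
      · intro l hl
        exact absurd ⟨l, Finset.mem_erase.2 ⟨hl, Finset.mem_univ l⟩⟩ hne
      · have h3 := Finset.sum_nonneg hnn
        have h6 : (1 - r) / (1 / 2) = 2 * (1 - r) := by ring
        rw [h6]
        simp only [hS]
        linarith
  set s := min 1 ((1 - ‖z i‖) / y) with hs
  obtain ⟨a, ha1, ha2, hgr⟩ := growth2 hV hK hlow hh hrep hz i hy hy1 hzy hs
  have hzi : 0 < 1 - ‖z i‖ := by linarith [hz i]
  have hs0 : 0 < s := lt_min one_pos (by positivity)
  have hs1 : s ≤ 1 := min_le_left _ _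
  have han : ‖a‖ < 1 := by linarith
  have hQn := Q_nonneg (h := h) i han
  have hQb := Q_bound hh i han
  set τ := (1 - r) / y with hτ
  have hτ0 : 0 < τ := by positivity
  have hS0 : 0 ≤ S r := hτ0.le.trans hyS
  have hcs : s < 1 → τ ≤ s / c := by
    intro hlt
    have hsx : s = (1 - ‖z i‖) / y := by
      rw [hs]
      refine min_eq_right ?_
      by_contra hcon
      push Not at hcon
      rw [hs, min_eq_left hcon.le] at hlt
      exact lt_irrefl _ hlt
    rw [hτ, hsx, div_div, div_le_div_iff₀ hy (by positivity)]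
    nlinarith
  -- the main term
  have hmain : 4 / 3 * (3 ^ d * (τ * Q h i a)) ≤
      ε / 2 + 4 / 3 * (3 ^ d * (4 * H / (min η 1)) * S r) := by
    by_cases hcase : s < min η 1
    · have hlt : s < 1 := lt_of_lt_of_le hcase (min_le_right _ _)
      have h3 := hQ a han (by
        rw [ha2 hlt]
        have := min_le_left η 1
        linarith)
      rw [ha2 hlt] at h3
      have h4 := hcs hlt
      have h5 : τ * Q h i a ≤ s / c * Q h i a := by gcongr
      have h6 : s / c * Q h i a = 2 / c * ((1 - (1 - s / 2)) * Q h i a) := by ring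
      have h7 : 2 / c * ((1 - (1 - s / 2)) * Q h i a) ≤ 2 / c * (c * ε / (8 * 3 ^ d)) := by
        gcongr
      have h8 : 4 / 3 * (3 ^ d * (2 / c * (c * ε / (8 * 3 ^ d)))) = ε / 3 := by
        field_simp
        ring
      have h9 : 0 ≤ 4 / 3 * (3 ^ d * (4 * H / (min η 1)) * S r) := by positivity
      have h12 : τ * Q h i a ≤ 2 / c * (c * ε / (8 * 3 ^ d)) := by linarith
      have h10 : 4 / 3 * (3 ^ d * (τ * Q h i a)) ≤
          4 / 3 * (3 ^ d * (2 / c * (c * ε / (8 * 3 ^ d)))) :=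
        mul_le_mul_of_nonneg_left (mul_le_mul_of_nonneg_left h12 (by positivity)) (by norm_num)
      linarith
    · push Not at hcase
      have h3 : Q h i a ≤ 4 * H / (min η 1) := by
        rw [le_div_iff₀ hη1]
        have h4 : Q h i a * min η 1 ≤ Q h i a * s := by gcongr
        have h5 : Q h i a * s ≤ 2 * ((1 - ‖a‖) * Q h i a) := by nlinarith
        linarith
      have h4 : τ * Q h i a ≤ S r * (4 * H / (min η 1)) := by gcongr
      have h5 : 4 / 3 * (3 ^ d * (τ * Q h i a)) ≤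
          4 / 3 * (3 ^ d * (S r * (4 * H / (min η 1)))) := by gcongr
      have h6 : 4 / 3 * (3 ^ d * (S r * (4 * H / (min η 1)))) =
          4 / 3 * (3 ^ d * (4 * H / (min η 1)) * S r) := by ring
      linarith
  have hlogterm : τ * Real.log (1 / s) ≤ 2 * √(S r / c) := by
    rcases hs1.lt_or_eq with hlt | heq
    · have h3 := hcs hlt
      have h4 := log_le_sqrt (u := 1 / s) (by positivity)
      have h5 : τ * √(1 / s) ≤ √(S r / c) := by
        refine Real.le_sqrt_of_sq_le ?_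
        rw [mul_pow, Real.sq_sqrt (by positivity)]
        have h6 : τ ^ 2 * (1 / s) = τ * (τ / s) := by ring
        rw [h6]
        have h7 : τ / s ≤ 1 / c := by
          rw [div_le_div_iff₀ hs0 hc0]
          rw [le_div_iff₀ hc0] at h3
          linarith
        calc τ * (τ / s) ≤ S r * (1 / c) := by gcongr
          _ = S r / c := by ring
      calc τ * Real.log (1 / s) ≤ τ * (2 * √(1 / s)) := by gcongr
        _ = 2 * (τ * √(1 / s)) := by ring
        _ ≤ _ := by gcongr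
    · rw [heq]
      simp only [div_one, Real.log_one, mul_zero]
      positivity
  have hfin : (1 - r) * V z ≤ 4 / 3 * (3 ^ d * (τ * Q h i a)) +
      4 / 3 * (4 * K * τ + K * (τ * Real.log (1 / s))) := by
    have h3 : (1 - r) * V z ≤ (1 - r) * (4 / (3 * y) *
        (3 ^ d * Q h i a + K * (4 + Real.log (1 / s)))) := by gcongr
    refine h3.trans (le_of_eq ?_)
    rw [hτ]
    field_simp
  have h10 : 4 / 3 * (4 * K * τ + K * (τ * Real.log (1 / s))) ≤
      4 / 3 * (4 * K * S r + K * (2 * √(S r / c))) := by gcongr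
  have h11 : G r = 4 / 3 * (3 ^ d * (4 * H / (min η 1)) * S r) +
      4 / 3 * (4 * K * S r + K * (2 * √(S r / c))) := by
    simp only [hG]
    ring
  linarith

end Pool.Agent.Helper43.Outer
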