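import Pool.Agent.Helper43.Outer.Bad
import Pool.Agent.Helper43.Outer.FiniteMain
import Pool.Agent.Helper43.Outer.Growth3

open MeasureTheory Set Filter Topology Complex Metric ENNReal InnerProductSpace

namespace Pool.Agent.Helper43.Outer

variable {d d' : ℕ}

-- the dilates form a Cauchy sequence when there are countably many bad points
theorem core2 {γ : (Fin 1 → ℂ) → (Fin d → ℂ)} (hγ : DifferentiableOn ℂ γ (polydisc 1))
    (hm : MapsTo γ (polydisc 1) (polydisc d)) {V : (Fin d → ℂ) → ℝ}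
    (hW : NHarm (fun z => V (γ z))) {h : Torus d → ℝ} (hh : Integrable h)
    (hrep : ∀ z ∈ polydisc d, V z = ∫ t, P z t * h t) (hcount : {t | Bad γ t}.Countable)
    {B : ℝ}
    (hUI : ∀ ε : ℝ, 0 < ε → ∃ δ : ℝ, 0 < δ ∧ ∃ N : ℕ, ∀ k ≥ N, ∀ A : Set (Torus 1),
      MeasurableSet A → volume A ≤ ENNReal.ofReal δ →
      ∫ t in A, max (-V (γ (pt (rad k) t))) 0 ≤ ε)
    (hB : ∃ N : ℕ, ∀ k ≥ N, ∫ t : Torus 1, max (-V (γ (pt (rad k) t))) 0 ≤ B)
    (hatom : ∀ t, Bad γ t → ∀ ε : ℝ, 0 < ε →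
      ∀ᶠ r : ℝ in 𝓝[<] 1, (1 - r) * V (γ (pt r t)) ≤ ε) {ε : ℝ} (hε : 0 < ε) :
    ∃ N : ℕ, ∀ k ≥ N, ∀ l ≥ N,
      ∫ t, |V (γ (pt (rad k) t)) - V (γ (pt (rad l) t))| < ε := by
  classical
  have hc : ∀ k, Continuous (fun t : Torus 1 => V (γ (pt (rad k) t))) := fun k =>
    dil_cont hW.1 (rad_pos k).le (rad_lt k)
  obtain ⟨ε', hε', hsum⟩ := hcount.exists_pos_forall_sum_le (by positivity : 0 < ε / 8)
  have hloc : ∀ t, ∃ O : Set (Torus 1), Bad γ t → IsOpen O ∧ t ∈ O ∧ ∃ N : ℕ, ∀ k ≥ N,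
      ∫ t' in O, |V (γ (pt (rad k) t'))| ≤ ε' t := by
    intro t
    by_cases ht : Bad γ t
    · obtain ⟨O, h1, h2, h3⟩ := local_small hW hUI hB t (hatom t ht) (hε' t)
      exact ⟨O, fun _ => ⟨h1, h2, h3⟩⟩
    · exact ⟨univ, fun h => absurd h ht⟩
  choose O hO using hloc
  have hcomp : IsCompact {t | Bad γ t} := (bad_closed hγ hm).isCompact
  obtain ⟨T, hT1, hT2⟩ := hcomp.elim_nhds_subcover O
    (fun t ht => (hO t ht).1.mem_nhds (hO t ht).2.1)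
  set G := ⋃ x ∈ T, O x with hG
  have hGo : IsOpen G := isOpen_biUnion fun x hx => (hO x (hT1 x hx)).1
  have hN : ∀ x, ∃ N : ℕ, x ∈ T → ∀ k ≥ N, ∫ t' in O x, |V (γ (pt (rad k) t'))| ≤ ε' x := by
    intro x
    by_cases hx : x ∈ T
    · obtain ⟨N, hN⟩ := (hO x (hT1 x hx)).2.2
      exact ⟨N, fun _ => hN⟩
    · exact ⟨0, fun h => absurd h hx⟩
  choose n hn using hN
  set N1 := ∑ x ∈ T, n x with hN1
  have hG1 : ∀ k ≥ N1, ∫ t' in G, |V (γ (pt (rad k) t'))| ≤ ε / 8 := by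
    intro k hk
    refine (setIntegral_biUnion_le _ (cont_int (hc k)).abs (fun _ => abs_nonneg _) T O
      (fun x hx => (hO x (hT1 x hx)).1.measurableSet)).trans ?_
    refine le_trans ?_ (hsum T fun x hx => hT1 x hx)
    refine Finset.sum_le_sum fun x hx => hn x hx k ?_
    exact (Finset.single_le_sum (fun _ _ => Nat.zero_le _) hx).trans hk
  -- the complement
  have hJc : IsCompact Gᶜ := hGo.isClosed_compl.isCompact
  obtain ⟨C, hC0, hC⟩ := kernel_of_not_bad hγ hm hJc (fun t ht hct => ht (hT2 hct))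
  obtain ⟨v, hv, hlim⟩ := limit_of_kernel hγ hm Gᶜ hC0 hC hh hrep rad (fun k => (rad_pos k).le)
    rad_lt rad_lim
  obtain ⟨N2, hN2⟩ := eventually_atTop.1 (hlim.eventually (gt_mem_nhds
    (by positivity : (0 : ℝ) < ε / 8)))
  refine ⟨max N1 N2, fun k hk l hl => ?_⟩
  have hk1 := hG1 k ((le_max_left _ _).trans hk)
  have hl1 := hG1 l ((le_max_left _ _).trans hl)
  have hk2 := hN2 k ((le_max_right _ _).trans hk)
  have hl2 := hN2 l ((le_max_right _ _).trans hl)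
  have hdi : Integrable (fun t : Torus 1 => |V (γ (pt (rad k) t)) - V (γ (pt (rad l) t))|) :=
    (cont_int ((hc k).sub (hc l))).abs
  rw [← integral_add_compl hGo.measurableSet hdi]
  have p1 : ∫ t in G, |V (γ (pt (rad k) t)) - V (γ (pt (rad l) t))| ≤
      (∫ t in G, |V (γ (pt (rad k) t))|) + ∫ t in G, |V (γ (pt (rad l) t))| := by
    have h1 := l1_tri (μ := volume.restrict G) (cont_int (hc k)).integrableOn
      (g := fun _ => (0 : ℝ)) (integrable_zero (Torus 1) ℝ (volume.restrict G))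
      (cont_int (hc l)).integrableOn
    simpa only [Real.norm_eq_abs, sub_zero, zero_sub, abs_neg] using h1
  have p2 : ∫ t in Gᶜ, |V (γ (pt (rad k) t)) - V (γ (pt (rad l) t))| ≤
      (∫ t in Gᶜ, |V (γ (pt (rad k) t)) - v t|) + ∫ t in Gᶜ, |V (γ (pt (rad l) t)) - v t| := by
    have h1 := l1_tri (μ := volume.restrict Gᶜ) (cont_int (hc k)).integrableOn
      hv (cont_int (hc l)).integrableOn
    simp only [Real.norm_eq_abs] at h1
    have h2 : ∫ t in Gᶜ, |v t - V (γ (pt (rad l) t))| =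
        ∫ t in Gᶜ, |V (γ (pt (rad l) t)) - v t| := by
      congr 1
      ext t
      exact abs_sub_comm _ _
    rw [h2] at h1
    exact h1
  linarith


-- growth of outer functions, all exponents
theorem growth_any {p : ℝ≥0∞} (hp : p ≠ 0) {f : (Fin d → ℂ) → ℂ}
    (hf : IsOuter p f) : ∃ K : ℝ, 0 ≤ K ∧ ∀ x : ℝ, 0 < x → x ≤ 1 → ∀ z : Fin d → ℂ,
      (∀ j, ‖z j‖ ≤ 1 - x) → -(K * (1 + Real.log (1 / x))) ≤ -Real.log ‖f z‖ := by
  by_cases hp' : p = ∞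
  · subst hp'
    obtain ⟨M, hM0, hM⟩ := bdd_of_mem hf.1
    refine ⟨M, hM0, fun x hx hx1 z hz => ?_⟩
    have h1 := hM z (fun j => by linarith [hz j])
    have h2 : 0 ≤ Real.log (1 / x) := Real.log_nonneg (by
      rw [le_div_iff₀ hx]
      linarith)
    have h3 : 0 ≤ M * Real.log (1 / x) := by positivity
    linarith
  · obtain ⟨K, hK0, hK⟩ := growth_p hp hp' hf
    exact ⟨K, hK0, fun x hx hx1 z hz => neg_le_neg (hK x hx hx1 z hz)⟩

-- one disc: countably many bad points, no double angular derivative at them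
theorem disc_core {p : ℝ≥0∞} (hp : p ≠ 0) {γ : (Fin 1 → ℂ) → (Fin d → ℂ)}
    (hγ : DifferentiableOn ℂ γ (polydisc 1)) (hm : MapsTo γ (polydisc 1) (polydisc d))
    (hcount : {t | Bad γ t}.Countable)
    (hnd : ∀ t, Bad γ t → ∀ i j, i ≠ j → ¬ (HasAD γ i t ∧ HasAD γ j t))
    {f : (Fin d → ℂ) → ℂ} (hf : IsOuter p f) {B : ℝ}
    (hUI : ∀ ε : ℝ, 0 < ε → ∃ δ : ℝ, 0 < δ ∧ ∃ N : ℕ, ∀ k ≥ N, ∀ A : Set (Torus 1),
      MeasurableSet A → volume A ≤ ENNReal.ofReal δ →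
      ∫ t in A, max (Real.log ‖f (γ (pt (rad k) t))‖) 0 ≤ ε)
    (hB : ∃ N : ℕ, ∀ k ≥ N, ∫ t : Torus 1, max (Real.log ‖f (γ (pt (rad k) t))‖) 0 ≤ B)
    {ε : ℝ} (hε : 0 < ε) :
    ∃ N : ℕ, ∀ k ≥ N, ∀ l ≥ N,
      ∫ t : Torus 1, |(-Real.log ‖f (γ (pt (rad k) t))‖) -
        (-Real.log ‖f (γ (pt (rad l) t))‖)| < ε := by
  obtain ⟨h, hh, hrep⟩ := outer_rep hf
  have hW := neg_log_nharm hf.1.1 hf.2.1 hγ hm
  have hV := neg_log_nharm' hf.1.1 hf.2.1
  refine core2 (V := fun z => -Real.log ‖f z‖) hγ hm hW hh hrep hcount (B := B) ?_ ?_ ?_ hε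
  · intro ε' hε'
    obtain ⟨δ, hδ, N, h1⟩ := hUI ε' hε'
    refine ⟨δ, hδ, N, fun k hk A hA hv => ?_⟩
    simp only [neg_neg]
    exact h1 k hk A hA hv
  · obtain ⟨N, h1⟩ := hB
    refine ⟨N, fun k hk => ?_⟩
    simp only [neg_neg]
    exact h1 k hk
  · intro t ht ε' hε'
    obtain ⟨i0, j0, -⟩ := bad_two hγ hm ht
    obtain ⟨i, hi⟩ : ∃ i, ∀ j, j ≠ i → ¬ HasAD γ j t := by
      by_cases h : ∃ i, HasAD γ i t
      · obtain ⟨i, hi⟩ := h
        exact ⟨i, fun j hj hAD => hnd t ht i j hj.symm ⟨hi, hAD⟩⟩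
      · push Not at h
        exact ⟨i0, fun j _ => h j⟩
    obtain ⟨c, hc0, hcl⟩ := exists_low hm
    obtain ⟨K, hK0, hK⟩ := growth_any hp hf
    exact no_atom2 hγ hm hV hK0 hK hh hrep t i hcl hc0
      (fun j hj => julia hγ hm j t (hi j hj)) hε'

end Pool.Agent.Helper43.Outer
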