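import Pool.Agent.Helper43.Outer.Harnack

open MeasureTheory Set Filter Topology Complex Metric ENNReal InnerProductSpace

namespace Pool.Agent.Helper43.Outer

variable {d : ℕ}

theorem not_contact {φ : (Fin 1 → ℂ) → (Fin d → ℂ)} {t : Torus 1} (h : ¬ Contact φ t) :
    ∃ ε : ℝ, 0 < ε ∧ ∀ z ∈ polydisc 1, ‖z - pt 1 t‖ < ε → ∀ i j, i ≠ j →
      ‖φ z i‖ ≤ 1 - ε ∨ ‖φ z j‖ ≤ 1 - ε := by
  have h1 : ∀ p : Fin d × Fin d, ∃ n : ℕ, p.1 ≠ p.2 → ∀ z ∈ polydisc 1,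
      ‖z - pt 1 t‖ < 1 / ((n : ℝ) + 1) →
      ‖φ z p.1‖ ≤ 1 - 1 / ((n : ℝ) + 1) ∨ ‖φ z p.2‖ ≤ 1 - 1 / ((n : ℝ) + 1) := by
    intro p
    by_cases hp : p.1 = p.2
    · exact ⟨0, fun h' => absurd hp h'⟩
    · have h2 : ¬ ∀ ε : ℝ, 0 < ε → ∃ z ∈ polydisc 1, ‖z - pt 1 t‖ < ε ∧
          1 - ε < ‖φ z p.1‖ ∧ 1 - ε < ‖φ z p.2‖ := fun h' => h ⟨p.1, p.2, hp, h'⟩
      push Not at h2
      obtain ⟨ε, hε, h3⟩ := h2
      obtain ⟨n, hn⟩ := exists_nat_one_div_lt hε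
      refine ⟨n, fun _ z hz hzt => ?_⟩
      have h4 := h3 z hz (hzt.trans hn)
      by_cases h5 : 1 - ε < ‖φ z p.1‖
      · right
        linarith [h4 h5]
      · left
        linarith
  choose n hn using h1
  set N := ∑ p, n p with hN
  have hle : ∀ p, (1 : ℝ) / ((N : ℝ) + 1) ≤ 1 / ((n p : ℝ) + 1) := by
    intro p
    apply one_div_le_one_div_of_le (by positivity)
    have : n p ≤ N := Finset.single_le_sum (fun _ _ => Nat.zero_le _) (Finset.mem_univ p)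
    have : (n p : ℝ) ≤ N := Nat.cast_le.2 this
    linarith
  refine ⟨1 / ((N : ℝ) + 1), by positivity, fun z hz hzt i j hij => ?_⟩
  have h5 := hle (i, j)
  rcases hn (i, j) hij z hz (lt_of_lt_of_le hzt h5) with h6 | h6
  · left
    simp only at h6
    linarith
  · right
    simp only at h6
    linarith

theorem bd_cont : Continuous (fun t : Torus 1 => pt 1 t) :=
  pt_cont.comp (by fun_prop : Continuous fun t : Torus 1 => ((1 : ℝ), t))

theorem contact_closed (φ : (Fin 1 → ℂ) → (Fin d → ℂ)) : IsClosed {t | Contact φ t} := by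
  rw [← isOpen_compl_iff, Metric.isOpen_iff]
  intro t ht
  obtain ⟨ε, hε, h⟩ := not_contact (φ := φ) ht
  obtain ⟨δ, hδ, h1⟩ := Metric.continuous_iff.1 bd_cont t (ε / 2) (by positivity)
  refine ⟨δ, hδ, fun t' ht' => ?_⟩
  have h2 := h1 t' ht'
  rw [dist_eq_norm] at h2
  rintro ⟨i, j, hij, hc⟩
  obtain ⟨z, hz, hz1, hz2, hz3⟩ := hc (ε / 2) (by positivity)
  have h3 : ‖z - pt 1 t‖ < ε := by
    have := norm_sub_le_norm_sub_add_norm_sub z (pt 1 t') (pt 1 t)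
    linarith
  rcases h z hz h3 i j hij with h4 | h4
  · linarith
  · linarith

theorem pt_sub (r : ℝ) (hr1 : r ≤ 1) (t : Torus 1) : ‖pt r t - pt 1 t‖ ≤ 1 - r := by
  rw [pi_norm_le_iff_of_nonneg (by linarith)]
  intro i
  simp only [Pi.sub_apply, pt]
  have : (r : ℂ) * e (t i) - ((1 : ℝ) : ℂ) * e (t i) = ((r - 1 : ℝ) : ℂ) * e (t i) := by
    push_cast
    ring
  rw [this, norm_mul, norm_e, mul_one, Complex.norm_real, Real.norm_eq_abs, abs_sub_comm,
    abs_of_nonneg (by linarith)]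

-- a common lower constant for the boundary distances
theorem exists_low {φ : (Fin 1 → ℂ) → (Fin d → ℂ)}
    (hm : MapsTo φ (polydisc 1) (polydisc d)) :
    ∃ c : ℝ, 0 < c ∧ ∀ j, c ≤ (1 - ‖φ 0 j‖) / 2 := by
  have h0 : φ 0 ∈ polydisc d := hm (fun i => by simp)
  have h1 : ∀ j, ∃ n : ℕ, 1 / ((n : ℝ) + 1) < (1 - ‖φ 0 j‖) / 2 := fun j =>
    exists_nat_one_div_lt (by linarith [h0 j])
  choose n hn using h1
  refine ⟨1 / (((∑ j, n j : ℕ) : ℝ) + 1), by positivity, fun j => ?_⟩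
  refine le_trans ?_ (hn j).le
  apply one_div_le_one_div_of_le (by positivity)
  have : n j ≤ ∑ j, n j := Finset.single_le_sum (fun _ _ => Nat.zero_le _) (Finset.mem_univ j)
  have : (n j : ℝ) ≤ ((∑ j, n j : ℕ) : ℝ) := Nat.cast_le.2 this
  linarith

-- uniform separation on compact sets without contact points
theorem sep_compact {φ : (Fin 1 → ℂ) → (Fin d → ℂ)} (hφ : DifferentiableOn ℂ φ (polydisc 1))
    (hm : MapsTo φ (polydisc 1) (polydisc d)) {J : Set (Torus 1)} (hJ : IsCompact J)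
    (hJc : ∀ t ∈ J, ¬ Contact φ t) :
    ∃ δ : ℝ, 0 < δ ∧ δ ≤ 1 ∧ ∀ t ∈ J, ∀ r : ℝ, 0 ≤ r → r < 1 → ∀ i j, i ≠ j →
      ‖φ (pt r t) i‖ ≤ 1 - δ ∨ ‖φ (pt r t) j‖ ≤ 1 - δ := by
  obtain ⟨c, hc0, hc⟩ := exists_low hm
  refine hJ.induction_on (p := fun S => ∃ δ : ℝ, 0 < δ ∧ δ ≤ 1 ∧ ∀ t ∈ S, ∀ r : ℝ, 0 ≤ r →
    r < 1 → ∀ i j, i ≠ j → ‖φ (pt r t) i‖ ≤ 1 - δ ∨ ‖φ (pt r t) j‖ ≤ 1 - δ) ?_ ?_ ?_ ?_
  · exact ⟨1, one_pos, le_rfl, fun t ht => absurd ht (notMem_empty t)⟩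
  · rintro S S' hSS ⟨δ, h1, h2, h3⟩
    exact ⟨δ, h1, h2, fun t ht => h3 t (hSS ht)⟩
  · rintro S S' ⟨δ, h1, h2, h3⟩ ⟨δ', h1', h2', h3'⟩
    refine ⟨min δ δ', lt_min h1 h1', (min_le_left _ _).trans h2, ?_⟩
    have m1 := min_le_left δ δ'
    have m2 := min_le_right δ δ'
    rintro t (ht | ht) r hr hr1 i j hij
    · rcases h3 t ht r hr hr1 i j hij with h | h
      · left; linarith
      · right; linarith
    · rcases h3' t ht r hr hr1 i j hij with h | h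
      · left; linarith
      · right; linarith
  · intro t ht
    obtain ⟨ε, hε, h⟩ := not_contact (hJc t ht)
    obtain ⟨δ, hδ, h1⟩ := Metric.continuous_iff.1 bd_cont t (ε / 2) (by positivity)
    refine ⟨ball t δ, mem_nhdsWithin_of_mem_nhds (ball_mem_nhds t hδ), ?_⟩
    refine ⟨min (min ε (c * (ε / 2))) 1, by positivity, min_le_right _ _, ?_⟩
    have m1 : min (min ε (c * (ε / 2))) 1 ≤ ε := (min_le_left _ _).trans (min_le_left _ _)
    have m2 : min (min ε (c * (ε / 2))) 1 ≤ c * (ε / 2) :=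
      (min_le_left _ _).trans (min_le_right _ _)
    intro t' ht' r hr hr1 i j hij
    have h2 := h1 t' ht'
    rw [dist_eq_norm] at h2
    by_cases hcase : 1 - ε / 2 ≤ r
    · have h3 : ‖pt r t' - pt 1 t‖ < ε := by
        have h4 := norm_sub_le_norm_sub_add_norm_sub (pt r t') (pt 1 t') (pt 1 t)
        have h5 := pt_sub r hr1.le t'
        linarith
      rcases h _ (pt_mem hr hr1 t') h3 i j hij with h | h
      · left; linarith
      · right; linarith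
    · push Not at hcase
      left
      have h3 := one_sub_low (g := fun z => φ z i)
        (fun z hz => (differentiableWithinAt_pi.1 (hφ z hz)) i) (fun z hz => hm hz i) t' hr hr1
      have h4 : c * (ε / 2) ≤ (1 - ‖φ 0 i‖) / 2 * (1 - r) := by
        have := hc i
        have h5 : ε / 2 ≤ 1 - r := by linarith
        gcongr
        linarith
      linarith

end Pool.Agent.Helper43.Outer
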