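import Pool.Agent.Helper43.Outer.Slices

open MeasureTheory Set Filter Topology Complex Metric ENNReal InnerProductSpace

namespace Pool.Agent.Helper43.Outer

variable {d d' : ℕ}

theorem cut_pt {X : Type} (φ : (Fin d' → ℂ) → X) (s : Torus d') (r : ℝ) (t : Torus 1) :
    cut φ s (pt r t) = φ (pt r (sh (s, t 0))) := by
  unfold cut
  congr 1
  ext i
  simp only [pt, sh]
  rw [e_add]
  ring

theorem cut_diff {E : Type} [NormedAddCommGroup E] [NormedSpace ℂ E] {G : (Fin d' → ℂ) → E}
    (hG : DifferentiableOn ℂ G (polydisc d')) (s : Torus d') :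
    DifferentiableOn ℂ (cut G s) (polydisc 1) := by
  refine hG.comp (g := G) (f := fun z : Fin 1 → ℂ => (fun i => z 0 * e (s i))) ?_ ?_
  · fun_prop
  · exact fun z hz => slice_mem s hz

theorem cut_maps {φ : (Fin d' → ℂ) → (Fin d → ℂ)} (hm : MapsTo φ (polydisc d') (polydisc d))
    (s : Torus d') : MapsTo (cut φ s) (polydisc 1) (polydisc d) := fun _ hz => hm (slice_mem s hz)

-- almost every slice of a Poisson integral is a Poisson integral
theorem slice_rep {d : ℕ} {U : (Fin d → ℂ) → ℝ} (hU : NHarm U) {v : Torus d → ℝ}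
    (hv : Integrable v) (ρ : ℕ → ℝ) (h0 : ∀ k, 0 ≤ ρ k) (h1 : ∀ k, ρ k < 1)
    (hρ : Tendsto ρ atTop (𝓝 1))
    (hlim : Tendsto (fun k => ∫ t, |U (pt (ρ k) t) - v t|) atTop (𝓝 0)) :
    ∀ᵐ s : Torus d, Integrable (fun l => v (sh (s, l))) ∧
      ∀ z : ℂ, ‖z‖ < 1 → U (fun i => z * e (s i)) = ∫ l, pk z l * v (sh (s, l)) := by
  have hcont : ∀ k, Continuous (fun t : Torus d => U (pt (ρ k) t)) := by
    intro k
    refine hU.1.comp_continuous (f := fun t : Torus d => pt (ρ k) t) ?_ ?_
    · exact pt_cont.comp (by fun_prop : Continuous fun t : Torus d => ((ρ k : ℝ), t))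
    · exact fun t => pt_mem (h0 k) (h1 k) t
  have hint : ∀ k, Integrable (fun t : Torus d => U (pt (ρ k) t)) := fun k =>
    (hcont k).integrable_of_hasCompactSupport (HasCompactSupport.of_compactSpace _)
  set F : ℕ → Torus d → ℝ := fun k t => |U (pt (ρ k) t) - v t| with hF
  have hFi : ∀ k, Integrable (F k) := fun k => ((hint k).sub hv).abs
  have hFs : ∀ k, Integrable (fun p : Torus d × UnitAddCircle => F k (sh p))
      (volume.prod volume) := fun k =>
    (sh_mp.integrable_comp (hFi k).aestronglyMeasurable).2 (hFi k)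
  set φ : ℕ → Torus d → ℝ := fun k s => ∫ l, F k (sh (s, l)) with hφ
  have hφi : ∀ k, Integrable (φ k) := fun k => (hFs k).integral_prod_left
  have hφ0 : ∀ k s, 0 ≤ φ k s := fun k s => integral_nonneg fun l => abs_nonneg _
  have hφint : ∀ k, ∫ s, φ k s = ∫ t, F k t := by
    intro k
    rw [← integral_prod _ (hFs k)]
    have := integral_map (μ := volume.prod volume) (φ := sh (d := d)) (f := F k)
      sh_mp.measurable.aemeasurable (by rw [sh_mp.map_eq]; exact (hFi k).aestronglyMeasurable)
    rw [sh_mp.map_eq] at this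
    exact this.symm
  have hmeas : TendstoInMeasure volume φ atTop (fun _ => (0 : ℝ)) := by
    refine tendstoInMeasure_of_tendsto_eLpNorm (p := 1) one_ne_zero
      (fun k => (hφi k).aestronglyMeasurable) aestronglyMeasurable_const ?_
    have h3 : ∀ k, eLpNorm (φ k - fun _ => (0 : ℝ)) 1 volume = ENNReal.ofReal (∫ t, F k t) := by
      intro k
      rw [← hφint k, eLpNorm_one_eq_lintegral_enorm, ofReal_integral_eq_lintegral_ofReal (hφi k)
        (ae_of_all _ (hφ0 k))]
      apply lintegral_congr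
      intro s
      simp [Real.enorm_eq_ofReal (hφ0 k s)]
    simp_rw [h3]
    have := (ENNReal.continuous_ofReal.tendsto 0).comp hlim
    rw [ENNReal.ofReal_zero] at this
    exact this
  obtain ⟨ns, hns, hae⟩ := hmeas.exists_seq_tendsto_ae
  have hvs : ∀ᵐ s : Torus d, Integrable (fun l => v (sh (s, l))) :=
    ((sh_mp.integrable_comp hv.aestronglyMeasurable).2 hv).prod_right_ae
  filter_upwards [hae, hvs] with s hs hvi
  refine ⟨hvi, ?_⟩
  have hFsi : ∀ k, Integrable (fun l => U (pt (ρ k) (sh (s, l)))) := by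
    intro k
    have : Continuous (fun l => U (pt (ρ k) (sh (s, l)))) := by
      refine (hcont k).comp ?_
      refine continuous_pi fun i => ?_
      exact continuous_const.add continuous_id
    exact this.integrable_of_hasCompactSupport (HasCompactSupport.of_compactSpace _)
  intro z hz
  have h2 : Tendsto (fun k => U (fun i => ρ (ns k) * (z * e (s i)))) atTop
      (𝓝 (U (fun i => z * e (s i)))) := by
    have hz2 : Tendsto (fun k => (fun i => (ρ (ns k) : ℂ) * (z * e (s i)))) atTop
        (𝓝 (fun i => z * e (s i))) := by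
      rw [tendsto_pi_nhds]
      intro i
      have : Tendsto (fun k => (ρ (ns k) : ℂ)) atTop (𝓝 (1 : ℝ)) :=
        (Complex.continuous_ofReal.tendsto 1).comp (hρ.comp hns.tendsto_atTop)
      simpa using this.mul_const (z * e (s i))
    have hmem : (fun i => z * e (s i)) ∈ polydisc d := by
      intro i
      rw [norm_mul, norm_e, mul_one]
      exact hz
    exact ((hU.1.continuousAt ((isOpen_polydisc d).mem_nhds hmem)).tendsto).comp hz2
  have h3 : Tendsto (fun k => ∫ l, pk z l * U (pt (ρ (ns k)) (sh (s, l)))) atTop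
      (𝓝 (∫ l, pk z l * v (sh (s, l)))) := by
    rw [tendsto_iff_dist_tendsto_zero]
    refine squeeze_zero (fun _ => dist_nonneg) (fun k => ?_)
      (by simpa using hs.const_mul ((1 + ‖z‖) / (1 - ‖z‖)))
    rw [Real.dist_eq, ← integral_sub (int_pk_mul hz (hFsi _)) (int_pk_mul hz hvi)]
    refine (abs_integral_le_integral_abs).trans ?_
    rw [hφ]
    simp only
    rw [← integral_const_mul]
    refine integral_mono ?_ ?_ ?_
    · exact ((int_pk_mul hz (hFsi _)).sub (int_pk_mul hz hvi)).abs
    · exact ((hFsi _).sub hvi).abs.const_mul _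
    · intro l
      simp only [hF]
      rw [← mul_sub, abs_mul, abs_of_pos (pk_pos hz l)]
      exact mul_le_mul_of_nonneg_right (pk_le hz l) (abs_nonneg _)
  have h4 : ∀ k, ∫ l, pk z l * U (pt (ρ (ns k)) (sh (s, l))) =
      U (fun i => ρ (ns k) * (z * e (s i))) := fun k =>
    slice_poisson hU (h0 _) (h1 _) s hz
  simp_rw [h4] at h3
  exact tendsto_nhds_unique h2 h3

-- Jensen's inequality for the exponential
theorem exp_avg {α : Type*} [MeasurableSpace α] {μ : Measure α} {p f : α → ℝ}
    (hp : ∀ x, 0 ≤ p x) (h1 : Integrable p μ) (h2 : Integrable (fun x => p x * f x) μ)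
    (h3 : Integrable (fun x => p x * Real.exp (f x)) μ) (hone : ∫ x, p x ∂μ = 1) :
    Real.exp (∫ x, p x * f x ∂μ) ≤ ∫ x, p x * Real.exp (f x) ∂μ := by
  set c := ∫ x, p x * f x ∂μ with hc
  have h4 : ∫ x, Real.exp c * ((1 - c) * p x + p x * f x) ∂μ ≤
      ∫ x, p x * Real.exp (f x) ∂μ := by
    refine integral_mono (((h1.const_mul _).add h2).const_mul _) h3 fun x => ?_
    have h5 := Real.add_one_le_exp (f x - c)
    have h6 : Real.exp c * (f x - c + 1) ≤ Real.exp (f x) := by
      calc Real.exp c * (f x - c + 1) ≤ Real.exp c * Real.exp (f x - c) := by gcongr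
        _ = Real.exp (f x) := by
          rw [← Real.exp_add]
          congr 1
          ring
    have h7 := mul_le_mul_of_nonneg_left h6 (hp x)
    simp only
    calc Real.exp c * ((1 - c) * p x + p x * f x) = p x * (Real.exp c * (f x - c + 1)) := by ring
      _ ≤ _ := h7
  have e1 := integral_add (h1.const_mul (1 - c)) h2
  rw [integral_const_mul, e1, integral_const_mul, hone, ← hc] at h4
  have e2 : Real.exp c * ((1 - c) * 1 + c) = Real.exp c := by ring
  rwa [e2] at h4

theorem exp_mono {U : (Fin d → ℂ) → ℝ} (hU : NHarm U) (q : ℝ) {r s : ℝ} (hr : 0 ≤ r)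
    (hr1 : r < 1) (hs : 0 ≤ s) (hs1 : s < 1) :
    ∫ x : Torus d, Real.exp (q * U (pt (s * r) x)) ≤ ∫ x : Torus d, Real.exp (q * U (pt r x)) := by
  have c1 := dil_cont hU.1 hr hr1
  have hsr : 0 ≤ s * r := mul_nonneg hs hr
  have hsr1 : s * r < 1 := by nlinarith
  have c2 := dil_cont hU.1 hsr hsr1
  have c1e : Continuous (fun t : Torus d => Real.exp (q * U (pt r t))) :=
    Real.continuous_exp.comp (continuous_const.mul c1)
  have c2e : Continuous (fun t : Torus d => Real.exp (q * U (pt (s * r) t))) :=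
    Real.continuous_exp.comp (continuous_const.mul c2)
  have hF : Continuous (fun p : Torus d × Torus d =>
      P (pt s p.1) p.2 * Real.exp (q * U (pt r p.2))) :=
    (P_joint_cont hs hs1).mul (c1e.comp continuous_snd)
  have hFi : Integrable (fun p : Torus d × Torus d =>
      P (pt s p.1) p.2 * Real.exp (q * U (pt r p.2))) (volume.prod volume) :=
    hF.integrable_of_hasCompactSupport (HasCompactSupport.of_compactSpace _)
  have h1 : ∀ x : Torus d, Real.exp (q * U (pt (s * r) x)) ≤
      ∫ t, P (pt s x) t * Real.exp (q * U (pt r t)) := by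
    intro x
    have hm := pt_mem hs hs1 x
    have h2 : q * U (pt (s * r) x) = ∫ t, P (pt s x) t * (q * U (pt r t)) := by
      rw [← semigroup hU hr hr1 hs hs1, ← integral_const_mul]
      congr 1
      ext t
      ring
    rw [h2]
    exact exp_avg (fun t => (P_pos hm t).le) (P_int hm)
      (int_P_mul hm (cont_int (continuous_const.mul c1))) (int_P_mul hm (cont_int c1e))
      (integral_P hm)
  have h2 : ∫ x : Torus d, Real.exp (q * U (pt (s * r) x)) ≤
      ∫ x : Torus d, ∫ t : Torus d, P (pt s x) t * Real.exp (q * U (pt r t)) :=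
    integral_mono (cont_int c2e) hFi.integral_prod_left h1
  refine h2.trans (le_of_eq ?_)
  rw [integral_integral_swap hFi]
  congr 1
  ext t
  rw [integral_mul_const]
  have h3 : ∫ x : Torus d, P (pt s x) t = 1 := by
    simp_rw [P_symm _ t]
    exact integral_P (pt_mem hs hs1 t)
  rw [h3, one_mul]

theorem moment_mono {F : (Fin d → ℂ) → ℂ} (hF : DifferentiableOn ℂ F (polydisc d))
    (h0 : ∀ z ∈ polydisc d, F z ≠ 0) (q : ℝ) {a b : ℝ} (ha : 0 ≤ a) (hab : a ≤ b)
    (hb1 : b < 1) :
    ∫ x : Torus d, ‖F (pt a x)‖ ^ q ≤ ∫ x : Torus d, ‖F (pt b x)‖ ^ q := by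
  have hU := nharm_log hF h0
  have hexp : ∀ r : ℝ, 0 ≤ r → r < 1 → ∀ x : Torus d,
      ‖F (pt r x)‖ ^ q = Real.exp (q * Real.log ‖F (pt r x)‖) := by
    intro r hr hr1 x
    rw [Real.rpow_def_of_pos (norm_pos_iff.2 (h0 _ (pt_mem hr hr1 x))), mul_comm]
  rcases hab.eq_or_lt with rfl | hlt
  · exact le_rfl
  · have hb : 0 < b := lt_of_le_of_lt ha hlt
    have h1 := exp_mono hU q (r := b) (s := a / b) hb.le hb1 (by positivity)
      ((div_lt_one hb).2 hlt)
    rw [div_mul_cancel₀ _ hb.ne'] at h1
    simp_rw [hexp a ha (hab.trans_lt hb1), hexp b hb.le hb1]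
    exact h1

end Pool.Agent.Helper43.Outer
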