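import Pool.Agent.Helper43.Outer.Infty

open MeasureTheory Set Filter Topology Complex Metric ENNReal InnerProductSpace

namespace Pool.Agent.Helper43.Outer

variable {d d' : ℕ}

-- moments of the dilates
theorem moment_bound {q : ℝ≥0∞} (hq : q ≠ 0) (hq' : q ≠ ∞) {F : (Fin d → ℂ) → ℂ}
    (hF : MemH q F) : ∃ B : ℝ, 0 ≤ B ∧ ∀ k, Integrable (fun t : Torus d =>
      ‖F (pt (rad k) t)‖ ^ q.toReal) ∧ ∫ t : Torus d, ‖F (pt (rad k) t)‖ ^ q.toReal ≤ B := by
  have h1 := hF.2
  unfold hNorm at h1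
  rw [if_neg hq'] at h1
  set S := ⨆ r ∈ Ioo (0 : ℝ) 1, eLpNorm (fun t : Torus d => F (pt r t)) q volume with hS
  have hqr : 0 < q.toReal := ENNReal.toReal_pos hq hq'
  refine ⟨S.toReal ^ q.toReal, Real.rpow_nonneg ENNReal.toReal_nonneg _, fun k => ?_⟩
  have hc : Continuous (fun t : Torus d => F (pt (rad k) t)) := by
    refine hF.1.continuousOn.comp_continuous (f := fun t : Torus d => pt (rad k) t) ?_ ?_
    · exact pt_cont.comp (by fun_prop : Continuous fun t : Torus d => ((rad k : ℝ), t))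
    · exact fun t => pt_mem (rad_pos k).le (rad_lt k) t
  have hcr : Continuous (fun t : Torus d => ‖F (pt (rad k) t)‖ ^ q.toReal) :=
    hc.norm.rpow_const fun t => Or.inr hqr.le
  refine ⟨cont_int hcr, ?_⟩
  have hmem : MemLp (fun t : Torus d => F (pt (rad k) t)) q volume :=
    hc.memLp_of_hasCompactSupport (HasCompactSupport.of_compactSpace _)
  have h2 : eLpNorm (fun t : Torus d => F (pt (rad k) t)) q volume ≤ S :=
    le_iSup₂ (f := fun (r : ℝ) (_ : r ∈ Ioo (0 : ℝ) 1) =>
      eLpNorm (fun t : Torus d => F (pt r t)) q volume) (rad k) ⟨rad_pos k, rad_lt k⟩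
  rw [hmem.eLpNorm_eq_integral_rpow_norm hq hq'] at h2
  set X := ∫ t : Torus d, ‖F (pt (rad k) t)‖ ^ q.toReal with hX
  have hX0 : 0 ≤ X := integral_nonneg fun _ => Real.rpow_nonneg (norm_nonneg _) _
  have h3 : X ^ q.toReal⁻¹ ≤ S.toReal := by
    rw [← ENNReal.ofReal_le_iff_le_toReal h1.ne]
    exact h2
  calc X = (X ^ q.toReal⁻¹) ^ q.toReal := by
        rw [← Real.rpow_mul hX0, inv_mul_cancel₀ hqr.ne', Real.rpow_one]
    _ ≤ S.toReal ^ q.toReal := by
        have : 0 ≤ X ^ q.toReal⁻¹ := Real.rpow_nonneg hX0 _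
        gcongr

theorem logplus_le {q x l : ℝ} (hq : 0 < q) (hx : 0 ≤ x) (hl : 0 < l) :
    max (Real.log x) 0 ≤ 2 / q * (l * x ^ q + 1 / (4 * l)) := by
  have h1 : Real.log x ≤ x ^ (q / 2) / (q / 2) := Real.log_le_rpow_div hx (by positivity)
  have h2 : x ^ (q / 2) * x ^ (q / 2) = x ^ q := by
    rw [← Real.rpow_add_of_nonneg hx (by positivity) (by positivity)]
    congr 1
    ring
  set y := x ^ (q / 2) with hy
  have hy0 : 0 ≤ y := Real.rpow_nonneg hx _
  have h3 : y ≤ l * x ^ q + 1 / (4 * l) := by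
    rw [← h2]
    have h4 : 0 ≤ (2 * l * y - 1) ^ 2 := sq_nonneg _
    have h5 : l * (y * y) + 1 / (4 * l) - y = (2 * l * y - 1) ^ 2 / (4 * l) := by
      field_simp
      ring
    have h6 : 0 ≤ (2 * l * y - 1) ^ 2 / (4 * l) := by positivity
    linarith
  have h7 : y / (q / 2) = 2 / q * y := by field_simp
  have h8 : 0 ≤ 2 / q * (l * x ^ q + 1 / (4 * l)) := by
    have := Real.rpow_nonneg hx q
    positivity
  refine max_le ?_ h8
  rw [h7] at h1
  exact h1.trans (by gcongr)

-- uniform integrability of the positive part of log |F|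
theorem ui_logplus {q : ℝ≥0∞} (hq : q ≠ 0) {F : (Fin 1 → ℂ) → ℂ} (hF : MemH q F)
    (hcon : ∀ k, Continuous (fun t : Torus 1 => max (Real.log ‖F (pt (rad k) t)‖) 0)) :
    (∀ ε : ℝ, 0 < ε → ∃ δ : ℝ, 0 < δ ∧ ∀ k : ℕ, ∀ A : Set (Torus 1), MeasurableSet A →
      volume A ≤ ENNReal.ofReal δ → ∫ t in A, max (Real.log ‖F (pt (rad k) t)‖) 0 ≤ ε) ∧
    ∃ B : ℝ, ∀ k : ℕ, ∫ t : Torus 1, max (Real.log ‖F (pt (rad k) t)‖) 0 ≤ B := by
  by_cases hqt : q = ∞
  · subst hqt
    obtain ⟨M, hM0, hM⟩ := bdd_of_mem hF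
    have hb : ∀ k (t : Torus 1), max (Real.log ‖F (pt (rad k) t)‖) 0 ≤ M := fun k t =>
      max_le (hM _ (pt_mem (rad_pos k).le (rad_lt k) t)) hM0
    refine ⟨fun ε hε => ⟨ε / (M + 1), by positivity, fun k A hA hv => ?_⟩, M, fun k => ?_⟩
    · refine (setIntegral_le_const hA (cont_int (hcon k)) hM0 (hb k) (by positivity) hv).trans ?_
      rw [mul_div_assoc', div_le_iff₀ (by positivity)]
      nlinarith
    · have := integral_mono (cont_int (hcon k)) (integrable_const M) (hb k)
      simpa using this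
  · obtain ⟨B, hB0, hB⟩ := moment_bound hq hqt hF
    have hqr : 0 < q.toReal := ENNReal.toReal_pos hq hqt
    set Q' := q.toReal with hQ'
    have key : ∀ l : ℝ, 0 < l → ∀ k : ℕ, ∀ A : Set (Torus 1), MeasurableSet A →
        ∫ t in A, max (Real.log ‖F (pt (rad k) t)‖) 0 ≤
          2 / Q' * (l * B + 1 / (4 * l) * volume.real A) := by
      intro l hl k A hA
      have hi := (hB k).1
      calc ∫ t in A, max (Real.log ‖F (pt (rad k) t)‖) 0
          ≤ ∫ t in A, 2 / Q' * (l * ‖F (pt (rad k) t)‖ ^ Q' + 1 / (4 * l)) := by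
            refine setIntegral_mono_on (cont_int (hcon k)).integrableOn
              (((hi.const_mul l).add (integrable_const _)).const_mul _).integrableOn hA
              fun t _ => logplus_le hqr (norm_nonneg _) hl
        _ = 2 / Q' * (l * (∫ t in A, ‖F (pt (rad k) t)‖ ^ Q') +
              1 / (4 * l) * volume.real A) := by
            rw [integral_const_mul, integral_add (hi.const_mul l).integrableOn
              (integrable_const _).integrableOn, integral_const_mul, setIntegral_const,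
              smul_eq_mul]
            ring
        _ ≤ 2 / Q' * (l * B + 1 / (4 * l) * volume.real A) := by
            gcongr
            refine le_trans ?_ (hB k).2
            exact setIntegral_le_integral hi
              (ae_of_all _ fun t => Real.rpow_nonneg (norm_nonneg _) _)
    refine ⟨fun ε hε => ?_, 2 / Q' * (B + 1 / 4), fun k => ?_⟩
    · set l := ε * Q' / (4 * (B + 1)) with hl
      have hl0 : 0 < l := by positivity
      refine ⟨ε * Q' * l, by positivity, fun k A hA hv => ?_⟩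
      refine (key l hl0 k A hA).trans ?_
      have hvr : volume.real A ≤ ε * Q' * l := by
        rw [Measure.real]
        calc (volume A).toReal ≤ (ENNReal.ofReal (ε * Q' * l)).toReal :=
              ENNReal.toReal_mono ENNReal.ofReal_ne_top hv
          _ = ε * Q' * l := ENNReal.toReal_ofReal (by positivity)
      have h1 : 1 / (4 * l) * volume.real A ≤ ε * Q' / 4 := by
        calc 1 / (4 * l) * volume.real A ≤ 1 / (4 * l) * (ε * Q' * l) := by gcongr
          _ = ε * Q' / 4 := by field_simp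
      have h2 : l * B ≤ ε * Q' / 4 := by
        rw [hl, div_mul_eq_mul_div, div_le_div_iff₀ (by positivity) (by norm_num)]
        have : 0 ≤ ε * Q' := by positivity
        nlinarith
      calc 2 / Q' * (l * B + 1 / (4 * l) * volume.real A)
          ≤ 2 / Q' * (ε * Q' / 4 + ε * Q' / 4) := by gcongr
        _ = ε := by field_simp; ring
    · have h1 := key 1 one_pos k univ MeasurableSet.univ
      rw [Measure.restrict_univ] at h1
      simpa using h1

-- uniform integrability of an L1 convergent sequence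
theorem ui_of_lim {u : ℕ → Torus 1 → ℝ} {w : Torus 1 → ℝ} (hu : ∀ k, Integrable (u k))
    (hw : Integrable w) (hlim : Tendsto (fun k => ∫ t, |u k t - w t|) atTop (𝓝 0)) {ε : ℝ}
    (hε : 0 < ε) : ∃ δ : ℝ, 0 < δ ∧ ∃ N : ℕ, ∀ k ≥ N, ∀ A : Set (Torus 1), MeasurableSet A →
      volume A ≤ ENNReal.ofReal δ → ∫ t in A, |u k t| ≤ ε := by
  have hfin : ∫⁻ t, ‖w t‖ₑ ≠ ∞ := hw.2.ne
  obtain ⟨δ, hδ, h1⟩ := exists_pos_setLIntegral_lt_of_measure_lt hfin
    (ε := ENNReal.ofReal (ε / 2)) (by
      rw [ne_eq, ENNReal.ofReal_eq_zero]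
      push Not
      positivity)
  obtain ⟨δ', hδ'0, hδ'⟩ : ∃ δ' : ℝ, 0 < δ' ∧ ENNReal.ofReal δ' < δ := by
    obtain ⟨x, hx0, hx⟩ := ENNReal.lt_iff_exists_real_btwn.1 hδ
    refine ⟨x, ?_, hx.2⟩
    by_contra hcon
    push Not at hcon
    rw [ENNReal.ofReal_of_nonpos hcon] at hx
    exact lt_irrefl _ hx.1
  obtain ⟨N, hN⟩ := eventually_atTop.1 (hlim.eventually (gt_mem_nhds
    (by positivity : (0 : ℝ) < ε / 2)))
  refine ⟨δ', hδ'0, N, fun k hk A hA hv => ?_⟩
  have h2 : ∫ t in A, |w t| ≤ ε / 2 := by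
    have h3 := (h1 A (lt_of_le_of_lt hv hδ')).le
    have h4 : ENNReal.ofReal (∫ t in A, |w t|) ≤ ENNReal.ofReal (ε / 2) := by
      have h5 := ofReal_integral_norm_eq_lintegral_enorm (μ := volume.restrict A)
        hw.integrableOn
      simp only [Real.norm_eq_abs] at h5
      rw [h5]
      exact h3
    exact (ENNReal.ofReal_le_ofReal_iff (by positivity)).1 h4
  have h3 : ∫ t in A, |u k t - w t| ≤ ε / 2 :=
    (setIntegral_le_integral ((hu k).sub hw).abs (ae_of_all _ fun _ => abs_nonneg _)).trans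
      (hN k hk).le
  have h4 : ∫ t in A, |u k t| ≤ (∫ t in A, |u k t - w t|) + ∫ t in A, |w t| := by
    have h5 := l1_tri (μ := volume.restrict A) (hu k).integrableOn (g := w) hw.integrableOn
      (h := fun _ => (0 : ℝ)) (integrable_zero (Torus 1) ℝ (volume.restrict A))
    simpa only [Real.norm_eq_abs, sub_zero] using h5
  linarith

-- dilates of log |g| converge in L1 for outer g
theorem outer_dil {q : ℝ≥0∞} {g : (Fin d → ℂ) → ℂ} (hg : IsOuter q g) :
    ∃ w : Torus d → ℝ, Integrable w ∧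
      Tendsto (fun k => ∫ t, |Real.log ‖g (pt (rad k) t)‖ - w t|) atTop (𝓝 0) := by
  obtain ⟨b, -, hb2, hb3⟩ := hg.2.2
  obtain ⟨v, hv, hl⟩ := limit_of_kernel (φ := fun z : Fin d → ℂ => z) differentiableOn_id
    (fun _ hz => hz) univ (C := 1) zero_le_one (fun r hr hr1 w => by
      rw [Measure.restrict_univ]
      simp_rw [P_symm _ w]
      exact (integral_P (pt_mem hr hr1 w)).le) (f := fun z => Real.log ‖g z‖) hb2 hb3 rad
    (fun k => (rad_pos k).le) rad_lt rad_lim
  simp only [Measure.restrict_univ] at hl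
  rw [integrableOn_univ] at hv
  exact ⟨v, hv, hl⟩

end Pool.Agent.Helper43.Outer
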