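import Pool.Agent.Helper43.Outer.Bad
import Pool.Agent.Helper43.Outer.Cut
import Pool.Agent.Helper43.Outer.Finite

open MeasureTheory Set Filter Topology Complex Metric ENNReal InnerProductSpace

namespace Pool.Agent.Helper43.Outer

variable {d d' : ℕ}

theorem poisson_l1 {v : Torus d → ℝ} (hv : Integrable v) {r : ℝ} (hr : 0 ≤ r) (hr1 : r < 1) :
    ∫ t : Torus d, |∫ s, P (pt r t) s * v s| ≤ ∫ s, |v s| := by
  have hg : Good (volume : Measure (Torus d)) (fun t : Torus d => pt r t) 1 := by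
    refine ⟨(pt_cont.comp (by fun_prop : Continuous fun t : Torus d => (r, t))).measurable,
      fun t => pt_mem hr hr1 t, fun t => ?_⟩
    have hc : Continuous (fun s : Torus d => P (pt r s) t) :=
      ker_cont (φ := fun z : Fin d → ℂ => z) differentiableOn_id (fun _ hz => hz) hr hr1 t
    rw [← ofReal_integral_eq_lintegral_ofReal (cont_int hc)
      (ae_of_all _ fun s => (P_pos (pt_mem hr hr1 s) t).le)]
    refine ENNReal.ofReal_le_ofReal ?_
    simp_rw [P_symm _ t]
    exact (integral_P (pt_mem hr hr1 t)).le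
  have h1 := hg.norm_le zero_le_one (u := fun t => (v t : ℂ)) hv.ofReal
  rw [one_mul] at h1
  have h2 : ∀ t : Torus d, ‖A (fun t : Torus d => pt r t) (fun t => (v t : ℂ)) t‖ =
      |∫ s, P (pt r t) s * v s| := by
    intro t
    have h3 : A (fun t : Torus d => pt r t) (fun t => (v t : ℂ)) t =
        ((∫ s, P (pt r t) s * v s : ℝ) : ℂ) := by
      rw [A, ← integral_complex_ofReal]
      congr 1
      ext s
      push_cast
      ring
    rw [h3, Complex.norm_real, Real.norm_eq_abs]
  simp_rw [h2, Complex.norm_real, Real.norm_eq_abs] at h1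
  exact h1

theorem int_eval_gen (F : UnitAddCircle → ℝ) (hF : Integrable F) :
    Integrable (fun t : Torus 1 => F (t 0)) ∧ ∫ t : Torus 1, F (t 0) = ∫ l, F l := by
  have hm := (eval_mp (d := 1) 0)
  refine ⟨(hm.integrable_comp hF.aestronglyMeasurable).2 hF, ?_⟩
  have h1 := integral_map (μ := (volume : Measure (Torus 1))) (φ := fun w : Torus 1 => w 0)
    (f := F) hm.measurable.aemeasurable (by
      rw [hm.map_eq]
      exact hF.aestronglyMeasurable)
  rw [hm.map_eq] at h1
  exact h1.symm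

theorem P_one' (z : Fin 1 → ℂ) (t : Torus 1) : P z t = pk (z 0) (t 0) := by
  rw [P_eq]
  simp

theorem rad_mono {a b : ℕ} (h : a ≤ b) : rad a ≤ rad b := by
  simp only [rad]
  have h1 : (a : ℝ) ≤ b := Nat.cast_le.2 h
  have h2 : (1 : ℝ) / ((b : ℝ) + 2) ≤ 1 / ((a : ℝ) + 2) :=
    one_div_le_one_div_of_le (by positivity) (by linarith)
  linarith

-- integration over slices
theorem int_slices {G : Torus d' → ℝ} (hG : Integrable G) :
    Integrable (fun s : Torus d' => ∫ l, G (sh (s, l))) ∧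
      ∫ s : Torus d', ∫ l, G (sh (s, l)) = ∫ t, G t := by
  have hs : Integrable (fun p : Torus d' × UnitAddCircle => G (sh p)) (volume.prod volume) :=
    (sh_mp.integrable_comp hG.aestronglyMeasurable).2 hG
  refine ⟨hs.integral_prod_left, ?_⟩
  rw [← integral_prod _ hs]
  have := integral_map (μ := volume.prod volume) (φ := sh (d := d')) (f := G)
    sh_mp.measurable.aemeasurable (by rw [sh_mp.map_eq]; exact hG.aestronglyMeasurable)
  rw [sh_mp.map_eq] at this
  exact this.symm

theorem int_cut {G : Torus d' → ℝ} (hG : Continuous G) (s : Torus d') :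
    ∫ t : Torus 1, G (sh (s, t 0)) = ∫ l, G (sh (s, l)) :=
  int_eval (fun l => G (sh (s, l))) (hG.comp (sh_cont s))

-- slices of H^q functions without zeros
theorem cut_memH {q : ℝ≥0∞} (hq : q ≠ 0) {F : (Fin d' → ℂ) → ℂ} (hF : MemH q F)
    (h0 : ∀ z ∈ polydisc d', F z ≠ 0) :
    ∃ M : Torus d' → ℝ, Integrable M ∧ ∀ᵐ s, MemH q (cut F s) ∧
      ∀ k, ∫ t : Torus 1, max (Real.log ‖cut F s (pt (rad k) t)‖) 0 ≤ M s := by
  have hn0 : ∀ s : Torus d', ∀ z ∈ polydisc 1, cut F s z ≠ 0 := fun s z hz =>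
    h0 _ (slice_mem s hz)
  have hcl : ∀ (s : Torus d') (k : ℕ), Continuous (fun t : Torus 1 =>
      max (Real.log ‖cut F s (pt (rad k) t)‖) 0) := fun s k =>
    (dil_cont (nharm_log (cut_diff hF.1 s) (hn0 s)).1 (rad_pos k).le (rad_lt k)).max
      continuous_const
  by_cases hqt : q = ∞
  · subst hqt
    obtain ⟨M, hM0, hM⟩ := bdd_of_mem hF
    refine ⟨fun _ => M, integrable_const _, ae_of_all _ fun s => ⟨⟨cut_diff hF.1 s, ?_⟩,
      fun k => ?_⟩⟩
    · refine lt_of_le_of_lt ?_ hF.2
      unfold hNorm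
      rw [if_pos rfl, if_pos rfl]
      refine iSup₂_le fun z hz => ?_
      exact le_iSup₂ (f := fun (z : Fin d' → ℂ) (_ : z ∈ polydisc d') => ‖F z‖ₑ)
        (fun i => z 0 * e (s i)) (slice_mem s hz)
    · have h1 := integral_mono (cont_int (hcl s k)) (integrable_const M) (fun t =>
        max_le (hM _ (slice_mem s (pt_mem (rad_pos k).le (rad_lt k) t))) hM0)
      simpa using h1
  · obtain ⟨B, hB0, hB⟩ := moment_bound hq hqt hF
    have hqr : 0 < q.toReal := ENNReal.toReal_pos hq hqt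
    set Q' := q.toReal with hQ'
    have hFc : ∀ r : ℝ, 0 ≤ r → r < 1 → Continuous (fun t : Torus d' => ‖F (pt r t)‖ ^ Q') := by
      intro r hr hr1
      have hc : Continuous (fun t : Torus d' => F (pt r t)) := by
        refine hF.1.continuousOn.comp_continuous (f := fun t : Torus d' => pt r t) ?_ ?_
        · exact pt_cont.comp (by fun_prop : Continuous fun t : Torus d' => ((r : ℝ), t))
        · exact fun t => pt_mem hr hr1 t
      exact hc.norm.rpow_const fun t => Or.inr hqr.le
    set m : ℕ → Torus d' → ℝ := fun k s => ∫ l, ‖F (pt (rad k) (sh (s, l)))‖ ^ Q' with hm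
    have hm1 : ∀ k, Integrable (m k) := fun k =>
      (int_slices (cont_int (hFc _ (rad_pos k).le (rad_lt k)))).1
    have hm2 : ∀ k, ∫ s, m k s ≤ B := by
      intro k
      have h1 := (int_slices (cont_int (hFc _ (rad_pos k).le (rad_lt k)))).2
      simp only [hm]
      rw [h1]
      exact (hB k).2
    have hm0 : ∀ k s, 0 ≤ m k s := fun k s =>
      integral_nonneg fun l => Real.rpow_nonneg (norm_nonneg _) _
    have hcutm : ∀ (s : Torus d') (r : ℝ), 0 ≤ r → r < 1 →
        ∫ t : Torus 1, ‖cut F s (pt r t)‖ ^ Q' = ∫ l, ‖F (pt r (sh (s, l)))‖ ^ Q' := by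
      intro s r hr hr1
      simp_rw [cut_pt]
      exact int_cut (hFc r hr hr1) s
    have hmono : ∀ s, Monotone (fun k => m k s) := by
      intro s a b hab
      simp only [hm]
      rw [← hcutm s _ (rad_pos a).le (rad_lt a), ← hcutm s _ (rad_pos b).le (rad_lt b)]
      exact moment_mono (cut_diff hF.1 s) (hn0 s) Q' (rad_pos a).le (rad_mono hab) (rad_lt b)
    set g : ℕ → Torus d' → ℝ≥0∞ := fun k s => ENNReal.ofReal (m k s) with hg
    have hgm : ∀ k, AEMeasurable (g k) volume := fun k =>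
      (hm1 k).aestronglyMeasurable.aemeasurable.ennreal_ofReal
    have hgint : ∫⁻ s, ⨆ k, g k s ≤ ENNReal.ofReal B := by
      rw [lintegral_iSup' hgm (ae_of_all _ fun s a b hab => ENNReal.ofReal_le_ofReal
        (hmono s hab))]
      refine iSup_le fun k => ?_
      simp only [hg]
      rw [← ofReal_integral_eq_lintegral_ofReal (hm1 k) (ae_of_all _ (hm0 k))]
      exact ENNReal.ofReal_le_ofReal (hm2 k)
    have hgfin : ∫⁻ s, ⨆ k, g k s ≠ ∞ := (lt_of_le_of_lt hgint ENNReal.ofReal_lt_top).ne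
    have hgmS : AEMeasurable (fun s => ⨆ k, g k s) volume := AEMeasurable.iSup hgm
    refine ⟨fun s => (⨆ k, g k s).toReal / Q',
      (integrable_toReal_of_lintegral_ne_top hgmS hgfin).div_const _, ?_⟩
    filter_upwards [ae_lt_top' hgmS hgfin] with s hs
    have hmle : ∀ k, m k s ≤ (⨆ k, g k s).toReal := by
      intro k
      have h1 : g k s ≤ ⨆ k, g k s := le_iSup (fun k => g k s) k
      have h2 := ENNReal.toReal_mono hs.ne h1
      simp only [hg] at h2
      rwa [ENNReal.toReal_ofReal (hm0 k s)] at h2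
    have hM0 : 0 ≤ (⨆ k, g k s).toReal := ENNReal.toReal_nonneg
    refine ⟨⟨cut_diff hF.1 s, ?_⟩, fun k => ?_⟩
    · have hle : hNorm q (cut F s) ≤ ENNReal.ofReal ((⨆ k, g k s).toReal ^ Q'⁻¹) := by
        unfold hNorm
        rw [if_neg hqt]
        refine iSup₂_le fun r hr => ?_
        obtain ⟨k, hk⟩ : ∃ k, r < rad k := (rad_lim.eventually (lt_mem_nhds hr.2)).exists
        have hcc : Continuous (fun t : Torus 1 => cut F s (pt r t)) := by
          refine (cut_diff hF.1 s).continuousOn.comp_continuous (f := fun t : Torus 1 => pt r t)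
            ?_ ?_
          · exact pt_cont.comp (by fun_prop : Continuous fun t : Torus 1 => ((r : ℝ), t))
          · exact fun t => pt_mem hr.1.le hr.2 t
        have hmem : MemLp (fun t : Torus 1 => cut F s (pt r t)) q volume :=
          hcc.memLp_of_hasCompactSupport (HasCompactSupport.of_compactSpace _)
        rw [hmem.eLpNorm_eq_integral_rpow_norm hq hqt]
        refine ENNReal.ofReal_le_ofReal ?_
        have h1 : ∫ t : Torus 1, ‖cut F s (pt r t)‖ ^ Q' ≤ (⨆ k, g k s).toReal := by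
          refine le_trans ?_ (hmle k)
          simp only [hm]
          rw [← hcutm s _ (rad_pos k).le (rad_lt k)]
          exact moment_mono (cut_diff hF.1 s) (hn0 s) Q' hr.1.le hk.le (rad_lt k)
        have h2 : 0 ≤ ∫ t : Torus 1, ‖cut F s (pt r t)‖ ^ Q' :=
          integral_nonneg fun _ => Real.rpow_nonneg (norm_nonneg _) _
        exact Real.rpow_le_rpow h2 h1 (by positivity)
      exact lt_of_le_of_lt hle ENNReal.ofReal_lt_top
    · have hci : Integrable (fun t : Torus 1 => ‖cut F s (pt (rad k) t)‖ ^ Q') := by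
        simp_rw [cut_pt]
        refine cont_int ?_
        exact (hFc _ (rad_pos k).le (rad_lt k)).comp ((sh_cont s).comp (continuous_apply 0))
      calc ∫ t : Torus 1, max (Real.log ‖cut F s (pt (rad k) t)‖) 0
          ≤ ∫ t : Torus 1, ‖cut F s (pt (rad k) t)‖ ^ Q' / Q' := by
            refine integral_mono (cont_int (hcl s k)) (hci.div_const _) fun t => ?_
            have h3 : 0 ≤ ‖cut F s (pt (rad k) t)‖ ^ Q' := Real.rpow_nonneg (norm_nonneg _) _
            exact max_le (Real.log_le_rpow_div (norm_nonneg _) hqr) (by positivity)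
        _ = (m k s) / Q' := by
            rw [integral_div, hcutm s _ (rad_pos k).le (rad_lt k)]
        _ ≤ _ := by
            gcongr
            exact hmle k

-- almost every slice of an outer function is outer
theorem cut_outer {q : ℝ≥0∞} (hq : q ≠ 0) {g : (Fin d' → ℂ) → ℂ} (hg : IsOuter q g) :
    ∃ M : Torus d' → ℝ, Integrable M ∧ ∀ᵐ s, IsOuter q (cut g s) ∧
      ∀ k, ∫ t : Torus 1, |Real.log ‖cut g s (pt (rad k) t)‖| ≤ M s := by
  obtain ⟨w, hw, hwl⟩ := outer_dil hg
  have hU := nharm_log hg.1.1 hg.2.1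
  have hrad := radial_of_limit hU hw rad (fun k => (rad_pos k).le) rad_lt rad_lim hwl
  have hrep := slice_rep hU hw rad (fun k => (rad_pos k).le) rad_lt rad_lim hwl
  obtain ⟨M0, -, hmem⟩ := cut_memH hq hg.1 hg.2.1
  have hrad2 : ∀ᵐ s : Torus d', ∀ᵐ l : UnitAddCircle,
      Tendsto (fun r : ℝ => Real.log ‖g (pt r (sh (s, l)))‖) (𝓝[<] 1) (𝓝 (w (sh (s, l)))) :=
    Measure.ae_ae_of_ae_prod (sh_mp.quasiMeasurePreserving.ae hrad)
  refine ⟨fun s => ∫ l, |w (sh (s, l))|, (int_slices hw.abs).1, ?_⟩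
  filter_upwards [hrep, hmem, hrad2] with s ⟨hs1, hs2⟩ hs3 hs4
  have hwi := int_eval_gen _ hs1
  have hn0 : ∀ z ∈ polydisc 1, cut g s z ≠ 0 := fun z hz => hg.2.1 _ (slice_mem s hz)
  have hrepr : ∀ z ∈ polydisc 1, Real.log ‖cut g s z‖ =
      ∫ t : Torus 1, P z t * w (sh (s, t 0)) := by
    intro z hz
    have h1 := hs2 (z 0) (hz 0)
    have h2 := int_eval_gen _ (int_pk_mul (hz 0) hs1)
    simp_rw [P_one']
    rw [h2.2, ← h1]
    rfl
  refine ⟨⟨hs3.1, hn0, fun t => Real.exp (w (sh (s, t 0))), ?_, ?_, ?_⟩, ?_⟩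
  · have h1 : ∀ᵐ t : Torus 1, Tendsto (fun r : ℝ => Real.log ‖g (pt r (sh (s, t 0)))‖) (𝓝[<] 1)
        (𝓝 (w (sh (s, t 0)))) := (eval_mp (d := 1) 0).quasiMeasurePreserving.ae hs4
    filter_upwards [h1] with t ht
    refine ⟨?_, Real.exp_pos _⟩
    have h2 := (Real.continuous_exp.tendsto _).comp ht
    refine h2.congr' ?_
    have hmm : Ioo (0 : ℝ) 1 ∈ 𝓝[<] (1 : ℝ) := Ioo_mem_nhdsLT (by norm_num)
    filter_upwards [hmm] with r hr
    rw [cut_pt]
    exact Real.exp_log (norm_pos_iff.2 (hg.2.1 _ (pt_mem hr.1.le hr.2 _)))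
  · simp_rw [Real.log_exp]
    exact hwi.1
  · intro z hz
    simp_rw [Real.log_exp]
    exact hrepr z hz
  · intro k
    have h1 : ∫ t : Torus 1, |Real.log ‖cut g s (pt (rad k) t)‖| =
        ∫ t : Torus 1, |∫ t', P (pt (rad k) t) t' * w (sh (s, t' 0))| := by
      congr 1
      ext t
      rw [hrepr _ (pt_mem (rad_pos k).le (rad_lt k) t)]
    rw [h1]
    refine (poisson_l1 hwi.1 (rad_pos k).le (rad_lt k)).trans (le_of_eq ?_)
    exact (int_eval_gen _ hs1.abs).2

end Pool.Agent.Helper43.Outer
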