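import Pool.Agent.Helper43.Outer.Radial

open MeasureTheory Set Filter Topology Complex Metric ENNReal

namespace Pool.Agent.Helper43.Outer

theorem Symbol.phi_i {d d' : ℕ} {p q : ℝ≥0∞} {ψ : (Fin d' → ℂ) → ℂ}
    {φ : (Fin d' → ℂ) → (Fin d → ℂ)} (h : Symbol p q ψ φ) (i : Fin d) :
    DifferentiableOn ℂ (fun z => φ z i) (polydisc d') :=
  fun z hz => (differentiableWithinAt_pi.1 (h.phi z hz)) i

theorem Symbol.comp {d d' : ℕ} {p q : ℝ≥0∞} {ψ : (Fin d' → ℂ) → ℂ}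
    {φ : (Fin d' → ℂ) → (Fin d → ℂ)} (h : Symbol p q ψ φ) {f : (Fin d → ℂ) → ℂ}
    (hf : DifferentiableOn ℂ f (polydisc d)) :
    DifferentiableOn ℂ (fun z => f (φ z)) (polydisc d') :=
  hf.comp h.phi h.maps

theorem Symbol.memH {d d' : ℕ} {p q : ℝ≥0∞} {ψ : (Fin d' → ℂ) → ℂ}
    {φ : (Fin d' → ℂ) → (Fin d → ℂ)} (h : Symbol p q ψ φ) {f : (Fin d → ℂ) → ℂ}
    (hf : MemH p f) : MemH q (wco ψ φ f) := by
  refine ⟨h.psi.mul (h.comp hf.1), ?_⟩
  obtain ⟨C, hC, hb⟩ := h.bounded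
  exact lt_of_le_of_lt (hb f hf) (ENNReal.mul_lt_top hC hf.2)

-- bounded functions belong to every H^p
theorem hNorm_le {d : ℕ} (p : ℝ≥0∞) {f : (Fin d → ℂ) → ℂ} {M : ℝ}
    (hb : ∀ z ∈ polydisc d, ‖f z‖ ≤ M) : hNorm p f ≤ ENNReal.ofReal M := by
  unfold hNorm
  split_ifs
  · refine iSup₂_le fun z hz => ?_
    rw [← ofReal_norm]
    exact ENNReal.ofReal_le_ofReal (hb z hz)
  · refine iSup₂_le fun r hr => ?_
    have := eLpNorm_le_of_ae_bound (p := p) (μ := (volume : Measure (Torus d)))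
      (f := fun t : Torus d => f (pt r t)) (C := M)
      (ae_of_all _ fun t => hb _ (pt_mem hr.1.le hr.2 t))
    simpa using this

theorem one_outer {d : ℕ} (p : ℝ≥0∞) : IsOuter p (fun _ : Fin d → ℂ => (1 : ℂ)) := by
  refine ⟨⟨differentiableOn_const _, ?_⟩, fun _ _ => one_ne_zero, fun _ => 1, ?_, ?_, ?_⟩
  · exact lt_of_le_of_lt (hNorm_le p (M := 1) (fun z _ => by simp)) ENNReal.ofReal_lt_top
  · exact ae_of_all _ fun t => ⟨by simp, one_pos⟩
  · simp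
  · intro z _
    simp

-- passage from L1 convergence of the dilates of log |f o phi| to outerness
theorem outer_of_limit {d d' : ℕ} {p q : ℝ≥0∞} {ψ : (Fin d' → ℂ) → ℂ}
    {φ : (Fin d' → ℂ) → (Fin d → ℂ)} (h : Symbol p q ψ φ) (hψ : IsOuter q ψ)
    {f : (Fin d → ℂ) → ℂ} (hf : IsOuter p f) {v : Torus d' → ℝ} (hv : Integrable v)
    (ρ : ℕ → ℝ) (h0 : ∀ k, 0 ≤ ρ k) (h1 : ∀ k, ρ k < 1) (hρ : Tendsto ρ atTop (𝓝 1))
    (hlim : Tendsto (fun k => ∫ t, |Real.log ‖f (φ (pt (ρ k) t))‖ - v t|) atTop (𝓝 0)) :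
    IsOuter q (wco ψ φ f) := by
  have hne : ∀ z ∈ polydisc d', f (φ z) ≠ 0 := fun z hz => hf.2.1 _ (h.maps hz)
  have hU : NHarm (fun z => Real.log ‖f (φ z)‖) := nharm_log (h.comp hf.1.1) hne
  obtain ⟨b, hb1, hb2, hb3⟩ := hψ.2.2
  have hrad := radial_of_limit hU hv ρ h0 h1 hρ hlim
  refine ⟨h.memH hf.1, fun z hz => mul_ne_zero (hψ.2.1 z hz) (hne z hz),
    fun t => b t * Real.exp (v t), ?_, ?_, ?_⟩
  · filter_upwards [hb1, hrad] with t ⟨ht1, ht2⟩ ht3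
    refine ⟨?_, by positivity⟩
    have h2 : Tendsto (fun r : ℝ => ‖f (φ (pt r t))‖) (𝓝[<] 1) (𝓝 (Real.exp (v t))) := by
      have := (Real.continuous_exp.tendsto _).comp ht3
      refine this.congr' ?_
      have hmem : Ioo (0 : ℝ) 1 ∈ 𝓝[<] (1 : ℝ) := Ioo_mem_nhdsLT (by norm_num)
      filter_upwards [hmem] with r hr
      exact Real.exp_log (norm_pos_iff.2 (hne _ (pt_mem hr.1.le hr.2 t)))
    refine (ht1.mul h2).congr fun r => ?_
    rw [wco, norm_mul]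
  · have : (fun t => Real.log (b t * Real.exp (v t))) =ᵐ[volume]
        fun t => Real.log (b t) + v t := by
      filter_upwards [hb1] with t ht
      rw [Real.log_mul ht.2.ne' (Real.exp_ne_zero _), Real.log_exp]
    exact (hb2.add hv).congr this.symm
  · intro z hz
    have e1 : ∫ t, P z t * Real.log (b t * Real.exp (v t)) =
        ∫ t, (P z t * Real.log (b t) + P z t * v t) := by
      apply integral_congr_ae
      filter_upwards [hb1] with t ht
      rw [Real.log_mul ht.2.ne' (Real.exp_ne_zero _), Real.log_exp]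
      ring
    rw [e1, integral_add (int_P_mul hz hb2) (int_P_mul hz hv), ← hb3 z hz,
      ← poisson_of_limit hU hv ρ h0 h1 hρ hlim hz, wco, norm_mul,
      Real.log_mul (norm_ne_zero_iff.2 (hψ.2.1 z hz)) (norm_ne_zero_iff.2 (hne z hz))]

end Pool.Agent.Helper43.Outer
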