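import Pool.Agent.Helper43.Outer.Circle

open MeasureTheory Set Filter Topology Complex Metric ENNReal

namespace Pool.Agent.Helper43.Outer

theorem chord (t : UnitAddCircle) : 4 * ‖t‖ ≤ ‖e t - 1‖ ∧ ‖e t - 1‖ ≤ 2 * Real.pi * ‖t‖ := by
  obtain ⟨x, rfl⟩ := QuotientAddGroup.mk_surjective t
  obtain ⟨y, hy, hxy⟩ : ∃ y : ℝ, |y| ≤ 1 / 2 ∧ ((y : ℝ) : UnitAddCircle) = (x : UnitAddCircle) := by
    refine ⟨x - round x, abs_sub_round x, ?_⟩
    rw [AddCircle.coe_sub]
    have : ((round x : ℝ) : UnitAddCircle) = 0 := by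
      rw [AddCircle.coe_eq_zero_iff]
      exact ⟨round x, by simp⟩
    rw [this, sub_zero]
  have h1 : ‖(x : UnitAddCircle)‖ = |y| := by
    rw [← hxy]
    exact (AddCircle.norm_coe_eq_abs_iff 1 one_ne_zero).2 (by simpa using hy)
  have h2 : ‖e (x : UnitAddCircle) - 1‖ = 2 * |Real.sin (Real.pi * y)| := by
    rw [← hxy, e_mk]
    have := Complex.norm_exp_I_mul_ofReal_sub_one (2 * Real.pi * y)
    rw [show (2 * Real.pi * y * I : ℂ) = I * ((2 * Real.pi * y : ℝ) : ℂ) by push_cast; ring, this]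
    rw [Real.norm_eq_abs, abs_mul, abs_two]
    congr 3
    ring
  have e1 : ‖((x : ℝ) : UnitAddCircle)‖ = |y| := h1
  change 4 * ‖((x : ℝ) : UnitAddCircle)‖ ≤ ‖e (x : UnitAddCircle) - 1‖ ∧
    ‖e (x : UnitAddCircle) - 1‖ ≤ 2 * Real.pi * ‖((x : ℝ) : UnitAddCircle)‖
  rw [e1, h2]
  have hpi := Real.pi_pos
  have h3 : |Real.pi * y| = Real.pi * |y| := by rw [abs_mul, abs_of_pos hpi]
  constructor
  · have := Real.mul_abs_le_abs_sin (x := Real.pi * y) (by rw [h3]; nlinarith)
    rw [h3] at this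
    have h4 : 2 / Real.pi * (Real.pi * |y|) = 2 * |y| := by field_simp
    linarith
  · have : |Real.sin (Real.pi * y)| ≤ |Real.pi * y| := Real.abs_sin_le_abs
    rw [h3] at this
    linarith

theorem chord' (s x : UnitAddCircle) :
    4 * dist s x ≤ ‖e s - e x‖ ∧ ‖e s - e x‖ ≤ 2 * Real.pi * dist s x := by
  have h : ‖e s - e x‖ = ‖e (s - x) - 1‖ := by
    have h1 : e s = e (s - x) * e x := by rw [← e_add, sub_add_cancel]
    have h2 : e s - e x = (e (s - x) - 1) * e x := by rw [h1]; ring
    rw [h2, norm_mul, norm_e, mul_one]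
  rw [h, dist_eq_norm]
  exact chord _

theorem dist_sq (s x : UnitAddCircle) (r : ℝ) :
    ‖e s - r * e x‖ ^ 2 = (1 - r) ^ 2 + r * ‖e s - e x‖ ^ 2 := by
  have h1 := norm_e s
  have h2 := norm_e x
  have h1' : (e s).re ^ 2 + (e s).im ^ 2 = 1 := by
    have := Complex.sq_norm (e s)
    rw [h1, Complex.normSq_apply] at this
    linarith
  have h2' : (e x).re ^ 2 + (e x).im ^ 2 = 1 := by
    have := Complex.sq_norm (e x)
    rw [h2, Complex.normSq_apply] at this
    linarith
  rw [Complex.sq_norm, Complex.sq_norm, Complex.normSq_apply, Complex.normSq_apply]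
  simp only [sub_re, sub_im, mul_re, mul_im, ofReal_re, ofReal_im]
  linear_combination (1 - r) * h1' + (r ^ 2 - r) * h2'

-- superlevel sets of the kernel are comparable with balls
theorem level (x : UnitAddCircle) {r c : ℝ} (hr : 0 < r) (hr1 : r < 1) (hc : 0 < c) :
    ∃ a : ℝ, a ^ 2 ≤ (1 - r ^ 2) / c / r ∧ 0 ≤ a ∧
      {s | c < pk (r * e x) s} ⊆ closedBall x (a / 4) ∧
      volume (closedBall x (a / 4)) ≤ 2 * volume {s | c < pk (r * e x) s} ∨
      {s | c < pk (r * e x) s} = ∅ := by
  have hset : {s | c < pk (r * e x) s} =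
      {s | ‖e s - e x‖ ^ 2 < ((1 - r ^ 2) / c - (1 - r) ^ 2) / r} := by
    ext s
    have hn : ‖(r : ℂ) * e x‖ = r := by
      rw [norm_mul, norm_e, mul_one, Complex.norm_real, Real.norm_eq_abs, abs_of_pos hr]
    have hp := sub_pos_of_lt (z := r * e x) (by rw [hn]; exact hr1) s
    simp only [mem_ofPred_eq, pk, hn]
    have h5 : ((1 - r ^ 2) / c - (1 - r) ^ 2) / r =
        (1 - r ^ 2 - c * (1 - r) ^ 2) / (c * r) := by
      field_simp
    rw [lt_div_iff₀ (by positivity), dist_sq, h5, lt_div_iff₀ (by positivity)]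
    constructor <;> intro h <;> linarith
  by_cases hA : 0 < ((1 - r ^ 2) / c - (1 - r) ^ 2) / r
  · set A := ((1 - r ^ 2) / c - (1 - r) ^ 2) / r with hAdef
    refine ⟨√A, Or.inl ⟨?_, Real.sqrt_nonneg _, ?_, ?_⟩⟩
    · rw [Real.sq_sqrt hA.le, hAdef]
      gcongr
      nlinarith [sq_nonneg (1 - r)]
    · rw [hset]
      intro s hs
      have hs' : ‖e s - e x‖ < √A := by
        rw [Real.lt_sqrt (norm_nonneg _)]
        exact hs
      have := (chord' s x).1
      rw [mem_closedBall]
      linarith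
    · have hsub : closedBall x (√A / 8) ⊆ {s | c < pk (r * e x) s} := by
        rw [hset]
        intro s hs
        rw [mem_closedBall] at hs
        have h1 := (chord' s x).2
        have hpos : 0 < √A := Real.sqrt_pos.2 hA
        have h2 : ‖e s - e x‖ < √A := by
          have hpi := Real.pi_lt_d2
          nlinarith [dist_nonneg (x := s) (y := x), Real.pi_pos]
        change ‖e s - e x‖ ^ 2 < A
        rw [← Real.lt_sqrt (norm_nonneg _)]
        exact h2
      refine le_trans ?_ (mul_le_mul_right (measure_mono hsub) 2)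
      rw [AddCircle.volume_closedBall, AddCircle.volume_closedBall,
        show (2 : ℝ≥0∞) = ENNReal.ofReal 2 by simp, ← ENNReal.ofReal_mul (by norm_num)]
      apply ENNReal.ofReal_le_ofReal
      rw [mul_min_of_nonneg _ _ (by norm_num)]
      apply min_le_min <;> nlinarith [Real.sqrt_nonneg A]
  · refine ⟨0, Or.inr ?_⟩
    rw [hset]
    ext s
    simp only [mem_ofPred_eq, mem_empty_iff_false, iff_false, not_lt]
    have := sq_nonneg ‖e s - e x‖
    push Not at hA
    linarith

theorem norm_re {r : ℝ} (hr : 0 ≤ r) (x : UnitAddCircle) : ‖(r : ℂ) * e x‖ = r := by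
  rw [norm_mul, norm_e, mul_one, Complex.norm_real, Real.norm_eq_abs, abs_of_nonneg hr]

-- kernel estimate with an arbitrary weight of small averages
theorem kernel_bound (w : UnitAddCircle → ℝ) (hw : Integrable w)
    (x : UnitAddCircle) {r δ ε : ℝ} (hr : 1 / 2 ≤ r) (hr1 : r < 1) (hδ : 0 < δ)
    (hb : ∀ a, 0 ≤ a → a ≤ δ → ∫⁻ s in closedBall x a, ENNReal.ofReal (w s) ≤
      ENNReal.ofReal ε * volume (closedBall x a)) :
    ∫⁻ s, ENNReal.ofReal (pk (r * e x) s) * ENNReal.ofReal (w s) ≤
      ENNReal.ofReal ((1 - r) / (4 * δ ^ 2)) * (∫⁻ s, ENNReal.ofReal (w s)) +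
        ENNReal.ofReal (2 * ε) := by
  have hr0 : 0 < r := by linarith
  have hn := norm_re hr0.le x
  have hz : ‖(r : ℂ) * e x‖ < 1 := by rw [hn]; exact hr1
  set μ := (volume : Measure UnitAddCircle).withDensity (fun s => ENNReal.ofReal (w s)) with hμ
  have hwm : AEMeasurable (fun s => ENNReal.ofReal (w s)) :=
    hw.aestronglyMeasurable.aemeasurable.ennreal_ofReal
  have hkm : Measurable (pk (r * e x)) := (pk_cont hz).measurable
  have hk0 : ∀ s, 0 ≤ pk (r * e x) s := fun s => (pk_pos hz s).le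
  have h1 : ∫⁻ s, ENNReal.ofReal (pk (r * e x) s) * ENNReal.ofReal (w s) =
      ∫⁻ s, ENNReal.ofReal (pk (r * e x) s) ∂μ := by
    rw [hμ, lintegral_withDensity_eq_lintegral_mul₀ hwm hkm.ennreal_ofReal.aemeasurable]
    apply lintegral_congr
    intro s
    simp [mul_comm]
  have h2 : ∫⁻ s, ENNReal.ofReal (pk (r * e x) s) = 1 := by
    rw [← ofReal_integral_eq_lintegral_ofReal, integral_pk hz, ENNReal.ofReal_one]
    · exact (pk_cont hz).integrable_of_hasCompactSupport (HasCompactSupport.of_compactSpace _)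
    · exact ae_of_all _ hk0
  rw [h1, lintegral_eq_lintegral_meas_lt μ (ae_of_all _ hk0) hkm.aemeasurable]
  set c0 := (1 - r) / (4 * δ ^ 2) with hc0
  have hc0p : 0 < c0 := div_pos (by linarith) (by positivity)
  have hsplit : Ioi (0 : ℝ) = Ioo 0 c0 ∪ Ici c0 := by
    ext y
    simp only [mem_Ioi, mem_union, mem_Ioo, mem_Ici]
    constructor
    · intro h
      rcases lt_or_ge y c0 with h' | h'
      · exact Or.inl ⟨h, h'⟩
      · exact Or.inr h'
    · rintro (h | h)
      · exact h.1
      · linarith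
  have h3 : ∫⁻ c in Ioi (0 : ℝ), μ {s | c < pk (r * e x) s} ≤
      (∫⁻ _c in Ioo (0 : ℝ) c0, μ univ) + ∫⁻ c in Ici c0, ENNReal.ofReal (2 * ε) *
        volume {s | c < pk (r * e x) s} := by
    rw [hsplit]
    refine (lintegral_union_le _ _ _).trans ?_
    refine add_le_add (lintegral_mono fun c => measure_mono (μ := μ) (subset_univ _)) ?_
    refine setLIntegral_mono' measurableSet_Ici ?_
    intro c hc
    rw [mem_Ici] at hc
    have hcp : 0 < c := by linarith
    obtain ⟨a, ha⟩ := level x hr0 hr1 hcp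
    rcases ha with ⟨ha1, ha0, ha2, ha3⟩ | ha
    · have ha4 : a / 4 ≤ δ := by
        have h5 : a ^ 2 ≤ (4 * δ) ^ 2 := by
          refine ha1.trans ?_
          rw [div_div, div_le_iff₀ (by positivity)]
          have h6 : (1 - r) ≤ c * (4 * δ ^ 2) := by
            rw [hc0, div_le_iff₀ (by positivity)] at hc
            exact hc
          nlinarith [mul_le_mul h6 hr (by norm_num) (by positivity)]
        have := abs_le_of_sq_le_sq' h5 (by positivity)
        linarith [this.2]
      calc μ {s | c < pk (r * e x) s} ≤ μ (closedBall x (a / 4)) := measure_mono ha2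
        _ = ∫⁻ s in closedBall x (a / 4), ENNReal.ofReal (w s) :=
          withDensity_apply _ measurableSet_closedBall
        _ ≤ ENNReal.ofReal ε * volume (closedBall x (a / 4)) := hb _ (by positivity) ha4
        _ ≤ ENNReal.ofReal ε * (2 * volume {s | c < pk (r * e x) s}) := by gcongr
        _ = ENNReal.ofReal (2 * ε) * volume {s | c < pk (r * e x) s} := by
          rw [ENNReal.ofReal_mul (by norm_num), ENNReal.ofReal_ofNat]
          ring
    · rw [ha]
      simp
  refine h3.trans ?_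
  refine add_le_add ?_ ?_
  · rw [setLIntegral_const, Real.volume_Ioo, sub_zero, mul_comm]
    refine mul_le_mul' le_rfl ?_
    rw [hμ, withDensity_apply _ MeasurableSet.univ, Measure.restrict_univ]
  · calc ∫⁻ c in Ici c0, ENNReal.ofReal (2 * ε) * volume {s | c < pk (r * e x) s}
        ≤ ∫⁻ c in Ioi 0, ENNReal.ofReal (2 * ε) * volume {s | c < pk (r * e x) s} := by
          apply lintegral_mono_set
          intro y hy
          exact lt_of_lt_of_le hc0p hy
      _ = ENNReal.ofReal (2 * ε) * ∫⁻ c in Ioi 0, volume {s | c < pk (r * e x) s} := by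
          rw [lintegral_const_mul']
          exact ENNReal.ofReal_ne_top
      _ = ENNReal.ofReal (2 * ε) := by
          rw [← lintegral_eq_lintegral_meas_lt volume (ae_of_all _ hk0) hkm.aemeasurable, h2,
            mul_one]

theorem int_pk {z : ℂ} (hz : ‖z‖ < 1) : Integrable (pk z) :=
  (pk_cont hz).integrable_of_hasCompactSupport (HasCompactSupport.of_compactSpace _)

theorem int_pk_mul {z : ℂ} (hz : ‖z‖ < 1) {v : UnitAddCircle → ℝ} (hv : Integrable v) :
    Integrable (fun s => pk z s * v s) :=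
  hv.bdd_mul (pk_cont hz).aestronglyMeasurable
    (ae_of_all _ fun s => by
      rw [Real.norm_eq_abs, abs_of_pos (pk_pos hz s)]
      exact pk_le hz s)

-- Fatou's theorem: radial limits of Poisson integrals
theorem fatou (v : UnitAddCircle → ℝ) (hv : Integrable v) :
    ∀ᵐ x, Tendsto (fun r : ℝ => ∫ s, pk (r * e x) s * v s) (𝓝[<] 1) (𝓝 (v x)) := by
  filter_upwards [IsUnifLocDoublingMeasure.ae_tendsto_average_norm_sub (μ := volume)
    hv.locallyIntegrable 1] with x hx
  have hlim := hx (ι := ℝ) (l := 𝓝[>] 0) (fun _ => x) (fun δ => δ) tendsto_id (by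
    filter_upwards [self_mem_nhdsWithin] with δ hδ
    have : (0 : ℝ) < δ := hδ
    exact mem_closedBall_self (by linarith))
  set w : UnitAddCircle → ℝ := fun s => ‖v s - v x‖ with hw
  have hwi : Integrable w := (hv.sub (integrable_const _)).norm
  have hw0 : ∀ s, 0 ≤ w s := fun s => norm_nonneg _
  rw [Metric.tendsto_nhds]
  intro ε hε
  -- choose the radius
  obtain ⟨δ, hδ, hb⟩ : ∃ δ : ℝ, 0 < δ ∧ ∀ a, 0 < a → a ≤ δ →
      ∫ s in closedBall x a, w s ≤ ε / 8 * (volume.real (closedBall x a)) := by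
    have h1 : ∀ᶠ a in 𝓝[>] (0 : ℝ), ⨍ s in closedBall x a, w s < ε / 8 :=
      hlim.eventually (gt_mem_nhds (by positivity : (0 : ℝ) < ε / 8)) 
    rw [eventually_nhdsWithin_iff, Metric.eventually_nhds_iff] at h1
    obtain ⟨δ, hδ, h2⟩ := h1
    refine ⟨δ / 2, by positivity, ?_⟩
    intro a ha had
    have h3 := h2 (y := a) (by rw [Real.dist_eq, sub_zero, abs_of_pos ha]; linarith) ha
    have hvol : 0 < volume.real (closedBall x a) := by
      rw [Measure.real, ENNReal.toReal_pos_iff]
      refine ⟨?_, measure_lt_top _ _⟩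
      rw [AddCircle.volume_closedBall, ENNReal.ofReal_pos]
      exact lt_min (by norm_num) (by linarith)
    rw [average_eq, measureReal_restrict_apply MeasurableSet.univ, univ_inter, smul_eq_mul,
      inv_mul_lt_iff₀ hvol] at h3
    linarith
  have hb' : ∀ a, 0 ≤ a → a ≤ δ → ∫⁻ s in closedBall x a, ENNReal.ofReal (w s) ≤
      ENNReal.ofReal (ε / 8) * volume (closedBall x a) := by
    intro a ha had
    rcases ha.eq_or_lt with h0 | h0
    · have : volume (closedBall x a) = 0 := by
        rw [AddCircle.volume_closedBall, ← h0]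
        simp
      rw [Measure.restrict_eq_zero.2 this]
      simp
    · rw [← ofReal_integral_eq_lintegral_ofReal hwi.integrableOn (ae_of_all _ hw0)]
      have := hb a h0 had
      calc ENNReal.ofReal (∫ s in closedBall x a, w s)
          ≤ ENNReal.ofReal (ε / 8 * volume.real (closedBall x a)) := ENNReal.ofReal_le_ofReal this
        _ = ENNReal.ofReal (ε / 8) * volume (closedBall x a) := by
          rw [ENNReal.ofReal_mul (by positivity), ofReal_measureReal]
  set M := ∫ s, w s with hM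
  have hM0 : 0 ≤ M := integral_nonneg hw0
  have hev : ∀ᶠ r : ℝ in 𝓝[<] 1, 1 / 2 ≤ r ∧ r < 1 ∧ (1 - r) / (4 * δ ^ 2) * M < ε / 4 := by
    have h1 : Tendsto (fun r : ℝ => (1 - r) / (4 * δ ^ 2) * M) (𝓝[<] 1) (𝓝 0) := by
      have : Tendsto (fun r : ℝ => (1 - r) / (4 * δ ^ 2) * M) (𝓝 1)
          (𝓝 ((1 - 1) / (4 * δ ^ 2) * M)) := by
        apply Continuous.tendsto
        fun_prop
      simp only [sub_self, zero_div, zero_mul] at this
      exact this.mono_left nhdsWithin_le_nhds
    have h2 := h1.eventually (gt_mem_nhds (by positivity : (0 : ℝ) < ε / 4))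
    have h3 : ∀ᶠ r : ℝ in 𝓝[<] 1, 1 / 2 ≤ r :=
      nhdsWithin_le_nhds (Ici_mem_nhds (by norm_num))
    filter_upwards [h2, h3, self_mem_nhdsWithin] with r a b c
    exact ⟨b, c, a⟩
  filter_upwards [hev] with r ⟨hr, hr1, hr2⟩
  have hn := norm_re (by linarith : 0 ≤ r) x
  have hz : ‖(r : ℂ) * e x‖ < 1 := by rw [hn]; exact hr1
  have h4 : (∫ s, pk (r * e x) s * v s) - v x = ∫ s, pk (r * e x) s * (v s - v x) := by
    simp_rw [mul_sub]
    rw [integral_sub (int_pk_mul hz hv) ((int_pk hz).mul_const _), integral_mul_const,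
      integral_pk hz, one_mul]
  rw [Real.dist_eq, h4]
  have h5 : |∫ s, pk (r * e x) s * (v s - v x)| ≤ ∫ s, pk (r * e x) s * w s := by
    refine (abs_integral_le_integral_abs).trans (le_of_eq ?_)
    apply integral_congr_ae
    filter_upwards with s
    rw [abs_mul, abs_of_pos (pk_pos hz s)]
    rfl
  refine lt_of_le_of_lt h5 ?_
  have h6 := kernel_bound w hwi x hr hr1 hδ hb'
  have h7 : ∫⁻ s, ENNReal.ofReal (pk (r * e x) s) * ENNReal.ofReal (w s) =
      ENNReal.ofReal (∫ s, pk (r * e x) s * w s) := by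
    rw [ofReal_integral_eq_lintegral_ofReal (int_pk_mul hz hwi)
      (ae_of_all _ fun s => mul_nonneg (pk_pos hz s).le (hw0 s))]
    apply lintegral_congr
    intro s
    rw [ENNReal.ofReal_mul (pk_pos hz s).le]
  rw [h7, ← ofReal_integral_eq_lintegral_ofReal hwi (ae_of_all _ hw0),
    ← ENNReal.ofReal_mul (div_nonneg (by linarith) (by positivity)),
    ← ENNReal.ofReal_add (mul_nonneg (div_nonneg (by linarith) (by positivity)) hM0)
      (by positivity)] at h6
  have h8 := (ENNReal.ofReal_le_ofReal_iff (add_nonneg (mul_nonneg (div_nonneg (by linarith)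
    (by positivity)) hM0) (by positivity))).1 h6
  linarith

end Pool.Agent.Helper43.Outer
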