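import Pool.Agent.Helper43.Outer.Test

open MeasureTheory Set Filter Topology Complex Metric ENNReal InnerProductSpace

namespace Pool.Agent.Helper43.Outer

variable {d d' : ℕ}

theorem slice_formula {U : (Fin d' → ℂ) → ℝ} (hU : NHarm U) {R s : ℝ} (hR : 0 ≤ R) (hR1 : R < 1)
    (hs : 0 ≤ s) (hs1 : s < 1) (t : Torus d') :
    ∫ l, pk s l * U (pt R (fun i => t i + l)) = U (pt (R * s) t) := by
  rw [slice_poisson hU hR hR1 t (z := s) (by
    rw [Complex.norm_real, Real.norm_eq_abs, abs_of_nonneg hs]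
    exact hs1)]
  congr 1
  ext i
  simp only [pt]
  push_cast
  ring

theorem pk_real {s : ℝ} (hs : 0 ≤ s) (l : UnitAddCircle) :
    pk s l = (1 - s ^ 2) / ((1 - s) ^ 2 + s * ‖e l - 1‖ ^ 2) := by
  have h := dist_sq l 0 s
  rw [e_zero, mul_one] at h
  rw [pk, h, Complex.norm_real, Real.norm_eq_abs, abs_of_nonneg hs]

theorem pk_mono {a b : ℝ} (ha : 0 ≤ a) (hab : a ≤ b) (hb : b < 1) (l : UnitAddCircle) :
    (1 - b) / (1 + b) * pk b l ≤ (1 - a) / (1 + a) * pk a l := by
  rw [pk_real ha, pk_real (ha.trans hab)]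
  set c := ‖e l - 1‖ ^ 2 with hc
  have hc0 : 0 ≤ c := sq_nonneg _
  have e1 : ∀ s : ℝ, 0 ≤ s → s < 1 → (1 - s) / (1 + s) * ((1 - s ^ 2) / ((1 - s) ^ 2 + s * c)) =
      (1 - s) ^ 2 / ((1 - s) ^ 2 + s * c) := by
    intro s hs hs1
    have h1 : 0 < 1 - s := by linarith
    have h2 : (1 - s) ^ 2 + s * c ≠ 0 := by positivity
    have h3 : 1 + s ≠ 0 := by positivity
    field_simp
    ring
  have hb0 := ha.trans hab
  rw [e1 a ha (by linarith), e1 b hb0 hb, div_le_div_iff₀ (by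
    have : 0 < 1 - b := by linarith
    positivity) (by
    have : 0 < 1 - a := by linarith
    positivity)]
  have h3 : (1 - b) ^ 2 * a ≤ (1 - a) ^ 2 * b := by
    have h4 : (1 - b) ^ 2 ≤ (1 - a) ^ 2 := by
      have : 0 ≤ 1 - b := by linarith
      gcongr
    calc (1 - b) ^ 2 * a ≤ (1 - a) ^ 2 * a := by gcongr
      _ ≤ (1 - a) ^ 2 * b := by gcongr
  nlinarith

theorem pk_low {s : ℝ} (hs : 0 ≤ s) (hs1 : s < 1) (l : UnitAddCircle) :
    (1 - s) / (1 + s) ≤ pk s l := by
  have hn : ‖(s : ℂ)‖ = s := by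
    rw [Complex.norm_real, Real.norm_eq_abs, abs_of_nonneg hs]
  have h0 := sub_pos_of_lt (z := (s : ℂ)) (by rw [hn]; exact hs1) l
  have h1 : ‖e l - s‖ ≤ 1 + s := by
    have := norm_sub_le (e l) (s : ℂ)
    rwa [norm_e, hn] at this
  rw [pk, hn, div_le_div_iff₀ (by positivity) (by positivity)]
  have h2 : ‖e l - s‖ ^ 2 ≤ (1 + s) ^ 2 := by gcongr
  have h3 : 0 ≤ 1 - s := by linarith
  nlinarith [mul_le_mul_of_nonneg_left h2 h3]

theorem radial_cont {U : (Fin d' → ℂ) → ℝ} (hU : ContinuousOn U (polydisc d')) {s : ℝ}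
    (hs : 0 ≤ s) (hs1 : s < 1) (t : Torus d') :
    Tendsto (fun k => U (pt (rad k * s) t)) atTop (𝓝 (U (pt s t))) := by
  have h1 : Tendsto (fun k => pt (rad k * s) t) atTop (𝓝 (pt s t)) := by
    have h2 : Tendsto (fun k => rad k * s) atTop (𝓝 s) := by
      simpa using rad_lim.mul_const s
    exact ((pt_cont.comp (by fun_prop : Continuous fun r : ℝ => (r, t))).tendsto s).comp h2
  exact ((hU.continuousAt ((isOpen_polydisc d').mem_nhds (pt_mem hs hs1 t))).tendsto).comp h1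

theorem slice_int {U : (Fin d' → ℂ) → ℝ} (hU : ContinuousOn U (polydisc d')) {R : ℝ}
    (hR : 0 ≤ R) (hR1 : R < 1) (t : Torus d') :
    Continuous (fun l : UnitAddCircle => U (pt R (fun i => t i + l))) :=
  (dil_cont hU hR hR1).comp (continuous_pi fun _ => continuous_const.add continuous_id)

theorem harnack_mono {U : (Fin d' → ℂ) → ℝ} (hU : NHarm U) (hpos : ∀ z ∈ polydisc d', 0 ≤ U z)
    (t : Torus d') {a b : ℝ} (ha : 0 ≤ a) (hab : a ≤ b) (hb : b < 1) :
    (1 - b) / (1 + b) * U (pt b t) ≤ (1 - a) / (1 + a) * U (pt a t) := by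
  have hb0 := ha.trans hab
  have ha1 := lt_of_le_of_lt hab hb
  refine le_of_tendsto_of_tendsto' ((radial_cont hU.1 hb0 hb t).const_mul _)
    ((radial_cont hU.1 ha ha1 t).const_mul _) fun k => ?_
  rw [← slice_formula hU (rad_pos k).le (rad_lt k) hb0 hb t,
    ← slice_formula hU (rad_pos k).le (rad_lt k) ha ha1 t, ← integral_const_mul,
    ← integral_const_mul]
  have hc := slice_int hU.1 (rad_pos k).le (rad_lt k) t
  have hn : ∀ s : ℝ, 0 ≤ s → s < 1 → ‖(s : ℂ)‖ < 1 := by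
    intro s hs hs1
    rw [Complex.norm_real, Real.norm_eq_abs, abs_of_nonneg hs]
    exact hs1
  have hi : ∀ s : ℝ, 0 ≤ s → s < 1 → ∀ c : ℝ, Integrable (fun l : UnitAddCircle =>
      c * (pk s l * U (pt (rad k) (fun i => t i + l)))) := by
    intro s hs hs1 c
    exact (continuous_const.mul ((pk_cont (hn s hs hs1)).mul hc)).integrable_of_hasCompactSupport
      (HasCompactSupport.of_compactSpace _)
  refine integral_mono (hi b hb0 hb _) (hi a ha ha1 _) fun l => ?_
  simp only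
  rw [← mul_assoc, ← mul_assoc]
  exact mul_le_mul_of_nonneg_right (pk_mono ha hab hb l)
    (hpos _ (pt_mem (rad_pos k).le (rad_lt k) _))

theorem harnack_low {U : (Fin d' → ℂ) → ℝ} (hU : NHarm U) (hpos : ∀ z ∈ polydisc d', 0 ≤ U z)
    (t : Torus d') {s : ℝ} (hs : 0 ≤ s) (hs1 : s < 1) :
    (1 - s) / (1 + s) * U 0 ≤ U (pt s t) := by
  refine ge_of_tendsto' (radial_cont hU.1 hs hs1 t) fun k => ?_
  rw [← slice_formula hU (rad_pos k).le (rad_lt k) hs hs1 t]
  have hc := slice_int hU.1 (rad_pos k).le (rad_lt k) t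
  have h0 : U 0 = ∫ l : UnitAddCircle, U (pt (rad k) (fun i => t i + l)) := by
    have h1 := slice_formula hU (rad_pos k).le (rad_lt k) le_rfl one_pos t
    have h2 : ∀ l, pk ((0 : ℝ) : ℂ) l = 1 := by
      intro l
      simp [pk, norm_e]
    simp_rw [h2, one_mul] at h1
    rw [h1]
    congr 1
    ext i
    simp [pt]
  have hn : ‖(s : ℂ)‖ < 1 := by
    rw [Complex.norm_real, Real.norm_eq_abs, abs_of_nonneg hs]
    exact hs1
  rw [h0, ← integral_const_mul]
  refine integral_mono ?_ ?_ fun l => ?_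
  · exact (continuous_const.mul hc).integrable_of_hasCompactSupport
      (HasCompactSupport.of_compactSpace _)
  · exact ((pk_cont hn).mul hc).integrable_of_hasCompactSupport
      (HasCompactSupport.of_compactSpace _)
  · simp only
    exact mul_le_mul_of_nonneg_right (pk_low hs hs1 l)
      (hpos _ (pt_mem (rad_pos k).le (rad_lt k) _))

theorem exists_unit (z : ℂ) : ∃ w : ℂ, ‖w‖ = 1 ∧ w * z = ‖z‖ := by
  by_cases h : z = 0
  · exact ⟨1, norm_one, by simp [h]⟩
  · have hz : (‖z‖ : ℂ) ≠ 0 := by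
      rw [Complex.ofReal_ne_zero]
      exact norm_ne_zero_iff.2 h
    refine ⟨(starRingEnd ℂ) z / ‖z‖, ?_, ?_⟩
    · rw [norm_div, RCLike.norm_conj, Complex.norm_real, norm_norm, div_self]
      exact norm_ne_zero_iff.2 h
    · rw [div_mul_eq_mul_div, Complex.conj_mul', sq, mul_div_assoc, div_self hz, mul_one]

-- boundary distance of a self map
theorem one_sub_low {g : (Fin d' → ℂ) → ℂ} (hg : DifferentiableOn ℂ g (polydisc d'))
    (hb : ∀ z ∈ polydisc d', ‖g z‖ < 1) (t : Torus d') {s : ℝ} (hs : 0 ≤ s) (hs1 : s < 1) :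
    (1 - ‖g 0‖) / 2 * (1 - s) ≤ 1 - ‖g (pt s t)‖ := by
  obtain ⟨w, hw1, hw2⟩ := exists_unit (g (pt s t))
  have hN : NHarm (fun z => (1 - w * g z).re) :=
    nharm_re (F := fun z => 1 - w * g z) ((hg.const_mul w).const_sub 1)
  have hle : ∀ z, (w * g z).re ≤ ‖g z‖ := by
    intro z
    refine (re_le_norm _).trans ?_
    rw [norm_mul, hw1, one_mul]
  have h1 := harnack_low hN (fun z hz => by
    have := hle z
    have := hb z hz
    simp only [sub_re, one_re]
    linarith) t hs hs1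
  simp only [sub_re, one_re, hw2, ofReal_re] at h1
  have h0 : ‖g 0‖ < 1 := hb 0 (fun i => by simp)
  have h2 := hle 0
  have h3 : (1 - s) / 2 ≤ (1 - s) / (1 + s) := by
    have : 0 ≤ 1 - s := by linarith
    gcongr
    linarith
  have h4 : 0 ≤ 1 - ‖g 0‖ := by linarith
  have h5 : 0 ≤ (1 - s) / (1 + s) := div_nonneg (by linarith) (by linarith)
  calc (1 - ‖g 0‖) / 2 * (1 - s) = (1 - s) / 2 * (1 - ‖g 0‖) := by ring
    _ ≤ (1 - s) / (1 + s) * (1 - ‖g 0‖) := by gcongr
    _ ≤ (1 - s) / (1 + s) * (1 - (w * g 0).re) := by gcongr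
    _ ≤ _ := h1

-- Poisson integrals of integrable functions on the circle have no atoms
theorem atom_zero {w : Torus 1 → ℝ} (hw : Integrable w) (t : Torus 1) :
    Tendsto (fun r : ℝ => (1 - r) * ∫ s, P (pt r t) s * w s) (𝓝[<] 1) (𝓝 0) := by
  have hmem : Ioo (0 : ℝ) 1 ∈ 𝓝[<] (1 : ℝ) := Ioo_mem_nhdsLT (by norm_num)
  have hP : ∀ (r : ℝ) (s : Torus 1), P (pt r t) s = pk (r * e (t 0)) (s 0) := by
    intro r s
    rw [P_eq]
    simp [pt]
  have h1 : Tendsto (fun r : ℝ => ∫ s, (1 - r) * (P (pt r t) s * w s)) (𝓝[<] 1)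
      (𝓝 (∫ _s : Torus 1, (0 : ℝ))) := by
    refine tendsto_integral_filter_of_dominated_convergence (fun s => 2 * |w s|) ?_ ?_
      (hw.abs.const_mul 2) ?_
    · filter_upwards [hmem] with r hr
      exact ((int_P_mul (pt_mem hr.1.le hr.2 t) hw).const_mul _).aestronglyMeasurable
    · filter_upwards [hmem] with r hr
      refine ae_of_all _ fun s => ?_
      have hn : ‖(r : ℂ) * e (t 0)‖ = r := norm_re hr.1.le _
      have hlt : ‖(r : ℂ) * e (t 0)‖ < 1 := by rw [hn]; exact hr.2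
      rw [hP, Real.norm_eq_abs, ← mul_assoc, abs_mul]
      gcongr
      rw [abs_of_nonneg (mul_nonneg (by linarith [hr.2]) (pk_pos hlt _).le)]
      have h2 := pk_le hlt (s 0)
      rw [hn] at h2
      have h3 : 0 < 1 - r := by linarith [hr.2]
      calc (1 - r) * pk (r * e (t 0)) (s 0) ≤ (1 - r) * ((1 + r) / (1 - r)) := by gcongr
        _ = 1 + r := by field_simp
        _ ≤ 2 := by linarith [hr.2]
    · filter_upwards [ae_ne 0 (e (t 0))] with s hs
      have h2 : Tendsto (fun r : ℝ => (1 - r) * (P (pt r t) s * w s)) (𝓝 1)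
          (𝓝 ((1 - 1) * (pk ((1 : ℝ) * e (t 0)) (s 0) * w s))) := by
        refine Tendsto.mul (by
          apply Continuous.tendsto
          fun_prop) (Tendsto.mul_const _ ?_)
        simp_rw [hP]
        have h3 : ContinuousAt (fun z : ℂ => pk z (s 0)) ((1 : ℝ) * e (t 0)) := by
          unfold pk
          have h4 : 0 < ‖e (s 0) - (1 : ℝ) * e (t 0)‖ := by
            rw [norm_pos_iff, sub_ne_zero]
            simpa using hs
          refine ContinuousAt.div (by fun_prop) (by fun_prop) (by positivity)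
        have h5 : Tendsto (fun r : ℝ => (r : ℂ) * e (t 0)) (𝓝 1) (𝓝 ((1 : ℝ) * e (t 0))) := by
          apply Continuous.tendsto
          exact Complex.continuous_ofReal.mul continuous_const
        exact h3.tendsto.comp h5
      simp only [sub_self, zero_mul] at h2
      exact h2.mono_left nhdsWithin_le_nhds
  simp only [integral_zero] at h1
  refine h1.congr fun r => ?_
  rw [integral_const_mul]

theorem necessity {p q : ℝ≥0∞} {ψ : (Fin 1 → ℂ) → ℂ} {φ : (Fin 1 → ℂ) → (Fin d → ℂ)}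
    (h : Symbol p q ψ φ) (hT : PreservesOuter p q ψ φ) (t : Torus 1) {i j : Fin d}
    (hij : i ≠ j) : ¬ (HasAD φ i t ∧ HasAD φ j t) := by
  rintro ⟨⟨a, ha, Ca, hCa⟩, ⟨b, hb, Cb, hCb⟩⟩
  have h1 := hT _ (ft_outer p hij ha hb)
  have h2 := psi_outer hT
  obtain ⟨b1, -, hb1i, hb1⟩ := h1.2.2
  obtain ⟨b2, -, hb2i, hb2⟩ := h2.2.2
  set w : Torus 1 → ℝ := fun s => Real.log (b2 s) - Real.log (b1 s) with hw
  have hwi : Integrable w := hb2i.sub hb1i
  have hrep : ∀ z ∈ polydisc 1, pk (Gt i j a b (φ z)) 0 = ∫ s, P z s * w s := by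
    intro z hz
    have e1 := hb1 z hz
    have e2 := hb2 z hz
    have n1 : ‖ψ z‖ ≠ 0 := norm_ne_zero_iff.2 (h2.2.1 z hz)
    have n2 : ‖ft i j a b (φ z)‖ ≠ 0 := norm_ne_zero_iff.2 (Complex.exp_ne_zero _)
    rw [wco, norm_mul, Real.log_mul n1 n2, ft_log] at e1
    have e3 : ∫ s, P z s * w s =
        (∫ s, P z s * Real.log (b2 s)) - ∫ s, P z s * Real.log (b1 s) := by
      rw [← integral_sub (int_P_mul hz hb2i) (int_P_mul hz hb1i)]
      congr 1
      ext s
      ring
    rw [e3, ← e1, ← e2]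
    ring
  have hlim := atom_zero hwi t
  set c := (1 - ‖φ 0 i‖) / 2 with hc
  have hc0 : 0 < c := by
    have := h.maps (show (0 : Fin 1 → ℂ) ∈ polydisc 1 from fun i => by simp) i
    rw [hc]
    linarith
  set C := |Ca| + |Cb| + 1 with hC
  have hC0 : 0 < C := by positivity
  have hlow : ∀ r ∈ Ioo (0 : ℝ) 1, c / C ^ 2 ≤ (1 - r) * ∫ s, P (pt r t) s * w s := by
    intro r hr
    have hr1 : 0 < 1 - r := by linarith [hr.2]
    have hmem := pt_mem hr.1.le hr.2 t
    rw [← hrep _ hmem]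
    have hm := h.maps hmem
    have hG := Gt_lt (i := i) (j := j) ha hb hm
    have h3 := one_sub_low (h.phi_i i) (fun z hz => h.maps hz i) t hr.1.le hr.2
    rw [← hc] at h3
    set A := (starRingEnd ℂ) a * φ (pt r t) i with hA
    set B := (1 + (starRingEnd ℂ) b * φ (pt r t) j) / 2 with hB
    have hGe : Gt i j a b (φ (pt r t)) = A * B := rfl
    have hAn : ‖A‖ = ‖φ (pt r t) i‖ := by rw [hA, norm_mul, RCLike.norm_conj, ha, one_mul]
    have hBn : ‖B‖ ≤ 1 := by
      refine half_le ?_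
      rw [norm_mul, RCLike.norm_conj, hb, one_mul]
      exact (hm j).le
    have hconj : ∀ {x : ℂ}, ‖x‖ = 1 → (starRingEnd ℂ) x * x = 1 := by
      intro x hx
      rw [Complex.conj_mul', hx]
      simp
    have h1A : ‖1 - A‖ ≤ |Ca| * (1 - r) := by
      have e1 : 1 - A = (starRingEnd ℂ) a * (a - φ (pt r t) i) := by
        rw [mul_sub, hconj ha]
      rw [e1, norm_mul, RCLike.norm_conj, ha, one_mul, norm_sub_rev]
      exact (hCa r hr).trans (by gcongr; exact le_abs_self _)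
    have h1B : ‖1 - B‖ ≤ |Cb| * (1 - r) := by
      have e1 : 1 - B = ((starRingEnd ℂ) b * (b - φ (pt r t) j)) / 2 := by
        rw [mul_sub, hconj hb, hB]
        ring
      rw [e1, norm_div, norm_mul, RCLike.norm_conj, hb, one_mul, norm_sub_rev]
      simp only [Complex.norm_ofNat]
      have := (hCb r hr).trans
        (mul_le_mul_of_nonneg_right (le_abs_self Cb) hr1.le)
      have h0 := norm_nonneg (φ (pt r t) j - b)
      linarith
    have hG1 : ‖1 - A * B‖ ≤ C * (1 - r) := by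
      have e1 : 1 - A * B = (1 - A) + A * (1 - B) := by ring
      rw [e1]
      refine (norm_add_le _ _).trans ?_
      rw [norm_mul, hAn]
      have : ‖φ (pt r t) i‖ * ‖1 - B‖ ≤ 1 * ‖1 - B‖ := by
        gcongr
        exact (hm i).le
      rw [hC]
      nlinarith
    have hG2 : c * (1 - r) ≤ 1 - ‖A * B‖ ^ 2 := by
      have e1 : ‖A * B‖ ≤ ‖φ (pt r t) i‖ := by
        rw [norm_mul, hAn]
        calc _ ≤ ‖φ (pt r t) i‖ * 1 := by gcongr
          _ = _ := mul_one _
      have e2 : ‖A * B‖ ^ 2 ≤ ‖A * B‖ := by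
        have := (hm i)
        have h0 := norm_nonneg (A * B)
        nlinarith
      linarith
    have hpos := sub_pos_of_lt hG 0
    rw [hGe] at hpos ⊢
    rw [pk, e_zero] at *
    have h4 : ‖1 - A * B‖ ^ 2 ≤ (C * (1 - r)) ^ 2 := by gcongr
    rw [mul_div_assoc', div_le_div_iff₀ (by positivity) (by positivity)]
    calc c * ‖1 - A * B‖ ^ 2 ≤ c * (C * (1 - r)) ^ 2 := by gcongr
      _ = (1 - r) * (c * (1 - r)) * C ^ 2 := by ring
      _ ≤ (1 - r) * (1 - ‖A * B‖ ^ 2) * C ^ 2 := by gcongr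
  have hmem : Ioo (0 : ℝ) 1 ∈ 𝓝[<] (1 : ℝ) := Ioo_mem_nhdsLT (by norm_num)
  have := ge_of_tendsto hlim (by
    filter_upwards [hmem] with r hr
    exact hlow r hr)
  have : 0 < c / C ^ 2 := by positivity
  linarith

end Pool.Agent.Helper43.Outer
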