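import Pool.Agent.Helper43.Outer.Bounded
import Pool.Agent.Helper43.Outer.Defs

open MeasureTheory Set Filter Topology Complex Metric ENNReal InnerProductSpace

namespace Pool.Agent.Helper43.Outer

variable {d d' : ℕ}

theorem dilφ_cont {φ : (Fin d' → ℂ) → (Fin d → ℂ)} (hφ : DifferentiableOn ℂ φ (polydisc d'))
    {r : ℝ} (hr : 0 ≤ r) (hr1 : r < 1) : Continuous (fun t : Torus d' => φ (pt r t)) := by
  refine hφ.continuousOn.comp_continuous (f := fun t : Torus d' => pt r t) ?_ ?_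
  · exact pt_cont.comp (by fun_prop : Continuous fun t : Torus d' => (r, t))
  · exact fun t => pt_mem hr hr1 t

-- almost everywhere convergence of the dilates of the symbol
theorem symbol_radial {φ : (Fin d' → ℂ) → (Fin d → ℂ)} (hφ : DifferentiableOn ℂ φ (polydisc d'))
    (hm : MapsTo φ (polydisc d') (polydisc d)) (ρ : ℕ → ℝ) (h1 : ∀ k, ρ k < 1)
    (hρ : Tendsto ρ atTop (𝓝 1)) :
    ∃ g : Torus d' → Fin d → ℂ, ∀ᵐ s, ∀ i,
      Tendsto (fun k => φ (pt (ρ k) s) i) atTop (𝓝 (g s i)) := by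
  have h : ∀ i : Fin d, ∃ g : Torus d' → ℂ, ∀ᵐ t,
      Tendsto (fun r : ℝ => φ (pt r t) i) (𝓝[<] 1) (𝓝 (g t)) := by
    intro i
    refine hol_bdd_radial (F := fun z => φ z i) (M := 1)
      (fun z hz => (differentiableWithinAt_pi.1 (hφ z hz)) i) ?_
    intro z hz
    exact (hm hz i).le
  choose g hg using h
  refine ⟨fun s i => g i s, ?_⟩
  rw [ae_all_iff]
  intro i
  filter_upwards [hg i] with s hs
  refine hs.comp ?_
  exact tendsto_nhdsWithin_iff.2 ⟨hρ, Eventually.of_forall h1⟩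

-- local version of the averaging theorem
theorem limit_of_kernel {φ : (Fin d' → ℂ) → (Fin d → ℂ)}
    (hφ : DifferentiableOn ℂ φ (polydisc d')) (hm : MapsTo φ (polydisc d') (polydisc d))
    (J : Set (Torus d')) {C : ℝ} (hC : 0 ≤ C)
    (hK : ∀ r : ℝ, 0 ≤ r → r < 1 → ∀ w : Torus d,
      ∫ t in J, P (φ (pt r t)) w ≤ C)
    {f : (Fin d → ℂ) → ℝ} {h : Torus d → ℝ} (hh : Integrable h)
    (hf : ∀ z ∈ polydisc d, f z = ∫ t, P z t * h t)
    (ρ : ℕ → ℝ) (h0 : ∀ k, 0 ≤ ρ k) (h1 : ∀ k, ρ k < 1) (hρ : Tendsto ρ atTop (𝓝 1)) :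
    ∃ v : Torus d' → ℝ, IntegrableOn v J ∧
      Tendsto (fun k => ∫ t in J, |f (φ (pt (ρ k) t)) - v t|) atTop (𝓝 0) := by
  obtain ⟨g, hg⟩ := symbol_radial hφ hm ρ h1 hρ
  have hgood : ∀ k, Good (volume.restrict J) (fun s : Torus d' => φ (pt (ρ k) s)) C := by
    intro k
    have hc := dilφ_cont hφ (h0 k) (h1 k)
    refine ⟨hc.measurable, fun s => hm (pt_mem (h0 k) (h1 k) s), fun t => ?_⟩
    have hPc : Continuous (fun s : Torus d' => P (φ (pt (ρ k) s)) t) := by
      unfold P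
      refine continuous_finsetProd _ fun i _ => ?_
      have h2 : Continuous (fun s : Torus d' => φ (pt (ρ k) s) i) := (continuous_apply i).comp hc
      refine Continuous.div (continuous_const.sub (h2.norm.pow 2))
        ((continuous_const.sub h2).norm.pow 2) ?_
      intro s
      have := sub_pos_of_lt (hm (pt_mem (h0 k) (h1 k) s) i) (t i)
      positivity
    rw [← ofReal_integral_eq_lintegral_ofReal]
    · exact ENNReal.ofReal_le_ofReal (hK _ (h0 k) (h1 k) t)
    · exact (hPc.integrable_of_hasCompactSupport (HasCompactSupport.of_compactSpace _)).integrableOn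
    · exact ae_of_all _ fun s => (P_pos (hm (pt_mem (h0 k) (h1 k) s)) t).le
  obtain ⟨v, hv, hlim⟩ := A_limit (μ := volume.restrict J) (fun k s => φ (pt (ρ k) s)) g hC hgood
    (ae_restrict_of_ae hg) (u := fun t => (h t : ℂ)) hh.ofReal
  refine ⟨fun t => (v t).re, hv.re, ?_⟩
  have hA : ∀ k s, A (fun s : Torus d' => φ (pt (ρ k) s)) (fun t => (h t : ℂ)) s =
      ((f (φ (pt (ρ k) s)) : ℝ) : ℂ) := by
    intro k s
    rw [hf _ (hm (pt_mem (h0 k) (h1 k) s)), A, ← integral_complex_ofReal]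
    congr 1
    ext t
    push_cast
    ring
  refine squeeze_zero (fun k => integral_nonneg fun _ => abs_nonneg _) (fun k => ?_) hlim
  refine integral_mono_of_nonneg (ae_of_all _ fun _ => abs_nonneg _)
    (((hgood k).intA hh.ofReal).sub hv).norm (ae_of_all _ fun s => ?_)
  simp only
  rw [hA]
  have : f (φ (pt (ρ k) s)) - (v s).re = (((f (φ (pt (ρ k) s)) : ℝ) : ℂ) - v s).re := by simp
  rw [this]
  exact abs_re_le_norm _

-- the standard sequence of radii
noncomputable def rad (k : ℕ) : ℝ := 1 - 1 / ((k : ℝ) + 2)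

theorem rad_pos (k : ℕ) : 0 < rad k := by
  have : (1 : ℝ) / ((k : ℝ) + 2) < 1 := by
    rw [div_lt_one (by positivity)]
    have : (0 : ℝ) ≤ k := Nat.cast_nonneg k
    linarith
  simp only [rad]
  linarith

theorem rad_lt (k : ℕ) : rad k < 1 := by
  have : (0 : ℝ) < 1 / ((k : ℝ) + 2) := by positivity
  simp only [rad]
  linarith

theorem rad_lim : Tendsto rad atTop (𝓝 1) := by
  have h1 : Tendsto (fun k : ℕ => (1 : ℝ) / ((k : ℝ) + 2)) atTop (𝓝 0) := by
    have := (tendsto_one_div_add_atTop_nhds_zero_nat (𝕜 := ℝ)).comp (tendsto_add_atTop_nat 1)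
    refine this.congr fun k => ?_
    simp only [Function.comp_apply]
    push_cast
    ring
  have h2 := h1.const_sub 1
  rw [sub_zero] at h2
  exact h2

-- sufficiency of the kernel condition
theorem preserves_of_kernel {p q : ℝ≥0∞} {ψ : (Fin d' → ℂ) → ℂ}
    {φ : (Fin d' → ℂ) → (Fin d → ℂ)} (h : Symbol p q ψ φ)
    (hK : ∃ C : ℝ, ∀ r : ℝ, 0 ≤ r → r < 1 → ∀ w : Torus d,
      ∫ t : Torus d', P (φ (pt r t)) w ≤ C) :
    PreservesOuter p q ψ φ ↔ IsOuter q ψ := by
  constructor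
  · intro hT
    have := hT _ (one_outer p)
    have e : wco ψ φ (fun _ => (1 : ℂ)) = ψ := by
      funext z
      simp [wco]
    rwa [e] at this
  · intro hψ f hf
    obtain ⟨C, hC⟩ := hK
    obtain ⟨b, hb1, hb2, hb3⟩ := hf.2.2
    obtain ⟨v, hv, hlim⟩ := limit_of_kernel h.phi h.maps univ (C := max C 0) (le_max_right _ _)
      (fun r hr hr1 w => by
        rw [Measure.restrict_univ]
        exact (hC r hr hr1 w).trans (le_max_left _ _))
      (f := fun z => Real.log ‖f z‖) hb2 hb3 rad (fun k => (rad_pos k).le) rad_lt rad_lim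
    simp only [Measure.restrict_univ] at hlim
    rw [integrableOn_univ] at hv
    exact outer_of_limit h hψ hf hv rad (fun k => (rad_pos k).le) rad_lt rad_lim hlim

theorem psi_outer {p q : ℝ≥0∞} {ψ : (Fin d' → ℂ) → ℂ}
    {φ : (Fin d' → ℂ) → (Fin d → ℂ)} (hT : PreservesOuter p q ψ φ) : IsOuter q ψ := by
  have := hT _ (one_outer p)
  have e : wco ψ φ (fun _ => (1 : ℂ)) = ψ := by
    funext z
    simp [wco]
  rwa [e] at this

end Pool.Agent.Helper43.Outer
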