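import Pool.Agent.Helper43.Outer.Kernel

open MeasureTheory Set Filter Topology Complex Metric ENNReal InnerProductSpace

namespace Pool.Agent.Helper43.Outer

variable {d d' : ℕ}

-- separated coordinates give a bounded kernel
theorem kernel_of_separated {φ : (Fin d' → ℂ) → (Fin d → ℂ)}
    (hφ : DifferentiableOn ℂ φ (polydisc d')) (hm : MapsTo φ (polydisc d') (polydisc d))
    (hsep : ∃ δ : ℝ, 0 < δ ∧ ∀ z ∈ polydisc d', ∀ i j, i ≠ j →
      ‖φ z i‖ ≤ 1 - δ ∨ ‖φ z j‖ ≤ 1 - δ) :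
    ∃ C : ℝ, ∀ r : ℝ, 0 ≤ r → r < 1 → ∀ w : Torus d, ∫ t : Torus d', P (φ (pt r t)) w ≤ C := by
  obtain ⟨δ, hδ, hs⟩ := hsep
  obtain ⟨C, -, hC⟩ := kernel_J hφ hm univ MeasurableSet.univ (δ := min δ 1)
    (lt_min hδ one_pos) (min_le_right _ _) (fun t _ r hr hr1 i j hij => by
      have hmin := min_le_left δ 1
      rcases hs _ (pt_mem hr hr1 t) i j hij with h1 | h1
      · left; linarith
      · right; linarith)
  refine ⟨C, fun r hr hr1 w => ?_⟩
  have := hC r hr hr1 w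
  rwa [Measure.restrict_univ] at this

end Pool.Agent.Helper43.Outer
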