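import Pool.Agent.Helper43.Outer.Kcond

open MeasureTheory Set Filter Topology Complex Metric ENNReal InnerProductSpace

namespace Pool.Agent.Helper43.Outer

variable {d d' : ℕ}

theorem pk_re (z : ℂ) (t : UnitAddCircle) : pk z t = ((e t + z) / (e t - z)).re := by
  rw [pk_eq, poissonKernel_eq_re_herglotzRieszKernel]
  simp [herglotzRieszKernel_def]

theorem nharm_pk {F : (Fin d' → ℂ) → ℂ} (hF : DifferentiableOn ℂ F (polydisc d'))
    (hb : ∀ z ∈ polydisc d', ‖F z‖ < 1) (w : UnitAddCircle) :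
    NHarm (fun z => pk (F z) w) := by
  simp_rw [pk_re]
  refine nharm_re (F := fun z => (e w + F z) / (e w - F z)) ?_
  simp_rw [div_eq_mul_inv]
  refine (hF.const_add (e w)).mul (DifferentiableOn.fun_inv (hF.const_sub (e w)) ?_)
  intro z hz h
  have h1 := sub_pos_of_lt (hb z hz) w
  rw [h, norm_zero] at h1
  exact lt_irrefl _ h1

theorem P_zero (t : Torus d) : P 0 t = 1 := by
  rw [P_eq]
  refine Finset.prod_eq_one fun i _ => ?_
  simp [pk, norm_e]

theorem mean_value {U : (Fin d' → ℂ) → ℝ} (hU : NHarm U) {r : ℝ} (hr : 0 ≤ r) (hr1 : r < 1) :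
    ∫ t : Torus d', U (pt r t) = U 0 := by
  have h := nharm_poisson hU hr hr1 (z := 0) (fun i => by simp)
  simp_rw [P_zero, one_mul] at h
  rw [h]
  congr 1
  ext i
  simp

theorem pk_le' {z : ℂ} {δ : ℝ} (hδ : 0 < δ) (hz : ‖z‖ ≤ 1 - δ) (t : UnitAddCircle) :
    pk z t ≤ 2 / δ := by
  have h1 : ‖z‖ < 1 := by linarith
  refine (pk_le h1 t).trans ?_
  have := norm_nonneg z
  gcongr
  · linarith
  · linarith

theorem P_sep {z : Fin d → ℂ} (hz : z ∈ polydisc d) {δ : ℝ} (hδ : 0 < δ) (hδ1 : δ ≤ 1)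
    (hsep : ∀ i j, i ≠ j → ‖z i‖ ≤ 1 - δ ∨ ‖z j‖ ≤ 1 - δ) (w : Torus d) :
    P z w ≤ (2 / δ) ^ d * (1 + ∑ i, pk (z i) (w i)) := by
  have h2 : 1 ≤ 2 / δ := by
    rw [le_div_iff₀ hδ]
    linarith
  have hs : 0 ≤ ∑ i, pk (z i) (w i) := Finset.sum_nonneg fun i _ => (pk_pos (hz i) _).le
  by_cases hall : ∀ i, ‖z i‖ ≤ 1 - δ
  · have h3 : P z w ≤ (2 / δ) ^ d := by
      rw [P_eq]
      have := Finset.prod_le_prod (s := Finset.univ) (f := fun i => pk (z i) (w i))
        (g := fun _ => 2 / δ) (fun i _ => (pk_pos (hz i) _).le) (fun i _ => pk_le' hδ (hall i) _)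
      rwa [Finset.prod_const, Finset.card_univ, Fintype.card_fin] at this
    nlinarith [pow_pos (by positivity : 0 < 2 / δ) d]
  · push Not at hall
    obtain ⟨i, hi⟩ := hall
    have hoth : ∀ j ∈ Finset.univ.erase i, pk (z j) (w j) ≤ 2 / δ := by
      intro j hj
      have hji := Finset.ne_of_mem_erase hj
      rcases hsep i j (Ne.symm hji) with h | h
      · linarith
      · exact pk_le' hδ h _
    have h3 : ∏ j ∈ Finset.univ.erase i, pk (z j) (w j) ≤ (2 / δ) ^ d := by
      have h4 := Finset.prod_le_prod (s := Finset.univ.erase i) (f := fun i => pk (z i) (w i))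
        (g := fun _ => 2 / δ) (fun i _ => (pk_pos (hz i) _).le) hoth
      simp only [Finset.prod_const] at h4
      refine h4.trans (pow_le_pow_right₀ h2 ?_)
      simp
    have h5 : pk (z i) (w i) ≤ ∑ i, pk (z i) (w i) :=
      Finset.single_le_sum (f := fun i => pk (z i) (w i)) (fun i _ => (pk_pos (hz i) _).le)
        (Finset.mem_univ i)
    rw [P_eq, ← Finset.mul_prod_erase _ _ (Finset.mem_univ i)]
    have h6 := (pk_pos (hz i) (w i)).le
    have h7 : 0 < (2 / δ) ^ d := pow_pos (by positivity) d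
    calc pk (z i) (w i) * ∏ j ∈ Finset.univ.erase i, pk (z j) (w j)
        ≤ pk (z i) (w i) * (2 / δ) ^ d := by gcongr
      _ ≤ (∑ i, pk (z i) (w i)) * (2 / δ) ^ d := by gcongr
      _ ≤ (2 / δ) ^ d * (1 + ∑ i, pk (z i) (w i)) := by nlinarith

-- kernel estimate on a part of the torus where at most one coordinate is near the boundary
theorem kernel_J {φ : (Fin d' → ℂ) → (Fin d → ℂ)}
    (hφ : DifferentiableOn ℂ φ (polydisc d')) (hm : MapsTo φ (polydisc d') (polydisc d))
    (J : Set (Torus d')) (hJ : MeasurableSet J) {δ : ℝ} (hδ : 0 < δ) (hδ1 : δ ≤ 1)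
    (hsep : ∀ t ∈ J, ∀ r : ℝ, 0 ≤ r → r < 1 → ∀ i j, i ≠ j →
      ‖φ (pt r t) i‖ ≤ 1 - δ ∨ ‖φ (pt r t) j‖ ≤ 1 - δ) :
    ∃ C : ℝ, 0 ≤ C ∧ ∀ r : ℝ, 0 ≤ r → r < 1 → ∀ w : Torus d, ∫ t in J, P (φ (pt r t)) w ≤ C := by
  have hφi : ∀ i, DifferentiableOn ℂ (fun z => φ z i) (polydisc d') :=
    fun i z hz => (differentiableWithinAt_pi.1 (hφ z hz)) i
  have h0 : φ 0 ∈ polydisc d := hm (fun i => by simp)
  refine ⟨(2 / δ) ^ d * (1 + ∑ i, (1 + ‖φ 0 i‖) / (1 - ‖φ 0 i‖)), ?_, ?_⟩
  · refine mul_nonneg (by positivity) ?_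
    refine add_nonneg zero_le_one (Finset.sum_nonneg fun i _ => div_nonneg (by positivity) ?_)
    have := h0 i
    linarith
  · intro r hr hr1 w
    have hkc : ∀ i, Continuous (fun t : Torus d' => pk (φ (pt r t) i) (w i)) := fun i =>
      dil_cont (nharm_pk (hφi i) (fun z hz => hm hz i) (w i)).1 hr hr1
    have hsum : Integrable (fun t : Torus d' => (2 / δ) ^ d *
        (1 + ∑ i, pk (φ (pt r t) i) (w i))) := by
      refine cont_int ?_
      exact continuous_const.mul (continuous_const.add (continuous_finsetSum _ fun i _ => hkc i))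
    have hPc : Continuous (fun t : Torus d' => P (φ (pt r t)) w) := by
      simp_rw [P_eq]
      exact continuous_finsetProd _ fun i _ => hkc i
    calc ∫ t in J, P (φ (pt r t)) w
        ≤ ∫ t in J, (2 / δ) ^ d * (1 + ∑ i, pk (φ (pt r t) i) (w i)) := by
          refine setIntegral_mono_on (cont_int hPc).integrableOn hsum.integrableOn hJ ?_
          intro t ht
          exact P_sep (hm (pt_mem hr hr1 t)) hδ hδ1 (hsep t ht r hr hr1) w
      _ ≤ ∫ t, (2 / δ) ^ d * (1 + ∑ i, pk (φ (pt r t) i) (w i)) := by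
          refine setIntegral_le_integral hsum (ae_of_all _ fun t => ?_)
          refine mul_nonneg (by positivity) (add_nonneg zero_le_one
            (Finset.sum_nonneg fun i _ => (pk_pos (hm (pt_mem hr hr1 t) i) _).le))
      _ = (2 / δ) ^ d * (1 + ∑ i, pk (φ 0 i) (w i)) := by
          rw [integral_const_mul, integral_add (integrable_const _)
            (integrable_finsetSum _ fun i _ => cont_int (hkc i)),
            integral_finsetSum _ fun i _ => cont_int (hkc i)]
          congr 2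
          · simp
          · refine Finset.sum_congr rfl fun i _ => ?_
            exact mean_value (nharm_pk (hφi i) (fun z hz => hm hz i) (w i)) hr hr1
      _ ≤ _ := by
          gcongr with i _
          exact pk_le (h0 i) _

theorem preserves_of_separated {p q : ℝ≥0∞} {ψ : (Fin d' → ℂ) → ℂ}
    {φ : (Fin d' → ℂ) → (Fin d → ℂ)} (h : Symbol p q ψ φ)
    (hsep : ∃ δ : ℝ, 0 < δ ∧ ∀ z ∈ polydisc d', ∀ i j, i ≠ j →
      ‖φ z i‖ ≤ 1 - δ ∨ ‖φ z j‖ ≤ 1 - δ) :
    PreservesOuter p q ψ φ ↔ IsOuter q ψ := by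
  obtain ⟨δ, hδ, hs⟩ := hsep
  refine preserves_of_kernel h ?_
  obtain ⟨C, -, hC⟩ := kernel_J h.phi h.maps univ MeasurableSet.univ (δ := min δ 1)
    (lt_min hδ one_pos) (min_le_right _ _) (fun t _ r hr hr1 i j hij => by
      have hmin := min_le_left δ 1
      rcases hs _ (pt_mem hr hr1 t) i j hij with h1 | h1
      · left; linarith
      · right; linarith)
  refine ⟨C, fun r hr hr1 w => ?_⟩
  have := hC r hr hr1 w
  rwa [Measure.restrict_univ] at this

end Pool.Agent.Helper43.Outer
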