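import Pool.Agent.Helper43.Outer.Circle

open MeasureTheory Set Filter Topology Complex Metric ENNReal InnerProductSpace

namespace Pool.Agent.Helper43.Outer

instance instProbCircle : IsProbabilityMeasure (volume : Measure UnitAddCircle) :=
  ⟨UnitAddCircle.measure_univ⟩

instance instProbTorus (d : ℕ) : IsProbabilityMeasure (volume : Measure (Torus d)) := by
  rw [volume_pi]
  infer_instance

theorem P_eq {d : ℕ} (z : Fin d → ℂ) (t : Torus d) : P z t = ∏ i, pk (z i) (t i) := rfl

theorem P_pos {d : ℕ} {z : Fin d → ℂ} (hz : z ∈ polydisc d) (t : Torus d) : 0 < P z t :=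
  Finset.prod_pos fun i _ => pk_pos (hz i) (t i)

theorem P_cont {d : ℕ} {z : Fin d → ℂ} (hz : z ∈ polydisc d) : Continuous (P z) := by
  unfold P
  refine continuous_finsetProd _ fun i _ => ?_
  exact (pk_cont (hz i)).comp (continuous_apply i)

theorem P_int {d : ℕ} {z : Fin d → ℂ} (hz : z ∈ polydisc d) : Integrable (P z) :=
  (P_cont hz).integrable_of_hasCompactSupport (HasCompactSupport.of_compactSpace _)

theorem P_bdd {d : ℕ} {z : Fin d → ℂ} (hz : z ∈ polydisc d) : ∃ C, ∀ t, P z t ≤ C := by
  obtain ⟨C, hC⟩ := (isCompact_range (P_cont hz)).bddAbove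
  exact ⟨C, fun t => hC ⟨t, rfl⟩⟩

theorem int_P_mul {d : ℕ} {z : Fin d → ℂ} (hz : z ∈ polydisc d) {v : Torus d → ℝ}
    (hv : Integrable v) : Integrable (fun s => P z s * v s) := by
  obtain ⟨C, hC⟩ := P_bdd hz
  refine hv.bdd_mul (c := C) (P_cont hz).aestronglyMeasurable (ae_of_all _ fun s => ?_)
  rw [Real.norm_eq_abs, abs_of_pos (P_pos hz s)]
  exact hC s

-- Fourier modes
noncomputable def cm (n : ℤ) (z : ℂ) : ℂ :=
  if 0 ≤ n then z ^ n.toNat else (starRingEnd ℂ) z ^ (-n).toNat

theorem fourier_e (n : ℤ) (t : UnitAddCircle) :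
    fourier n t = if 0 ≤ n then e t ^ n.toNat else (starRingEnd ℂ) (e t) ^ (-n).toNat := by
  have key : ∀ m : ℕ, fourier (m : ℤ) t = e t ^ m := by
    intro m
    rw [fourier_apply, AddCircle.toCircle_zsmul]
    simp [e]
  split_ifs with h
  · obtain ⟨m, rfl⟩ := Int.eq_ofNat_of_zero_le h
    rw [key]
    simp
  · push Not at h
    obtain ⟨m, hm⟩ := Int.eq_ofNat_of_zero_le (a := -n) (by linarith)
    have h1 : n = -(m : ℤ) := by linarith
    rw [h1, fourier_neg, key]
    simp

theorem poisson_fourier (n : ℤ) {z : ℂ} (hz : ‖z‖ < 1) :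
    ∫ t, (pk z t : ℂ) * fourier n t = cm n z := by
  have key : ∀ m : ℕ, ∫ t, (pk z t : ℂ) * e t ^ m = z ^ m := by
    intro m
    exact poisson_hol (f := fun w => w ^ m) (by
      apply Differentiable.diffContOnCl
      fun_prop) hz
  simp_rw [fourier_e]
  unfold cm
  split_ifs with h
  · exact key _
  · rw [← map_pow, ← key, ← integral_conj]
    apply integral_congr_ae
    filter_upwards with t
    simp

theorem poisson_mFourier {d : ℕ} (n : Fin d → ℤ) {z : Fin d → ℂ} (hz : z ∈ polydisc d) :
    ∫ t, (P z t : ℂ) * UnitAddTorus.mFourier n t = ∏ i, cm (n i) (z i) := by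
  have h1 : ∀ t : Torus d, (P z t : ℂ) * UnitAddTorus.mFourier n t =
      ∏ i, ((pk (z i) (t i) : ℂ) * fourier (n i) (t i)) := by
    intro t
    rw [P_eq, Finset.prod_mul_distrib]
    simp [UnitAddTorus.mFourier]
  simp_rw [h1]
  rw [MeasureTheory.integral_fintype_prod_volume_eq_prod
    (fun i t => ((pk (z i) t : ℂ) * fourier (n i) t))]
  exact Finset.prod_congr rfl fun i _ => poisson_fourier (n i) (hz i)

theorem integral_cons {d : ℕ} {E : Type*} [NormedAddCommGroup E] [NormedSpace ℝ E]
    (F : Torus (d + 1) → E) :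
    ∫ t, F t = ∫ p : UnitAddCircle × Torus d, F (Fin.cons p.1 p.2) := by
  have h := (volume_preserving_piFinSuccAbove (fun _ : Fin (d + 1) => UnitAddCircle) 0).symm
  rw [← h.integral_comp']
  refine integral_congr_ae (ae_of_all _ fun p => ?_)
  change F (Fin.insertNth 0 p.1 p.2) = _
  rw [Fin.insertNth_zero']

theorem P_cons {d : ℕ} (a : ℂ) (z : Fin d → ℂ) (s : UnitAddCircle) (t : Torus d) :
    P (Fin.cons a z : Fin (d + 1) → ℂ) (Fin.cons s t : Torus (d + 1)) = pk a s * P z t := by
  rw [P_eq, Fin.prod_univ_succ]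
  rfl

-- the Poisson formula on the polydisc
theorem poisson_poly {d : ℕ} (G : (Fin d → ℂ) → ℝ)
    (hc : ContinuousOn G {z | ∀ i, ‖z i‖ ≤ 1})
    (hh : ∀ z : Fin d → ℂ, (∀ i, ‖z i‖ ≤ 1) → ∀ j,
      HarmonicOnNhd (fun w => G (Function.update z j w)) (closedBall 0 1))
    {z : Fin d → ℂ} (hz : z ∈ polydisc d) :
    ∫ t, P z t * G (fun i => e (t i)) = G z := by
  induction d with
  | zero =>
    have h1 : ∀ t : Torus 0, P z t * G (fun i => e (t i)) = G z := by
      intro t
      rw [P_eq]
      simp only [Finset.univ_eq_empty, Finset.prod_empty, one_mul]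
      congr 1
      exact Subsingleton.elim _ _
    simp_rw [h1]
    simp
  | succ d ih =>
    rw [integral_cons]
    have hz0 : ‖z 0‖ < 1 := hz 0
    have hz' : Fin.tail z ∈ polydisc d := fun i => hz i.succ
    have hzc : z = Fin.cons (z 0) (Fin.tail z) := (Fin.cons_self_tail z).symm
    have hcons : ∀ (s : UnitAddCircle) (t : Torus d),
        (fun i => e ((Fin.cons s t : Torus (d + 1)) i)) =
          (Fin.cons (e s) (fun i => e (t i)) : Fin (d + 1) → ℂ) := by
      intro s t
      ext i
      refine Fin.cases ?_ (fun j => ?_) i <;> simp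
    have hle : ∀ (a : ℂ) (w : Fin d → ℂ), ‖a‖ ≤ 1 → (∀ i, ‖w i‖ ≤ 1) →
        ∀ i, ‖(Fin.cons a w : Fin (d + 1) → ℂ) i‖ ≤ 1 := by
      intro a w ha hw i
      refine Fin.cases ?_ (fun j => ?_) i
      · simpa using ha
      · simpa using hw j
    have hint : Integrable (fun p : UnitAddCircle × Torus d =>
        P z (Fin.cons p.1 p.2) * G (fun i => e ((Fin.cons p.1 p.2 : Torus (d + 1)) i)))
        (volume.prod volume) := by
      have hcont : Continuous (fun p : UnitAddCircle × Torus d =>
          P z (Fin.cons p.1 p.2) * G (fun i => e ((Fin.cons p.1 p.2 : Torus (d + 1)) i))) := by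
        have hc1 : Continuous (fun p : UnitAddCircle × Torus d =>
            (Fin.cons p.1 p.2 : Torus (d + 1))) := by
          refine continuous_pi fun i => ?_
          refine Fin.cases ?_ (fun j => ?_) i
          · simpa using continuous_fst
          · exact (continuous_apply j).comp continuous_snd
        refine ((P_cont hz).comp hc1).mul ?_
        refine hc.comp_continuous (f := fun p : UnitAddCircle × Torus d =>
          (fun i => e ((Fin.cons p.1 p.2 : Torus (d + 1)) i))) ?_ ?_
        · refine continuous_pi fun i => ?_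
          exact continuous_e.comp ((continuous_apply i).comp hc1)
        · intro p i
          exact (norm_e _).le
      exact hcont.integrable_of_hasCompactSupport (HasCompactSupport.of_compactSpace _)
    rw [Measure.volume_eq_prod, integral_prod _ hint]
    have hinner : ∀ s : UnitAddCircle,
        ∫ t : Torus d, P z (Fin.cons s t) * G (fun i => e ((Fin.cons s t : Torus (d + 1)) i)) =
          pk (z 0) s * G (Fin.cons (e s) (Fin.tail z)) := by
      intro s
      have h1 : ∀ t : Torus d,
          P z (Fin.cons s t) * G (fun i => e ((Fin.cons s t : Torus (d + 1)) i)) =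
            pk (z 0) s * (P (Fin.tail z) t * G (Fin.cons (e s) (fun i => e (t i)))) := by
        intro t
        rw [hcons, ← mul_assoc, ← P_cons, ← hzc]
      simp_rw [h1]
      rw [integral_const_mul]
      congr 1
      refine ih (fun w => G (Fin.cons (e s) w)) ?_ ?_ hz'
      · refine hc.comp ?_ ?_
        · refine Continuous.continuousOn ?_
          refine continuous_pi fun i => ?_
          refine Fin.cases ?_ (fun j => ?_) i
          · simpa using continuous_const
          · simpa using continuous_apply j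
        · intro w hw
          exact hle _ _ (norm_e s).le hw
      · intro w hw j
        have := hh (Fin.cons (e s) w) (hle _ _ (norm_e s).le hw) j.succ
        simpa only [← Fin.cons_update] using this
    simp_rw [hinner]
    have h2 := poisson_harm (f := fun a => G (Fin.cons a (Fin.tail z))) (by
      have := hh (Fin.cons 0 (Fin.tail z)) (hle _ _ (by simp) fun i => (hz' i).le) 0
      simpa only [Fin.update_cons_zero] using this) hz0
    rw [h2, ← hzc]

end Pool.Agent.Helper43.Outer
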