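import Pool.Agent.Helper43.Outer.Fatou
import Pool.Agent.Helper43.Outer.Torus

open MeasureTheory Set Filter Topology Complex Metric ENNReal InnerProductSpace

namespace Pool.Agent.Helper43.Outer

theorem isOpen_polydisc (d : ℕ) : IsOpen (polydisc d) := by
  have : polydisc d = ⋂ i, {z : Fin d → ℂ | ‖z i‖ < 1} := by
    ext z
    simp [polydisc]
  rw [this]
  refine isOpen_iInter_of_finite fun i => ?_
  exact isOpen_lt (by fun_prop) continuous_const

theorem pt_mem {d : ℕ} {r : ℝ} (hr : 0 ≤ r) (hr1 : r < 1) (t : Torus d) : pt r t ∈ polydisc d := by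
  intro i
  rw [pt, norm_re hr]
  exact hr1

theorem pt_cont {d : ℕ} : Continuous (fun p : ℝ × Torus d => pt p.1 p.2) := by
  refine continuous_pi fun i => ?_
  refine (Complex.continuous_ofReal.comp continuous_fst).mul ?_
  exact continuous_e.comp ((continuous_apply i).comp continuous_snd)

-- pluriharmonic functions on the polydisc, as used here
def NHarm {d : ℕ} (U : (Fin d → ℂ) → ℝ) : Prop :=
  ContinuousOn U (polydisc d) ∧ ∀ a b : Fin d → ℂ, ∀ l : ℂ, a + l • b ∈ polydisc d →
    HarmonicAt (fun m : ℂ => U (a + m • b)) l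

theorem slice_analytic {d : ℕ} {F : (Fin d → ℂ) → ℂ} (hF : DifferentiableOn ℂ F (polydisc d))
    (a b : Fin d → ℂ) (l : ℂ) (hl : a + l • b ∈ polydisc d) :
    AnalyticAt ℂ (fun m : ℂ => F (a + m • b)) l := by
  have hc : Continuous (fun m : ℂ => a + m • b) := by fun_prop
  have ho : IsOpen ((fun m : ℂ => a + m • b) ⁻¹' polydisc d) := (isOpen_polydisc d).preimage hc
  refine DifferentiableOn.analyticAt (s := (fun m : ℂ => a + m • b) ⁻¹' polydisc d) ?_
    (ho.mem_nhds hl)
  refine hF.comp ?_ (fun m hm => hm)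
  fun_prop

theorem nharm_log {d : ℕ} {F : (Fin d → ℂ) → ℂ} (hF : DifferentiableOn ℂ F (polydisc d))
    (h0 : ∀ z ∈ polydisc d, F z ≠ 0) : NHarm (fun z => Real.log ‖F z‖) := by
  refine ⟨?_, ?_⟩
  · refine ContinuousOn.log hF.continuousOn.norm ?_
    intro z hz
    exact norm_ne_zero_iff.2 (h0 z hz)
  · intro a b l hl
    exact (slice_analytic hF a b l hl).harmonicAt_log_norm (h0 _ hl)

theorem nharm_re {d : ℕ} {F : (Fin d → ℂ) → ℂ} (hF : DifferentiableOn ℂ F (polydisc d)) :
    NHarm (fun z => (F z).re) := by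
  refine ⟨continuous_re.comp_continuousOn hF.continuousOn, ?_⟩
  intro a b l hl
  exact (slice_analytic hF a b l hl).harmonicAt_re

theorem smul_mem {d : ℕ} {z : Fin d → ℂ} (hz : ∀ i, ‖z i‖ ≤ 1) {r : ℝ} (hr : 0 ≤ r) (hr1 : r < 1) :
    (fun i => (r : ℂ) * z i) ∈ polydisc d := by
  intro i
  rw [norm_mul, Complex.norm_real, Real.norm_eq_abs, abs_of_nonneg hr]
  have := hz i
  nlinarith [norm_nonneg (z i)]

theorem nharm_poisson {d : ℕ} {U : (Fin d → ℂ) → ℝ} (hU : NHarm U) {r : ℝ} (hr : 0 ≤ r)
    (hr1 : r < 1) {z : Fin d → ℂ} (hz : z ∈ polydisc d) :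
    ∫ t, P z t * U (pt r t) = U (fun i => r * z i) := by
  refine poisson_poly (fun w => U (fun i => r * w i)) ?_ ?_ hz
  · refine hU.1.comp ?_ ?_
    · exact Continuous.continuousOn (by fun_prop)
    · intro w hw
      exact smul_mem hw hr hr1
  · intro w hw j l hl
    have h1 : ∀ m : ℂ, (fun i => (r : ℂ) * (Function.update w j m) i) =
        (fun i => (r : ℂ) * (Function.update w j 0) i) + m • (Pi.single j (r : ℂ)) := by
      intro m
      ext i
      by_cases h : i = j
      · subst h
        simp [mul_comm]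
      · simp [h]
    have h2 : (fun m => (fun w => U (fun i => (r : ℂ) * w i)) (Function.update w j m)) =
        fun m => U ((fun i => (r : ℂ) * (Function.update w j 0) i) +
          m • (Pi.single j (r : ℂ))) := by
      funext m
      rw [← h1]
    rw [h2]
    refine hU.2 _ _ _ ?_
    rw [← h1]
    refine smul_mem ?_ hr hr1
    intro i
    by_cases h : i = j
    · subst h
      simpa using hl
    · simpa [h] using hw i

-- the slice of U through the torus point s
theorem slice_poisson {d : ℕ} {U : (Fin d → ℂ) → ℝ} (hU : NHarm U) {r : ℝ} (hr : 0 ≤ r)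
    (hr1 : r < 1) (s : Torus d) {z : ℂ} (hz : ‖z‖ < 1) :
    ∫ t, pk z t * U (pt r (fun i => s i + t)) = U (fun i => r * (z * e (s i))) := by
  have h := poisson_harm (f := fun w => U (fun i => r * (w * e (s i)))) (by
    intro l hl
    have h1 : ∀ m : ℂ, (fun i => (r : ℂ) * (m * e (s i))) =
        (0 : Fin d → ℂ) + m • (fun i => (r : ℂ) * e (s i)) := by
      intro m
      ext i
      simp
      ring
    simp_rw [h1]
    refine hU.2 _ _ _ ?_
    rw [← h1]
    refine smul_mem ?_ hr hr1
    intro i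
    rw [norm_mul, norm_e, mul_one]
    simpa using hl) hz
  rw [← h]
  apply integral_congr_ae
  filter_upwards with t
  congr 2
  ext i
  rw [pt, e_add]
  ring

-- L1 convergence of the dilates gives the Poisson formula
theorem poisson_of_limit {d : ℕ} {U : (Fin d → ℂ) → ℝ} (hU : NHarm U) {v : Torus d → ℝ}
    (hv : Integrable v) (ρ : ℕ → ℝ) (h0 : ∀ k, 0 ≤ ρ k) (h1 : ∀ k, ρ k < 1)
    (hρ : Tendsto ρ atTop (𝓝 1))
    (hlim : Tendsto (fun k => ∫ t, |U (pt (ρ k) t) - v t|) atTop (𝓝 0))
    {z : Fin d → ℂ} (hz : z ∈ polydisc d) : U z = ∫ t, P z t * v t := by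
  obtain ⟨C, hC⟩ := P_bdd hz
  have hcont : ∀ k, Continuous (fun t : Torus d => U (pt (ρ k) t)) := by
    intro k
    refine hU.1.comp_continuous (f := fun t : Torus d => pt (ρ k) t) ?_ ?_
    · exact pt_cont.comp (by fun_prop : Continuous fun t : Torus d => ((ρ k : ℝ), t))
    · exact fun t => pt_mem (h0 k) (h1 k) t
  have hint : ∀ k, Integrable (fun t : Torus d => U (pt (ρ k) t)) := fun k =>
    (hcont k).integrable_of_hasCompactSupport (HasCompactSupport.of_compactSpace _)
  have h2 : Tendsto (fun k => U (fun i => ρ k * z i)) atTop (𝓝 (U z)) := by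
    have hz2 : Tendsto (fun k => (fun i => (ρ k : ℂ) * z i)) atTop (𝓝 z) := by
      rw [tendsto_pi_nhds]
      intro i
      have : Tendsto (fun k => (ρ k : ℂ)) atTop (𝓝 (1 : ℝ)) :=
        (Complex.continuous_ofReal.tendsto 1).comp hρ
      simpa using this.mul_const (z i)
    exact ((hU.1.continuousAt ((isOpen_polydisc d).mem_nhds hz)).tendsto).comp hz2
  have h3 : Tendsto (fun k => ∫ t, P z t * U (pt (ρ k) t)) atTop (𝓝 (∫ t, P z t * v t)) := by
    rw [tendsto_iff_dist_tendsto_zero]
    refine squeeze_zero (fun _ => dist_nonneg) (fun k => ?_) (by simpa using hlim.const_mul C)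
    rw [Real.dist_eq, ← integral_sub (int_P_mul hz (hint k)) (int_P_mul hz hv)]
    refine (abs_integral_le_integral_abs).trans ?_
    rw [← integral_const_mul]
    refine integral_mono ?_ ?_ ?_
    · exact ((int_P_mul hz (hint k)).sub (int_P_mul hz hv)).abs
    · exact ((hint k).sub hv).abs.const_mul C
    · intro t
      simp only
      rw [← mul_sub, abs_mul, abs_of_pos (P_pos hz t)]
      exact mul_le_mul_of_nonneg_right (hC t) (abs_nonneg _)
  have h4 : ∀ k, ∫ t, P z t * U (pt (ρ k) t) = U (fun i => ρ k * z i) := fun k =>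
    nharm_poisson hU (h0 k) (h1 k) hz
  simp_rw [h4] at h3
  exact tendsto_nhds_unique h2 h3

end Pool.Agent.Helper43.Outer
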