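import Pool.Agent.Helper43.Outer.Count

open MeasureTheory Set Filter Topology Complex Metric ENNReal InnerProductSpace

namespace Pool.Agent.Helper43.Outer

variable {d : ℕ}

-- a Lipschitz symbol has finite angular derivatives at its contact points
theorem lip_contact {φ : (Fin 1 → ℂ) → (Fin d → ℂ)} {L : NNReal}
    (hL : LipschitzOnWith L φ (polydisc 1)) (hm : MapsTo φ (polydisc 1) (polydisc d))
    {t : Torus 1} {i : Fin d}
    (hc : ∀ ε : ℝ, 0 < ε → ∃ z ∈ polydisc 1, ‖z - pt 1 t‖ < ε ∧ 1 - ε < ‖φ z i‖) :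
    HasAD φ i t := by
  have hmem : ∀ k, pt (rad k) t ∈ polydisc 1 := fun k => pt_mem (rad_pos k).le (rad_lt k) t
  have hptlim : Tendsto (fun k => pt (rad k) t) atTop (𝓝 (pt 1 t)) :=
    ((pt_cont.comp (by fun_prop : Continuous fun r : ℝ => (r, t))).tendsto 1).comp rad_lim
  have hcs : CauchySeq (fun k => φ (pt (rad k) t)) := by
    rw [Metric.cauchySeq_iff]
    intro ε hε
    obtain ⟨N, hN⟩ := (Metric.cauchySeq_iff.1 hptlim.cauchySeq) (ε / (L + 1)) (by positivity)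
    refine ⟨N, fun k hk l hl => ?_⟩
    have h1 := hL.dist_le_mul _ (hmem k) _ (hmem l)
    have h2 := hN k hk l hl
    have h3 : (0 : ℝ) ≤ L := L.2
    calc dist (φ (pt (rad k) t)) (φ (pt (rad l) t)) ≤ L * dist (pt (rad k) t) (pt (rad l) t) := h1
      _ ≤ L * (ε / (L + 1)) := by gcongr
      _ < ε := by
        rw [mul_div_assoc', div_lt_iff₀ (by positivity)]
        nlinarith
  obtain ⟨ω, hω⟩ := cauchySeq_tendsto_of_complete hcs
  have hbound : ∀ z ∈ polydisc 1, ‖φ z i - ω i‖ ≤ L * ‖z - pt 1 t‖ := by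
    intro z hz
    have h1 : ∀ k, ‖φ z i - φ (pt (rad k) t) i‖ ≤ L * ‖z - pt (rad k) t‖ := by
      intro k
      have h2 := hL.dist_le_mul _ hz _ (hmem k)
      rw [dist_eq_norm, dist_eq_norm] at h2
      refine le_trans ?_ h2
      exact norm_le_pi_norm (φ z - φ (pt (rad k) t)) i
    have h3 : Tendsto (fun k => ‖φ z i - φ (pt (rad k) t) i‖) atTop (𝓝 ‖φ z i - ω i‖) :=
      (tendsto_const_nhds.sub ((tendsto_pi_nhds.1 hω) i)).norm
    have h4 : Tendsto (fun k => (L : ℝ) * ‖z - pt (rad k) t‖) atTop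
        (𝓝 ((L : ℝ) * ‖z - pt 1 t‖)) :=
      (tendsto_const_nhds.sub hptlim).norm.const_mul _
    exact le_of_tendsto_of_tendsto' h3 h4 h1
  have hle : ‖ω i‖ ≤ 1 :=
    le_of_tendsto' ((tendsto_pi_nhds.1 hω) i).norm fun k => (hm (hmem k) i).le
  have hge : 1 ≤ ‖ω i‖ := by
    by_contra hcon
    push Not at hcon
    have h3 : (0 : ℝ) ≤ L := L.2
    obtain ⟨z, hz, hz1, hz2⟩ := hc ((1 - ‖ω i‖) / (L + 1)) (div_pos (by linarith) (by positivity))
    have h1 := hbound z hz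
    have h2 : ‖φ z i‖ ≤ ‖ω i‖ + ‖φ z i - ω i‖ := by
      have := norm_add_le (ω i) (φ z i - ω i)
      rwa [add_sub_cancel] at this
    have h4 : (L : ℝ) * ‖z - pt 1 t‖ ≤ L * ((1 - ‖ω i‖) / (L + 1)) := by gcongr
    have h5 : (L : ℝ) * ((1 - ‖ω i‖) / (L + 1)) + (1 - ‖ω i‖) / (L + 1) = 1 - ‖ω i‖ := by
      field_simp
    linarith
  refine ⟨ω i, le_antisymm hle hge, L, fun r hr => ?_⟩
  refine (hbound _ (pt_mem hr.1.le hr.2 t)).trans ?_
  have := pt_sub r hr.2.le t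
  have h3 : (0 : ℝ) ≤ L := L.2
  gcongr

theorem preserves_lip {p q : ℝ≥0∞} {ψ : (Fin 1 → ℂ) → ℂ} {φ : (Fin 1 → ℂ) → (Fin d → ℂ)}
    (h : Symbol p q ψ φ) {L : NNReal} (hL : LipschitzOnWith L φ (polydisc 1)) :
    PreservesOuter p q ψ φ ↔ IsOuter q ψ ∧ ∀ t, ¬ Contact φ t := by
  constructor
  · intro hT
    refine ⟨psi_outer hT, fun t ht => ?_⟩
    obtain ⟨i, j, hij, hc⟩ := ht
    refine necessity h hT t hij ⟨lip_contact hL h.maps fun ε hε => ?_,
      lip_contact hL h.maps fun ε hε => ?_⟩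
    · obtain ⟨z, hz, h1, h2, -⟩ := hc ε hε
      exact ⟨z, hz, h1, h2⟩
    · obtain ⟨z, hz, h1, -, h2⟩ := hc ε hε
      exact ⟨z, hz, h1, h2⟩
  · rintro ⟨hψ, hnc⟩
    refine (preserves_of_kernel h ?_).2 hψ
    obtain ⟨δ, hδ0, hδ1, hsep⟩ := sep_compact h.phi h.maps isCompact_univ fun t _ => hnc t
    obtain ⟨C, -, hC⟩ := kernel_J h.phi h.maps univ MeasurableSet.univ hδ0 hδ1 hsep
    refine ⟨C, fun r hr hr1 w => ?_⟩
    have := hC r hr hr1 w
    rwa [Measure.restrict_univ] at this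

end Pool.Agent.Helper43.Outer
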