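import Pool.Agent.Helper43.Outer.Core2
import Pool.Agent.Helper43.Outer.CutO

open MeasureTheory Set Filter Topology Complex Metric ENNReal InnerProductSpace

namespace Pool.Agent.Helper43.Outer

variable {d d' : ℕ}

theorem necessity_core {q : ℝ≥0∞} {ψ : (Fin 1 → ℂ) → ℂ} {φ : (Fin 1 → ℂ) → (Fin d → ℂ)}
    (hφ : DifferentiableOn ℂ φ (polydisc 1)) (hmaps : MapsTo φ (polydisc 1) (polydisc d))
    (h2 : IsOuter q ψ) {t : Torus 1} {i j : Fin d} {a b : ℂ} (hAD : ADat φ i t a)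
    (hBD : ADat φ j t b) (h1 : IsOuter q (wco ψ φ (ft i j a b))) : False := by
  obtain ⟨ha, Ca, hCa⟩ := hAD
  obtain ⟨hb, Cb, hCb⟩ := hBD
  obtain ⟨b1, -, hb1i, hb1⟩ := h1.2.2
  obtain ⟨b2, -, hb2i, hb2⟩ := h2.2.2
  set w : Torus 1 → ℝ := fun s => Real.log (b2 s) - Real.log (b1 s) with hw
  have hwi : Integrable w := hb2i.sub hb1i
  have hrep : ∀ z ∈ polydisc 1, pk (Gt i j a b (φ z)) 0 = ∫ s, P z s * w s := by
    intro z hz
    have e1 := hb1 z hz
    have e2 := hb2 z hz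
    have n1 : ‖ψ z‖ ≠ 0 := norm_ne_zero_iff.2 (h2.2.1 z hz)
    have n2 : ‖ft i j a b (φ z)‖ ≠ 0 := norm_ne_zero_iff.2 (Complex.exp_ne_zero _)
    rw [wco, norm_mul, Real.log_mul n1 n2, ft_log] at e1
    have e3 : ∫ s, P z s * w s =
        (∫ s, P z s * Real.log (b2 s)) - ∫ s, P z s * Real.log (b1 s) := by
      rw [← integral_sub (int_P_mul hz hb2i) (int_P_mul hz hb1i)]
      congr 1
      ext s
      ring
    rw [e3, ← e1, ← e2]
    ring
  have hlim := atom_zero hwi t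
  set c := (1 - ‖φ 0 i‖) / 2 with hc
  have hc0 : 0 < c := by
    have := hmaps (show (0 : Fin 1 → ℂ) ∈ polydisc 1 from fun i => by simp) i
    rw [hc]
    linarith
  set C := |Ca| + |Cb| + 1 with hC
  have hC0 : 0 < C := by positivity
  have hlow : ∀ r ∈ Ioo (0 : ℝ) 1, c / C ^ 2 ≤ (1 - r) * ∫ s, P (pt r t) s * w s := by
    intro r hr
    have hr1 : 0 < 1 - r := by linarith [hr.2]
    have hmem := pt_mem hr.1.le hr.2 t
    rw [← hrep _ hmem]
    have hm := hmaps hmem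
    have hG := Gt_lt (i := i) (j := j) ha hb hm
    have h3 := one_sub_low (fun z hz => (differentiableWithinAt_pi.1 (hφ z hz)) i) (fun z hz => hmaps hz i) t hr.1.le hr.2
    rw [← hc] at h3
    set A := (starRingEnd ℂ) a * φ (pt r t) i with hA
    set B := (1 + (starRingEnd ℂ) b * φ (pt r t) j) / 2 with hB
    have hGe : Gt i j a b (φ (pt r t)) = A * B := rfl
    have hAn : ‖A‖ = ‖φ (pt r t) i‖ := by rw [hA, norm_mul, RCLike.norm_conj, ha, one_mul]
    have hBn : ‖B‖ ≤ 1 := by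
      refine half_le ?_
      rw [norm_mul, RCLike.norm_conj, hb, one_mul]
      exact (hm j).le
    have hconj : ∀ {x : ℂ}, ‖x‖ = 1 → (starRingEnd ℂ) x * x = 1 := by
      intro x hx
      rw [Complex.conj_mul', hx]
      simp
    have h1A : ‖1 - A‖ ≤ |Ca| * (1 - r) := by
      have e1 : 1 - A = (starRingEnd ℂ) a * (a - φ (pt r t) i) := by
        rw [mul_sub, hconj ha]
      rw [e1, norm_mul, RCLike.norm_conj, ha, one_mul, norm_sub_rev]
      exact (hCa r hr).trans (by gcongr; exact le_abs_self _)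
    have h1B : ‖1 - B‖ ≤ |Cb| * (1 - r) := by
      have e1 : 1 - B = ((starRingEnd ℂ) b * (b - φ (pt r t) j)) / 2 := by
        rw [mul_sub, hconj hb, hB]
        ring
      rw [e1, norm_div, norm_mul, RCLike.norm_conj, hb, one_mul, norm_sub_rev]
      simp only [Complex.norm_ofNat]
      have := (hCb r hr).trans
        (mul_le_mul_of_nonneg_right (le_abs_self Cb) hr1.le)
      have h0 := norm_nonneg (φ (pt r t) j - b)
      linarith
    have hG1 : ‖1 - A * B‖ ≤ C * (1 - r) := by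
      have e1 : 1 - A * B = (1 - A) + A * (1 - B) := by ring
      rw [e1]
      refine (norm_add_le _ _).trans ?_
      rw [norm_mul, hAn]
      have : ‖φ (pt r t) i‖ * ‖1 - B‖ ≤ 1 * ‖1 - B‖ := by
        gcongr
        exact (hm i).le
      rw [hC]
      nlinarith
    have hG2 : c * (1 - r) ≤ 1 - ‖A * B‖ ^ 2 := by
      have e1 : ‖A * B‖ ≤ ‖φ (pt r t) i‖ := by
        rw [norm_mul, hAn]
        calc _ ≤ ‖φ (pt r t) i‖ * 1 := by gcongr
          _ = _ := mul_one _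
      have e2 : ‖A * B‖ ^ 2 ≤ ‖A * B‖ := by
        have := (hm i)
        have h0 := norm_nonneg (A * B)
        nlinarith
      linarith
    have hpos := sub_pos_of_lt hG 0
    rw [hGe] at hpos ⊢
    rw [pk, e_zero] at *
    have h4 : ‖1 - A * B‖ ^ 2 ≤ (C * (1 - r)) ^ 2 := by gcongr
    rw [mul_div_assoc', div_le_div_iff₀ (by positivity) (by positivity)]
    calc c * ‖1 - A * B‖ ^ 2 ≤ c * (C * (1 - r)) ^ 2 := by gcongr
      _ = (1 - r) * (c * (1 - r)) * C ^ 2 := by ring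
      _ ≤ (1 - r) * (1 - ‖A * B‖ ^ 2) * C ^ 2 := by gcongr
  have hmem : Ioo (0 : ℝ) 1 ∈ 𝓝[<] (1 : ℝ) := Ioo_mem_nhdsLT (by norm_num)
  have := ge_of_tendsto hlim (by
    filter_upwards [hmem] with r hr
    exact hlow r hr)
  have : 0 < c / C ^ 2 := by positivity
  linarith

-- angular derivatives along almost every slice
theorem necessity_cut {p q : ℝ≥0∞} (hq : q ≠ 0) {ψ : (Fin d' → ℂ) → ℂ}
    {φ : (Fin d' → ℂ) → (Fin d → ℂ)} (h : Symbol p q ψ φ) (hT : PreservesOuter p q ψ φ)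
    {i j : Fin d} (hij : i ≠ j) (a b : ℂ) :
    ∀ᵐ s : Torus d', ∀ t, ¬ (ADat (cut φ s) i t a ∧ ADat (cut φ s) j t b) := by
  by_cases hab : ‖a‖ = 1 ∧ ‖b‖ = 1
  · obtain ⟨M1, -, h1⟩ := cut_outer hq (hT _ (ft_outer p hij hab.1 hab.2))
    obtain ⟨M2, -, h2⟩ := cut_outer hq (psi_outer hT)
    filter_upwards [h1, h2] with s hs1 hs2
    rintro t ⟨hA, hB⟩
    exact necessity_core (cut_diff h.phi s) (cut_maps h.maps s) hs2.1 hA hB hs1.1
  · refine ae_of_all _ fun s t hAB => hab ⟨hAB.1.1, hAB.2.1⟩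

-- the positive part of log |f o phi| is controlled
theorem ui_neg {q : ℝ≥0∞} (hq : q ≠ 0) {ψ : (Fin 1 → ℂ) → ℂ} {φ : (Fin 1 → ℂ) → (Fin d → ℂ)}
    (hφ : DifferentiableOn ℂ φ (polydisc 1)) (hm : MapsTo φ (polydisc 1) (polydisc d))
    (hψ : IsOuter q ψ) {f : (Fin d → ℂ) → ℂ} (hf : DifferentiableOn ℂ f (polydisc d))
    (hf0 : ∀ z ∈ polydisc d, f z ≠ 0) (hF : MemH q (wco ψ φ f)) :
    (∀ k, Continuous (fun t : Torus 1 => max (Real.log ‖wco ψ φ f (pt (rad k) t)‖) 0)) ∧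
    (∀ k, Continuous (fun t : Torus 1 => |Real.log ‖ψ (pt (rad k) t)‖|)) ∧
    (∀ k, Continuous (fun t : Torus 1 => max (Real.log ‖f (φ (pt (rad k) t))‖) 0)) ∧
    (∀ k, ∀ t : Torus 1, max (Real.log ‖f (φ (pt (rad k) t))‖) 0 ≤
      max (Real.log ‖wco ψ φ f (pt (rad k) t)‖) 0 + |Real.log ‖ψ (pt (rad k) t)‖|) ∧
    (∀ ε : ℝ, 0 < ε → ∃ δ : ℝ, 0 < δ ∧ ∃ N : ℕ, ∀ k ≥ N, ∀ A : Set (Torus 1),
      MeasurableSet A → volume A ≤ ENNReal.ofReal δ →
      ∫ t in A, max (Real.log ‖f (φ (pt (rad k) t))‖) 0 ≤ ε) ∧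
    ∃ B : ℝ, ∃ N : ℕ, ∀ k ≥ N, ∫ t : Torus 1, max (Real.log ‖f (φ (pt (rad k) t))‖) 0 ≤ B := by
  have hW := neg_log_nharm hf hf0 hφ hm
  have hFne : ∀ z ∈ polydisc 1, wco ψ φ f z ≠ 0 := fun z hz =>
    mul_ne_zero (hψ.2.1 z hz) (hf0 _ (hm hz))
  have hFN := nharm_log hF.1 hFne
  have hψN := nharm_log hψ.1.1 hψ.2.1
  have hFc : ∀ k, Continuous (fun t : Torus 1 =>
      max (Real.log ‖wco ψ φ f (pt (rad k) t)‖) 0) := fun k =>
    (dil_cont hFN.1 (rad_pos k).le (rad_lt k)).max continuous_const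
  have hψc' : ∀ k, Continuous (fun t : Torus 1 => |Real.log ‖ψ (pt (rad k) t)‖|) := fun k =>
    (dil_cont hψN.1 (rad_pos k).le (rad_lt k)).abs
  have hψc : ∀ k, Integrable (fun t : Torus 1 => Real.log ‖ψ (pt (rad k) t)‖) := fun k =>
    cont_int (dil_cont hψN.1 (rad_pos k).le (rad_lt k))
  obtain ⟨hui, B1, hB1⟩ := ui_logplus hq hF hFc
  obtain ⟨w, hw, hwl⟩ := outer_dil hψ
  have hneg : ∀ k (t : Torus 1), max (Real.log ‖f (φ (pt (rad k) t))‖) 0 ≤
      max (Real.log ‖wco ψ φ f (pt (rad k) t)‖) 0 + |Real.log ‖ψ (pt (rad k) t)‖| := by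
    intro k t
    have hz := pt_mem (rad_pos k).le (rad_lt k) t
    have e1 : Real.log ‖wco ψ φ f (pt (rad k) t)‖ =
        Real.log ‖ψ (pt (rad k) t)‖ + Real.log ‖f (φ (pt (rad k) t))‖ := by
      rw [wco, norm_mul, Real.log_mul (norm_ne_zero_iff.2 (hψ.2.1 _ hz))
        (norm_ne_zero_iff.2 (hf0 _ (hm hz)))]
    rw [e1]
    have h1 := neg_abs_le (Real.log ‖ψ (pt (rad k) t)‖)
    have h2 := abs_nonneg (Real.log ‖ψ (pt (rad k) t)‖)
    have h3 := le_max_left (Real.log ‖ψ (pt (rad k) t)‖ + Real.log ‖f (φ (pt (rad k) t))‖) 0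
    have h4 := le_max_right (Real.log ‖ψ (pt (rad k) t)‖ + Real.log ‖f (φ (pt (rad k) t))‖) 0
    refine max_le ?_ ?_ <;> linarith
  have hnc' : ∀ k, Continuous (fun t : Torus 1 =>
      max (Real.log ‖f (φ (pt (rad k) t))‖) 0) := by
    intro k
    have h1 : Continuous (fun t : Torus 1 =>
        max (-(-Real.log ‖f (φ (pt (rad k) t))‖)) 0) :=
      (dil_cont hW.1 (rad_pos k).le (rad_lt k)).neg.max continuous_const
    simpa only [neg_neg] using h1
  have hnc : ∀ k, Integrable (fun t : Torus 1 =>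
      max (Real.log ‖f (φ (pt (rad k) t))‖) 0) := fun k => cont_int (hnc' k)
  refine ⟨hFc, hψc', hnc', hneg, ?_, B1 + ((∫ t, |w t|) + 1), ?_⟩
  · intro ε' hε'
    obtain ⟨δ1, hδ1, h1⟩ := hui (ε' / 2) (by positivity)
    obtain ⟨δ2, hδ2, N, h2⟩ := ui_of_lim hψc hw hwl (by positivity : 0 < ε' / 2)
    refine ⟨min δ1 δ2, lt_min hδ1 hδ2, N, fun k hk A hA hv => ?_⟩
    have e1 := h1 k A hA (hv.trans (ENNReal.ofReal_le_ofReal (min_le_left _ _)))
    have e2 := h2 k hk A hA (hv.trans (ENNReal.ofReal_le_ofReal (min_le_right _ _)))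
    calc ∫ t in A, max (Real.log ‖f (φ (pt (rad k) t))‖) 0
        ≤ ∫ t in A, (max (Real.log ‖wco ψ φ f (pt (rad k) t)‖) 0 +
            |Real.log ‖ψ (pt (rad k) t)‖|) :=
          setIntegral_mono_on (hnc k).integrableOn
            ((cont_int (hFc k)).add (hψc k).abs).integrableOn hA fun t _ => hneg k t
      _ = (∫ t in A, max (Real.log ‖wco ψ φ f (pt (rad k) t)‖) 0) +
            ∫ t in A, |Real.log ‖ψ (pt (rad k) t)‖| :=
          integral_add (cont_int (hFc k)).integrableOn (hψc k).abs.integrableOn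
      _ ≤ ε' := by linarith
  · obtain ⟨N, hN⟩ := eventually_atTop.1 (hwl.eventually (gt_mem_nhds one_pos))
    refine ⟨N, fun k hk => ?_⟩
    have e1 := hB1 k
    have e2 : ∫ t, |Real.log ‖ψ (pt (rad k) t)‖| ≤ (∫ t, |w t|) + 1 := by
      have h5 := l1_tri (hψc k) (g := w) hw (h := fun _ => (0 : ℝ))
        (integrable_zero (Torus 1) ℝ volume)
      simp only [Real.norm_eq_abs, sub_zero] at h5
      have h6 := hN k hk
      linarith
    calc ∫ t : Torus 1, max (Real.log ‖f (φ (pt (rad k) t))‖) 0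
        ≤ ∫ t : Torus 1, (max (Real.log ‖wco ψ φ f (pt (rad k) t)‖) 0 +
            |Real.log ‖ψ (pt (rad k) t)‖|) :=
          integral_mono (hnc k) ((cont_int (hFc k)).add (hψc k).abs) (hneg k)
      _ = (∫ t : Torus 1, max (Real.log ‖wco ψ φ f (pt (rad k) t)‖) 0) +
            ∫ t, |Real.log ‖ψ (pt (rad k) t)‖| :=
          integral_add (cont_int (hFc k)) (hψc k).abs
      _ ≤ _ := by linarith

-- the criterion on the disc
theorem criterion_disc {p q : ℝ≥0∞} (hp : p ≠ 0) (hq : q ≠ 0) {ψ : (Fin 1 → ℂ) → ℂ}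
    {φ : (Fin 1 → ℂ) → (Fin d → ℂ)} (h : Symbol p q ψ φ) (hcount : {t | Bad φ t}.Countable) :
    PreservesOuter p q ψ φ ↔
      IsOuter q ψ ∧ ∀ t i j, i ≠ j → ¬ (HasAD φ i t ∧ HasAD φ j t) := by
  constructor
  · intro hT
    exact ⟨psi_outer hT, fun t i j hij => necessity h hT t hij⟩
  · rintro ⟨hψ, hnd⟩ f hf
    obtain ⟨-, -, -, -, hUI, B, hB⟩ := ui_neg hq h.phi h.maps hψ hf.1.1 hf.2.1 (h.memH hf.1)
    exact outer_of_cauchy h hψ hf fun ε hε => disc_core hp h.phi h.maps hcount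
      (fun t _ i j hij => hnd t i j hij) hf hUI hB hε

-- sufficiency through slices
theorem suff_cut {p q : ℝ≥0∞} (hp : p ≠ 0) (hq : q ≠ 0) {ψ : (Fin d' → ℂ) → ℂ}
    {φ : (Fin d' → ℂ) → (Fin d → ℂ)} (h : Symbol p q ψ φ)
    (hcount : ∀ᵐ s : Torus d', {t | Bad (cut φ s) t}.Countable)
    (hnd : ∀ᵐ s : Torus d', ∀ t i j, i ≠ j → ¬ (HasAD (cut φ s) i t ∧ HasAD (cut φ s) j t))
    (hψ : IsOuter q ψ) : PreservesOuter p q ψ φ := by
  intro f hf
  refine outer_of_cauchy h hψ hf ?_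
  have hU := neg_log_nharm hf.1.1 hf.2.1 h.phi h.maps
  set U : (Fin d' → ℂ) → ℝ := fun z => -Real.log ‖f (φ z)‖ with hUdef
  have hF := h.memH hf.1
  have hFne : ∀ z ∈ polydisc d', wco ψ φ f z ≠ 0 := fun z hz =>
    mul_ne_zero (hψ.2.1 z hz) (hf.2.1 _ (h.maps hz))
  obtain ⟨M1, hM1, hs1⟩ := cut_memH hq hF hFne
  obtain ⟨M2, hM2, hs2⟩ := cut_outer hq hψ
  have hc : ∀ k, Continuous (fun t : Torus d' => U (pt (rad k) t)) := fun k =>
    dil_cont hU.1 (rad_pos k).le (rad_lt k)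
  set F : ℕ × ℕ → Torus d' → ℝ := fun p t => |U (pt (rad p.1) t) - U (pt (rad p.2) t)| with hFdef
  have hFc : ∀ p, Continuous (F p) := fun p => ((hc p.1).sub (hc p.2)).abs
  set D : ℕ × ℕ → Torus d' → ℝ := fun p s => ∫ l, F p (sh (s, l)) with hD
  have hDi : ∀ p, Integrable (D p) := fun p => (int_slices (cont_int (hFc p))).1
  have hDint : ∀ p, ∫ s, D p s = ∫ t, F p t := fun p => (int_slices (cont_int (hFc p))).2
  have hD0 : ∀ p s, 0 ≤ D p s := fun p s => integral_nonneg fun l => abs_nonneg _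
  have hcut : ∀ (s : Torus d') (k : ℕ) (t : Torus 1),
      f (cut φ s (pt (rad k) t)) = f (φ (pt (rad k) (sh (s, t 0)))) := by
    intro s k t
    rw [cut_pt]
  -- L1 bound on slices
  have habs : ∀ᵐ s : Torus d', ∀ k, ∫ l, |U (pt (rad k) (sh (s, l)))| ≤
      |U 0| + 2 * (M1 s + M2 s) := by
    filter_upwards [hs1, hs2] with s hs1 hs2 k
    obtain ⟨c1, c2, c3, hle, -, -⟩ := ui_neg hq (cut_diff h.phi s) (cut_maps h.maps s) hs2.1
      hf.1.1 hf.2.1 (show MemH q (wco (cut ψ s) (cut φ s) f) from hs1.1)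
    have hci : Continuous (fun l : UnitAddCircle => U (pt (rad k) (sh (s, l)))) :=
      (hc k).comp (sh_cont s)
    have hi : Integrable (fun l : UnitAddCircle => U (pt (rad k) (sh (s, l)))) :=
      hci.integrable_of_hasCompactSupport (HasCompactSupport.of_compactSpace _)
    have hni : Integrable (fun l : UnitAddCircle => max (-U (pt (rad k) (sh (s, l)))) 0) :=
      (hci.neg.max continuous_const).integrable_of_hasCompactSupport
        (HasCompactSupport.of_compactSpace _)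
    have e1 : ∫ l, |U (pt (rad k) (sh (s, l)))| =
        (∫ l, U (pt (rad k) (sh (s, l)))) + 2 * ∫ l, max (-U (pt (rad k) (sh (s, l)))) 0 := by
      rw [← integral_const_mul, ← integral_add hi (hni.const_mul 2)]
      congr 1
      ext l
      rcases le_total (U (pt (rad k) (sh (s, l)))) 0 with h0 | h0
      · rw [abs_of_nonpos h0, max_eq_left (by linarith)]
        ring
      · rw [abs_of_nonneg h0, max_eq_right (by linarith)]
        ring
    have e2 : ∫ l, max (-U (pt (rad k) (sh (s, l)))) 0 =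
        ∫ t : Torus 1, max (Real.log ‖f (cut φ s (pt (rad k) t))‖) 0 := by
      have h5 := int_eval (fun l => max (-U (pt (rad k) (sh (s, l)))) 0)
        (hci.neg.max continuous_const)
      rw [← h5]
      congr 1
      ext t
      rw [hcut]
      simp only [hUdef, neg_neg]
    have e3 : ∫ t : Torus 1, max (Real.log ‖f (cut φ s (pt (rad k) t))‖) 0 ≤ M1 s + M2 s := by
      calc ∫ t : Torus 1, max (Real.log ‖f (cut φ s (pt (rad k) t))‖) 0
          ≤ ∫ t : Torus 1, (max (Real.log ‖wco (cut ψ s) (cut φ s) f (pt (rad k) t)‖) 0 +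
              |Real.log ‖cut ψ s (pt (rad k) t)‖|) :=
            integral_mono (cont_int (c3 k)) ((cont_int (c1 k)).add (cont_int (c2 k))) (hle k)
        _ = (∫ t : Torus 1, max (Real.log ‖wco (cut ψ s) (cut φ s) f (pt (rad k) t)‖) 0) +
              ∫ t : Torus 1, |Real.log ‖cut ψ s (pt (rad k) t)‖| :=
            integral_add (cont_int (c1 k)) (cont_int (c2 k))
        _ ≤ M1 s + M2 s := add_le_add (hs1.2 k) (hs2.2 k)
    rw [e1, e2, slice_mean hU (rad_pos _).le (rad_lt _)]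
    have := le_abs_self (U 0)
    linarith
  have hbound : ∀ᵐ s : Torus d', ∀ p, D p s ≤ 2 * (|U 0| + 2 * (M1 s + M2 s)) := by
    filter_upwards [habs] with s hs p
    have hck : ∀ k, Integrable (fun l : UnitAddCircle => |U (pt (rad k) (sh (s, l)))|) := fun k =>
      ((hc k).comp (sh_cont s)).abs.integrable_of_hasCompactSupport
        (HasCompactSupport.of_compactSpace _)
    have h3 : D p s ≤ ∫ l : UnitAddCircle, (|U (pt (rad p.1) (sh (s, l)))| +
        |U (pt (rad p.2) (sh (s, l)))|) := by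
      refine integral_mono (((hFc p).comp (sh_cont s)).integrable_of_hasCompactSupport
        (HasCompactSupport.of_compactSpace _)) ((hck p.1).add (hck p.2)) fun l => ?_
      exact abs_sub _ _
    rw [integral_add (hck _) (hck _)] at h3
    have h1 := hs p.1
    have h2 := hs p.2
    linarith
  have hlim : ∀ᵐ s : Torus d', Tendsto (fun p : ℕ × ℕ => D p s) atTop (𝓝 0) := by
    filter_upwards [hs1, hs2, hcount, hnd] with s hs1 hs2 hs3 hs4
    obtain ⟨-, -, -, -, hUI, B, hB⟩ := ui_neg hq (cut_diff h.phi s) (cut_maps h.maps s) hs2.1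
      hf.1.1 hf.2.1 (show MemH q (wco (cut ψ s) (cut φ s) f) from hs1.1)
    rw [Metric.tendsto_atTop]
    intro ε hε
    obtain ⟨N, hN⟩ := disc_core hp (cut_diff h.phi s) (cut_maps h.maps s) hs3
      (fun t _ i j hij => hs4 t i j hij) hf hUI hB hε
    refine ⟨(N, N), fun p hp => ?_⟩
    have h1 := hN p.1 hp.1 p.2 hp.2
    rw [Real.dist_eq, sub_zero, abs_of_nonneg (hD0 p s)]
    have h2 : ∫ t : Torus 1, |(-Real.log ‖f (cut φ s (pt (rad p.1) t))‖) -
        (-Real.log ‖f (cut φ s (pt (rad p.2) t))‖)| = D p s := by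
      have h3 := int_eval (fun l => F p (sh (s, l))) ((hFc p).comp (sh_cont s))
      simp only [hD]
      rw [← h3]
      simp only [cut_pt, hFdef, hUdef]
    rw [← h2]
    exact h1
  have hlim2 : Tendsto (fun p : ℕ × ℕ => ∫ s, D p s) atTop (𝓝 (∫ _s : Torus d', (0 : ℝ))) := by
    refine tendsto_integral_filter_of_dominated_convergence
      (fun s => 2 * (|U 0| + 2 * (M1 s + M2 s))) ?_ ?_ ?_ hlim
    · exact Eventually.of_forall fun p => (hDi p).aestronglyMeasurable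
    · refine Eventually.of_forall fun p => ?_
      filter_upwards [hbound] with s hs
      rw [Real.norm_eq_abs, abs_of_nonneg (hD0 p s)]
      exact hs p
    · exact ((integrable_const _).add ((hM1.add hM2).const_mul 2)).const_mul 2
  simp only [integral_zero, hDint] at hlim2
  intro ε hε
  rw [Metric.tendsto_atTop] at hlim2
  obtain ⟨⟨N1, N2⟩, hN⟩ := hlim2 ε hε
  refine ⟨max N1 N2, fun k hk l hl => ?_⟩
  have h1 := hN (k, l) ⟨(le_max_left _ _).trans hk, (le_max_right _ _).trans hl⟩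
  rw [Real.dist_eq, sub_zero] at h1
  exact lt_of_le_of_lt (le_abs_self _) h1

-- the criterion through slices
theorem criterion_cut {p q : ℝ≥0∞} (hp : p ≠ 0) (hq : q ≠ 0) {ψ : (Fin d' → ℂ) → ℂ}
    {φ : (Fin d' → ℂ) → (Fin d → ℂ)} (h : Symbol p q ψ φ)
    (hcount : ∀ᵐ s : Torus d', {t | Bad (cut φ s) t}.Countable)
    (hval : ∃ S : Set (ℂ × ℂ), S.Countable ∧ ∀ᵐ s : Torus d', ∀ t i j, i ≠ j → ∀ a b,
      ADat (cut φ s) i t a → ADat (cut φ s) j t b → (a, b) ∈ S) :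
    PreservesOuter p q ψ φ ↔ IsOuter q ψ ∧
      ∀ᵐ s : Torus d', ∀ t i j, i ≠ j → ¬ (HasAD (cut φ s) i t ∧ HasAD (cut φ s) j t) := by
  constructor
  · intro hT
    refine ⟨psi_outer hT, ?_⟩
    obtain ⟨S, hS, hSv⟩ := hval
    have h1 : ∀ᵐ s : Torus d', ∀ x ∈ S, ∀ i j : Fin d, i ≠ j → ∀ t,
        ¬ (ADat (cut φ s) i t x.1 ∧ ADat (cut φ s) j t x.2) := by
      rw [ae_ball_iff hS]
      intro x _
      rw [ae_all_iff]
      intro i
      rw [ae_all_iff]
      intro j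
      by_cases hij : i = j
      · exact ae_of_all _ fun s h' => absurd hij h'
      · filter_upwards [necessity_cut hq h hT hij x.1 x.2] with s hs _
        exact hs
    filter_upwards [h1, hSv] with s hs1 hs2
    rintro t i j hij ⟨⟨a, hA⟩, ⟨b, hB⟩⟩
    exact hs1 (a, b) (hs2 t i j hij a b hA hB) i j hij t ⟨hA, hB⟩
  · rintro ⟨hψ, hnd⟩
    exact suff_cut hp hq h hcount hnd hψ

end Pool.Agent.Helper43.Outer
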