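import Pool.Agent.Helper43.Outer.Infty

open MeasureTheory Set Filter Topology Complex Metric ENNReal InnerProductSpace

namespace Pool.Agent.Helper43.Outer

variable {d d' : ℕ}

-- the restriction of the symbol to the disc through the torus point s
noncomputable def slice (φ : (Fin d' → ℂ) → (Fin d → ℂ)) (s : Torus d') :
    (Fin 1 → ℂ) → (Fin d → ℂ) := fun z => φ (fun i => z 0 * e (s i))

theorem slice_mem (s : Torus d') {z : Fin 1 → ℂ} (hz : z ∈ polydisc 1) :
    (fun i => z 0 * e (s i)) ∈ polydisc d' := by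
  intro i
  rw [norm_mul, norm_e, mul_one]
  exact hz 0

theorem slice_diff {φ : (Fin d' → ℂ) → (Fin d → ℂ)} (hφ : DifferentiableOn ℂ φ (polydisc d'))
    (s : Torus d') : DifferentiableOn ℂ (slice φ s) (polydisc 1) := by
  refine hφ.comp (g := φ) (f := fun z : Fin 1 → ℂ => (fun i => z 0 * e (s i))) ?_ ?_
  · fun_prop
  · exact fun z hz => slice_mem s hz

theorem slice_maps {φ : (Fin d' → ℂ) → (Fin d → ℂ)}
    (hm : MapsTo φ (polydisc d') (polydisc d)) (s : Torus d') :
    MapsTo (slice φ s) (polydisc 1) (polydisc d) := fun _ hz => hm (slice_mem s hz)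

theorem slice_pt (φ : (Fin d' → ℂ) → (Fin d → ℂ)) (s : Torus d') (r : ℝ) (t : Torus 1) :
    slice φ s (pt r t) = φ (pt r (sh (s, t 0))) := by
  unfold slice
  congr 1
  ext i
  simp only [pt, sh]
  rw [e_add]
  ring

theorem int_eval (F : UnitAddCircle → ℝ) (hF : Continuous F) :
    ∫ t : Torus 1, F (t 0) = ∫ l, F l := by
  have h1 := integral_map (μ := (volume : Measure (Torus 1))) (φ := fun w : Torus 1 => w 0)
    (f := F) (eval_mp 0).measurable.aemeasurable (by
      rw [(eval_mp 0).map_eq]
      exact hF.aestronglyMeasurable)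
  rw [(eval_mp 0).map_eq] at h1
  exact h1.symm

theorem sh_cont (s : Torus d') : Continuous (fun l : UnitAddCircle => sh (s, l)) :=
  continuous_pi fun _ => continuous_const.add continuous_id

theorem slice_mean {U : (Fin d' → ℂ) → ℝ} (hU : NHarm U) {r : ℝ} (hr : 0 ≤ r) (hr1 : r < 1)
    (s : Torus d') : ∫ l, U (pt r (sh (s, l))) = U 0 := by
  have h1 := slice_formula hU hr hr1 le_rfl one_pos s
  have h2 : ∀ l, pk ((0 : ℝ) : ℂ) l = 1 := by
    intro l
    simp [pk, norm_e]
  simp_rw [h2, one_mul] at h1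
  have h3 : U (pt (r * 0) s) = U 0 := by
    congr 1
    ext i
    simp [pt]
  rw [h3] at h1
  exact h1

theorem preserves_slices {q : ℝ≥0∞} {ψ : (Fin d' → ℂ) → ℂ} {φ : (Fin d' → ℂ) → (Fin d → ℂ)}
    (h : Symbol ∞ q ψ φ) (hs : ∀ᵐ s : Torus d', Crit (slice φ s)) :
    PreservesOuter ∞ q ψ φ ↔ IsOuter q ψ := by
  refine ⟨psi_outer, fun hψ f hf => ?_⟩
  refine outer_of_cauchy h hψ hf ?_
  have hU := neg_log_nharm hf.1.1 hf.2.1 h.phi h.maps
  set U : (Fin d' → ℂ) → ℝ := fun z => -Real.log ‖f (φ z)‖ with hUdef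
  obtain ⟨M, hM0, hM⟩ := bdd_of_mem hf.1
  have hlow : ∀ z ∈ polydisc d', -M ≤ U z := by
    intro z hz
    have := hM _ (h.maps hz)
    simp only [hUdef]
    linarith
  have hc : ∀ k, Continuous (fun t : Torus d' => U (pt (rad k) t)) := fun k =>
    dil_cont hU.1 (rad_pos k).le (rad_lt k)
  set F : ℕ × ℕ → Torus d' → ℝ := fun p t => |U (pt (rad p.1) t) - U (pt (rad p.2) t)| with hF
  have hFc : ∀ p, Continuous (F p) := fun p => ((hc p.1).sub (hc p.2)).abs
  have hFs : ∀ p, Integrable (fun x : Torus d' × UnitAddCircle => F p (sh x))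
      (volume.prod volume) := fun p =>
    (sh_mp.integrable_comp (hFc p).aestronglyMeasurable).2 (cont_int (hFc p))
  set D : ℕ × ℕ → Torus d' → ℝ := fun p s => ∫ l, F p (sh (s, l)) with hD
  have hDint : ∀ p, ∫ s, D p s = ∫ t, F p t := by
    intro p
    rw [← integral_prod _ (hFs p)]
    have := integral_map (μ := volume.prod volume) (φ := sh (d := d')) (f := F p)
      sh_mp.measurable.aemeasurable (by rw [sh_mp.map_eq]; exact (hFc p).aestronglyMeasurable)
    rw [sh_mp.map_eq] at this
    exact this.symm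
  have hbound : ∀ p s, D p s ≤ 2 * (U 0 + 2 * M) := by
    intro p s
    have hck : ∀ k, Integrable (fun l : UnitAddCircle => U (pt (rad k) (sh (s, l)))) := fun k =>
      ((hc k).comp (sh_cont s)).integrable_of_hasCompactSupport
        (HasCompactSupport.of_compactSpace _)
    have hpt : ∀ l, F p (sh (s, l)) ≤ (U (pt (rad p.1) (sh (s, l))) + 2 * M) +
        (U (pt (rad p.2) (sh (s, l))) + 2 * M) := by
      intro l
      have h1 := hlow _ (pt_mem (rad_pos p.1).le (rad_lt p.1) (sh (s, l)))
      have h2 := hlow _ (pt_mem (rad_pos p.2).le (rad_lt p.2) (sh (s, l)))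
      simp only [hF]
      rw [abs_le]
      constructor <;> linarith
    have h3 : D p s ≤ ∫ l : UnitAddCircle, ((U (pt (rad p.1) (sh (s, l))) + 2 * M) +
        (U (pt (rad p.2) (sh (s, l))) + 2 * M)) := by
      refine integral_mono (((hFc p).comp (sh_cont s)).integrable_of_hasCompactSupport
        (HasCompactSupport.of_compactSpace _)) (((hck p.1).add (integrable_const _)).add
        ((hck p.2).add (integrable_const _))) hpt
    have e1 := integral_add ((hck p.1).add (integrable_const (2 * M)))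
      ((hck p.2).add (integrable_const (2 * M)))
    have e2 := integral_add (hck p.1) (integrable_const (μ := volume) (2 * M))
    have e3 := integral_add (hck p.2) (integrable_const (μ := volume) (2 * M))
    simp only [Pi.add_apply] at e1
    rw [e1, e2, e3, slice_mean hU (rad_pos _).le (rad_lt _),
      slice_mean hU (rad_pos _).le (rad_lt _)] at h3
    simp only [integral_const, probReal_univ, smul_eq_mul, one_mul] at h3
    linarith
  have hD0 : ∀ p s, 0 ≤ D p s := fun p s => integral_nonneg fun l => abs_nonneg _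
  have hlim : ∀ᵐ s : Torus d', Tendsto (fun p : ℕ × ℕ => D p s) atTop (𝓝 0) := by
    filter_upwards [hs] with s hcrit
    rw [Metric.tendsto_atTop]
    intro ε hε
    obtain ⟨N, hN⟩ := core_bdd (slice_diff h.phi s) (slice_maps h.maps s) hcrit hf hε
    refine ⟨(N, N), fun p hp => ?_⟩
    have h1 := hN p.1 hp.1 p.2 hp.2
    rw [Real.dist_eq, sub_zero, abs_of_nonneg (hD0 p s)]
    have h2 : ∫ t : Torus 1, |(-Real.log ‖f (slice φ s (pt (rad p.1) t))‖) -
        (-Real.log ‖f (slice φ s (pt (rad p.2) t))‖)| = D p s := by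
      have h3 := int_eval (fun l => F p (sh (s, l))) ((hFc p).comp (sh_cont s))
      simp only [hD]
      rw [← h3]
      simp only [slice_pt, hF, hUdef]
    rw [← h2]
    exact h1
  have hlim2 : Tendsto (fun p : ℕ × ℕ => ∫ s, D p s) atTop (𝓝 (∫ _s : Torus d', (0 : ℝ))) := by
    refine tendsto_integral_filter_of_dominated_convergence (fun _ => 2 * (U 0 + 2 * M)) ?_ ?_
      (integrable_const _) hlim
    · exact Eventually.of_forall fun p => (hFs p).integral_prod_left.aestronglyMeasurable
    · refine Eventually.of_forall fun p => ae_of_all _ fun s => ?_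
      rw [Real.norm_eq_abs, abs_of_nonneg (hD0 p s)]
      exact hbound p s
  simp only [integral_zero, hDint] at hlim2
  intro ε hε
  rw [Metric.tendsto_atTop] at hlim2
  obtain ⟨⟨N1, N2⟩, hN⟩ := hlim2 ε hε
  refine ⟨max N1 N2, fun k hk l hl => ?_⟩
  have h1 := hN (k, l) ⟨(le_max_left _ _).trans hk, (le_max_right _ _).trans hl⟩
  rw [Real.dist_eq, sub_zero] at h1
  exact lt_of_le_of_lt (le_abs_self _) h1

end Pool.Agent.Helper43.Outer
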