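import Pool.Agent.Helper43.Outer.Kernel

open MeasureTheory Set Filter Topology Complex Metric ENNReal InnerProductSpace

namespace Pool.Agent.Helper43.Outer

variable {d d' : ℕ}

theorem shL_mp (L : UnitAddCircle → Torus d) (hL : Continuous L) :
    MeasurePreserving (fun p : Torus d × UnitAddCircle => p.1 + L p.2)
      (volume.prod volume) volume := by
  have h1 : MeasurePreserving (fun p : UnitAddCircle × Torus d =>
      (p.1, p.2 + L p.1)) (volume.prod volume) (volume.prod volume) := by
    refine MeasurePreserving.skew_product (g := fun l (s : Torus d) => s + L l)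
      (MeasurePreserving.id volume) ?_ ?_
    · refine Continuous.measurable ?_
      exact continuous_snd.add (hL.comp continuous_fst)
    · refine ae_of_all _ fun l => ?_
      exact (measurePreserving_add_right (volume : Measure (Torus d)) (L l)).map_eq
  exact (measurePreserving_snd.comp h1).comp Measure.measurePreserving_swap

theorem scheffe {α : Type*} [MeasurableSpace α] {μ : Measure α} (f : ℕ → α → ℝ) (g : α → ℝ)
    (hf : ∀ k, Integrable (f k) μ) (hg : Integrable g μ) (hf0 : ∀ k x, 0 ≤ f k x)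
    (hg0 : ∀ x, 0 ≤ g x) (hae : ∀ᵐ x ∂μ, Tendsto (fun k => f k x) atTop (𝓝 (g x)))
    (hint : Tendsto (fun k => ∫ x, f k x ∂μ) atTop (𝓝 (∫ x, g x ∂μ))) :
    Tendsto (fun k => ∫ x, |f k x - g x| ∂μ) atTop (𝓝 0) := by
  have hmin : Tendsto (fun k => ∫ x, min (f k x) (g x) ∂μ) atTop (𝓝 (∫ x, g x ∂μ)) := by
    refine tendsto_integral_of_dominated_convergence g ?_ hg ?_ ?_
    · exact fun k => (hf k).aestronglyMeasurable.inf hg.aestronglyMeasurable
    · intro k
      refine ae_of_all _ fun x => ?_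
      rw [Real.norm_eq_abs, abs_of_nonneg (le_min (hf0 k x) (hg0 x))]
      exact min_le_right _ _
    · filter_upwards [hae] with x hx
      have := hx.min (tendsto_const_nhds (x := g x))
      rwa [min_self] at this
  have hi : ∀ k, Integrable (fun x => min (f k x) (g x)) μ := fun k => (hf k).inf hg
  have h1 : ∀ k, ∫ x, |f k x - g x| ∂μ =
      (∫ x, f k x ∂μ) + (∫ x, g x ∂μ) - 2 * ∫ x, min (f k x) (g x) ∂μ := by
    intro k
    have f1 := integral_sub ((hf k).add hg) ((hi k).const_mul 2)
    have f2 := integral_add (hf k) hg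
    simp only [Pi.add_apply] at f1 f2
    rw [← integral_const_mul, ← f2, ← f1]
    congr 1
    ext x
    rcases le_total (f k x) (g x) with h | h
    · rw [min_eq_left h, abs_of_nonpos (by linarith)]
      ring
    · rw [min_eq_right h, abs_of_nonneg (by linarith)]
      ring
  simp_rw [h1]
  have := (hint.add_const (∫ x, g x ∂μ)).sub (hmin.const_mul 2)
  convert this using 2
  ring

theorem mean_pk {κ : ℂ} (hκ : ‖κ‖ < 1) : ∫ s, pk (κ * e s) 0 = 1 := by
  have hlt : ∀ w : ℂ, ‖w‖ ≤ 1 → ‖κ * w‖ < 1 := by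
    intro w hw
    rw [norm_mul]
    nlinarith [norm_nonneg κ, norm_nonneg w]
  have h := poisson_harm (f := fun w => pk (κ * w) 0) (z := 0) (by
    intro w hw
    have hw' : ‖w‖ ≤ 1 := by simpa using hw
    have hne : e 0 - κ * w ≠ 0 := by
      intro h0
      have := sub_pos_of_lt (hlt w hw') 0
      rw [h0, norm_zero] at this
      exact lt_irrefl _ this
    have hre : (fun w => pk (κ * w) 0) = fun w => ((e 0 + κ * w) / (e 0 - κ * w)).re := by
      funext w
      rw [pk_re]
    rw [hre]
    refine AnalyticAt.harmonicAt_re (f := fun w => (e 0 + κ * w) / (e 0 - κ * w)) ?_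
    refine AnalyticAt.div ?_ ?_ hne
    · fun_prop
    · fun_prop) (by simp)
  have h0 : ∀ t, pk 0 t = 1 := by
    intro t
    simp [pk, norm_e]
  simp only [h0, one_mul, mul_zero] at h
  exact h

-- the holomorphic map behind the test function
noncomputable def Gt (i j : Fin d) (a b : ℂ) (z : Fin d → ℂ) : ℂ :=
  ((starRingEnd ℂ) a * z i) * ((1 + (starRingEnd ℂ) b * z j) / 2)

theorem Gt_diff (i j : Fin d) (a b : ℂ) : Differentiable ℂ (Gt i j a b) := by
  unfold Gt
  fun_prop

theorem half_le {b : ℂ} (hb : ‖b‖ ≤ 1) : ‖(1 + b) / 2‖ ≤ 1 := by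
  rw [norm_div]
  have := norm_add_le 1 b
  rw [norm_one] at this
  simp only [Complex.norm_ofNat]
  linarith

theorem Gt_lt {i j : Fin d} {a b : ℂ} (ha : ‖a‖ = 1) (hb : ‖b‖ = 1) {z : Fin d → ℂ}
    (hz : z ∈ polydisc d) : ‖Gt i j a b z‖ < 1 := by
  unfold Gt
  have h1 : ‖(1 + (starRingEnd ℂ) b * z j) / 2‖ ≤ 1 := by
    refine half_le ?_
    rw [norm_mul, RCLike.norm_conj, hb, one_mul]
    exact (hz j).le
  have h2 : ‖(starRingEnd ℂ) a * z i‖ < 1 := by
    rw [norm_mul, RCLike.norm_conj, ha, one_mul]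
    exact hz i
  rw [norm_mul]
  calc _ ≤ ‖(starRingEnd ℂ) a * z i‖ * 1 := by gcongr
    _ < 1 := by rwa [mul_one]

-- strict inequality for a point of the closed disc different from 1
theorem half_lt {b : ℂ} (hb : ‖b‖ = 1) (hb1 : b ≠ 1) : ‖(1 + b) / 2‖ < 1 := by
  have h1 : ‖1 + b‖ < 2 := by
    have h2 := norm_add_lt_of_not_sameRay (x := (1 : ℂ)) (y := b) (by
      intro h
      rw [sameRay_iff_of_norm_eq (by rw [norm_one, hb])] at h
      exact hb1 h.symm)
    rw [norm_one, hb] at h2
    linarith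
  rw [norm_div]
  simp only [Complex.norm_ofNat]
  linarith

-- the boundary function of the test function
noncomputable def ht (i j : Fin d) (a b : ℂ) (t : Torus d) : ℝ :=
  pk (Gt i j a b (fun l => e (t l))) 0

theorem Gt_lt_bd {i j : Fin d} {a b : ℂ} (ha : ‖a‖ = 1) (hb : ‖b‖ = 1) {t : Torus d}
    (ht : e (t j) ≠ b) : ‖Gt i j a b (fun l => e (t l))‖ < 1 := by
  unfold Gt
  rw [norm_mul, norm_mul, RCLike.norm_conj, ha, norm_e, one_mul, one_mul]
  refine half_lt ?_ ?_
  · rw [norm_mul, RCLike.norm_conj, hb, norm_e, one_mul]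
  · intro h
    apply ht
    have h1 : b * ((starRingEnd ℂ) b * e (t j)) = b := by rw [h, mul_one]
    rw [← mul_assoc, Complex.mul_conj, Complex.normSq_eq_norm_sq, hb] at h1
    simpa using h1

instance instNullSing : NullSingletonClass (volume : Measure UnitAddCircle) := by
  refine ⟨fun x => ?_⟩
  have h := AddCircle.volume_closedBall (T := 1) (x := x) 0
  simp only [mul_zero] at h
  rw [← Metric.closedBall_zero, h]
  simp

theorem ae_ne {d : ℕ} (j : Fin d) (b : ℂ) : ∀ᵐ t : Torus d, e (t j) ≠ b := by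
  by_cases h : ∃ x, e x = b
  · obtain ⟨x, hx⟩ := h
    have h1 : volume {t : Torus d | t j = x} = 0 := by
      rw [volume_pi]
      exact Measure.pi_hyperplane (α := fun _ : Fin d => UnitAddCircle) _ j x
    rw [ae_iff]
    refine measure_mono_null ?_ h1
    intro t ht
    simp only [mem_ofPred_eq, not_not] at ht
    exact e_inj (ht.trans hx.symm)
  · refine ae_of_all _ fun t ht => h ⟨_, ht⟩

theorem ht_meas (i j : Fin d) (a b : ℂ) : Measurable (ht i j a b) := by
  unfold ht pk
  have h1 : Continuous (fun t : Torus d => Gt i j a b (fun l => e (t l))) :=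
    (Gt_diff i j a b).continuous.comp
      (continuous_pi fun l => continuous_e.comp (continuous_apply l))
  exact (measurable_const.sub (h1.measurable.norm.pow_const 2)).div
    ((measurable_const.sub h1.measurable).norm.pow_const 2)

theorem ht_nonneg {i j : Fin d} {a b : ℂ} (ha : ‖a‖ = 1) (hb : ‖b‖ = 1) (t : Torus d) :
    0 ≤ ht i j a b t := by
  unfold ht
  by_cases h : e (t j) = b
  · have hle : ‖Gt i j a b (fun l => e (t l))‖ ≤ 1 := by
      unfold Gt
      rw [norm_mul, norm_mul, RCLike.norm_conj, ha, norm_e, one_mul, one_mul]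
      refine half_le ?_
      rw [norm_mul, RCLike.norm_conj, hb, norm_e, one_mul]
    unfold pk
    refine div_nonneg ?_ (sq_nonneg _)
    nlinarith [norm_nonneg (Gt i j a b (fun l => e (t l)))]
  · exact (pk_pos (Gt_lt_bd ha hb h) 0).le

theorem ht_lint {i j : Fin d} (hij : i ≠ j) {a b : ℂ} (ha : ‖a‖ = 1) (hb : ‖b‖ = 1) :
    ∫⁻ t, ENNReal.ofReal (ht i j a b t) = 1 := by
  set L : UnitAddCircle → Torus d := fun s => Pi.single i s with hL
  have hLc : Continuous L := by
    refine continuous_pi fun l => ?_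
    by_cases h : l = i
    · subst h
      have : (fun s => L s l) = id := by
        funext s
        simp [hL]
      rw [this]
      exact continuous_id
    · simpa [hL, h] using continuous_const
  have hmp := shL_mp L hLc
  have hmeas : Measurable (fun t : Torus d => ENNReal.ofReal (ht i j a b t)) :=
    (ht_meas i j a b).ennreal_ofReal
  have hcomp : Measurable (fun p : Torus d × UnitAddCircle =>
      ENNReal.ofReal (ht i j a b (p.1 + L p.2))) := hmeas.comp hmp.measurable
  rw [← hmp.lintegral_comp hmeas, lintegral_prod _ hcomp.aemeasurable]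
  have hinner : ∀ᵐ t : Torus d, ∫⁻ s, ENNReal.ofReal (ht i j a b (t + L s)) = 1 := by
    filter_upwards [ae_ne j b] with t ht1
    set κ := Gt i j a b (fun l => e (t l)) with hκ
    have hκ1 : ‖κ‖ < 1 := Gt_lt_bd ha hb ht1
    have heq : ∀ s, ht i j a b (t + L s) = pk (κ * e s) 0 := by
      intro s
      unfold ht
      congr 1
      rw [hκ]
      unfold Gt
      simp only [Pi.add_apply, hL, Pi.single_eq_same, Pi.single_eq_of_ne hij.symm, add_zero]
      rw [e_add]
      ring
    simp_rw [heq]
    have hc : Continuous (fun s => pk (κ * e s) 0) := by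
      unfold pk
      have hk : Continuous (fun s => κ * e s) := continuous_const.mul continuous_e
      refine Continuous.div (continuous_const.sub (hk.norm.pow 2))
        ((continuous_const.sub hk).norm.pow 2) ?_
      intro s
      have : ‖κ * e s‖ < 1 := by rwa [norm_mul, norm_e, mul_one]
      have := sub_pos_of_lt this 0
      positivity
    rw [← ofReal_integral_eq_lintegral_ofReal, mean_pk hκ1, ENNReal.ofReal_one]
    · exact hc.integrable_of_hasCompactSupport (HasCompactSupport.of_compactSpace _)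
    · refine ae_of_all _ fun s => (pk_pos ?_ 0).le
      rwa [norm_mul, norm_e, mul_one]
  rw [lintegral_congr_ae hinner]
  simp

theorem ht_int {i j : Fin d} (hij : i ≠ j) {a b : ℂ} (ha : ‖a‖ = 1) (hb : ‖b‖ = 1) :
    Integrable (ht i j a b) := by
  refine ⟨(ht_meas i j a b).aestronglyMeasurable, ?_⟩
  rw [hasFiniteIntegral_iff_ofReal (ae_of_all _ fun t => ht_nonneg ha hb t), ht_lint hij ha hb]
  exact ENNReal.one_lt_top

theorem ht_integral {i j : Fin d} (hij : i ≠ j) {a b : ℂ} (ha : ‖a‖ = 1) (hb : ‖b‖ = 1) :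
    ∫ t, ht i j a b t = 1 := by
  rw [integral_eq_lintegral_of_nonneg_ae (ae_of_all _ fun t => ht_nonneg ha hb t)
    (ht_meas i j a b).aestronglyMeasurable, ht_lint hij ha hb]
  simp

theorem ht_lim {i j : Fin d} (hij : i ≠ j) {a b : ℂ} (ha : ‖a‖ = 1) (hb : ‖b‖ = 1) :
    Tendsto (fun k => ∫ t, |pk (Gt i j a b (pt (rad k) t)) 0 - ht i j a b t|) atTop (𝓝 0) := by
  have hN : NHarm (fun z => pk (Gt i j a b z) 0) :=
    nharm_pk (Gt_diff i j a b).differentiableOn (fun z hz => Gt_lt ha hb hz) 0
  refine scheffe _ _ ?_ (ht_int hij ha hb) ?_ (fun t => ht_nonneg ha hb t) ?_ ?_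
  · exact fun k => cont_int (dil_cont hN.1 (rad_pos k).le (rad_lt k))
  · exact fun k t => (pk_pos (Gt_lt ha hb (pt_mem (rad_pos k).le (rad_lt k) t)) 0).le
  · filter_upwards [ae_ne j b] with t ht1
    have h1 : Tendsto (fun k => Gt i j a b (pt (rad k) t)) atTop
        (𝓝 (Gt i j a b (fun l => e (t l)))) := by
      refine ((Gt_diff i j a b).continuous.tendsto _).comp ?_
      rw [tendsto_pi_nhds]
      intro l
      have : Tendsto (fun k => (rad k : ℂ)) atTop (𝓝 (1 : ℝ)) :=
        (Complex.continuous_ofReal.tendsto 1).comp rad_lim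
      simpa [pt] using this.mul_const (e (t l))
    have h2 : ContinuousAt (fun z : ℂ => pk z 0) (Gt i j a b (fun l => e (t l))) := by
      unfold pk
      have := sub_pos_of_lt (Gt_lt_bd (i := i) ha hb ht1) 0
      refine ContinuousAt.div (by fun_prop) (by fun_prop) (by positivity)
    exact h2.tendsto.comp h1
  · have h1 : ∀ k, ∫ t : Torus d, pk (Gt i j a b (pt (rad k) t)) 0 = 1 := by
      intro k
      rw [mean_value hN (rad_pos k).le (rad_lt k)]
      simp [Gt, pk, e_zero]
    simp_rw [h1]
    rw [ht_integral hij ha hb]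
    exact tendsto_const_nhds

-- the outer test function
noncomputable def ft (i j : Fin d) (a b : ℂ) (z : Fin d → ℂ) : ℂ :=
  Complex.exp (-((1 + Gt i j a b z) / (1 - Gt i j a b z)))

theorem ft_norm (i j : Fin d) (a b : ℂ) (z : Fin d → ℂ) :
    ‖ft i j a b z‖ = Real.exp (-pk (Gt i j a b z) 0) := by
  unfold ft
  rw [Complex.norm_exp, pk_re, e_zero, neg_re]

theorem ft_log (i j : Fin d) (a b : ℂ) (z : Fin d → ℂ) :
    Real.log ‖ft i j a b z‖ = -pk (Gt i j a b z) 0 := by
  rw [ft_norm, Real.log_exp]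

theorem ft_diff {i j : Fin d} {a b : ℂ} (ha : ‖a‖ = 1) (hb : ‖b‖ = 1) :
    DifferentiableOn ℂ (ft i j a b) (polydisc d) := by
  unfold ft
  refine DifferentiableOn.cexp (DifferentiableOn.fun_neg ?_)
  simp_rw [div_eq_mul_inv]
  refine ((Gt_diff i j a b).differentiableOn.const_add 1).mul
    (DifferentiableOn.fun_inv ((Gt_diff i j a b).differentiableOn.const_sub 1) ?_)
  intro z hz h
  have h1 := sub_pos_of_lt (Gt_lt (i := i) (j := j) ha hb hz) 0
  rw [e_zero, h, norm_zero] at h1
  exact lt_irrefl _ h1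

theorem ft_outer (p : ℝ≥0∞) {i j : Fin d} (hij : i ≠ j) {a b : ℂ} (ha : ‖a‖ = 1)
    (hb : ‖b‖ = 1) : IsOuter p (ft i j a b) := by
  have hN : NHarm (fun z => pk (Gt i j a b z) 0) :=
    nharm_pk (Gt_diff i j a b).differentiableOn (fun z hz => Gt_lt ha hb hz) 0
  have hrad := radial_of_limit hN (ht_int hij ha hb) rad (fun k => (rad_pos k).le) rad_lt rad_lim
    (ht_lim hij ha hb)
  refine ⟨⟨ft_diff ha hb, ?_⟩, fun z _ => Complex.exp_ne_zero _,
    fun t => Real.exp (-ht i j a b t), ?_, ?_, ?_⟩
  · refine lt_of_le_of_lt (hNorm_le p (M := 1) fun z hz => ?_) ENNReal.ofReal_lt_top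
    rw [ft_norm]
    have := (pk_pos (Gt_lt (i := i) (j := j) ha hb hz) 0).le
    exact Real.exp_le_one_iff.2 (by linarith)
  · filter_upwards [hrad] with t ht1
    refine ⟨?_, Real.exp_pos _⟩
    simp_rw [ft_norm]
    exact (Real.continuous_exp.tendsto _).comp ht1.neg
  · simp_rw [Real.log_exp]
    exact (ht_int hij ha hb).neg
  · intro z hz
    rw [ft_log]
    simp_rw [Real.log_exp, mul_neg]
    rw [integral_neg, ← poisson_of_limit hN (ht_int hij ha hb) rad (fun k => (rad_pos k).le)
      rad_lt rad_lim (ht_lim hij ha hb) hz]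

end Pool.Agent.Helper43.Outer
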